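import Pool.Agent.H57.LT.Esym

/-!
Bounds for `ρ'` (note 3585, 3).
-/

namespace H57LT

open Finset H57LC

theorem eN_pos {w r m k : ℕ} (hm : 1 ≤ m) (hk : k ≤ w) : 0 < eN w r m k := by
  have hp : (0 : ℝ) < m := by exact_mod_cast hm
  unfold eN
  refine eS_pos' (fun i _ => ?_) (by rw [card_univ, Fintype.card_fin]; exact hk)
  split_ifs <;> positivity

/-- the part sizes -/
noncomputable def xN (w r m : ℕ) (i : Fin w) : ℝ := (m : ℝ) + (if i.val < r then 1 else 0)

lemma xN_pos {w r m : ℕ} (hm : 1 ≤ m) (i : Fin w) : 0 < xN w r m i := by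
  have hp : (0 : ℝ) < m := by exact_mod_cast hm
  unfold xN
  split_ifs <;> positivity

lemma xN_ge {w r m : ℕ} (i : Fin w) : (m : ℝ) ≤ xN w r m i := by
  unfold xN
  split_ifs <;> linarith

lemma xN_le {w r m : ℕ} (i : Fin w) : xN w r m i ≤ (m : ℝ) + 1 := by
  unfold xN
  split_ifs <;> linarith

/-- the weight of an `R`-subset -/
noncomputable def wN (w r m : ℕ) (T : Finset (Fin w)) : ℝ := ∏ t ∈ T, (xN w r m t)⁻¹

lemma wN_pos {w r m : ℕ} (hm : 1 ≤ m) (T : Finset (Fin w)) : 0 < wN w r m T :=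
  prod_pos fun t _ => inv_pos.2 (xN_pos hm t)

lemma sum_wN_pos {u R r m : ℕ} (hm : 1 ≤ m) :
    0 < ∑ T ∈ powersetCard R (univ : Finset (Fin (R + u))), wN (R + u) r m T := by
  refine sum_pos (fun T _ => wN_pos hm T) ?_
  rw [powersetCard_nonempty, card_univ, Fintype.card_fin]
  omega

lemma rho_mul {u R s r m : ℕ} (hm : 1 ≤ m) (hsR : s ≤ R) :
    rhoN u R s r m * ∑ T ∈ powersetCard R (univ : Finset (Fin (R + u))), wN (R + u) r m T =
      ∑ T ∈ powersetCard R (univ : Finset (Fin (R + u))), eS T (xN (R + u) r m) s * wN (R + u) r m T := by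
  have hc : (univ : Finset (Fin (R + u))).card = R + u := by rw [card_univ, Fintype.card_fin]
  have hx : ∀ k ∈ (univ : Finset (Fin (R + u))), 0 < xN (R + u) r m k := fun k _ => xN_pos hm k
  have h1 := sum_eS_sub (s := s) hc hsR hx
  have h2 := sum_inv_sub hc hx
  have h3 : 0 < eN (R + u) r m u := eN_pos hm (by omega)
  unfold wN
  rw [h1, h2]
  unfold rhoN
  have e1 : eS (univ : Finset (Fin (R + u))) (xN (R + u) r m) u = eN (R + u) r m u := rfl
  have e2 : eS (univ : Finset (Fin (R + u))) (xN (R + u) r m) (s + u) = eN (R + u) r m (s + u) := rfl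
  rw [e1, e2]
  field_simp

lemma eS_const_le {ι : Type*} {T : Finset ι} {R s : ℕ} (hT : T.card = R) {c : ℝ} (hc : 0 ≤ c) {x : ι → ℝ}
    (hx : ∀ t ∈ T, c ≤ x t) : (R.choose s : ℝ) * c ^ s ≤ eS T x s := by
  unfold eS
  have h1 : (R.choose s : ℝ) * c ^ s = ∑ _J ∈ powersetCard s T, c ^ s := by
    rw [sum_const, card_powersetCard, hT, nsmul_eq_mul]
  rw [h1]
  refine sum_le_sum fun J hJ => ?_
  have hJ' := mem_powersetCard.1 hJ
  calc c ^ s = ∏ _t ∈ J, c := by rw [prod_const, hJ'.2]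
    _ ≤ ∏ t ∈ J, x t := prod_le_prod (fun _ _ => hc) fun t ht => hx t (hJ'.1 ht)

lemma eS_le_const {ι : Type*} {T : Finset ι} {R s : ℕ} (hT : T.card = R) {c : ℝ} {x : ι → ℝ}
    (hx0 : ∀ t ∈ T, 0 ≤ x t) (hx : ∀ t ∈ T, x t ≤ c) : eS T x s ≤ (R.choose s : ℝ) * c ^ s := by
  unfold eS
  have h1 : (R.choose s : ℝ) * c ^ s = ∑ _J ∈ powersetCard s T, c ^ s := by
    rw [sum_const, card_powersetCard, hT, nsmul_eq_mul]
  rw [h1]
  refine sum_le_sum fun J hJ => ?_
  have hJ' := mem_powersetCard.1 hJ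
  calc ∏ t ∈ J, x t ≤ ∏ _t ∈ J, c := prod_le_prod (fun t ht => hx0 t (hJ'.1 ht)) fun t ht => hx t (hJ'.1 ht)
    _ = c ^ s := by rw [prod_const, hJ'.2]

theorem N0_le_rhoN {u R s r m : ℕ} (hm : 1 ≤ m) (hsR : s ≤ R) (hr : r ≤ R + u) :
    N0 R s m ≤ rhoN u R s r m := by
  have hW := sum_wN_pos (u := u) (R := R) (r := r) hm
  refine le_of_mul_le_mul_right ?_ hW
  rw [rho_mul hm hsR, mul_sum]
  refine sum_le_sum fun T hT => ?_
  refine mul_le_mul_of_nonneg_right ?_ (wN_pos hm T).le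
  exact eS_const_le (mem_powersetCard.1 hT).2 (Nat.cast_nonneg m) fun t _ => xN_ge t

/-- `∏ (m + ε) ≥ m^s + (∑ ε) m^(s-1)` -/
lemma prod_first {w r m : ℕ} (J : Finset (Fin w)) :
    (m : ℝ) ^ J.card + ((J.filter fun i => i.val < r).card : ℝ) * (m : ℝ) ^ (J.card - 1) ≤
      ∏ t ∈ J, xN w r m t := by
  classical
  have hp : (0 : ℝ) ≤ m := Nat.cast_nonneg m
  induction J using Finset.induction_on with
  | empty => simp
  | insert b J hb ih =>
    rw [prod_insert hb, card_insert_of_notMem hb, Nat.add_sub_cancel, filter_insert]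
    have h1 : (m : ℝ) ^ J.card ≤ ∏ t ∈ J, xN w r m t := by
      rw [← prod_const]
      exact prod_le_prod (fun _ _ => hp) fun t _ => xN_ge t
    have h2 : ((J.filter fun i => i.val < r).card : ℝ) * (m : ℝ) ^ (J.card) ≤
        (m : ℝ) * (((J.filter fun i => i.val < r).card : ℝ) * (m : ℝ) ^ (J.card - 1)) := by
      rcases Nat.eq_zero_or_pos J.card with h | h
      · have : (J.filter fun i => i.val < r).card = 0 := by
          have := card_filter_le J (fun i => i.val < r)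
          omega
        rw [this]
        simp
      · obtain ⟨n, hn⟩ : ∃ n, J.card = n + 1 := ⟨J.card - 1, by omega⟩
        rw [hn, Nat.add_sub_cancel, pow_succ]
        apply le_of_eq
        ring
    have h3 := mul_le_mul_of_nonneg_left ih hp
    by_cases hbr : b.val < r
    · rw [if_pos hbr, card_insert_of_notMem (fun h => hb (mem_filter.1 h).1)]
      have e : xN w r m b = (m : ℝ) + 1 := by
        unfold xN
        rw [if_pos hbr]
      rw [e, add_mul, one_mul]
      push_cast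
      have e2 : (m : ℝ) ^ (J.card + 1) = m * (m : ℝ) ^ J.card := by ring
      rw [e2]
      have e3 : (m : ℝ) * ((m : ℝ) ^ J.card + ((J.filter fun i => i.val < r).card : ℝ) * (m : ℝ) ^ (J.card - 1)) =
        (m : ℝ) * (m : ℝ) ^ J.card +
          (m : ℝ) * (((J.filter fun i => i.val < r).card : ℝ) * (m : ℝ) ^ (J.card - 1)) := by ring
      rw [e3] at h3
      have e4 : (((J.filter fun i => i.val < r).card : ℝ) + 1) * (m : ℝ) ^ J.card =
        ((J.filter fun i => i.val < r).card : ℝ) * (m : ℝ) ^ J.card + (m : ℝ) ^ J.card := by ring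
      rw [e4]
      linarith
    · rw [if_neg hbr]
      have e : xN w r m b = (m : ℝ) := by
        unfold xN
        rw [if_neg hbr, add_zero]
      rw [e]
      have e2 : (m : ℝ) ^ (J.card + 1) = m * (m : ℝ) ^ J.card := by ring
      rw [e2]
      have e3 : (m : ℝ) * ((m : ℝ) ^ J.card + ((J.filter fun i => i.val < r).card : ℝ) * (m : ℝ) ^ (J.card - 1)) =
        (m : ℝ) * (m : ℝ) ^ J.card +
          (m : ℝ) * (((J.filter fun i => i.val < r).card : ℝ) * (m : ℝ) ^ (J.card - 1)) := by ring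
      rw [e3] at h3
      linarith

/-- double counting -/
lemma sum_card_filter {ι : Type*} [DecidableEq ι] (T : Finset ι) (P : ι → Prop) [DecidablePred P] {R s : ℕ}
    (hT : T.card = R) (hs : 1 ≤ s) :
    ∑ J ∈ powersetCard s T, ((J.filter P).card : ℝ) = ((T.filter P).card : ℝ) * ((R - 1).choose (s - 1) : ℝ) := by
  have h1 : ∀ J ∈ powersetCard s T, ((J.filter P).card : ℝ) =
      ∑ i ∈ T.filter P, if i ∈ J then (1 : ℝ) else 0 := by
    intro J hJ
    rw [← sum_filter, sum_const, nsmul_eq_mul, mul_one]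
    congr 2
    ext i
    simp only [mem_filter]
    constructor
    · rintro ⟨h1, h2⟩
      exact ⟨⟨(mem_powersetCard.1 hJ).1 h1, h2⟩, h1⟩
    · rintro ⟨⟨-, h2⟩, h1⟩
      exact ⟨h1, h2⟩
  rw [sum_congr rfl h1, sum_comm]
  have h2 : ∀ i ∈ T.filter P, ∑ J ∈ powersetCard s T, (if i ∈ J then (1 : ℝ) else 0) =
      ((R - 1).choose (s - 1) : ℝ) := by
    intro i hi
    have hiT := (mem_filter.1 hi).1
    rw [← sum_filter, sum_const, nsmul_eq_mul, mul_one]
    congr 1
    have h3 : ((powersetCard s T).filter fun J => i ∈ J) =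
        (powersetCard (s - 1) (T.erase i)).image (insert i) := by
      ext J
      simp only [mem_filter, mem_powersetCard, mem_image]
      constructor
      · rintro ⟨⟨hJ, hc⟩, hi⟩
        refine ⟨J.erase i, ⟨erase_subset_erase _ hJ, ?_⟩, insert_erase hi⟩
        rw [card_erase_of_mem hi, hc]
      · rintro ⟨J', ⟨hJ', hc⟩, rfl⟩
        have hi : i ∉ J' := fun h => notMem_erase _ _ (hJ' h)
        refine ⟨⟨insert_subset hiT (hJ'.trans (erase_subset _ _)), ?_⟩, mem_insert_self _ _⟩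
        rw [card_insert_of_notMem hi, hc]
        omega
    rw [h3, card_image_of_injOn, card_powersetCard, card_erase_of_mem hiT, hT]
    intro J hJ J' hJ' h
    have h1 : i ∉ J := fun h => notMem_erase _ _ ((mem_powersetCard.1 hJ).1 h)
    have h2 : i ∉ J' := fun h => notMem_erase _ _ ((mem_powersetCard.1 hJ').1 h)
    rw [← erase_insert h1, ← erase_insert h2, h]
  rw [sum_congr rfl h2, sum_const, nsmul_eq_mul]

lemma N0_mul {R s m : ℕ} (hm : 1 ≤ m) (hs1 : 1 ≤ s) (hsR : s ≤ R) :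
    N0 R s m * ((s : ℝ) / (R * m)) = ((R - 1).choose (s - 1) : ℝ) * (m : ℝ) ^ (s - 1) := by
  have hp : (0 : ℝ) < m := by exact_mod_cast hm
  have hR : (0 : ℝ) < R := by exact_mod_cast (hs1.trans hsR)
  obtain ⟨a, rfl⟩ : ∃ a, s = a + 1 := ⟨s - 1, by omega⟩
  obtain ⟨b, rfl⟩ : ∃ b, R = b + 1 := ⟨R - 1, by omega⟩
  have h := Nat.add_one_mul_choose_eq b a
  have h' : ((b : ℝ) + 1) * (b.choose a : ℝ) = ((b + 1).choose (a + 1) : ℝ) * (a + 1) := by exact_mod_cast h
  unfold N0
  rw [Nat.add_sub_cancel, Nat.add_sub_cancel]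
  push_cast
  rw [mul_div_assoc', div_eq_iff (by positivity)]
  rw [pow_succ]
  linear_combination (-(m : ℝ) ^ a * m) * h'

/-- `e_s(x_T) ≥ N₀ (1 + (s/(R m)) j_T)` -/
lemma eS_first {w R s r m : ℕ} (hm : 1 ≤ m) (hs1 : 1 ≤ s) (hsR : s ≤ R) {T : Finset (Fin w)} (hT : T.card = R) :
    N0 R s m * (1 + (s : ℝ) / (R * m) * ((T.filter fun i => i.val < r).card : ℝ)) ≤ eS T (xN w r m) s := by
  have h1 : ∀ J ∈ powersetCard s T,
      (m : ℝ) ^ s + ((J.filter fun i => i.val < r).card : ℝ) * (m : ℝ) ^ (s - 1) ≤ ∏ t ∈ J, xN w r m t := by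
    intro J hJ
    have := prod_first (r := r) (m := m) J
    rwa [(mem_powersetCard.1 hJ).2] at this
  have h2 := sum_le_sum h1
  rw [sum_add_distrib, sum_const, card_powersetCard, hT, nsmul_eq_mul, ← sum_mul,
    sum_card_filter T (fun i => i.val < r) hT hs1] at h2
  refine le_trans (le_of_eq ?_) h2
  rw [mul_add, mul_one, ← mul_assoc, N0_mul hm hs1 hsR]
  unfold N0
  ring

lemma inv_pow_ge {x : ℝ} (hx : 0 ≤ x) (j : ℕ) : 1 - j * x ≤ ((1 + x)⁻¹) ^ j := by
  have h1 : (0 : ℝ) < 1 + x := by linarith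
  have h2 : -x ≤ (1 + x)⁻¹ - 1 := by
    have : 1 - x ≤ (1 + x)⁻¹ := by
      rw [← mul_le_mul_iff_left₀ h1, inv_mul_cancel₀ h1.ne']
      nlinarith [sq_nonneg x]
    linarith
  have h3 : (-2 : ℝ) ≤ (1 + x)⁻¹ - 1 := by
    have : 0 < (1 + x)⁻¹ := inv_pos.2 h1
    linarith
  have h4 := one_add_mul_le_pow h3 j
  have h5 : (1 : ℝ) + ((1 + x)⁻¹ - 1) = (1 + x)⁻¹ := by ring
  rw [h5] at h4
  have h6 : (j : ℝ) * (-x) ≤ j * ((1 + x)⁻¹ - 1) := mul_le_mul_of_nonneg_left h2 (Nat.cast_nonneg j)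
  linarith

theorem rhoN_ge {u R s r m : ℕ} (hm : 1 ≤ m) (hs1 : 1 ≤ s) (hsR : s ≤ R) (hr : r ≤ R + u) :
    N0 R s m * (1 + (s : ℝ) * r / (R + u) * (1 - R / m) / m) ≤ rhoN u R s r m := by
  have hp : (0 : ℝ) < m := by exact_mod_cast hm
  have hR1 : 1 ≤ R := hs1.trans hsR
  have hR : (0 : ℝ) < R := by exact_mod_cast hR1
  have hN0 : 0 ≤ N0 R s m := by unfold N0; positivity
  rcases le_or_gt 0 (1 - (R : ℝ) / m) with hc | hc
  · have hW := sum_wN_pos (u := u) (R := R) (r := r) hm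
    refine le_of_mul_le_mul_right ?_ hW
    rw [rho_mul hm hsR]
    set P := powersetCard R (univ : Finset (Fin (R + u))) with hP
    have hjT : ∀ T ∈ P, ((T.filter fun i => i.val < r).card : ℝ) ≤ R := by
      intro T hT
      have := card_filter_le T (fun i => i.val < r)
      rw [(mem_powersetCard.1 hT).2] at this
      exact_mod_cast this
    have hw : ∀ T ∈ P, wN (R + u) r m T =
        ((1 + 1 / (m : ℝ))⁻¹) ^ (T.filter fun i => i.val < r).card / (m : ℝ) ^ R := by
      intro T hT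
      have := prod_eq (r := r) hm T
      rw [(mem_powersetCard.1 hT).2] at this
      exact this
    have hx0 : (0 : ℝ) ≤ 1 / (m : ℝ) := by positivity
    -- upper bound of the total weight
    have hup : ∑ T ∈ P, wN (R + u) r m T ≤ ((R + u).choose R : ℝ) / (m : ℝ) ^ R := by
      have h1 : ∀ T ∈ P, wN (R + u) r m T ≤ 1 / (m : ℝ) ^ R := by
        intro T hT
        rw [hw T hT]
        refine div_le_div_of_nonneg_right ?_ (by positivity)
        refine pow_le_one₀ (by positivity) ?_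
        exact inv_le_one_of_one_le₀ (by linarith)
      refine (sum_le_sum h1).trans (le_of_eq ?_)
      rw [sum_const, hP, card_powersetCard, card_univ, Fintype.card_fin, nsmul_eq_mul, mul_one_div]
    -- lower bound of the first moment
    have hlow : (1 - (R : ℝ) / m) / (m : ℝ) ^ R * (r * ((R + u - 1).choose (R - 1) : ℝ)) ≤
        ∑ T ∈ P, ((T.filter fun i => i.val < r).card : ℝ) * wN (R + u) r m T := by
      rw [← sum_cap hR1 hr, mul_sum]
      refine sum_le_sum fun T hT => ?_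
      rw [mul_comm]
      refine mul_le_mul_of_nonneg_left ?_ (Nat.cast_nonneg _)
      rw [hw T hT]
      refine div_le_div_of_nonneg_right ?_ (by positivity)
      refine le_trans ?_ (inv_pow_ge hx0 _)
      have h1 := mul_le_mul_of_nonneg_right (hjT T hT) hx0
      have h2 : (R : ℝ) * (1 / m) = R / m := by ring
      linarith
    have hsum : N0 R s m * ∑ T ∈ P, wN (R + u) r m T + N0 R s m * ((s : ℝ) / (R * m)) *
        ∑ T ∈ P, ((T.filter fun i => i.val < r).card : ℝ) * wN (R + u) r m T ≤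
        ∑ T ∈ P, eS T (xN (R + u) r m) s * wN (R + u) r m T := by
      rw [mul_sum, mul_sum, ← sum_add_distrib]
      refine sum_le_sum fun T hT => ?_
      have := mul_le_mul_of_nonneg_right (eS_first (r := r) hm hs1 hsR (mem_powersetCard.1 hT).2)
        (wN_pos (r := r) hm T).le
      refine le_trans (le_of_eq ?_) this
      ring
    refine le_trans ?_ hsum
    rw [mul_add, mul_one, add_mul]
    refine add_le_add le_rfl ?_
    have hchoose : ((R : ℝ) + u) * ((R + u - 1).choose (R - 1) : ℝ) = ((R + u).choose R : ℝ) * R := by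
      obtain ⟨b, rfl⟩ : ∃ b, R = b + 1 := ⟨R - 1, by omega⟩
      have e : b + 1 + u - 1 = b + u := by omega
      have e' : b + 1 + u = (b + u) + 1 := by omega
      have h := Nat.add_one_mul_choose_eq (b + u) b
      rw [e, Nat.add_sub_cancel, e']
      have h' : (((b + u : ℕ) : ℝ) + 1) * ((b + u).choose b : ℝ) = ((b + u + 1).choose (b + 1) : ℝ) * (b + 1) := by
        exact_mod_cast h
      push_cast at h' ⊢
      linarith
    have hRu : (0 : ℝ) < (R : ℝ) + u := by positivity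
    have hcoef : 0 ≤ N0 R s m * ((s : ℝ) * r / (R + u) * (1 - R / m) / m) := by positivity
    have hcoef2 : 0 ≤ N0 R s m * ((s : ℝ) / (R * m)) := by positivity
    calc N0 R s m * ((s : ℝ) * r / (R + u) * (1 - R / m) / m) * ∑ T ∈ P, wN (R + u) r m T
        ≤ N0 R s m * ((s : ℝ) * r / (R + u) * (1 - R / m) / m) * (((R + u).choose R : ℝ) / (m : ℝ) ^ R) :=
          mul_le_mul_of_nonneg_left hup hcoef
      _ = N0 R s m * ((s : ℝ) / (R * m)) *
          ((1 - (R : ℝ) / m) / (m : ℝ) ^ R * (r * ((R + u - 1).choose (R - 1) : ℝ))) := by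
          have e1 : ((R + u).choose R : ℝ) = ((R : ℝ) + u) * ((R + u - 1).choose (R - 1) : ℝ) / R := by
            rw [hchoose]
            field_simp
          rw [e1]
          field_simp
      _ ≤ _ := mul_le_mul_of_nonneg_left hlow hcoef2
  · refine le_trans ?_ (N0_le_rhoN hm hsR hr)
    have h1 : (s : ℝ) * r / (R + u) * (1 - R / m) / m ≤ 0 := by
      have h2 : (0 : ℝ) ≤ (s : ℝ) * r / (R + u) := by positivity
      have h3 : (s : ℝ) * r / (R + u) * (1 - R / m) ≤ 0 := mul_nonpos_of_nonneg_of_nonpos h2 hc.le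
      exact div_nonpos_of_nonpos_of_nonneg h3 hp.le
    have := mul_le_mul_of_nonneg_left (by linarith : 1 + (s : ℝ) * r / (R + u) * (1 - R / m) / m ≤ 1) hN0
    linarith

theorem rhoN_le {u R s r m : ℕ} (hm : 1 ≤ m) (hsR : s ≤ R) (hr : r ≤ R + u) :
    rhoN u R s r m ≤ N0 R s m * (1 + 1 / (m : ℝ)) ^ s := by
  have hp : (0 : ℝ) < m := by exact_mod_cast hm
  have hW := sum_wN_pos (u := u) (R := R) (r := r) hm
  refine le_of_mul_le_mul_right ?_ hW
  rw [rho_mul hm hsR, mul_sum]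
  refine sum_le_sum fun T hT => ?_
  refine mul_le_mul_of_nonneg_right ?_ (wN_pos hm T).le
  have h1 := eS_le_const (s := s) (mem_powersetCard.1 hT).2 (fun t _ => (xN_pos (r := r) hm t).le)
    (fun t _ => xN_le (r := r) (m := m) t)
  refine h1.trans (le_of_eq ?_)
  unfold N0
  rw [mul_assoc, ← mul_pow]
  congr 2
  field_simp

/-- the tight case -/
theorem rho_tight {ι : Type*} [DecidableEq ι] {K : Finset ι} {u R s r m : ℕ}
    (hK : K.card = R + u) (hm : 1 ≤ m) (hsR : s ≤ R) (hr : r ≤ R + u) {g : ι → ℕ}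
    (hg : ∑ k ∈ K, g k = r) :
    ∑ T ∈ powersetCard R K, (eS T (fun t => (m : ℝ) + g t) s - rhoN u R s r m) *
      ∏ t ∈ T, ((m : ℝ) + g t)⁻¹ ≤ 0 := by
  have hp : (0 : ℝ) < m := by exact_mod_cast hm
  have hx : ∀ k ∈ K, 0 < (m : ℝ) + g k := fun k _ => by positivity
  have h1 := sum_eS_sub (s := s) hK hsR hx
  have h2 := sum_inv_sub hK hx
  have h3 : ∀ T ∈ powersetCard R K, (eS T (fun t => (m : ℝ) + g t) s - rhoN u R s r m) *
      ∏ t ∈ T, ((m : ℝ) + g t)⁻¹ = eS T (fun t => (m : ℝ) + g t) s * ∏ t ∈ T, ((m : ℝ) + g t)⁻¹ -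
        rhoN u R s r m * ∏ t ∈ T, ((m : ℝ) + g t)⁻¹ := fun T _ => by ring
  rw [sum_congr rfl h3, sum_sub_distrib, ← mul_sum, h1, h2]
  have h4 : 0 ≤ ∏ k ∈ K, ((m : ℝ) + g k)⁻¹ := prod_nonneg fun k hk => inv_nonneg.2 (hx k hk).le
  have h5 := ratio_le (t := s + u) (u := u) hK hm hr (by omega) (by omega) hg
  have h6 : 0 < eN (R + u) r m u := eN_pos hm (by omega)
  have h7 : ((s + u).choose u : ℝ) * eS K (fun k => (m : ℝ) + g k) (s + u) ≤
      rhoN u R s r m * eS K (fun k => (m : ℝ) + g k) u := by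
    unfold rhoN
    rw [div_mul_eq_mul_div, le_div_iff₀ h6]
    have := mul_le_mul_of_nonneg_left h5 (Nat.cast_nonneg (α := ℝ) ((s + u).choose u))
    linarith
  have h8 := mul_le_mul_of_nonneg_right h7 h4
  linarith

end H57LT
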