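import Pool.Agent.H57.LT.UpperT
import Pool.Agent.H57.LC.Lim

/-!
The limit for `K_t`, `t = s + u`.
-/

namespace H57LT

open Finset Filter Topology H57E32 H57LC

theorem kc_TG_eN {w m r : ℕ} (hw : 1 ≤ w) (hr : r < w) (k : ℕ) :
    (kc k (TG w m r) : ℝ) = eN w r m k := by
  rw [kc_TG hw hr]
  unfold eN eS
  push_cast
  rfl

/-- the Turan graph has `k`-cliques for all `k ≤ w` -/
theorem kc_TG_pos_le {w m r k : ℕ} (hm : 1 ≤ m) (hw : 1 ≤ w) (hr : r < w) (hk : k ≤ w) :
    0 < kc k (TG w m r) := by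
  rw [kc_TG hw hr]
  apply sum_pos
  · intro J _
    apply prod_pos
    intro j _
    omega
  · rw [powersetCard_nonempty, card_univ, Fintype.card_fin]
    exact hk

/-- translation of the upper bound -/
theorem upperT_kc {u R s r : ℕ} (hu : 1 ≤ u) (hs2 : 2 ≤ s) (hsR : s ≤ R) (hr : 1 ≤ r)
    (hrs : r + 1 ≤ s) (hcond : (s + 2 * u - 1) * r < (s - 1) * (R + u - 1)) :
    ∃ m₀ : ℕ, ∀ m : ℕ, m₀ ≤ m → ∀ (n : ℕ) (G : SimpleGraph (Fin n)),
      Allowed u (R * m + r) (R + u) G →
        ((s + u).choose u : ℝ) * (kc (s + u) G : ℝ) ≤ rhoN u R s r m * (kc u G : ℝ) := by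
  classical
  obtain ⟨m₀, hm₀⟩ := upperT u R s r hu hs2 hsR hr hrs hcond
  refine ⟨m₀, fun m hm n G hG => ?_⟩
  rw [allowed_iff] at hG
  rw [kc_eq_clq, kc_eq_clq]
  refine hm₀ m hm (Fin n) G ?_ ?_
  · intro U hU
    rw [mem_clq] at hU
    have h1 : G.IsNClique u U := by
      rw [SimpleGraph.isNClique_iff]
      exact ⟨fun a ha b hb hab => hU.2 a ha b hb hab, hU.1.2⟩
    have h2 := hG.1 U h1
    have h3 : (cns G U).ncard = (H57LC.cn G U).card := by
      rw [← Set.ncard_coe_finset]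
      congr 1
      ext v
      simp [cns, H57LC.mem_cn]
    rw [← h3]
    exact h2
  · rw [eq_empty_iff_forall_notMem]
    intro A hA
    rw [mem_clq] at hA
    refine hG.2 A ?_
    rw [SimpleGraph.isNClique_iff]
    exact ⟨fun a ha b hb hab => hA.2 a ha b hb hab, hA.1.2⟩

/-- the extremal function and its limit -/
theorem main_limT {u R s r : ℕ} (hu : 1 ≤ u) (hs2 : 2 ≤ s) (hsR : s ≤ R) (hr : 1 ≤ r)
    (hrs : r + 1 ≤ s) (hcond : (s + 2 * u - 1) * r < (s - 1) * (R + u - 1)) :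
    ∃ m₀ : ℕ, ∀ m : ℕ, m₀ ≤ m →
      (∀ p : ℕ, exK u (s + u) (R * m + r) (R + u) p * kc u (TG (R + u) m r) ≤
        p * kc (s + u) (TG (R + u) m r)) ∧
      (∀ q : ℕ, exK u (s + u) (R * m + r) (R + u) (q * kc u (TG (R + u) m r)) =
        q * kc (s + u) (TG (R + u) m r)) ∧
      Tendsto (fun p : ℕ => (exK u (s + u) (R * m + r) (R + u) p : ℝ) / p) atTop
        (𝓝 ((kc (s + u) (TG (R + u) m r) : ℝ) / kc u (TG (R + u) m r))) := by
  obtain ⟨m₀, hm₀⟩ := upperT_kc hu hs2 hsR hr hrs hcond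
  refine ⟨max m₀ 1, fun m hm => ?_⟩
  have hm1 : 1 ≤ m := le_trans (le_max_right _ _) hm
  have hr3 : r < R + u := by omega
  have hw : 1 ≤ R + u := by omega
  have hω : u ≤ R + u := by omega
  have htu : u < s + u := by omega
  have ha : 0 < kc u (TG (R + u) m r) := kc_TG_pos_le hm1 hw hr3 (by omega)
  have hal := TG_allowed (u := u) (R := R) (m := m) (r := r) hu hr3
  have hup : ∀ (n : ℕ) (G : SimpleGraph (Fin n)), Allowed u (R * m + r) (R + u) G →
      kc (s + u) G * kc u (TG (R + u) m r) ≤ kc u G * kc (s + u) (TG (R + u) m r) := by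
    intro n G hG
    have h := hm₀ m (le_trans (le_max_left _ _) hm) n G hG
    have hc : (0 : ℝ) < ((s + u).choose u : ℝ) := by
      exact_mod_cast Nat.choose_pos (by omega)
    have ha' : (0 : ℝ) < (kc u (TG (R + u) m r) : ℝ) := by exact_mod_cast ha
    have h1 : ((kc (s + u) G * kc u (TG (R + u) m r) : ℕ) : ℝ) ≤
        ((kc u G * kc (s + u) (TG (R + u) m r) : ℕ) : ℝ) := by
      push_cast
      have h2 : rhoN u R s r m = ((s + u).choose u : ℝ) * (kc (s + u) (TG (R + u) m r) : ℝ) /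
          (kc u (TG (R + u) m r) : ℝ) := by
        unfold rhoN
        rw [kc_TG_eN hw hr3, kc_TG_eN hw hr3]
      rw [h2, div_mul_eq_mul_div, le_div_iff₀ ha'] at h
      have h3 : ((s + u).choose u : ℝ) *
          ((kc (s + u) G : ℝ) * (kc u (TG (R + u) m r) : ℝ)) ≤
          ((s + u).choose u : ℝ) * ((kc u G : ℝ) * (kc (s + u) (TG (R + u) m r) : ℝ)) := by
        calc _ = ((s + u).choose u : ℝ) * (kc (s + u) G : ℝ) *
              (kc u (TG (R + u) m r) : ℝ) := by ring
          _ ≤ _ := h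
          _ = _ := by ring
      exact le_of_mul_le_mul_left h3 hc
    exact_mod_cast h1
  have hle : ∀ p : ℕ, exK u (s + u) (R * m + r) (R + u) p * kc u (TG (R + u) m r) ≤
      p * kc (s + u) (TG (R + u) m r) := by
    intro p
    obtain ⟨n, G, hG, hp, hN⟩ := exK_mem_of hu hω htu ha hup p
    have h := hup n G hG
    rw [hp, hN] at h
    exact h
  have hach := ach_of (u := u) (t := s + u) (Δ := R * m + r) (ω := R + u) _ hal
  refine ⟨hle, fun q => ?_, ?_⟩
  · apply le_antisymm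
    · have h := hle (q * kc u (TG (R + u) m r))
      have h1 : exK u (s + u) (R * m + r) (R + u) (q * kc u (TG (R + u) m r)) *
          kc u (TG (R + u) m r) ≤ (q * kc (s + u) (TG (R + u) m r)) * kc u (TG (R + u) m r) := by
        calc _ ≤ _ := h
          _ = _ := by ring
      exact Nat.le_of_mul_le_mul_right h1 ha
    · exact le_exK_of ha hup (hach.mul hu (by omega) q)
  · refine tendsto_of_bounds ha _ hle (fun p => ?_)
    exact le_exK_of ha hup (Ach.div hu hω htu hach p)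

end H57LT
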