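import Pool.Agent.H57.LT.Defs
import Pool.Agent.H57.LC.Tight

/-!
Theorem P for hypergraphs and the tightness lemma (note 3585, 1 and 2).
-/

namespace H57LT

open Finset H57LC

theorem bet_nonneg (A u j : ℕ) : 0 ≤ bet A u j := by
  unfold bet
  positivity

/-! ### the coefficients as products -/

/-- product form of the coefficients -/
private noncomputable def bp (A u k : ℕ) : ℝ :=
  ∏ i ∈ range k, ((A - i : ℕ) : ℝ) / ((A + u - i : ℕ) : ℝ)

private theorem bet_eq (A u j : ℕ) : bet A u j = bp A u (j - 1) := by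
  unfold bet bp
  rw [prod_div_distrib, ← Nat.cast_prod, ← Nat.cast_prod, ← Nat.descFactorial_eq_prod_range,
    ← Nat.descFactorial_eq_prod_range, Nat.descFactorial_eq_factorial_mul_choose,
    Nat.descFactorial_eq_factorial_mul_choose]
  push_cast
  rw [mul_div_mul_left]
  exact_mod_cast Nat.factorial_ne_zero _

private theorem fac_nonneg (A u i : ℕ) : 0 ≤ ((A - i : ℕ) : ℝ) / ((A + u - i : ℕ) : ℝ) := by
  positivity

private theorem fac_le_one (A u i : ℕ) : ((A - i : ℕ) : ℝ) / ((A + u - i : ℕ) : ℝ) ≤ 1 := by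
  refine div_le_one_of_le₀ ?_ (Nat.cast_nonneg _)
  exact_mod_cast (show A - i ≤ A + u - i by omega)

private theorem fac_mono (A A' u i : ℕ) (h : A ≤ A') :
    ((A - i : ℕ) : ℝ) / ((A + u - i : ℕ) : ℝ) ≤ ((A' - i : ℕ) : ℝ) / ((A' + u - i : ℕ) : ℝ) := by
  rcases Nat.lt_or_ge i A with hi | hi
  · have h1 : (0 : ℝ) < ((A + u - i : ℕ) : ℝ) := by exact_mod_cast (show 0 < A + u - i by omega)
    have h2 : (0 : ℝ) < ((A' + u - i : ℕ) : ℝ) := by exact_mod_cast (show 0 < A' + u - i by omega)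
    rw [div_le_div_iff₀ h1 h2]
    have h3 : (A - i) * (A' + u - i) ≤ (A' - i) * (A + u - i) := by
      obtain ⟨a, ha⟩ : ∃ a, A = i + a := ⟨A - i, by omega⟩
      obtain ⟨b, hb⟩ : ∃ b, A' = i + a + b := ⟨A' - A, by omega⟩
      have e1 : A - i = a := by omega
      have e2 : A' - i = a + b := by omega
      have e3 : A' + u - i = a + b + u := by omega
      have e4 : A + u - i = a + u := by omega
      rw [e1, e2, e3, e4]
      nlinarith [Nat.zero_le (b * u)]
    exact_mod_cast h3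
  · rw [show A - i = 0 by omega]
    rw [Nat.cast_zero, zero_div]
    exact fac_nonneg A' u i

private theorem bp_nonneg (A u k : ℕ) : 0 ≤ bp A u k := prod_nonneg fun _ _ => fac_nonneg _ _ _

private theorem bp_mono (A A' u k : ℕ) (h : A ≤ A') : bp A u k ≤ bp A' u k :=
  prod_le_prod (fun _ _ => fac_nonneg _ _ _) fun _ _ => fac_mono _ _ _ _ h

private theorem bp_succ (A u k : ℕ) : bp A u (k + 1) ≤ bp A u k := by
  unfold bp
  rw [prod_range_succ]
  exact mul_le_of_le_one_right (bp_nonneg A u k) (fac_le_one _ _ _)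

private theorem bp_anti (A u k l : ℕ) (h : k ≤ l) : bp A u l ≤ bp A u k := by
  induction l, h using Nat.le_induction with
  | base => exact le_rfl
  | succ l _ ih => exact (bp_succ A u l).trans ih

private theorem bp_zero (A u : ℕ) : bp A u 0 = 1 := by simp [bp]

private theorem bp_le_one (A u k : ℕ) : bp A u k ≤ 1 := by
  have := bp_anti A u 0 k (Nat.zero_le k)
  rwa [bp_zero] at this

private theorem bp_shift (A u k : ℕ) (hA : 1 ≤ A) :
    bp A u (k + 1) = ((A : ℝ) / ((A : ℝ) + u)) * bp (A - 1) u k := by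
  unfold bp
  rw [prod_range_succ', mul_comm]
  congr 1
  · rw [Nat.sub_zero, Nat.sub_zero]
    push_cast
    rfl
  · refine prod_congr rfl fun i _ => ?_
    rw [show A - (i + 1) = A - 1 - i by omega, show A + u - (i + 1) = A - 1 + u - i by omega]

private theorem bp_zero_A (u k : ℕ) (hk : 1 ≤ k) : bp 0 u k = 0 := by
  unfold bp
  refine prod_eq_zero (mem_range.2 hk) ?_
  simp

/-- the two deletions -/
private theorem bp_split (A u k : ℕ) (hA : 1 ≤ A) (hu : 1 ≤ u) :
    ((A : ℝ) + u) * bp A u k = A * bp (A - 1) u k + u * bp A (u - 1) k := by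
  have e : ∀ A u k : ℕ, bp A u k = (A.choose k : ℝ) / ((A + u).choose k : ℝ) := by
    intro A u k
    have := bet_eq A u (k + 1)
    rw [Nat.add_sub_cancel] at this
    rw [← this]
    unfold bet
    rw [Nat.add_sub_cancel]
  rw [e, e, e]
  rcases Nat.lt_or_ge A k with hk | hk
  · rw [Nat.choose_eq_zero_of_lt hk, Nat.choose_eq_zero_of_lt (show A - 1 < k by omega)]
    simp
  · obtain ⟨a, rfl⟩ : ∃ a, A = a + 1 := ⟨A - 1, by omega⟩
    obtain ⟨v, rfl⟩ : ∃ v, u = v + 1 := ⟨u - 1, by omega⟩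
    have h1 := Nat.choose_mul_succ_eq a k
    have h2 := Nat.choose_mul_succ_eq (a + 1 + v) k
    have h1' : (a.choose k : ℝ) * ((a : ℝ) + 1) = ((a + 1).choose k : ℝ) * ((a : ℝ) + 1 - k) := by
      have h3 : ((a.choose k * (a + 1) : ℕ) : ℝ) = (((a + 1).choose k * (a + 1 - k) : ℕ) : ℝ) := by
        rw [h1]
      rw [Nat.cast_mul, Nat.cast_mul, Nat.cast_sub hk] at h3
      push_cast at h3
      exact h3
    have h2' : ((a + 1 + v).choose k : ℝ) * ((a : ℝ) + 1 + v + 1) =
        ((a + 1 + v + 1).choose k : ℝ) * ((a : ℝ) + 1 + v + 1 - k) := by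
      have h3 : (((a + 1 + v).choose k * (a + 1 + v + 1) : ℕ) : ℝ) =
          (((a + 1 + v + 1).choose k * (a + 1 + v + 1 - k) : ℕ) : ℝ) := by
        rw [h2]
      rw [Nat.cast_mul, Nat.cast_mul, Nat.cast_sub (show k ≤ a + 1 + v + 1 by omega)] at h3
      push_cast at h3
      exact h3
    have h4 : (0 : ℝ) < ((a + 1 + v).choose k : ℝ) := by
      exact_mod_cast Nat.choose_pos (show k ≤ a + 1 + v by omega)
    have h5 : (0 : ℝ) < ((a + 1 + v + 1).choose k : ℝ) := by
      exact_mod_cast Nat.choose_pos (show k ≤ a + 1 + v + 1 by omega)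
    have e1 : a + 1 + (v + 1) = a + 1 + v + 1 := by ring
    have e2 : a + 1 - 1 + (v + 1) = a + 1 + v := by omega
    have e3 : a + 1 + (v + 1 - 1) = a + 1 + v := by omega
    rw [e1, e2, e3, Nat.add_sub_cancel]
    push_cast
    field_simp
    linear_combination (-((a + 1 + v + 1).choose k : ℝ)) * h1' +
      ((a + 1).choose k : ℝ) * h2'

/-- largest ratio for sets of two elements -/
private theorem bp_ratio (A Q u k : ℕ) (hA : 1 ≤ A) (hAQ : A ≤ Q) :
    ((A : ℝ) + u) * Q * bp A u (k + 1) ≤ A * ((Q : ℝ) + u) * bp Q u (k + 1) := by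
  rw [bp_shift A u k hA, bp_shift Q u k (hA.trans hAQ)]
  have h1 : (0 : ℝ) < A := by exact_mod_cast hA
  have h2 : (0 : ℝ) < Q := by exact_mod_cast (hA.trans hAQ)
  have h3 := bp_mono (A - 1) (Q - 1) u k (by omega)
  have h4 : (0 : ℝ) < (A : ℝ) + u := by positivity
  have h5 : (0 : ℝ) < (Q : ℝ) + u := by positivity
  have e1 : ((A : ℝ) + u) * Q * ((A : ℝ) / ((A : ℝ) + u) * bp (A - 1) u k) =
      (A * Q) * bp (A - 1) u k := by field_simp
  have e2 : (A : ℝ) * ((Q : ℝ) + u) * ((Q : ℝ) / ((Q : ℝ) + u) * bp (Q - 1) u k) =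
      (A * Q) * bp (Q - 1) u k := by field_simp
  rw [e1, e2]
  exact mul_le_mul_of_nonneg_left h3 (by positivity)

/-! ### averaging -/

private theorem sum_erase_swap {ι κ : Type*} [DecidableEq ι] (Z : Finset κ) (h : κ → Finset ι)
    (g : κ → ℝ) (T : Finset ι) :
    ∑ k ∈ T, ∑ z ∈ Z.filter (fun z => 2 ≤ (h z).card ∧ h z ⊆ T.erase k), g z =
      ∑ z ∈ Z.filter (fun z => 2 ≤ (h z).card ∧ h z ⊆ T), ((T.card : ℝ) - (h z).card) * g z := by
  have h1 : ∀ k ∈ T, ∑ z ∈ Z.filter (fun z => 2 ≤ (h z).card ∧ h z ⊆ T.erase k), g z =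
      ∑ z ∈ Z.filter (fun z => 2 ≤ (h z).card ∧ h z ⊆ T), if ¬ k ∈ h z then g z else 0 := by
    intro k _
    rw [← sum_filter, filter_filter]
    refine sum_congr (filter_congr fun z _ => ?_) fun _ _ => rfl
    rw [subset_erase]
    tauto
  rw [sum_congr rfl h1, sum_comm]
  refine sum_congr rfl fun z hz => ?_
  rw [mem_filter] at hz
  rw [← sum_filter, sum_const, nsmul_eq_mul]
  congr 1
  have h2 : T.filter (fun k => ¬ k ∈ h z) = T \ h z := by
    ext k
    simp
  rw [h2, cast_card_sdiff hz.2.2]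

private theorem e_erase {ι : Type*} [DecidableEq ι] (e : ι → ℤ) (V : Finset ι) (k : ι)
    (hk : k ∈ V) : ∑ i ∈ V.erase k, e i = ∑ i ∈ V, e i - e k := by
  rw [← Finset.add_sum_erase V e hk]
  ring

private theorem avg {ι κ : Type*} [DecidableEq ι] (Z : Finset κ) (h : κ → Finset ι) (V : Finset ι)
    (e : ι → ℤ) (r : ℤ) (R : ℕ) (hR : 1 ≤ R)
    (hc : ∀ T ⊆ V, T.card = R →
      (((Z.filter fun z => 2 ≤ (h z).card ∧ h z ⊆ T).card : ℕ) : ℤ) ≤ ∑ i ∈ T, e i + r) :
    ∀ m : ℕ, R ≤ m → ∀ T ⊆ V, T.card = m →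
      ∑ z ∈ Z.filter (fun z => 2 ≤ (h z).card ∧ h z ⊆ T), bp (R - 1) (m - R) ((h z).card - 1) ≤
        ((∑ i ∈ T, e i : ℤ) : ℝ) + (m : ℝ) / R * r := by
  intro m hm
  induction m, hm using Nat.le_induction with
  | base =>
    intro T hT hTc
    have h1 : ((Z.filter fun z => 2 ≤ (h z).card ∧ h z ⊆ T).card : ℝ) ≤
        ((∑ i ∈ T, e i + r : ℤ) : ℝ) := by exact_mod_cast hc T hT hTc
    have h2 : ∑ z ∈ Z.filter (fun z => 2 ≤ (h z).card ∧ h z ⊆ T),
        bp (R - 1) (R - R) ((h z).card - 1) ≤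
        ∑ _z ∈ Z.filter (fun z => 2 ≤ (h z).card ∧ h z ⊆ T), (1 : ℝ) :=
      sum_le_sum fun z _ => bp_le_one _ _ _
    rw [sum_const, nsmul_eq_mul, mul_one] at h2
    have h3 : (0 : ℝ) < R := by exact_mod_cast hR
    rw [div_self h3.ne', one_mul]
    push_cast at h1 ⊢
    linarith
  | succ m hm ih =>
    intro T hT hTc
    have hm0 : (0 : ℝ) < m := by exact_mod_cast (hR.trans hm)
    have hR0 : (0 : ℝ) < R := by exact_mod_cast hR
    have h1 : ∑ k ∈ T, ∑ z ∈ Z.filter (fun z => 2 ≤ (h z).card ∧ h z ⊆ T.erase k),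
        bp (R - 1) (m - R) ((h z).card - 1) ≤
        ∑ k ∈ T, (((∑ i ∈ T, e i : ℤ) : ℝ) - e k + (m : ℝ) / R * r) := by
      refine sum_le_sum fun k hk => ?_
      have h2 := ih (T.erase k) ((erase_subset k T).trans hT)
        (by rw [card_erase_of_mem hk, hTc]; omega)
      rw [e_erase e T k hk] at h2
      push_cast at h2 ⊢
      exact h2
    rw [sum_erase_swap, sum_add_distrib, sum_sub_distrib, sum_const, sum_const, hTc,
      nsmul_eq_mul, nsmul_eq_mul] at h1
    have h3 : ∑ z ∈ Z.filter (fun z => 2 ≤ (h z).card ∧ h z ⊆ T),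
        (((m + 1 : ℕ) : ℝ) - (h z).card) * bp (R - 1) (m - R) ((h z).card - 1) =
        (m : ℝ) * ∑ z ∈ Z.filter (fun z => 2 ≤ (h z).card ∧ h z ⊆ T),
          bp (R - 1) (m + 1 - R) ((h z).card - 1) := by
      rw [mul_sum]
      refine sum_congr rfl fun z hz => ?_
      rw [mem_filter] at hz
      have hzT : (h z).card ≤ m + 1 := by
        have := card_le_card hz.2.2
        omega
      obtain ⟨k, hk⟩ : ∃ k, (h z).card = k + 1 := ⟨(h z).card - 1, by omega⟩
      rw [hk, Nat.add_sub_cancel]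
      have e : ∀ A u k : ℕ, bp A u k = (A.choose k : ℝ) / ((A + u).choose k : ℝ) := by
        intro A u k
        have := bet_eq A u (k + 1)
        rw [Nat.add_sub_cancel] at this
        rw [← this]
        unfold bet
        rw [Nat.add_sub_cancel]
      rw [e, e, show R - 1 + (m - R) = m - 1 by omega, show R - 1 + (m + 1 - R) = m by omega]
      obtain ⟨l, hl⟩ : ∃ l, m = l + 1 := ⟨m - 1, by omega⟩
      rcases Nat.lt_or_ge l k with hlk | hlk
      · have h5 : (R - 1).choose k = 0 := Nat.choose_eq_zero_of_lt (by omega)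
        rw [h5]
        simp
      · have h6 := Nat.choose_mul_succ_eq l k
        have h6' : (l.choose k : ℝ) * ((l : ℝ) + 1) = ((l + 1).choose k : ℝ) * ((l : ℝ) + 1 - k) := by
          have h3 : ((l.choose k * (l + 1) : ℕ) : ℝ) = (((l + 1).choose k * (l + 1 - k) : ℕ) : ℝ) := by
            rw [h6]
          rw [Nat.cast_mul, Nat.cast_mul, Nat.cast_sub (show k ≤ l + 1 by omega)] at h3
          push_cast at h3
          exact h3
        have h7 : (0 : ℝ) < (l.choose k : ℝ) := by exact_mod_cast Nat.choose_pos hlk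
        have h8 : (0 : ℝ) < ((l + 1).choose k : ℝ) := by
          exact_mod_cast Nat.choose_pos (show k ≤ l + 1 by omega)
        rw [hl, Nat.add_sub_cancel]
        push_cast
        field_simp
        linear_combination (-((R - 1).choose k : ℝ)) * h6'
    rw [h3] at h1
    have h4 : (m : ℝ) * ∑ z ∈ Z.filter (fun z => 2 ≤ (h z).card ∧ h z ⊆ T),
          bp (R - 1) (m + 1 - R) ((h z).card - 1) ≤
        (m : ℝ) * (((∑ i ∈ T, e i : ℤ) : ℝ) + ((m + 1 : ℕ) : ℝ) / R * r) := by
      refine h1.trans (le_of_eq ?_)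
      push_cast
      field_simp
      ring
    exact le_of_mul_le_mul_left h4 hm0

/-! ### deletion of an element in `T` -/

section
variable {ι κ : Type*} [DecidableEq ι]

/-- the number of the sets `{i, k}` -/
private def Nk (Z : Finset κ) (h : κ → Finset ι) (k i : ι) : ℕ :=
  (Z.filter fun z => h z = {i, k}).card

private theorem Nk_sum (Z : Finset κ) (h : κ → Finset ι) (k : ι) (T : Finset ι) (hk : k ∉ T) :
    ∑ i ∈ T, Nk Z h k i = (Z.filter fun z => ∃ i ∈ T, h z = {i, k}).card := by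
  classical
  have h1 : (Z.filter fun z => ∃ i ∈ T, h z = {i, k}) =
      T.biUnion fun i => Z.filter fun z => h z = {i, k} := by
    ext z
    simp only [mem_filter, mem_biUnion]
    tauto
  rw [h1, card_biUnion]
  · rfl
  · intro i hi j hj hij
    show Disjoint (Z.filter fun z => h z = {i, k}) (Z.filter fun z => h z = {j, k})
    rw [disjoint_left]
    intro z hz hz'
    rw [mem_filter] at hz hz'
    have h2 : i ∈ ({j, k} : Finset ι) := by
      rw [← hz'.2, hz.2]
      exact mem_insert_self i _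
    rw [mem_insert, mem_singleton] at h2
    rcases h2 with h2 | h2
    · exact hij h2
    · rw [h2] at hi
      exact hk hi

private theorem small_eq {s : Finset ι} {k : ι} (h2 : 2 ≤ s.card) (h3 : (s.erase k).card < 2) :
    ∃ i, i ≠ k ∧ i ∈ s ∧ s = {i, k} := by
  have hks : k ∈ s := by
    by_contra hk
    rw [erase_eq_of_notMem hk] at h3
    omega
  rw [card_erase_of_mem hks] at h3
  have h4 : s.card = 2 := by omega
  have h5 : (s.erase k).card = 1 := by rw [card_erase_of_mem hks, h4]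
  obtain ⟨i, hi⟩ := card_eq_one.1 h5
  have h6 : i ∈ s.erase k := by rw [hi]; exact mem_singleton_self i
  refine ⟨i, ne_of_mem_erase h6, mem_of_mem_erase h6, ?_⟩
  rw [← insert_erase hks, hi]
  exact pair_comm k i

/-- the hypothesis for the deleted family -/
private theorem del_hyp (Z : Finset κ) (h : κ → Finset ι) (k : ι) (T : Finset ι) (hk : k ∉ T) :
    (Z.filter fun z => 2 ≤ ((h z).erase k).card ∧ (h z).erase k ⊆ T).card + ∑ i ∈ T, Nk Z h k i ≤
      (Z.filter fun z => 2 ≤ (h z).card ∧ h z ⊆ insert k T).card := by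
  classical
  rw [Nk_sum Z h k T hk, ← card_union_of_disjoint]
  · refine card_le_card fun z hz => ?_
    rw [mem_union, mem_filter, mem_filter] at hz
    rw [mem_filter]
    rcases hz with ⟨h1, h2, h3⟩ | ⟨h1, i, hi, h2⟩
    · refine ⟨h1, h2.trans (card_le_card (erase_subset _ _)), ?_⟩
      exact erase_subset_iff_of_mem (mem_insert_self k T) |>.1 (h3.trans (subset_insert k T))
    · have hik : i ≠ k := fun hh => hk (hh ▸ hi)
      refine ⟨h1, ?_, ?_⟩
      · rw [h2, card_pair hik]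
      · rw [h2]
        intro x hx
        rw [mem_insert, mem_singleton] at hx
        rcases hx with rfl | rfl
        · exact mem_insert_of_mem hi
        · exact mem_insert_self _ _
  · rw [disjoint_left]
    intro z hz hz'
    rw [mem_filter] at hz hz'
    obtain ⟨_, i, hi, h2⟩ := hz'
    have hik : i ≠ k := fun hh => hk (hh ▸ hi)
    have h3 := hz.2.1
    rw [h2] at h3
    have h4 : (({i, k} : Finset ι).erase k).card ≤ 1 := by
      rw [card_erase_of_mem (by simp), card_pair hik]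
    omega

/-- from the conclusion for the deleted family -/
private theorem del_concl (Z : Finset κ) (h : κ → Finset ι) (V : Finset ι) (k : ι) (A u : ℕ) :
    ∑ z ∈ Z.filter (fun z => 2 ≤ (h z).card ∧ h z ⊆ V), bp A u (((h z).erase k).card - 1) ≤
      ∑ z ∈ Z.filter (fun z => 2 ≤ ((h z).erase k).card ∧ (h z).erase k ⊆ V.erase k),
        bp A u (((h z).erase k).card - 1) + ((∑ i ∈ V.erase k, Nk Z h k i : ℕ) : ℝ) := by
  classical
  rw [← sum_filter_add_sum_filter_not (Z.filter (fun z => 2 ≤ (h z).card ∧ h z ⊆ V))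
    (fun z => 2 ≤ ((h z).erase k).card)]
  refine add_le_add ?_ ?_
  · refine sum_le_sum_of_subset_of_nonneg (fun z hz => ?_) fun z _ _ => bp_nonneg _ _ _
    rw [mem_filter, mem_filter] at hz
    rw [mem_filter]
    exact ⟨hz.1.1, hz.2, erase_subset_erase k hz.1.2.2⟩
  · rw [Nk_sum Z h k _ (notMem_erase k V)]
    have h1 : ∑ z ∈ (Z.filter (fun z => 2 ≤ (h z).card ∧ h z ⊆ V)).filter
        (fun z => ¬ 2 ≤ ((h z).erase k).card), bp A u (((h z).erase k).card - 1) ≤
        ∑ _z ∈ (Z.filter (fun z => 2 ≤ (h z).card ∧ h z ⊆ V)).filter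
        (fun z => ¬ 2 ≤ ((h z).erase k).card), (1 : ℝ) := sum_le_sum fun z _ => bp_le_one _ _ _
    rw [sum_const, nsmul_eq_mul, mul_one] at h1
    refine h1.trans ?_
    have h2 : ((Z.filter (fun z => 2 ≤ (h z).card ∧ h z ⊆ V)).filter
        (fun z => ¬ 2 ≤ ((h z).erase k).card)).card ≤
        (Z.filter fun z => ∃ i ∈ V.erase k, h z = {i, k}).card := by
      refine card_le_card fun z hz => ?_
      rw [mem_filter, mem_filter] at hz
      rw [mem_filter]
      obtain ⟨i, hi1, hi2, hi3⟩ := small_eq hz.1.2.1 (not_le.1 hz.2)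
      exact ⟨hz.1.1, i, mem_erase.2 ⟨hi1, hz.1.2.2 hi2⟩, hi3⟩
    exact_mod_cast h2

end

private theorem thmPH_aux {ι κ : Type*} [DecidableEq ι] (n : ℕ) : ∀ (V : Finset ι) (R u : ℕ) (r : ℤ)
    (e : ι → ℤ) (Z : Finset κ) (h : κ → Finset ι), V.card = n → n = R + u → 1 ≤ R →
    r ≤ (R : ℤ) - 1 →
    (∀ T ⊆ V, T.card = R →
      (((Z.filter fun z => 2 ≤ (h z).card ∧ h z ⊆ T).card : ℕ) : ℤ) ≤ ∑ i ∈ T, e i + r) →
    ∑ z ∈ Z.filter (fun z => 2 ≤ (h z).card ∧ h z ⊆ V),
      bp ((R : ℤ) - 1 - max r 0).toNat u ((h z).card - 1) ≤ (((∑ i ∈ V, e i + r : ℤ)) : ℝ) := by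
  induction n with
  | zero =>
    intro V R u r e Z h hV hn hR
    omega
  | succ n ih =>
    intro V R u r e Z h hV hn hR hr hc
    rcases Nat.eq_zero_or_pos u with hu | hu
    · -- u = 0
      subst hu
      have h1 : ((Z.filter fun z => 2 ≤ (h z).card ∧ h z ⊆ V).card : ℝ) ≤
        ((∑ i ∈ V, e i + r : ℤ) : ℝ) := by exact_mod_cast hc V (Finset.Subset.refl V) (by omega)
      refine le_trans ?_ h1
      have h2 : ∑ z ∈ Z.filter (fun z => 2 ≤ (h z).card ∧ h z ⊆ V),
          bp ((R : ℤ) - 1 - max r 0).toNat 0 ((h z).card - 1) ≤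
          ∑ _z ∈ Z.filter (fun z => 2 ≤ (h z).card ∧ h z ⊆ V), (1 : ℝ) :=
        sum_le_sum fun z _ => bp_le_one _ _ _
      rw [sum_const, nsmul_eq_mul, mul_one] at h2
      exact h2
    have hzero : ∀ A : ℕ, A = 0 → ∑ z ∈ Z.filter (fun z => 2 ≤ (h z).card ∧ h z ⊆ V),
        bp A u ((h z).card - 1) = 0 := by
      intro A hA
      subst hA
      refine sum_eq_zero fun z hz => ?_
      rw [mem_filter] at hz
      exact bp_zero_A u _ (by omega)
    rcases Nat.lt_or_ge R 2 with hR2 | hR2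
    · -- R = 1
      have hR1 : R = 1 := by omega
      subst hR1
      have hr0 : r ≤ 0 := by push_cast at hr; linarith
      rw [hzero _ (by rw [max_eq_right hr0]; simp)]
      have h1 : ∀ i ∈ V, -r ≤ e i := by
        intro i hi
        have h2 := hc {i} (by simpa using hi) (by simp)
        rw [sum_singleton] at h2
        have h3 : (0 : ℤ) ≤ (((Z.filter fun z => 2 ≤ (h z).card ∧ h z ⊆ {i}).card : ℕ) : ℤ) :=
          Int.natCast_nonneg _
        linarith
      have h2 : ∑ i ∈ V, (-r) ≤ ∑ i ∈ V, e i := Finset.sum_le_sum h1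
      rw [Finset.sum_const, nsmul_eq_mul, hV] at h2
      push_cast at h2
      have h3 : (0 : ℤ) ≤ ∑ i ∈ V, e i + r := by nlinarith
      exact_mod_cast h3
    have hav := avg Z h V e r R hR hc (R + u) (by omega) V (Finset.Subset.refl V) (by omega)
    rw [Nat.add_sub_cancel_left] at hav
    have hR0 : (0 : ℝ) < R := by exact_mod_cast (show 0 < R by omega)
    rcases le_or_gt r 0 with hr0 | hr0
    · -- r ≤ 0
      have e1 : ((R : ℤ) - 1 - max r 0).toNat = R - 1 := by
        rw [max_eq_right hr0]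
        omega
      rw [e1]
      refine hav.trans ?_
      push_cast
      have h2 : ((R : ℝ) + u) / R * r ≤ r := by
        have h3 : (1 : ℝ) ≤ ((R : ℝ) + u) / R := by
          rw [le_div_iff₀ hR0]
          have : (0 : ℝ) ≤ u := Nat.cast_nonneg u
          linarith
        have h4 : (r : ℝ) ≤ 0 := by exact_mod_cast hr0
        nlinarith
      linarith
    -- r ≥ 1
    rw [max_eq_left hr0.le]
    obtain ⟨A, hA⟩ : ∃ A : ℕ, (A : ℤ) = (R : ℤ) - 1 - r := ⟨((R : ℤ) - 1 - r).toNat, by omega⟩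
    have hAt : ((R : ℤ) - 1 - r).toNat = A := by omega
    rw [hAt]
    -- deletion in T
    have del : ∀ k ∈ V, r + e k ≤ (R : ℤ) - 2 →
        ∑ z ∈ Z.filter (fun z => 2 ≤ (h z).card ∧ h z ⊆ V),
          bp ((R : ℤ) - 2 - max (r + e k) 0).toNat u (((h z).erase k).card - 1) ≤
          (((∑ i ∈ V, e i + r : ℤ)) : ℝ) := by
      intro k hk hrk
      have key := ih (V.erase k) (R - 1) u (r + e k) (fun i => e i - (Nk Z h k i : ℤ)) Z
        (fun z => (h z).erase k)
        (by rw [Finset.card_erase_of_mem hk, hV]; rfl) (by omega) (by omega)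
        (by push_cast [Nat.cast_sub hR]; linarith) ?_
      · have h1 := del_concl Z h V k ((R : ℤ) - 2 - max (r + e k) 0).toNat u
        have e1 : (((R - 1 : ℕ) : ℤ) - 1 - max (r + e k) 0).toNat =
            ((R : ℤ) - 2 - max (r + e k) 0).toNat := by
          congr 1
          push_cast [Nat.cast_sub hR]
          ring
        rw [e1, sum_sub_distrib, e_erase e V k hk] at key
        refine h1.trans ?_
        push_cast at key ⊢
        linarith
      · intro T hT hTc
        have hkT : k ∉ T := fun hh => Finset.notMem_erase k V (hT hh)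
        have h1 := hc (insert k T) (Finset.insert_subset hk (hT.trans (Finset.erase_subset k V)))
          (by rw [Finset.card_insert_of_notMem hkT, hTc]; omega)
        have h2 := del_hyp Z h k T hkT
        rw [Finset.sum_insert hkT] at h1
        rw [Finset.sum_sub_distrib]
        have h3 : (((Z.filter fun z => 2 ≤ ((h z).erase k).card ∧ (h z).erase k ⊆ T).card : ℕ) : ℤ) +
            ∑ i ∈ T, (Nk Z h k i : ℤ) ≤
            (((Z.filter fun z => 2 ≤ (h z).card ∧ h z ⊆ insert k T).card : ℕ) : ℤ) := by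
          exact_mod_cast h2
        linarith
    have hcard : ∀ z k, ((h z).erase k).card - 1 ≤ (h z).card - 1 := by
      intro z k
      have := card_le_card (erase_subset k (h z))
      omega
    by_cases hneg : ∃ k ∈ V, e k < 0
    · obtain ⟨k, hk, hek⟩ := hneg
      refine le_trans (sum_le_sum fun z _ => ?_) (del k hk (by linarith))
      refine (bp_mono A ((R : ℤ) - 2 - max (r + e k) 0).toNat u _ ?_).trans
        (bp_anti _ _ _ _ (hcard z k))
      rcases le_total (r + e k) 0 with h2 | h2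
      · rw [max_eq_right h2]; omega
      · rw [max_eq_left h2]; omega
    push Not at hneg
    have heV : 0 ≤ ∑ i ∈ V, e i := Finset.sum_nonneg hneg
    rcases Nat.eq_zero_or_pos A with hA0 | hA0
    · rw [hzero A hA0]
      have : (0 : ℤ) ≤ ∑ i ∈ V, e i + r := by linarith
      exact_mod_cast this
    have hA0' : (0 : ℝ) < A := by exact_mod_cast hA0
    have hu0 : (0 : ℝ) < u := by exact_mod_cast hu
    by_cases hzer : ∃ k ∈ V, e k = 0
    · obtain ⟨k, hk, hek⟩ := hzer
      have h1 := del k hk (by rw [hek, add_zero]; omega)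
      have e1 : ((R : ℤ) - 2 - max (r + e k) 0).toNat = A - 1 := by
        rw [hek, add_zero, max_eq_left hr0.le]
        omega
      rw [e1] at h1
      have h2 := ih (V.erase k) R (u - 1) r e Z h
        (by rw [Finset.card_erase_of_mem hk, hV]; rfl) (by omega) hR hr
        (fun T hT hTc => hc T (hT.trans (Finset.erase_subset k V)) hTc)
      rw [max_eq_left hr0.le, hAt, e_erase e V k hk, hek, sub_zero] at h2
      set E : ℝ := (((∑ i ∈ V, e i + r : ℤ)) : ℝ) with hE
      have h3 : ∑ z ∈ Z.filter (fun z => 2 ≤ (h z).card ∧ h z ⊆ V.erase k),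
          bp A (u - 1) ((h z).card - 1) =
          ∑ z ∈ Z.filter (fun z => 2 ≤ (h z).card ∧ h z ⊆ V),
            if ¬ k ∈ h z then bp A (u - 1) ((h z).card - 1) else 0 := by
        rw [← sum_filter, filter_filter]
        refine sum_congr (filter_congr fun z _ => ?_) fun _ _ => rfl
        rw [subset_erase]
        tauto
      rw [h3] at h2
      have h4 : ((A : ℝ) + u) * ∑ z ∈ Z.filter (fun z => 2 ≤ (h z).card ∧ h z ⊆ V),
          bp A u ((h z).card - 1) =
          A * ∑ z ∈ Z.filter (fun z => 2 ≤ (h z).card ∧ h z ⊆ V),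
            bp (A - 1) u (((h z).erase k).card - 1) +
          u * ∑ z ∈ Z.filter (fun z => 2 ≤ (h z).card ∧ h z ⊆ V),
            if ¬ k ∈ h z then bp A (u - 1) ((h z).card - 1) else 0 := by
        rw [mul_sum, mul_sum, mul_sum, ← sum_add_distrib]
        refine sum_congr rfl fun z hz => ?_
        rw [mem_filter] at hz
        by_cases hkz : k ∈ h z
        · rw [if_neg (not_not.2 hkz), mul_zero, add_zero, card_erase_of_mem hkz]
          obtain ⟨j, hj⟩ : ∃ j, (h z).card = j + 2 := ⟨(h z).card - 2, by omega⟩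
          rw [hj, show j + 2 - 1 = j + 1 by omega, Nat.add_sub_cancel, bp_shift A u j hA0]
          field_simp
        · rw [if_pos hkz, erase_eq_of_notMem hkz]
          exact bp_split A u _ hA0 hu
      have h5 : ((A : ℝ) + u) * ∑ z ∈ Z.filter (fun z => 2 ≤ (h z).card ∧ h z ⊆ V),
          bp A u ((h z).card - 1) ≤ ((A : ℝ) + u) * E := by
        rw [h4]
        have h6 := mul_le_mul_of_nonneg_left h1 hA0'.le
        have h7 := mul_le_mul_of_nonneg_left h2 hu0.le
        linarith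
      exact le_of_mul_le_mul_left h5 (by linarith)
    push Not at hzer
    have hpos : ∀ i ∈ V, (1 : ℤ) ≤ e i := fun i hi => by
      have h1 := hneg i hi
      have h2 := hzer i hi
      omega
    have hsum : ((R : ℤ) + u) ≤ ∑ i ∈ V, e i := by
      have := Finset.sum_le_sum hpos
      rw [Finset.sum_const, nsmul_eq_mul, hV, hn] at this
      push_cast at this
      linarith
    -- average
    obtain ⟨s, hs⟩ : ∃ s : ℤ, s = ∑ i ∈ V, e i := ⟨_, rfl⟩
    rw [← hs] at hav hsum
    have hQ : ((R - 1 : ℕ) : ℝ) = (R : ℝ) - 1 := by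
      rw [Nat.cast_sub hR, Nat.cast_one]
    have hR2' : (2 : ℝ) ≤ R := by exact_mod_cast hR2
    have hsum' : (R : ℝ) + u ≤ s := by exact_mod_cast hsum
    have hr1 : (1 : ℝ) ≤ r := by exact_mod_cast hr0
    have hAr : (A : ℝ) = (R : ℝ) - 1 - r := by exact_mod_cast congrArg (Int.cast : ℤ → ℝ) hA
    have h1 : ((A : ℝ) + u) * ((R : ℝ) - 1) * ∑ z ∈ Z.filter (fun z => 2 ≤ (h z).card ∧ h z ⊆ V),
          bp A u ((h z).card - 1) ≤
        A * ((R : ℝ) - 1 + u) * ∑ z ∈ Z.filter (fun z => 2 ≤ (h z).card ∧ h z ⊆ V),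
          bp (R - 1) u ((h z).card - 1) := by
      rw [mul_sum, mul_sum]
      refine sum_le_sum fun z hz => ?_
      rw [mem_filter] at hz
      obtain ⟨j, hj⟩ : ∃ j, (h z).card = j + 2 := ⟨(h z).card - 2, by omega⟩
      rw [hj, show j + 2 - 1 = j + 1 by omega]
      have := bp_ratio A (R - 1) u j hA0 (by omega)
      rw [hQ] at this
      exact this
    have h2 : (A : ℝ) * ((R : ℝ) - 1 + u) * ∑ z ∈ Z.filter (fun z => 2 ≤ (h z).card ∧ h z ⊆ V),
          bp (R - 1) u ((h z).card - 1) ≤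
        A * ((R : ℝ) - 1 + u) * ((s : ℝ) + ((R + u : ℕ) : ℝ) / R * r) :=
      mul_le_mul_of_nonneg_left hav (mul_nonneg hA0'.le (by linarith))
    have h3 : (A : ℝ) * ((R : ℝ) - 1 + u) * ((s : ℝ) + ((R + u : ℕ) : ℝ) / R * r) ≤
        ((A : ℝ) + u) * ((R : ℝ) - 1) * (s + r) := by
      have hid : R * (((A : ℝ) + u) * ((R : ℝ) - 1) * (s + r)) -
          R * ((A : ℝ) * ((R : ℝ) - 1 + u) * ((s : ℝ) + ((R + u : ℕ) : ℝ) / R * r)) =
          R * u * r * (s - (R + u)) + u * r * (1 + r) * (2 * R + u - 1) := by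
        rw [hAr]
        push_cast
        field_simp
        ring
      have hnn : 0 ≤ (R : ℝ) * u * r * (s - (R + u)) + u * r * (1 + r) * (2 * R + u - 1) := by
        have a1 : 0 ≤ (R : ℝ) * u * r * (s - (R + u)) :=
          mul_nonneg (by positivity) (by linarith)
        have a2 : 0 ≤ (u : ℝ) * r * (1 + r) * (2 * R + u - 1) :=
          mul_nonneg (by positivity) (by linarith)
        linarith
      have h4 : R * ((A : ℝ) * ((R : ℝ) - 1 + u) * ((s : ℝ) + ((R + u : ℕ) : ℝ) / R * r)) ≤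
          R * (((A : ℝ) + u) * ((R : ℝ) - 1) * (s + r)) := by linarith
      exact le_of_mul_le_mul_left h4 hR0
    have h4 := h1.trans (h2.trans h3)
    rw [hs] at h4
    push_cast
    push_cast at h4
    exact le_of_mul_le_mul_left h4 (mul_pos (by linarith) (by linarith))

theorem thmPH {ι κ : Type*} [DecidableEq ι] (n : ℕ) : ∀ (V : Finset ι) (R u : ℕ) (r : ℤ)
    (e : ι → ℤ) (Z : Finset κ) (h : κ → Finset ι), V.card = n → n = R + u → 1 ≤ R →
    r ≤ (R : ℤ) - 1 →
    (∀ T ⊆ V, T.card = R →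
      (((Z.filter fun z => 2 ≤ (h z).card ∧ h z ⊆ T).card : ℕ) : ℤ) ≤ ∑ i ∈ T, e i + r) →
    ∑ z ∈ Z.filter (fun z => 2 ≤ (h z).card ∧ h z ⊆ V),
      bet ((R : ℤ) - 1 - max r 0).toNat u (h z).card ≤ (((∑ i ∈ V, e i + r : ℤ)) : ℝ) := by
  intro V R u r e Z h h1 h2 h3 h4 h5
  simp only [bet_eq]
  exact thmPH_aux n V R u r e Z h h1 h2 h3 h4 h5

/-- (T3') -/
theorem tight_three' {ι : Type*} [DecidableEq ι] {K : Finset ι} {R u : ℕ} {r : ℤ} {e : ι → ℤ}
    (hK : K.card = R + u) (hu : 1 ≤ u) (hr : r ≤ (R : ℤ) - 1)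
    (h : ∀ T ⊆ K, T.card = R → 0 ≤ ∑ i ∈ T, e i + r) (hE : ∑ i ∈ K, e i + r = 0)
    {S' : Finset ι} (hS : S' ⊆ K) (hR : S'.card ≤ R) {j : ℕ} (hj : 1 ≤ j)
    (hA : (S'.card : ℤ) ≤ R - 1 - r + j)
    (h2 : ∀ T ⊆ K, T.card = R → S' ⊆ T → (j : ℤ) ≤ ∑ i ∈ T, e i + r) : False := by
  have hnp := tight_nonpos hK hu hr h hE
  have hKS : (K \ S').card = R + u - S'.card := by rw [card_sdiff_of_subset hS, hK]
  have hcompl : ∀ I ⊆ K \ S', I.card = u → (K \ I).card = R ∧ S' ⊆ K \ I := by
    intro I hI hIc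
    have hIK : I ⊆ K := hI.trans sdiff_subset
    refine ⟨by rw [card_sdiff_of_subset hIK, hK, hIc]; omega, fun i hi => mem_sdiff.2 ⟨hS hi, fun h3 => ?_⟩⟩
    exact (mem_sdiff.1 (hI h3)).2 hi
  have hZ : ((K \ S').filter fun i => e i = 0).card ≤ u := by
    by_contra hcon
    push Not at hcon
    obtain ⟨I, hI, hIc⟩ := exists_subset_card_eq hcon.le
    have hI' : I ⊆ K \ S' := hI.trans (filter_subset _ _)
    obtain ⟨h3, h4⟩ := hcompl I hI' hIc
    have h5 := h2 (K \ I) sdiff_subset h3 h4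
    have h6 := sum_sdiff (f := e) (hI'.trans sdiff_subset)
    have h7 : ∑ i ∈ I, e i = 0 := sum_eq_zero fun i hi => (mem_filter.1 (hI hi)).2
    have h8 : (1 : ℤ) ≤ (j : ℤ) := by exact_mod_cast hj
    linarith
  obtain ⟨I, hZI, hI, hIc⟩ := exists_subsuperset_card_eq (filter_subset (fun i => e i = 0) (K \ S')) hZ (by omega)
  obtain ⟨h3, h4⟩ := hcompl I hI hIc
  have h5 := h2 (K \ I) sdiff_subset h3 h4
  have h6 := sum_sdiff (f := e) h4
  have h7 : ∑ i ∈ S', e i ≤ 0 := sum_nonpos fun i hi => hnp i (hS hi)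
  have h8 : ∑ i ∈ (K \ I) \ S', e i ≤ ∑ _i ∈ (K \ I) \ S', (-1 : ℤ) := by
    refine sum_le_sum fun i hi => ?_
    obtain ⟨h9, h10⟩ := mem_sdiff.1 hi
    obtain ⟨h11, h12⟩ := mem_sdiff.1 h9
    have h13 : e i ≠ 0 := fun h14 => h12 (hZI (mem_filter.2 ⟨mem_sdiff.2 ⟨h11, h10⟩, h14⟩))
    have h14 := hnp i h11
    omega
  rw [sum_const, card_sdiff_of_subset h4, h3, nsmul_eq_mul, Nat.cast_sub hR] at h8
  linarith

end H57LT
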