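import Pool.Agent.H57.LC.KGraph
import Pool.Agent.H57.LT.ThmPH

/-!
The rule and the costs of a `w`-clique `K` (note 3585, 2).
-/

namespace H57LT

open Finset H57LC

set_option linter.unusedSectionVars false

variable {V : Type*} [Fintype V] [DecidableEq V] {G : SimpleGraph V} [DecidableRel G.Adj]

lemma sum_cn_hs {K T : Finset V} (hT : T ⊆ K) (φ : ℕ → ℝ) :
    ∑ z ∈ cn G (K \ T), φ (hs G T z).card =
      ∑ z ∈ univ.filter (fun z => hs G K z ⊆ T), φ (hs G K z).card := by
  refine sum_congr ?_ fun z hz => ?_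
  · ext z
    rw [mem_cn_sdiff, mem_filter]
    exact ⟨fun h => ⟨mem_univ _, h⟩, fun h => h.2⟩
  · have h1 : z ∈ cn G (K \ T) := mem_cn_sdiff.2 (mem_filter.1 hz).2
    rw [hs_of_mem_cn hT h1]

/-- the rule holds for `ν` -/
theorem ruleA_nuK {u R r m : ℕ} (hu : 1 ≤ u) (hr : r + 1 ≤ R)
    (hdeg : ∀ U ∈ clq G univ u, (cn G U).card ≤ R * m + r)
    {U : Finset V} (hU : U ∈ clq G univ u) :
    RuleA G (cn G U) R (R - 1 - r) (fun T => nuK G (R + u) m r (U ∪ T)) := by
  refine ⟨fun T => ?_, ?_⟩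
  · unfold nuK
    dsimp only
    split_ifs <;> norm_num
  · intro T hT S' hS' hj hcard
    have hUm := mem_clq.1 hU
    have hTm := mem_clq.1 hT
    have hadj : ∀ t ∈ T, ∀ a ∈ U, G.Adj a t := fun t ht => mem_cn.1 (hTm.1.1 ht)
    have hdis : Disjoint U T := by
      rw [disjoint_left]
      intro a ha ha'
      exact G.loopless.irrefl a (hadj a ha' a ha)
    have hKc : (U ∪ T).card = R + u := by
      rw [card_union_of_disjoint hdis, hUm.1.2, hTm.1.2, add_comm]
    have hKcl : IsCl G (U ∪ T) := by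
      intro a ha b hb hab
      rcases mem_union.1 ha with h1 | h1 <;> rcases mem_union.1 hb with h2 | h2
      · exact hUm.2 a h1 b h2 hab
      · exact hadj b h2 a h1
      · exact (hadj a h1 b h2).symm
      · exact hTm.2 a h1 b h2 hab
    have hKT : (U ∪ T) \ T = U := by
      rw [union_sdiff_right]
      exact sdiff_eq_self_of_disjoint hdis
    by_contra hcon
    have hE : ∑ t ∈ U ∪ T, aK G (U ∪ T) t = (R + u) * m + r := by
      by_contra h
      refine hcon ?_
      simp only [nuK]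
      rw [if_neg h]
    have key : ∀ T₀ ⊆ U ∪ T, T₀.card = R →
        (∑ t ∈ T₀, aK G (U ∪ T) t) +
          (univ.filter fun z => 2 ≤ (hs G (U ∪ T) z).card ∧ hs G (U ∪ T) z ⊆ T₀).card ≤
            R * m + r := by
      intro T₀ hT₀ hc
      refine le_trans (sum_aK_hge hT₀) (hdeg _ (mem_clq.2 ⟨⟨subset_univ _, ?_⟩, ?_⟩))
      · rw [card_sdiff_of_subset hT₀, hKc, hc]
        omega
      · exact hKcl.subset sdiff_subset
    have hsum : ∀ T₀ : Finset V, (∑ t ∈ T₀, ((m : ℤ) - (aK G (U ∪ T) t : ℤ))) =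
        (T₀.card : ℤ) * m - ((∑ t ∈ T₀, aK G (U ∪ T) t : ℕ) : ℤ) := by
      intro T₀
      rw [sum_sub_distrib, sum_const, nsmul_eq_mul]
      push_cast
      rfl
    refine tight_three' (K := U ∪ T) (R := R) (u := u) (r := (r : ℤ))
      (e := fun t => (m : ℤ) - (aK G (U ∪ T) t : ℤ)) (S' := S')
      (j := ((cn G U).filter fun z => 2 ≤ (hs G T z).card ∧ hs G T z ⊆ S').card)
      hKc hu (by omega) ?_ ?_ (hS'.trans subset_union_right) ?_ hj ?_ ?_
    · intro T₀ hT₀ hc
      have h1 := key T₀ hT₀ hc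
      rw [hsum, hc]
      have h2 : ((∑ t ∈ T₀, aK G (U ∪ T) t : ℕ) : ℤ) ≤ ((R * m + r : ℕ) : ℤ) := by
        exact_mod_cast le_trans (Nat.le_add_right _ _) h1
      push_cast at h2 ⊢
      linarith
    · rw [hsum, hKc, hE]
      push_cast
      ring
    · rw [← hTm.1.2]
      exact card_le_card hS'
    · omega
    · intro T₀ hT₀ hc hS₀
      have h1 := key T₀ hT₀ hc
      have h3 : ((cn G U).filter fun z => 2 ≤ (hs G T z).card ∧ hs G T z ⊆ S').card ≤
          (univ.filter fun z => 2 ≤ (hs G (U ∪ T) z).card ∧ hs G (U ∪ T) z ⊆ T₀).card := by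
        refine card_le_card fun z hz => ?_
        rw [mem_filter] at hz ⊢
        have h4 : z ∈ cn G ((U ∪ T) \ T) := by rw [hKT]; exact hz.1
        rw [hs_of_mem_cn subset_union_right h4] at hz
        exact ⟨mem_univ _, hz.2.1, hz.2.2.trans hS₀⟩
      have h5 : ((cn G U).filter fun z => 2 ≤ (hs G T z).card ∧ hs G T z ⊆ S').card +
          ∑ t ∈ T₀, aK G (U ∪ T) t ≤ R * m + r := by
        omega
      rw [hsum, hc]
      have h6 : ((((cn G U).filter fun z => 2 ≤ (hs G T z).card ∧ hs G T z ⊆ S').card +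
          ∑ t ∈ T₀, aK G (U ∪ T) t : ℕ) : ℤ) ≤ ((R * m + r : ℕ) : ℤ) := by
        exact_mod_cast h5
      push_cast at h6 ⊢
      linarith

end H57LT
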