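import Pool.Agent.H57.LT.Defs

/-!
Elementary symmetric polynomials: Maclaurin, subset sums, smoothing (note 3585, 3).
-/

namespace H57LT

open Finset H57LC

/-- tangent line inequality -/
lemma tangent_le {x z : ℝ} (hx : 0 ≤ x) (hz : 0 ≤ z) (s : ℕ) :
    x ^ (s + 1) + (s + 1) * x ^ s * (z - x) ≤ z ^ (s + 1) := by
  induction s with
  | zero => simp
  | succ s ih =>
    have h1 := mul_le_mul_of_nonneg_left ih hz
    have h2 : 0 ≤ ((s : ℝ) + 1) * x ^ s * (z - x) ^ 2 := by positivity
    have e1 : z ^ (s + 1 + 1) = z * z ^ (s + 1) := by ring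
    rw [e1]
    refine le_trans ?_ h1
    push_cast
    have e2 : z * (x ^ (s + 1) + (s + 1) * x ^ s * (z - x)) =
        x ^ (s + 1 + 1) + ((s : ℝ) + 1 + 1) * x ^ (s + 1) * (z - x) +
          ((s : ℝ) + 1) * x ^ s * (z - x) ^ 2 := by ring
    rw [e2]
    linarith

lemma eS_empty_succ {ι : Type*} (a : ι → ℝ) (n : ℕ) : eS (∅ : Finset ι) a (n + 1) = 0 := by
  unfold eS
  rw [powersetCard_eq_empty.2 (by simp), sum_empty]

lemma maclaurin_aux {ι : Type*} [DecidableEq ι] (K : Finset ι) {a : ι → ℝ} :
    (∀ k ∈ K, 0 ≤ a k) → ∀ s : ℕ,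
      eS K a s ≤ (K.card.choose s : ℝ) * ((∑ k ∈ K, a k) / K.card) ^ s := by
  induction K using Finset.induction_on with
  | empty =>
    intro _ s
    cases s with
    | zero => simp [eS]
    | succ s => rw [eS_empty_succ]; simp
  | insert b K hb ih =>
    intro ha s
    have haK : ∀ k ∈ K, 0 ≤ a k := fun k hk => ha k (mem_insert_of_mem hk)
    have hab : 0 ≤ a b := ha b (mem_insert_self b K)
    cases s with
    | zero => simp [eS_zero]
    | succ s =>
      have i1 := ih haK (s + 1)
      have i2 := ih haK s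
      rw [eS_insert hb, card_insert_of_notMem hb, sum_insert hb]
      set R := K.card with hR
      set A := ∑ k ∈ K, a k with hA
      have hA0 : 0 ≤ A := sum_nonneg haK
      set x : ℝ := A / R with hx
      have hx0 : 0 ≤ x := div_nonneg hA0 (Nat.cast_nonneg _)
      have hRx : (R : ℝ) * x = A := by
        rcases Nat.eq_zero_or_pos R with h | h
        · have hK : K = ∅ := card_eq_zero.mp h
          have : A = 0 := by rw [hA, hK]; simp
          rw [h, this]; simp
        · rw [hx, mul_div_cancel₀ _ (by positivity)]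
      set z : ℝ := (a b + A) / ((R + 1 : ℕ) : ℝ) with hz
      have hR1 : (0 : ℝ) < ((R + 1 : ℕ) : ℝ) := by positivity
      have hz0 : 0 ≤ z := div_nonneg (add_nonneg hab hA0) hR1.le
      have hzx : a b - x = ((R : ℝ) + 1) * (z - x) := by
        rw [hz, mul_sub]
        push_cast
        rw [mul_div_cancel₀ _ (by positivity), ← hRx]
        ring
      have ht := tangent_le hx0 hz0 s
      have hc0 : (0 : ℝ) ≤ ((R + 1).choose (s + 1) : ℝ) := Nat.cast_nonneg _
      have hpas : ((R + 1).choose (s + 1) : ℝ) = (R.choose s : ℝ) + (R.choose (s + 1) : ℝ) := by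
        rw [Nat.choose_succ_succ]; push_cast; ring
      have hmul : ((R : ℝ) + 1) * (R.choose s : ℝ) = ((R + 1).choose (s + 1) : ℝ) * (s + 1) := by
        have := Nat.add_one_mul_choose_eq R s
        exact_mod_cast this
      calc eS K a (s + 1) + a b * eS K a s
          ≤ (R.choose (s + 1) : ℝ) * x ^ (s + 1) + a b * ((R.choose s : ℝ) * x ^ s) := by
            have := mul_le_mul_of_nonneg_left i2 hab
            linarith
        _ = ((R + 1).choose (s + 1) : ℝ) * (x ^ (s + 1) + (s + 1) * x ^ s * (z - x)) := by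
            have e1 : a b = x + ((R : ℝ) + 1) * (z - x) := by linarith
            rw [e1]
            linear_combination (-(x ^ (s + 1))) * hpas + (x ^ s * (z - x)) * hmul
        _ ≤ ((R + 1).choose (s + 1) : ℝ) * z ^ (s + 1) := mul_le_mul_of_nonneg_left ht hc0

/-- Maclaurin -/
theorem maclaurin {ι : Type*} [DecidableEq ι] {K : Finset ι} {R s : ℕ} (hK : K.card = R)
    (hR : 1 ≤ R) (hsR : s ≤ R) {a : ι → ℝ} (ha : ∀ k ∈ K, 0 ≤ a k) :
    eS K a s ≤ (R.choose s : ℝ) * ((∑ k ∈ K, a k) / R) ^ s := by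
  have := maclaurin_aux K ha s
  rwa [hK] at this

/-- sum over the `R`-subsets `T` of `e_s(a_T)/∏_T a` -/
theorem sum_eS_sub {ι : Type*} [DecidableEq ι] {K : Finset ι} {R s u : ℕ} (hK : K.card = R + u)
    (hsR : s ≤ R) {a : ι → ℝ} (ha : ∀ k ∈ K, 0 < a k) :
    ∑ T ∈ powersetCard R K, eS T a s * ∏ t ∈ T, (a t)⁻¹ =
      ((s + u).choose u : ℝ) * eS K a (s + u) * ∏ k ∈ K, (a k)⁻¹ := by
  have h1 : ∀ T ∈ powersetCard R K, eS T a s * ∏ t ∈ T, (a t)⁻¹ =
      (∑ J ∈ powersetCard s T, (∏ t ∈ J, a t) * ∏ t ∈ K \ T, a t) * ∏ k ∈ K, (a k)⁻¹ := by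
    intro T hT
    rw [mem_powersetCard] at hT
    have e : ∏ t ∈ T, (a t)⁻¹ = (∏ t ∈ K \ T, a t) * ∏ k ∈ K, (a k)⁻¹ := by
      rw [← prod_sdiff hT.1, ← mul_assoc, ← prod_mul_distrib]
      have : ∏ x ∈ K \ T, a x * (a x)⁻¹ = 1 := by
        refine prod_eq_one fun x hx => ?_
        exact mul_inv_cancel₀ (ha x (mem_sdiff.mp hx).1).ne'
      rw [this, one_mul]
    rw [e, eS, ← sum_mul]
    ring
  rw [sum_congr rfl h1, ← sum_mul]
  congr 1
  have h2 : ((s + u).choose u : ℝ) * eS K a (s + u) =
      ∑ W ∈ powersetCard (s + u) K, ∑ _U ∈ powersetCard u W, ∏ t ∈ W, a t := by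
    rw [eS, mul_sum]
    refine sum_congr rfl fun W hW => ?_
    rw [sum_const, card_powersetCard, (mem_powersetCard.mp hW).2, nsmul_eq_mul]
  rw [h2, sum_sigma', sum_sigma']
  refine sum_bij' (fun x _ => (⟨x.2 ∪ (K \ x.1), K \ x.1⟩ : Σ _ : Finset ι, Finset ι))
    (fun y _ => (⟨K \ y.2, y.1 \ y.2⟩ : Σ _ : Finset ι, Finset ι)) ?_ ?_ ?_ ?_ ?_
  · rintro ⟨T, J⟩ hx
    simp only [mem_sigma, mem_powersetCard] at hx ⊢
    obtain ⟨⟨hT, hTc⟩, hJ, hJc⟩ := hx
    have hdisj : Disjoint J (K \ T) := disjoint_of_subset_left hJ disjoint_sdiff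
    have hc : (K \ T).card = u := by
      rw [card_sdiff_of_subset hT]; omega
    refine ⟨⟨union_subset (hJ.trans hT) sdiff_subset, ?_⟩, subset_union_right, hc⟩
    rw [card_union_of_disjoint hdisj, hc, hJc]
  · rintro ⟨W, U⟩ hx
    simp only [mem_sigma, mem_powersetCard] at hx ⊢
    obtain ⟨⟨hW, hWc⟩, hU, hUc⟩ := hx
    refine ⟨⟨sdiff_subset, ?_⟩, sdiff_subset_sdiff hW subset_rfl, ?_⟩
    · rw [card_sdiff_of_subset (hU.trans hW)]; omega
    · rw [card_sdiff_of_subset hU]; omega
  · rintro ⟨T, J⟩ hx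
    simp only [mem_sigma, mem_powersetCard] at hx
    obtain ⟨⟨hT, hTc⟩, hJ, hJc⟩ := hx
    have hdisj : Disjoint J (K \ T) := disjoint_of_subset_left hJ disjoint_sdiff
    simp only
    rw [Finset.sdiff_sdiff_eq_self hT, union_sdiff_right, sdiff_eq_self_of_disjoint hdisj]
  · rintro ⟨W, U⟩ hx
    simp only [mem_sigma, mem_powersetCard] at hx
    obtain ⟨⟨hW, hWc⟩, hU, hUc⟩ := hx
    simp only
    rw [Finset.sdiff_sdiff_eq_self (hU.trans hW), sdiff_union_of_subset hU]
  · rintro ⟨T, J⟩ hx
    simp only [mem_sigma, mem_powersetCard] at hx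
    obtain ⟨⟨hT, hTc⟩, hJ, hJc⟩ := hx
    have hdisj : Disjoint J (K \ T) := disjoint_of_subset_left hJ disjoint_sdiff
    simp only
    rw [prod_union hdisj]

theorem sum_inv_sub {ι : Type*} [DecidableEq ι] {K : Finset ι} {R u : ℕ} (hK : K.card = R + u)
    {a : ι → ℝ} (ha : ∀ k ∈ K, 0 < a k) :
    ∑ T ∈ powersetCard R K, ∏ t ∈ T, (a t)⁻¹ = eS K a u * ∏ k ∈ K, (a k)⁻¹ := by
  have := sum_eS_sub (s := 0) hK (Nat.zero_le R) ha
  simpa [eS_zero] using this

/-- log-concavity -/
theorem eS_logconcave {ι : Type*} [DecidableEq ι] {K : Finset ι} {a : ι → ℝ}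
    (ha : ∀ k ∈ K, 0 < a k) {i j : ℕ} (hij : i ≤ j) :
    eS K a i * eS K a (j + 1) ≤ eS K a (i + 1) * eS K a j := by
  induction K using Finset.induction_on generalizing i j with
  | empty =>
    rw [eS_empty_succ a j, mul_zero]
    exact mul_nonneg (eS_nonneg (fun k hk => absurd hk (notMem_empty k)) _)
      (eS_nonneg (fun k hk => absurd hk (notMem_empty k)) _)
  | insert b K hb ih =>
    have haK : ∀ k ∈ K, 0 < a k := fun k hk => ha k (mem_insert_of_mem hk)
    have hab : 0 < a b := ha b (mem_insert_self b K)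
    have hn : ∀ n, 0 ≤ eS K a n := fun n => eS_nonneg (fun k hk => (haK k hk).le) n
    have IH : ∀ {i j : ℕ}, i ≤ j → eS K a i * eS K a (j + 1) ≤ eS K a (i + 1) * eS K a j :=
      fun h => ih haK h
    cases i with
    | zero =>
      cases j with
      | zero => rw [mul_comm]
      | succ j =>
        rw [eS_insert hb, eS_insert hb, eS_insert hb, eS_zero, eS_zero]
        have h1 := IH (i := 0) (j := j + 1) (Nat.zero_le _)
        rw [eS_zero, one_mul] at h1
        have h2 : 0 ≤ a b * (eS K a (0 + 1) * eS K a j) :=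
          mul_nonneg hab.le (mul_nonneg (hn _) (hn _))
        have h3 : 0 ≤ a b * a b * eS K a j := mul_nonneg (mul_pos hab hab).le (hn _)
        nlinarith
    | succ i =>
      cases j with
      | zero => omega
      | succ j =>
        rw [eS_insert hb, eS_insert hb, eS_insert hb, eS_insert hb]
        have h1 := IH (i := i + 1) (j := j + 1) (by omega)
        have h2 : eS K a i * eS K a (j + 1 + 1) ≤ eS K a (i + 1 + 1) * eS K a j := by
          rcases Nat.lt_or_ge i j with h | h
          · exact (IH (i := i) (j := j + 1) (by omega)).trans (IH (i := i + 1) (j := j) (by omega))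
          · have : i = j := by omega
            subst this
            rw [mul_comm]
        have h3 := IH (i := i) (j := j) (by omega)
        have h4 := mul_le_mul_of_nonneg_left h2 hab.le
        have h5 := mul_le_mul_of_nonneg_left h3 (mul_pos hab hab).le
        nlinarith

/-- the shifted sequence -/
noncomputable def eQ {ι : Type*} (K : Finset ι) (a : ι → ℝ) : ℕ → ℝ
  | 0 => 0
  | 1 => 0
  | n + 2 => eS K a n

lemma eQ_nonneg {ι : Type*} {K : Finset ι} {a : ι → ℝ} (ha : ∀ k ∈ K, 0 < a k) (n : ℕ) :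
    0 ≤ eQ K a n := by
  match n with
  | 0 => exact le_rfl
  | 1 => exact le_rfl
  | n + 2 => exact eS_nonneg (fun k hk => (ha k hk).le) n

lemma eQ_logconcave {ι : Type*} [DecidableEq ι] {K : Finset ι} {a : ι → ℝ}
    (ha : ∀ k ∈ K, 0 < a k) {i j : ℕ} (hij : i ≤ j) :
    eQ K a i * eQ K a (j + 1) ≤ eQ K a (i + 1) * eQ K a j := by
  match i, j, hij with
  | 0, j, _ =>
    show 0 * _ ≤ _
    rw [zero_mul]
    exact mul_nonneg (eQ_nonneg ha _) (eQ_nonneg ha _)
  | 1, j, _ =>
    show 0 * _ ≤ _
    rw [zero_mul]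
    exact mul_nonneg (eQ_nonneg ha _) (eQ_nonneg ha _)
  | i + 2, j + 2, h => exact eS_logconcave ha (by omega)

lemma eS_insert_two {ι : Type*} [DecidableEq ι] {K : Finset ι} {s t : ι} (hst : s ∉ insert t K)
    (ht : t ∉ K) (x : ι → ℝ) (n : ℕ) : eS (insert s (insert t K)) x n =
      eQ K x (n + 2) + (x s + x t) * eQ K x (n + 1) + x s * x t * eQ K x n := by
  match n with
  | 0 => simp [eS_zero, eQ]
  | 1 =>
    rw [eS_insert hst, eS_insert ht, eS_zero, eS_zero]
    simp only [eQ, eS_zero]
    ring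
  | n + 2 =>
    rw [eS_insert hst, eS_insert ht, eS_insert ht]
    simp only [eQ]
    ring

lemma eS_pos' {ι : Type*} {K : Finset ι} {a : ι → ℝ} (ha : ∀ k ∈ K, 0 < a k) {u : ℕ}
    (hu : u ≤ K.card) : 0 < eS K a u := by
  refine sum_pos (fun T hT => prod_pos fun t ht => ha t ((mem_powersetCard.1 hT).1 ht)) ?_
  rw [powersetCard_nonempty]
  exact hu

/-- all parts of size `m` or `m+1` -/
lemma eN_eq {ι : Type*} {K : Finset ι} {w r m : ℕ} (hK : K.card = w)
    {g : ι → ℕ} (hg : ∀ k ∈ K, g k ≤ 1) (hs : ∑ k ∈ K, g k = r) (n : ℕ) :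
    eS K (fun k => (m : ℝ) + g k) n = eN w r m n := by
  have hr : (K.filter fun k => g k = 1).card = r := by
    rw [card_filter, ← hs]
    refine sum_congr rfl fun k hk => ?_
    have := hg k hk
    interval_cases h : g k <;> simp
  have hrw : r ≤ w := by
    rw [← hr, ← hK]
    exact card_filter_le _ _
  have h1 : eS K (fun k => (m : ℝ) + g k) n =
      eS K (fun k => if g k = 1 then (m : ℝ) + 1 else (m : ℝ) + 0) n := by
    refine eS_congr (fun k hk => ?_) n
    have := hg k hk
    interval_cases h : g k <;> simp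
  have h2 : eN w r m n =
      eS (univ : Finset (Fin w)) (fun i => if i.val < r then (m : ℝ) + 1 else (m : ℝ) + 0) n := by
    unfold eN
    refine eS_congr (fun k hk => ?_) n
    split_ifs <;> rfl
  have hc1 : (univ.filter fun i : Fin w => i.val < r).card = r := by
    rw [Fin.card_filter_val_lt]
    omega
  have hc2 : (univ.filter fun i : Fin w => ¬ i.val < r).card = w - r := by
    have := card_filter_add_card_filter_not (s := (univ : Finset (Fin w)))
      (fun i : Fin w => i.val < r)
    rw [hc1, card_univ, Fintype.card_fin] at this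
    omega
  have hc3 : (K.filter fun k => ¬ g k = 1).card = w - r := by
    have := card_filter_add_card_filter_not (s := K) (fun k => g k = 1)
    rw [hr, hK] at this
    omega
  rw [h1, h2, eS_esymm, eS_esymm, map_two, map_two, hr, hc1, hc2, hc3]

/-- smoothing: `e_t/e_u` is largest for balanced part sizes -/
theorem ratio_le {ι : Type*} [DecidableEq ι] {K : Finset ι} {w t u r m : ℕ} (hK : K.card = w)
    (hm : 1 ≤ m) (hr : r ≤ w) (hut : u ≤ t) (htw : t ≤ w) {g : ι → ℕ} (hg : ∑ k ∈ K, g k = r) :
    eS K (fun k => (m : ℝ) + g k) t * eN w r m u ≤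
      eN w r m t * eS K (fun k => (m : ℝ) + g k) u := by
  rcases Nat.eq_or_lt_of_le hut with h | hlt
  · subst h
    rw [mul_comm]
  have hm' : (1 : ℝ) ≤ m := by exact_mod_cast hm
  induction hN : ∑ k ∈ K, g k ^ 2 using Nat.strong_induction_on generalizing g with
  | _ N ih =>
    by_cases hg1 : ∀ k ∈ K, g k ≤ 1
    · rw [eN_eq hK hg1 hg, eN_eq hK hg1 hg]
    · push Not at hg1
      obtain ⟨s, hsK, hs1⟩ := hg1
      have : ∃ q ∈ K, g q = 0 := by
        by_contra hcon
        push Not at hcon
        have h1 : ∑ k ∈ K, 1 < ∑ k ∈ K, g k :=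
          sum_lt_sum (fun k hk => Nat.one_le_iff_ne_zero.2 (hcon k hk)) ⟨s, hsK, hs1⟩
        rw [hg] at h1
        simp only [sum_const, smul_eq_mul, mul_one] at h1
        omega
      obtain ⟨q, hqK, hq0⟩ := this
      have hsq : s ≠ q := by
        rintro rfl
        omega
      set g' : ι → ℕ := Function.update (Function.update g s (g s - 1)) q 1 with hg'
      have e1 : g' s = g s - 1 := by
        rw [hg', Function.update_of_ne hsq, Function.update_self]
      have e2 : g' q = 1 := by rw [hg', Function.update_self]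
      have e3 : ∀ k, k ≠ s → k ≠ q → g' k = g k := fun k h1 h2 => by
        rw [hg', Function.update_of_ne h2, Function.update_of_ne h1]
      have hq' : q ∈ K.erase s := mem_erase.2 ⟨hsq.symm, hqK⟩
      have hsum : ∀ f : ι → ℕ, ∑ k ∈ K, f k = f s + (f q + ∑ k ∈ (K.erase s).erase q, f k) := by
        intro f
        rw [← add_sum_erase _ _ hsK, ← add_sum_erase _ _ hq']
      have hrest : ∀ F : ℕ → ℕ, ∑ k ∈ (K.erase s).erase q, F (g' k) =
          ∑ k ∈ (K.erase s).erase q, F (g k) := by
        intro F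
        refine sum_congr rfl fun k hk => ?_
        rw [mem_erase, mem_erase] at hk
        rw [e3 k hk.2.1 hk.1]
      have hs' : ∑ k ∈ K, g' k = r := by
        rw [← hg, hsum g', hsum g, e1, e2, hq0, hrest (fun n => n)]
        omega
      have hN' : ∑ k ∈ K, g' k ^ 2 < N := by
        rw [← hN, hsum (fun k => g' k ^ 2), hsum (fun k => g k ^ 2), hrest (fun n => n ^ 2), e1, e2,
          hq0]
        obtain ⟨c, hc⟩ : ∃ c, g s = c + 2 := ⟨g s - 2, by omega⟩
        rw [hc]
        have : c + 2 - 1 = c + 1 := by omega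
        rw [this]
        nlinarith
      have hIH := ih _ hN' hs' rfl
      -- comparison of `g` and `g'`
      set x : ι → ℝ := fun k => (m : ℝ) + g k with hx
      set x' : ι → ℝ := fun k => (m : ℝ) + g' k with hx'
      have hxpos : ∀ k ∈ K, 0 < x k := fun k _ => by simp only [hx]; positivity
      have hxpos' : ∀ k ∈ K, 0 < x' k := fun k _ => by simp only [hx']; positivity
      set K' := (K.erase s).erase q with hK'
      have hKe : K = insert s (insert q K') := by
        rw [hK', insert_erase hq', insert_erase hsK]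
      have hqK' : q ∉ K' := notMem_erase _ _
      have hsK' : s ∉ insert q K' := by
        rw [hK', insert_erase hq']
        exact notMem_erase _ _
      have hsub : K' ⊆ K := (erase_subset _ _).trans (erase_subset _ _)
      have hxK' : ∀ k ∈ K', 0 < x k := fun k hk => hxpos k (hsub hk)
      have hc : ∀ n, eQ K' x' n = eQ K' x n := by
        intro n
        match n with
        | 0 => rfl
        | 1 => rfl
        | n + 2 =>
          refine eS_congr (fun k hk => ?_) n
          have h1 : k ≠ s := by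
            rintro rfl
            exact hsK' (mem_insert_of_mem hk)
          have h2 : k ≠ q := by
            rintro rfl
            exact hqK' hk
          simp only [hx, hx', e3 k h1 h2]
      obtain ⟨c, hcs⟩ : ∃ c, g s = c + 2 := ⟨g s - 2, by omega⟩
      have hc0 : (0 : ℝ) ≤ c := Nat.cast_nonneg c
      have v1 : x s = m + c + 2 := by simp only [hx, hcs]; push_cast; ring
      have v2 : x q = m := by simp only [hx, hq0]; push_cast; ring
      have v3 : x' s = m + c + 1 := by
        simp only [hx', e1, hcs]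
        have : c + 2 - 1 = c + 1 := by omega
        rw [this]; push_cast; ring
      have v4 : x' q = m + 1 := by simp only [hx', e2]; push_cast; ring
      have hcomp : eS K x t * eS K x' u ≤ eS K x' t * eS K x u := by
        have f1 := eS_insert_two hsK' hqK' x
        have f2 := eS_insert_two hsK' hqK' x'
        rw [← hKe] at f1 f2
        rw [f1, f1, f2, f2, hc, hc, hc, hc, hc, hc, v1, v2, v3, v4]
        have l1 := eQ_logconcave hxK' (i := u) (j := t + 1) (by omega)
        have l2 := eQ_logconcave hxK' (i := u + 1) (j := t) (by omega)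
        have l3 := eQ_logconcave hxK' (i := u) (j := t) (by omega)
        have l4 : eQ K' x u * eQ K' x (t + 2) ≤ eQ K' x (u + 2) * eQ K' x t := l1.trans l2
        have hσ : (0 : ℝ) ≤ (m : ℝ) + c + 2 + m := by positivity
        have l5 := mul_le_mul_of_nonneg_left l3 hσ
        have hδ : (0 : ℝ) ≤ (c : ℝ) + 1 := by positivity
        have l6 : 0 ≤ ((c : ℝ) + 1) * ((eQ K' x (u + 2) * eQ K' x t - eQ K' x u * eQ K' x (t + 2)) +
            ((m : ℝ) + c + 2 + m) * (eQ K' x (u + 1) * eQ K' x t - eQ K' x u * eQ K' x (t + 1))) := by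
          refine mul_nonneg hδ ?_
          have : 0 ≤ ((m : ℝ) + c + 2 + m) *
              (eQ K' x (u + 1) * eQ K' x t - eQ K' x u * eQ K' x (t + 1)) :=
            mul_nonneg hσ (by linarith)
          linarith
        nlinarith [l6]
      have hu' : 0 < eS K x' u := eS_pos' hxpos' (by omega)
      have hNu : 0 ≤ eN w r m u := by
        unfold eN
        refine eS_nonneg (fun k _ => ?_) u
        positivity
      have hxu : 0 ≤ eS K x u := eS_nonneg (fun k hk => (hxpos k hk).le) u
      have h7 := mul_le_mul_of_nonneg_right hcomp hNu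
      have h8 := mul_le_mul_of_nonneg_right hIH hxu
      apply le_of_mul_le_mul_right _ hu'
      calc eS K x t * eN w r m u * eS K x' u = eS K x t * eS K x' u * eN w r m u := by ring
        _ ≤ eS K x' t * eS K x u * eN w r m u := h7
        _ = eS K x' t * eN w r m u * eS K x u := by ring
        _ ≤ eN w r m t * eS K x' u * eS K x u := h8
        _ = eN w r m t * eS K x u * eS K x' u := by ring

end H57LT
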