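import Pool.Agent.H57.LT.Defs

/-!
Moon-Moser inequality, upper bounds for clique numbers, stability (note 3585, 4a).
-/

namespace H57LT

open Finset H57LC

set_option linter.unusedSectionVars false

variable {V : Type*} [DecidableEq V] {G : SimpleGraph V} [DecidableRel G.Adj]

/-- the vertices of `S` adjacent to all of `P` -/
def nbq (G : SimpleGraph V) [DecidableRel G.Adj] (S P : Finset V) : Finset V :=
  S.filter fun y => ∀ t ∈ P, G.Adj y t

lemma mem_nbq {S P : Finset V} {y : V} : y ∈ nbq G S P ↔ y ∈ S ∧ ∀ t ∈ P, G.Adj y t := by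
  simp [nbq]

lemma nbq_notMem {S P : Finset V} {y : V} (h : y ∈ nbq G S P) : y ∉ P :=
  fun hy => G.loopless.irrefl y ((mem_nbq.1 h).2 y hy)

/-- double counting of the pairs (clique, vertex of the next clique) -/
lemma dc (S : Finset V) (k : ℕ) (g : Finset V → V → ℝ) :
    ∑ P ∈ clq G S k, ∑ y ∈ nbq G S P, g (insert y P) y =
      ∑ Q ∈ clq G S (k + 1), ∑ q ∈ Q, g Q q := by
  rw [Finset.sum_sigma', Finset.sum_sigma']
  refine Finset.sum_bij' (fun x _ => ⟨insert x.2 x.1, x.2⟩) (fun x _ => ⟨x.1.erase x.2, x.2⟩) ?_ ?_ ?_ ?_ ?_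
  · rintro ⟨P, y⟩ hx
    rw [mem_sigma] at hx ⊢
    obtain ⟨hP, hy⟩ := hx
    simp only at hP hy ⊢
    rw [mem_clq] at hP ⊢
    obtain ⟨⟨hPS, hPc⟩, hPcl⟩ := hP
    have hyn := nbq_notMem hy
    rw [mem_nbq] at hy
    refine ⟨⟨⟨insert_subset hy.1 hPS, ?_⟩, isCl_insert hPcl hy.2⟩, mem_insert_self _ _⟩
    rw [card_insert_of_notMem hyn, hPc]
  · rintro ⟨Q, q⟩ hx
    rw [mem_sigma] at hx ⊢
    obtain ⟨hQ, hq⟩ := hx
    simp only at hQ hq ⊢
    rw [mem_clq] at hQ ⊢
    obtain ⟨⟨hQS, hQc⟩, hQcl⟩ := hQ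
    refine ⟨⟨⟨(erase_subset _ _).trans hQS, ?_⟩, hQcl.subset (erase_subset _ _)⟩, ?_⟩
    · rw [card_erase_of_mem hq, hQc]
      rfl
    · rw [mem_nbq]
      refine ⟨hQS hq, fun t ht => ?_⟩
      rw [mem_erase] at ht
      exact hQcl q hq t ht.2 ht.1.symm
  · rintro ⟨P, y⟩ hx
    rw [mem_sigma] at hx
    have hyn : y ∉ P := nbq_notMem hx.2
    simp only [erase_insert hyn]
  · rintro ⟨Q, q⟩ hx
    rw [mem_sigma] at hx
    have hq : q ∈ Q := hx.2
    simp only [insert_erase hq]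
  · rintro ⟨P, y⟩ _
    rfl

lemma sum_nbq (S : Finset V) (k : ℕ) :
    ∑ P ∈ clq G S k, ((nbq G S P).card : ℝ) = ((k : ℝ) + 1) * ((clq G S (k + 1)).card : ℝ) := by
  have h := dc (G := G) S k (fun _ _ => (1 : ℝ))
  simp only [sum_const, nsmul_eq_mul, mul_one] at h
  rw [h, sum_congr rfl (g := fun _ => (k : ℝ) + 1), sum_const, nsmul_eq_mul, mul_comm]
  intro Q hQ
  rw [mem_clq] at hQ
  rw [hQ.1.2]
  push_cast
  ring

lemma sum_nbq_sq (S : Finset V) (k : ℕ) :
    ∑ P ∈ clq G S k, ((nbq G S P).card : ℝ) ^ 2 ≤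
      (S.card : ℝ) * ((clq G S (k + 1)).card : ℝ) +
        (k : ℝ) * (((k : ℝ) + 2) * ((clq G S (k + 2)).card : ℝ)) := by
  have h := dc (G := G) S k (fun Q q => ((nbq G S (Q.erase q)).card : ℝ))
  have h1 : ∑ P ∈ clq G S k, ((nbq G S P).card : ℝ) ^ 2 =
      ∑ P ∈ clq G S k, ∑ y ∈ nbq G S P, ((nbq G S ((insert y P).erase y)).card : ℝ) := by
    refine sum_congr rfl fun P _ => ?_
    rw [sum_congr rfl (g := fun _ => ((nbq G S P).card : ℝ)), sum_const, nsmul_eq_mul, pow_two]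
    intro y hy
    rw [erase_insert (nbq_notMem hy)]
  rw [h1, h]
  have h2 : ∀ Q ∈ clq G S (k + 1), ∑ q ∈ Q, ((nbq G S (Q.erase q)).card : ℝ) ≤
      (S.card : ℝ) + (k : ℝ) * ((nbq G S Q).card : ℝ) := by
    intro Q hQ
    rw [mem_clq] at hQ
    obtain ⟨⟨hQS, hQc⟩, hQcl⟩ := hQ
    have h3 : ∑ q ∈ Q, ((nbq G S (Q.erase q)).card : ℝ) =
        ∑ y ∈ S, ((Q.filter fun q => ∀ t ∈ Q.erase q, G.Adj y t).card : ℝ) := by
      have h4 : ∀ q ∈ Q, ((nbq G S (Q.erase q)).card : ℝ) =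
          ∑ y ∈ S, (if ∀ t ∈ Q.erase q, G.Adj y t then (1 : ℝ) else 0) := by
        intro q _
        rw [nbq, card_filter]
        push_cast
        rfl
      rw [sum_congr rfl h4, sum_comm]
      refine sum_congr rfl fun y _ => ?_
      rw [card_filter]
      push_cast
      rfl
    rw [h3]
    have h5 : ∀ y ∈ S, ((Q.filter fun q => ∀ t ∈ Q.erase q, G.Adj y t).card : ℝ) ≤
        1 + (k : ℝ) * (if ∀ t ∈ Q, G.Adj y t then (1 : ℝ) else 0) := by
      intro y _
      by_cases hy : ∀ t ∈ Q, G.Adj y t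
      · rw [if_pos hy, mul_one]
        have h6 : (Q.filter fun q => ∀ t ∈ Q.erase q, G.Adj y t).card ≤ Q.card :=
          card_le_card (filter_subset _ _)
        rw [hQc] at h6
        have h7 : ((Q.filter fun q => ∀ t ∈ Q.erase q, G.Adj y t).card : ℝ) ≤ ((k + 1 : ℕ) : ℝ) := by
          exact_mod_cast h6
        push_cast at h7
        linarith
      · rw [if_neg hy, mul_zero, add_zero]
        push Not at hy
        obtain ⟨t0, ht0, hyt0⟩ := hy
        have h6 : (Q.filter fun q => ∀ t ∈ Q.erase q, G.Adj y t) ⊆ {t0} := by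
          intro q hq
          rw [mem_filter] at hq
          rw [mem_singleton]
          by_contra hne
          exact hyt0 (hq.2 t0 (mem_erase.2 ⟨fun h => hne h.symm, ht0⟩))
        have h7 := card_le_card h6
        rw [card_singleton] at h7
        exact_mod_cast h7
    refine (sum_le_sum h5).trans (le_of_eq ?_)
    rw [sum_add_distrib, sum_const, nsmul_eq_mul, mul_one, ← mul_sum, nbq, card_filter]
    push_cast
    rfl
  refine (sum_le_sum h2).trans (le_of_eq ?_)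
  rw [sum_add_distrib, sum_const, nsmul_eq_mul, ← mul_sum, sum_nbq S (k + 1)]
  push_cast
  ring

/-- Moon-Moser -/
theorem moon_moser (S : Finset V) {j : ℕ} (hj : 1 ≤ j) :
    (j : ℝ) ^ 2 * ((clq G S j).card : ℝ) ^ 2 ≤
      ((clq G S (j - 1)).card : ℝ) * (S.card * ((clq G S j).card : ℝ) +
        ((j : ℝ) ^ 2 - 1) * ((clq G S (j + 1)).card : ℝ)) := by
  obtain ⟨k, rfl⟩ : ∃ k, j = k + 1 := ⟨j - 1, by omega⟩
  rw [Nat.add_sub_cancel]
  have h1 := sum_nbq (G := G) S k
  have h2 := sum_nbq_sq (G := G) S k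
  have h3 : (∑ P ∈ clq G S k, ((nbq G S P).card : ℝ)) ^ 2 ≤
      ((clq G S k).card : ℝ) * ∑ P ∈ clq G S k, ((nbq G S P).card : ℝ) ^ 2 :=
    sq_sum_le_card_mul_sum_sq
  rw [h1] at h3
  have h4 : ((clq G S k).card : ℝ) * ∑ P ∈ clq G S k, ((nbq G S P).card : ℝ) ^ 2 ≤
      ((clq G S k).card : ℝ) * ((S.card : ℝ) * ((clq G S (k + 1)).card : ℝ) +
        (k : ℝ) * (((k : ℝ) + 2) * ((clq G S (k + 2)).card : ℝ))) :=
    mul_le_mul_of_nonneg_left h2 (Nat.cast_nonneg _)
  have h5 := h3.trans h4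
  have h6 : (((k + 1 : ℕ) : ℝ) ^ 2 - 1) = (k : ℝ) * ((k : ℝ) + 2) := by
    push_cast
    ring
  rw [h6, ← mul_pow]
  push_cast
  refine h5.trans (le_of_eq ?_)
  ring

theorem clq_step {S : Finset V} {R : ℕ} (hfree : clq G S (R + 1) = ∅) {j : ℕ} (hj : 1 ≤ j)
    (hjR : j ≤ R) :
    (j : ℝ) * R * ((clq G S j).card : ℝ) ≤
      ((R : ℝ) - j + 1) * S.card * ((clq G S (j - 1)).card : ℝ) := by
  induction hjR using Nat.decreasingInduction with
  | self =>
    have h1 := moon_moser (G := G) S hj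
    rw [hfree, card_empty, Nat.cast_zero, mul_zero, add_zero] at h1
    rcases Nat.eq_zero_or_pos (clq G S R).card with h0 | h0
    · rw [h0, Nat.cast_zero, mul_zero]
      have h2 : (R : ℝ) - R + 1 = 1 := by ring
      rw [h2]
      positivity
    · have hx : (0 : ℝ) < ((clq G S R).card : ℝ) := by exact_mod_cast h0
      refine le_of_mul_le_mul_right ?_ hx
      calc (R : ℝ) * R * ((clq G S R).card : ℝ) * ((clq G S R).card : ℝ) =
          (R : ℝ) ^ 2 * ((clq G S R).card : ℝ) ^ 2 := by ring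
        _ ≤ _ := h1
        _ = _ := by ring
  | of_succ j hjlt ih =>
    have ih' := ih (by omega)
    rw [Nat.add_sub_cancel] at ih'
    have h1 := moon_moser (G := G) S hj
    obtain ⟨a, ha⟩ : ∃ a : ℝ, a = ((clq G S (j - 1)).card : ℝ) := ⟨_, rfl⟩
    obtain ⟨b, hb⟩ : ∃ b : ℝ, b = ((clq G S j).card : ℝ) := ⟨_, rfl⟩
    obtain ⟨c, hc⟩ : ∃ c : ℝ, c = ((clq G S (j + 1)).card : ℝ) := ⟨_, rfl⟩
    obtain ⟨n, hn⟩ : ∃ n : ℝ, n = (S.card : ℝ) := ⟨_, rfl⟩
    rw [← ha, ← hb, ← hc, ← hn] at h1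
    rw [← hb, ← hc, ← hn] at ih'
    rw [← ha, ← hb, ← hn]
    have ha0 : 0 ≤ a := by rw [ha]; exact Nat.cast_nonneg _
    have hb0 : 0 ≤ b := by rw [hb]; exact Nat.cast_nonneg _
    have hn0 : 0 ≤ n := by rw [hn]; exact Nat.cast_nonneg _
    have hR0 : (0 : ℝ) < R := by exact_mod_cast (by omega : 0 < R)
    have hj1 : (1 : ℝ) ≤ j := by exact_mod_cast hj
    have hjR : (j : ℝ) ≤ R := by exact_mod_cast hjlt.le
    push_cast at ih'
    have h2 : ((j : ℝ) - 1) * (((j : ℝ) + 1) * R * c) ≤ ((j : ℝ) - 1) * (((R : ℝ) - (j + 1) + 1) * n * b) :=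
      mul_le_mul_of_nonneg_left ih' (by linarith)
    have h3 : (R : ℝ) * ((j : ℝ) ^ 2 * b ^ 2) ≤ R * (a * (n * b + ((j : ℝ) ^ 2 - 1) * c)) :=
      mul_le_mul_of_nonneg_left h1 hR0.le
    have h4 : (R : ℝ) * (a * (n * b + ((j : ℝ) ^ 2 - 1) * c)) ≤
        a * (R * (n * b) + ((j : ℝ) - 1) * (((R : ℝ) - (j + 1) + 1) * n * b)) := by
      have h5 : (R : ℝ) * (a * (n * b + ((j : ℝ) ^ 2 - 1) * c)) =
          a * (R * (n * b) + ((j : ℝ) - 1) * (((j : ℝ) + 1) * R * c)) := by ring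
      rw [h5]
      exact mul_le_mul_of_nonneg_left (by linarith) ha0
    have h6 : (R : ℝ) * (n * b) + ((j : ℝ) - 1) * (((R : ℝ) - (j + 1) + 1) * n * b) =
        j * (((R : ℝ) - j + 1) * n) * b := by ring
    rw [h6] at h4
    rcases eq_or_lt_of_le hb0 with h0 | h0
    · rw [← h0, mul_zero]
      exact mul_nonneg (mul_nonneg (by linarith) hn0) ha0
    · have hx : 0 < (j : ℝ) * b := by positivity
      refine le_of_mul_le_mul_right ?_ hx
      calc (j : ℝ) * R * b * (j * b) = (R : ℝ) * ((j : ℝ) ^ 2 * b ^ 2) := by ring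
        _ ≤ _ := h3.trans h4
        _ = _ := by ring

theorem clq_le {S : Finset V} {R : ℕ} (hR : 1 ≤ R) (hfree : clq G S (R + 1) = ∅) {j : ℕ}
    (hjR : j ≤ R) :
    ((clq G S j).card : ℝ) ≤ (R.choose j : ℝ) * ((S.card : ℝ) / R) ^ j := by
  have hR0 : (0 : ℝ) < R := by exact_mod_cast hR
  induction j with
  | zero =>
    have h1 : (clq G S 0).card ≤ 1 := by
      refine (card_le_card (filter_subset _ _)).trans ?_
      rw [card_powersetCard, Nat.choose_zero_right]
    simp only [Nat.choose_zero_right, Nat.cast_one, pow_zero, mul_one]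
    exact_mod_cast h1
  | succ j ih =>
    have ih' := ih (by omega)
    have h1 := clq_step hfree (j := j + 1) (by omega) hjR
    rw [Nat.add_sub_cancel] at h1
    push_cast at h1
    have hjR' : (j : ℝ) + 1 ≤ R := by exact_mod_cast hjR
    have hn0 : (0 : ℝ) ≤ S.card := Nat.cast_nonneg _
    have h2 : ((R : ℝ) - (j + 1) + 1) * S.card * ((clq G S j).card : ℝ) ≤
        ((R : ℝ) - (j + 1) + 1) * S.card * ((R.choose j : ℝ) * ((S.card : ℝ) / R) ^ j) :=
      mul_le_mul_of_nonneg_left ih' (mul_nonneg (by linarith) hn0)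
    have h3 : ((R.choose (j + 1) : ℕ) : ℝ) * ((j : ℝ) + 1) = (R.choose j : ℝ) * ((R : ℝ) - j) := by
      have h4 := Nat.choose_succ_right_eq R j
      have h5 : (((R.choose (j + 1) * (j + 1) : ℕ)) : ℝ) = ((R.choose j * (R - j) : ℕ) : ℝ) := by
        exact_mod_cast h4
      rw [Nat.cast_mul, Nat.cast_mul, Nat.cast_sub (by omega)] at h5
      push_cast at h5
      exact h5
    have hx : (0 : ℝ) < ((j : ℝ) + 1) * R := by positivity
    refine le_of_mul_le_mul_left ?_ hx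
    refine (h1.trans h2).trans (le_of_eq ?_)
    have h6 : ((j : ℝ) + 1) * R * (((R.choose (j + 1) : ℕ) : ℝ) * ((S.card : ℝ) / R) ^ (j + 1)) =
        (((R.choose (j + 1) : ℕ) : ℝ) * ((j : ℝ) + 1)) * (((S.card : ℝ) / R) ^ j * (R * (S.card / R))) := by
      rw [pow_succ]
      ring
    rw [h6, h3, mul_div_cancel₀ _ hR0.ne']
    ring

/-- the induction for `clq_stab` -/
theorem clq_stab_aux (R s r : ℕ) (hs2 : 2 ≤ s) (hsR : s ≤ R) (C₁ : ℝ) (hC : 0 < C₁) (j : ℕ) (hsj : s ≤ j)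
    (hjR : j ≤ R) :
    ∃ c : ℝ, 0 < c ∧ ∀ m : ℕ, c < m →
      ∀ (V : Type) [DecidableEq V] (G : SimpleGraph V) [DecidableRel G.Adj] (S : Finset V),
        S.card ≤ R * m + r → clq G S (R + 1) = ∅ →
        N0 R s m * (1 - C₁ / m) < ((clq G S s).card : ℝ) →
        (R.choose j : ℝ) * (m : ℝ) ^ j * (1 - c / m) ≤ ((clq G S j).card : ℝ) ∧
        (1 - c / m) * ((R : ℝ) - j + 1) * m * ((clq G S (j - 1)).card : ℝ) ≤
          j * ((clq G S j).card : ℝ) := by
  induction j, hsj using Nat.le_induction with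
  | base =>
    have h2k : (0 : ℝ) < (2 : ℝ) ^ (s - 1) := by positivity
    refine ⟨2 ^ (s - 1) * r + C₁ + r, by positivity, fun m hm V _ G _ S hS hfree hN => ?_⟩
    set c : ℝ := 2 ^ (s - 1) * r + C₁ + r with hc
    have hr0 : (0 : ℝ) ≤ r := Nat.cast_nonneg _
    have hc0 : 0 < c := by rw [hc]; positivity
    have hm0 : (0 : ℝ) < m := hc0.trans hm
    have hR0 : (0 : ℝ) < R := by exact_mod_cast (by omega : 0 < R)
    have hR1 : (1 : ℝ) ≤ R := by exact_mod_cast (by omega : 1 ≤ R)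
    have hcC : C₁ ≤ c := by rw [hc]; nlinarith [mul_nonneg h2k.le hr0]
    have hrm : (r : ℝ) ≤ m := by
      have : (r : ℝ) ≤ c := by rw [hc]; nlinarith [mul_nonneg h2k.le hr0]
      linarith
    have hdiv : C₁ / m ≤ c / m := div_le_div_of_nonneg_right hcC hm0.le
    have hc1 : 0 < 1 - c / m := by
      have : c / m < 1 := (div_lt_one hm0).2 hm
      linarith
    constructor
    · refine le_trans ?_ hN.le
      unfold N0
      exact mul_le_mul_of_nonneg_left (by linarith) (by positivity)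
    · have h1 := clq_le (G := G) (S := S) (R := R) (by omega) hfree (j := s - 1) (by omega)
      -- n / R ≤ m (1 + r/m)
      have hnR : (S.card : ℝ) / R ≤ m * (1 + r / m) := by
        have h2 : (S.card : ℝ) ≤ R * m + r := by exact_mod_cast hS
        rw [div_le_iff₀ hR0]
        have h3 : (m : ℝ) * (1 + r / m) * R = m * R + r * R := by
          field_simp
        rw [h3]
        nlinarith [mul_nonneg hr0 (by linarith : (0 : ℝ) ≤ (R : ℝ) - 1)]
      have hpow : ((S.card : ℝ) / R) ^ (s - 1) ≤ (m : ℝ) ^ (s - 1) * (1 + 2 ^ (s - 1) * r / m) := by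
        calc ((S.card : ℝ) / R) ^ (s - 1) ≤ (m * (1 + r / m)) ^ (s - 1) :=
              pow_le_pow_left₀ (by positivity) hnR _
          _ = (m : ℝ) ^ (s - 1) * (1 + r / m) ^ (s - 1) := by rw [mul_pow]
          _ ≤ _ := by
              apply mul_le_mul_of_nonneg_left _ (by positivity)
              have hx0 : 0 ≤ (r : ℝ) / m := by positivity
              have hx1 : (r : ℝ) / m ≤ 1 := (div_le_one hm0).2 hrm
              have h4 : ∀ k : ℕ, (1 + (r : ℝ) / m) ^ k ≤ 1 + (2 ^ k - 1) * ((r : ℝ) / m) := by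
                intro k
                induction k with
                | zero => simp
                | succ k ih =>
                  have h5 : (1 : ℝ) ≤ 2 ^ k := one_le_pow₀ (by norm_num)
                  have h8 : (2 ^ k - 1) * ((r : ℝ) / m * (r / m)) ≤ (2 ^ k - 1) * ((r : ℝ) / m * 1) :=
                    mul_le_mul_of_nonneg_left (mul_le_mul_of_nonneg_left hx1 hx0) (by linarith)
                  calc (1 + (r : ℝ) / m) ^ (k + 1) = (1 + (r : ℝ) / m) ^ k * (1 + (r : ℝ) / m) := pow_succ _ _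
                    _ ≤ (1 + (2 ^ k - 1) * ((r : ℝ) / m)) * (1 + (r : ℝ) / m) :=
                        mul_le_mul_of_nonneg_right ih (by linarith)
                    _ = 1 + 2 ^ k * ((r : ℝ) / m) + (2 ^ k - 1) * ((r : ℝ) / m * (r / m)) := by ring
                    _ ≤ 1 + 2 ^ k * ((r : ℝ) / m) + (2 ^ k - 1) * ((r : ℝ) / m * 1) := by linarith
                    _ = _ := by ring
              have h6 := h4 (s - 1)
              have h7 : (2 : ℝ) ^ (s - 1) * r / m = 2 ^ (s - 1) * (r / m) := by ring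
              rw [h7]
              linarith
      have hE : (0 : ℝ) ≤ 2 ^ (s - 1) * r := by positivity
      obtain ⟨E, hEe⟩ : ∃ E : ℝ, E = 2 ^ (s - 1) * r := ⟨_, rfl⟩
      rw [← hEe] at hpow hE
      have hcE : C₁ + E ≤ c := by rw [hc, ← hEe]; linarith
      have hsR' : (s : ℝ) ≤ R := by exact_mod_cast hsR
      have h9 : (1 - c / m) * (1 + E / m) ≤ 1 - C₁ / m := by
        have h10 : (C₁ + E) / m ≤ c / m := div_le_div_of_nonneg_right hcE hm0.le
        have h11 : (C₁ + E) / m = C₁ / m + E / m := by ring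
        have h12 : 0 ≤ c / m * (E / m) := by positivity
        have h13 : (1 - c / m) * (1 + E / m) = 1 - c / m + E / m - c / m * (E / m) := by ring
        linarith
      have h14 : ((R.choose s : ℕ) : ℝ) * (s : ℝ) = (R.choose (s - 1) : ℝ) * ((R : ℝ) - s + 1) := by
        obtain ⟨t, rfl⟩ : ∃ t, s = t + 1 := ⟨s - 1, by omega⟩
        rw [Nat.add_sub_cancel]
        have h4 := Nat.choose_succ_right_eq R t
        have h5 : (((R.choose (t + 1) * (t + 1) : ℕ)) : ℝ) = ((R.choose t * (R - t) : ℕ) : ℝ) := by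
          exact_mod_cast h4
        rw [Nat.cast_mul, Nat.cast_mul, Nat.cast_sub (by omega)] at h5
        rw [h5]
        push_cast
        ring
      have h15 : (0 : ℝ) ≤ (R.choose (s - 1) : ℝ) := Nat.cast_nonneg _
      have hms : (m : ℝ) ^ s = m * (m : ℝ) ^ (s - 1) := by
        rw [← pow_succ', Nat.sub_add_cancel (by omega)]
      calc (1 - c / m) * ((R : ℝ) - s + 1) * m * ((clq G S (s - 1)).card : ℝ) ≤
          (1 - c / m) * ((R : ℝ) - s + 1) * m *
            ((R.choose (s - 1) : ℝ) * ((m : ℝ) ^ (s - 1) * (1 + E / m))) := by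
            apply mul_le_mul_of_nonneg_left
            · exact h1.trans (mul_le_mul_of_nonneg_left hpow h15)
            · exact mul_nonneg (mul_nonneg hc1.le (by linarith)) hm0.le
        _ = ((R.choose (s - 1) : ℝ) * ((R : ℝ) - s + 1)) * (m * (m : ℝ) ^ (s - 1)) *
            ((1 - c / m) * (1 + E / m)) := by ring
        _ ≤ ((R.choose (s - 1) : ℝ) * ((R : ℝ) - s + 1)) * (m * (m : ℝ) ^ (s - 1)) * (1 - C₁ / m) := by
            apply mul_le_mul_of_nonneg_left h9
            exact mul_nonneg (mul_nonneg h15 (by linarith)) (by positivity)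
        _ = s * (N0 R s m * (1 - C₁ / m)) := by
            rw [← h14, ← hms]
            unfold N0
            ring
        _ ≤ s * ((clq G S s).card : ℝ) := mul_le_mul_of_nonneg_left hN.le (Nat.cast_nonneg _)
  | succ j hsj ih =>
    obtain ⟨c, hc, h⟩ := ih (by omega)
    have hR0 : (0 : ℝ) < R := by exact_mod_cast (by omega : 0 < R)
    have hr0 : (0 : ℝ) ≤ r := Nat.cast_nonneg _
    refine ⟨c + (c * R ^ 2 + r), by positivity, fun m hm V _ G _ S hS hfree hN => ?_⟩
    have hc'0 : 0 ≤ c * (R : ℝ) ^ 2 + r := by positivity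
    have hcm : c < m := by linarith
    obtain ⟨h1, h2⟩ := h m hcm V G S hS hfree hN
    have hm0 : (0 : ℝ) < m := hc.trans hcm
    have hc1 : 0 < 1 - c / m := by
      have : c / m < 1 := (div_lt_one hm0).2 hcm
      linarith
    have hmm := moon_moser (G := G) S (j := j) (by omega)
    have hnS : (S.card : ℝ) ≤ R * m + r := by exact_mod_cast hS
    have hjR' : (j : ℝ) + 1 ≤ R := by exact_mod_cast hjR
    have hj2 : (2 : ℝ) ≤ j := by exact_mod_cast hs2.trans hsj
    have hch : (0 : ℝ) < (R.choose j : ℝ) := by exact_mod_cast Nat.choose_pos (by omega)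
    obtain ⟨a, ha⟩ : ∃ a : ℝ, a = ((clq G S (j - 1)).card : ℝ) := ⟨_, rfl⟩
    obtain ⟨b, hb⟩ : ∃ b : ℝ, b = ((clq G S j).card : ℝ) := ⟨_, rfl⟩
    obtain ⟨d, hd⟩ : ∃ d : ℝ, d = ((clq G S (j + 1)).card : ℝ) := ⟨_, rfl⟩
    obtain ⟨n, hn⟩ : ∃ n : ℝ, n = (S.card : ℝ) := ⟨_, rfl⟩
    rw [Nat.add_sub_cancel]
    rw [← ha, ← hb, ← hd, ← hn] at hmm
    rw [← hb] at h1
    rw [← ha, ← hb] at h2
    rw [← hb, ← hd]
    rw [← hn] at hnS
    have ha0 : 0 ≤ a := by rw [ha]; exact Nat.cast_nonneg _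
    have hd0 : 0 ≤ d := by rw [hd]; exact Nat.cast_nonneg _
    have hn0 : 0 ≤ n := by rw [hn]; exact Nat.cast_nonneg _
    have hb0 : 0 < b := lt_of_lt_of_le (by positivity) h1
    -- the ratio
    have hA0 : 0 ≤ (1 - c / m) * ((R : ℝ) - j + 1) * m :=
      mul_nonneg (mul_nonneg hc1.le (by linarith)) hm0.le
    have h3 : (1 - c / m) * ((R : ℝ) - j + 1) * m * ((j : ℝ) ^ 2 * b ^ 2) ≤
        (j * b) * (n * b + ((j : ℝ) ^ 2 - 1) * d) := by
      have hj1 : 0 ≤ (j : ℝ) ^ 2 - 1 := by nlinarith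
      have h4 : 0 ≤ n * b + ((j : ℝ) ^ 2 - 1) * d := by
        have := mul_nonneg hn0 hb0.le
        have := mul_nonneg hj1 hd0
        linarith
      calc (1 - c / m) * ((R : ℝ) - j + 1) * m * ((j : ℝ) ^ 2 * b ^ 2) ≤
          (1 - c / m) * ((R : ℝ) - j + 1) * m * (a * (n * b + ((j : ℝ) ^ 2 - 1) * d)) :=
            mul_le_mul_of_nonneg_left hmm hA0
        _ = ((1 - c / m) * ((R : ℝ) - j + 1) * m * a) * (n * b + ((j : ℝ) ^ 2 - 1) * d) := by ring
        _ ≤ _ := mul_le_mul_of_nonneg_right h2 h4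
    have h5 : (1 - c / m) * ((R : ℝ) - j + 1) * m * (j * b) ≤ n * b + ((j : ℝ) ^ 2 - 1) * d := by
      have hx : 0 < (j : ℝ) * b := by positivity
      refine le_of_mul_le_mul_right ?_ hx
      calc (1 - c / m) * ((R : ℝ) - j + 1) * m * (j * b) * (j * b) =
          (1 - c / m) * ((R : ℝ) - j + 1) * m * ((j : ℝ) ^ 2 * b ^ 2) := by ring
        _ ≤ _ := h3
        _ = _ := by ring
    have h6 : (1 - c / m) * ((R : ℝ) - j + 1) * m = ((R : ℝ) - j + 1) * m - c * ((R : ℝ) - j + 1) := by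
      field_simp
    have h7 : n * b ≤ (R * m + r) * b := mul_le_mul_of_nonneg_right hnS hb0.le
    -- key: (j-1) (R-j) m - (c (R-j+1) j + r) ≤ (j^2-1) d / b
    have h8 : (((j : ℝ) - 1) * (R - j) * m - (c * ((R : ℝ) - j + 1) * j + r)) * b ≤
        ((j : ℝ) ^ 2 - 1) * d := by
      rw [h6] at h5
      have h9 : (((R : ℝ) - j + 1) * m - c * ((R : ℝ) - j + 1)) * (j * b) - (R * m + r) * b =
          (((j : ℝ) - 1) * (R - j) * m - (c * ((R : ℝ) - j + 1) * j + r)) * b := by ring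
      linarith
    have h10 : c * ((R : ℝ) - j + 1) * j + r ≤ (c * R ^ 2 + r) * (((j : ℝ) - 1) * (R - j)) := by
      have h11 : ((R : ℝ) - j + 1) * j ≤ R * R :=
        mul_le_mul (by linarith) (by linarith) (by linarith) hR0.le
      have h12 : c * (((R : ℝ) - j + 1) * j) ≤ c * (R * R) := mul_le_mul_of_nonneg_left h11 hc.le
      have h13 : (1 : ℝ) ≤ ((j : ℝ) - 1) * (R - j) := by nlinarith
      have h14 : (c * (R : ℝ) ^ 2 + r) * 1 ≤ (c * R ^ 2 + r) * (((j : ℝ) - 1) * (R - j)) :=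
        mul_le_mul_of_nonneg_left h13 hc'0
      have h15 : c * ((R : ℝ) * R) = c * (R : ℝ) ^ 2 := by ring
      have h16 : c * (((R : ℝ) - j + 1) * j) = c * ((R : ℝ) - j + 1) * j := by ring
      linarith
    obtain ⟨c', hc'⟩ : ∃ c' : ℝ, c' = c * (R : ℝ) ^ 2 + r := ⟨_, rfl⟩
    rw [← hc'] at h10 hc'0 hm
    rw [← hc']
    have h17 : (((j : ℝ) - 1) * (R - j) * (m - c')) * b ≤ ((j : ℝ) ^ 2 - 1) * d := by
      refine le_trans (mul_le_mul_of_nonneg_right ?_ hb0.le) h8
      linarith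
    have h18 : ((R : ℝ) - j) * (m - c') * b ≤ ((j : ℝ) + 1) * d := by
      have hx : (0 : ℝ) < (j : ℝ) - 1 := by linarith
      refine le_of_mul_le_mul_left ?_ hx
      calc ((j : ℝ) - 1) * (((R : ℝ) - j) * (m - c') * b) = (((j : ℝ) - 1) * (R - j) * (m - c')) * b := by ring
        _ ≤ _ := h17
        _ = _ := by ring
    have h19 : (1 - (c + c') / m) * m = m - (c + c') := by field_simp
    have hRj : 0 ≤ (R : ℝ) - j := by linarith
    push_cast
    constructor
    · -- first part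
      have h20 : ((R.choose (j + 1) : ℕ) : ℝ) * ((j : ℝ) + 1) = (R.choose j : ℝ) * ((R : ℝ) - j) := by
        have h4 := Nat.choose_succ_right_eq R j
        have h5 : (((R.choose (j + 1) * (j + 1) : ℕ)) : ℝ) = ((R.choose j * (R - j) : ℕ) : ℝ) := by
          exact_mod_cast h4
        rw [Nat.cast_mul, Nat.cast_mul, Nat.cast_sub (by omega)] at h5
        push_cast at h5
        exact h5
      have hx : (0 : ℝ) < (j : ℝ) + 1 := by linarith
      refine le_of_mul_le_mul_left ?_ hx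
      have hmc' : 0 ≤ (m : ℝ) - c' := by linarith
      have h21 : (m : ℝ) * (1 - (c + c') / m) ≤ (m - c') * (1 - c / m) := by
        have h22 : (m : ℝ) * (1 - (c + c') / m) = m - (c + c') := by field_simp
        have h23 : ((m : ℝ) - c') * (1 - c / m) = m - (c + c') + c' * (c / m) := by
          field_simp
          ring
        have h24 : 0 ≤ c' * (c / m) := by positivity
        linarith
      calc ((j : ℝ) + 1) * (((R.choose (j + 1) : ℕ) : ℝ) * (m : ℝ) ^ (j + 1) * (1 - (c + c') / m)) =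
          (((R.choose (j + 1) : ℕ) : ℝ) * ((j : ℝ) + 1)) * (m : ℝ) ^ j * (m * (1 - (c + c') / m)) := by
            rw [pow_succ]
            ring
        _ = ((R.choose j : ℝ) * ((R : ℝ) - j)) * (m : ℝ) ^ j * (m * (1 - (c + c') / m)) := by rw [h20]
        _ ≤ ((R.choose j : ℝ) * ((R : ℝ) - j)) * (m : ℝ) ^ j * ((m - c') * (1 - c / m)) :=
            mul_le_mul_of_nonneg_left h21 (by positivity)
        _ = ((R : ℝ) - j) * (m - c') * ((R.choose j : ℝ) * (m : ℝ) ^ j * (1 - c / m)) := by ring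
        _ ≤ ((R : ℝ) - j) * (m - c') * b :=
            mul_le_mul_of_nonneg_left h1 (mul_nonneg hRj hmc')
        _ ≤ _ := h18
    · calc (1 - (c + c') / m) * ((R : ℝ) - (j + 1) + 1) * m * b =
          ((R : ℝ) - j) * ((1 - (c + c') / m) * m) * b := by ring
        _ = ((R : ℝ) - j) * (m - (c + c')) * b := by rw [h19]
        _ ≤ ((R : ℝ) - j) * (m - c') * b := by
            apply mul_le_mul_of_nonneg_right _ hb0.le
            exact mul_le_mul_of_nonneg_left (by linarith) hRj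
        _ ≤ _ := h18

/-- many `s`-cliques imply many `R`-cliques -/
theorem clq_stab (R s r : ℕ) (hs2 : 2 ≤ s) (hsR : s ≤ R) (C₁ : ℝ) (hC : 0 < C₁) :
    ∃ C' : ℝ, 0 < C' ∧ ∃ m₀ : ℕ, ∀ m : ℕ, m₀ ≤ m →
      ∀ (V : Type) [DecidableEq V] (G : SimpleGraph V) [DecidableRel G.Adj] (S : Finset V),
        S.card ≤ R * m + r → clq G S (R + 1) = ∅ →
        N0 R s m * (1 - C₁ / m) < ((clq G S s).card : ℝ) →
        (m : ℝ) ^ R * (1 - C' / m) < ((clq G S R).card : ℝ) := by
  obtain ⟨c, hc, h⟩ := clq_stab_aux R s r hs2 hsR C₁ hC R hsR le_rfl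
  refine ⟨c + 1, by linarith, ⌊c⌋₊ + 1, fun m hm V _ G _ S hS hfree hN => ?_⟩
  have hcm : c < m := by
    have h1 := Nat.lt_floor_add_one c
    have h2 : ((⌊c⌋₊ + 1 : ℕ) : ℝ) ≤ m := by exact_mod_cast hm
    push_cast at h2
    linarith
  have hm0 : (0 : ℝ) < m := hc.trans hcm
  have h1 := (h m hcm V G S hS hfree hN).1
  rw [Nat.choose_self, Nat.cast_one, one_mul] at h1
  refine lt_of_lt_of_le ?_ h1
  apply mul_lt_mul_of_pos_left _ (by positivity)
  have h2 : (c + 1) / m = c / m + 1 / m := by ring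
  have h3 : 0 < 1 / (m : ℝ) := by positivity
  linarith

end H57LT
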