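import Pool.Agent.H57.LC.Defs
import Pool.Agent.H57.LC.Smooth

/-!
Project LT (all cliques `K_t`, extension of project LC): definitions.
Paper proof: notes 3541 and 3585 on MP_e32fce_co.
-/

namespace H57LT

open Finset H57LC

set_option linter.unusedSectionVars false

/-- exact cost coefficients `κ_j = (s/R) C(R-j,s-1)/C(R-1,s-1)` -/
noncomputable def kap (R s j : ℕ) : ℝ :=
  (s : ℝ) / R * ((R - j).choose (s - 1) : ℝ) / ((R - 1).choose (s - 1) : ℝ)

/-- `β = s(s-1)/(R(R-1))` -/
noncomputable def be (R s : ℕ) : ℝ := (s : ℝ) * (s - 1) / (R * (R - 1))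

/-- the cost coefficients used in the weights -/
noncomputable def kt (R s : ℕ) (η : ℝ) (j : ℕ) : ℝ :=
  if j ≤ 1 then 0 else if j = 2 then (s : ℝ) / R - be R s / 2 + η else (1 + η) * kap R s j

/-- `N₀ = C(R,s) m^s` -/
noncomputable def N0 (R s m : ℕ) : ℝ := (R.choose s : ℝ) * (m : ℝ) ^ s

/-- elementary symmetric polynomial of the part sizes of the Turan graph -/
noncomputable def eN (w r m k : ℕ) : ℝ :=
  eS (univ : Finset (Fin w)) (fun i => (m : ℝ) + (if i.val < r then 1 else 0)) k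

/-- `ρ'`: the average number of `s`-cliques in the common neighbourhoods of the `u`-cliques of the
Turan graph with `R + u` parts -/
noncomputable def rhoN (u R s r m : ℕ) : ℝ :=
  ((s + u).choose u : ℝ) * eN (R + u) r m (s + u) / eN (R + u) r m u

section
variable {V : Type*} [DecidableEq V] (G : SimpleGraph V) [DecidableRel G.Adj]

/-- the light value of an `R`-clique `T` -/
noncomputable def lz (S : Finset V) (R s m : ℕ) (η ζ ρ : ℝ) (ν : Finset V → ℝ) (T : Finset V) : ℝ :=
  (eS T (fun t => (aa G S T t : ℝ)) s - ρ) * (∏ t ∈ T, ((aa G S T t : ℝ))⁻¹) +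
    N0 R s m / (m : ℝ) ^ R * ((∑ z ∈ S, kt R s η (hs G T z).card) + ζ * ν T) / m

/-- the rule for the indicator `ν` of non-tight cliques, with parameter `A` -/
def RuleA (S : Finset V) (R A : ℕ) (ν : Finset V → ℝ) : Prop :=
  (∀ T, 0 ≤ ν T ∧ ν T ≤ 1) ∧
  ∀ T ∈ clq G S R, ∀ S' ⊆ T,
    1 ≤ (S.filter fun z => 2 ≤ (hs G T z).card ∧ hs G T z ⊆ S').card →
    S'.card ≤ A + (S.filter fun z => 2 ≤ (hs G T z).card ∧ hs G T z ⊆ S').card → ν T = 1

/-- the costs of the heavy vertices at the tuple `f` -/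
noncomputable def XT (S : Finset V) {R : ℕ} (B : Fin R → Finset V) (s : ℕ) (η ζ : ℝ)
    (ν : Finset V → ℝ) (f : Fin R → V) : ℝ :=
  (∑ z ∈ S \ un B, (if (hs G (im f) z).card = 1 then (s : ℝ) / R else
    kt R s η (hs G (im f) z).card)) + ζ * ν (im f)

end

/-- coefficients of Theorem P for hypergraphs -/
noncomputable def bet (A u j : ℕ) : ℝ := (A.choose (j - 1) : ℝ) / ((A + u).choose (j - 1) : ℝ)

end H57LT
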