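import Pool.Agent.H57.LT.Defs
import Pool.Agent.H57.LC.Point

/-!
The value of one light clique (note 3585, 4c).
-/

namespace H57LT

open Finset H57LC

set_option linter.unusedSectionVars false

/-! ### helper lemmas: cliques -/

private lemma PointT_idx {V : Type*} [DecidableEq V] {G : SimpleGraph V} [DecidableRel G.Adj]
    {R m : ℕ} {S : Finset V} {C η₁ δ : ℝ} {B : Fin R → Finset V} (h : LS G S R m C η₁ δ B)
    {f : Fin R → V} (hf : f ∈ tcl G B) {i k : Fin R} {z : V} (hz : z ∈ B k)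
    (he : hs G (im f) z = {f i}) : k = i := by
  have h1 : f k ∈ hs G (im f) z :=
    mem_hs.2 ⟨mem_im.2 ⟨k, rfl⟩, h.ind k z hz (f k) ((mem_tcl.1 hf).1 k)⟩
  rw [he, mem_singleton] at h1
  exact tcl_injective hf h1

private lemma PointT_un_sub {V : Type*} [DecidableEq V] {G : SimpleGraph V} [DecidableRel G.Adj]
    {R m : ℕ} {S : Finset V} {C η₁ δ : ℝ} {B : Fin R → Finset V} (h : LS G S R m C η₁ δ B) :
    un B ⊆ S := by
  intro z hz
  obtain ⟨i, hi⟩ := mem_un.1 hz
  exact h.sub i hi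

/-- exact value of `aa` at a clique transversal -/
theorem aa_eq {V : Type*} [DecidableEq V] {G : SimpleGraph V} [DecidableRel G.Adj] {R m : ℕ}
    {S : Finset V} {C η₁ δ : ℝ} {B : Fin R → Finset V} (h : LS G S R m C η₁ δ B)
    {f : Fin R → V} (hf : f ∈ tcl G B) (i : Fin R) :
    (aa G S (im f) (f i) : ℝ) =
      (((B i).card : ℝ) - (((B i).filter fun z => ∃ j, j ≠ i ∧ ¬ G.Adj z (f j)).card : ℝ)) +
      (((S \ un B).filter fun z => hs G (im f) z = {f i}).card : ℝ) := by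
  have h1 : ((B i).filter fun z => ∃ j, j ≠ i ∧ ¬ G.Adj z (f j)).card +
      ((B i).filter fun z => ¬ ∃ j, j ≠ i ∧ ¬ G.Adj z (f j)).card = (B i).card :=
    card_filter_add_card_filter_not _
  have h2 : aa G S (im f) (f i) = ((B i).filter fun z => ¬ ∃ j, j ≠ i ∧ ¬ G.Adj z (f j)).card +
      ((S \ un B).filter fun z => hs G (im f) z = {f i}).card := by
    unfold aa
    rw [← card_union_of_disjoint]
    · congr 1
      ext z
      rw [mem_union, mem_filter, mem_filter, mem_filter, mem_sdiff]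
      constructor
      · rintro ⟨hz, he⟩
        by_cases hzB : z ∈ un B
        · left
          obtain ⟨k, hk⟩ := mem_un.1 hzB
          have hki := PointT_idx h hf hk he
          rw [hki] at hk
          refine ⟨hk, ?_⟩
          rintro ⟨j, hji, hj⟩
          have h3 : f j ∈ hs G (im f) z := mem_hs.2 ⟨mem_im.2 ⟨j, rfl⟩, hj⟩
          rw [he, mem_singleton] at h3
          exact hji (tcl_injective hf h3)
        · exact Or.inr ⟨⟨hz, hzB⟩, he⟩
      · rintro (⟨hz, hn⟩ | ⟨hz, hn⟩)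
        · exact ⟨h.sub i hz, hs_im_eq_single h hf hz hn⟩
        · exact ⟨hz.1, hn⟩
    · rw [disjoint_left]
      intro z hz hz'
      rw [mem_filter] at hz hz'
      exact (mem_sdiff.1 hz'.1).2 (subset_un B i hz.1)
  have h1' : ((((B i).filter fun z => ∃ j, j ≠ i ∧ ¬ G.Adj z (f j)).card : ℕ) : ℝ) +
      ((((B i).filter fun z => ¬ ∃ j, j ≠ i ∧ ¬ G.Adj z (f j)).card : ℕ) : ℝ) =
        (((B i).card : ℕ) : ℝ) := by exact_mod_cast h1
  rw [h2]
  push_cast
  linarith only [h1']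

private lemma PointT_card_two {V : Type*} [DecidableEq V] {G : SimpleGraph V} [DecidableRel G.Adj]
    {R m : ℕ} {S : Finset V} {C η₁ δ : ℝ} {B : Fin R → Finset V} (h : LS G S R m C η₁ δ B)
    {f : Fin R → V} (hf : f ∈ tcl G B) {i : Fin R} {z : V} (hz : z ∈ B i)
    (h2 : (hs G (im f) z).card = 2) :
    (∃ j, j ≠ i ∧ ¬ G.Adj z (f j)) ∧
      ¬ ∃ j k, j ≠ i ∧ k ≠ i ∧ j ≠ k ∧ ¬ G.Adj z (f j) ∧ ¬ G.Adj z (f k) := by
  have hfi : f i ∈ hs G (im f) z :=
    mem_hs.2 ⟨mem_im.2 ⟨i, rfl⟩, h.ind i z hz (f i) ((mem_tcl.1 hf).1 i)⟩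
  constructor
  · by_contra hn
    have h3 := hs_im_eq_single h hf hz hn
    rw [h3, card_singleton] at h2
    omega
  · rintro ⟨j, k, hji, hki, hjk, hj, hk⟩
    have hj' : f j ∈ hs G (im f) z := mem_hs.2 ⟨mem_im.2 ⟨j, rfl⟩, hj⟩
    have hk' : f k ∈ hs G (im f) z := mem_hs.2 ⟨mem_im.2 ⟨k, rfl⟩, hk⟩
    have hinj := tcl_injective hf
    have h3 : ({f i, f j, f k} : Finset V) ⊆ hs G (im f) z := by
      intro t ht
      rw [mem_insert, mem_insert, mem_singleton] at ht
      rcases ht with rfl | rfl | rfl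
      · exact hfi
      · exact hj'
      · exact hk'
    have h4 : ({f i, f j, f k} : Finset V).card = 3 := by
      rw [card_eq_three]
      exact ⟨f i, f j, f k, fun e => hji (hinj e).symm, fun e => hki (hinj e).symm,
        fun e => hjk (hinj e), rfl⟩
    have h5 := card_le_card h3
    omega

private lemma PointT_kt {R s : ℕ} {η : ℝ} (hη : 0 ≤ η) {j : ℕ} (hj : j ≠ 2) :
    0 ≤ kt R s η j := by
  unfold kt
  split_ifs with h1
  · exact le_refl _
  · have h3 : 0 ≤ kap R s j := by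
      unfold kap
      positivity
    have : 0 ≤ 1 + η := by linarith
    positivity

/-- lower bound for the costs -/
theorem sum_kt_ge {V : Type*} [DecidableEq V] {G : SimpleGraph V} [DecidableRel G.Adj] {R m : ℕ}
    {S : Finset V} {C η₁ δ : ℝ} {B : Fin R → Finset V} (h : LS G S R m C η₁ δ B)
    {f : Fin R → V} (hf : f ∈ tcl G B) {s : ℕ} {η : ℝ} (hη : 0 ≤ η) :
    kt R s η 2 * (ss G B f - s2 G B f) + ∑ z ∈ S \ un B, kt R s η (hs G (im f) z).card ≤
      ∑ z ∈ S, kt R s η (hs G (im f) z).card := by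
  have h0 : ∑ z ∈ S \ un B, kt R s η (hs G (im f) z).card + ∑ z ∈ un B, kt R s η (hs G (im f) z).card =
      ∑ z ∈ S, kt R s η (hs G (im f) z).card := sum_sdiff (PointT_un_sub h)
  have h1 : ∑ z ∈ un B, kt R s η (hs G (im f) z).card =
      ∑ i, ∑ z ∈ B i, kt R s η (hs G (im f) z).card := by
    unfold un
    refine sum_biUnion ?_
    intro i _ j _ hij
    exact h.disj i j hij
  have h2 : ∀ i, kt R s η 2 * ((((B i).filter fun z => ∃ j, j ≠ i ∧ ¬ G.Adj z (f j)).card : ℝ) -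
      (((B i).filter fun z => ∃ j k, j ≠ i ∧ k ≠ i ∧ j ≠ k ∧ ¬ G.Adj z (f j) ∧
        ¬ G.Adj z (f k)).card : ℝ)) ≤ ∑ z ∈ B i, kt R s η (hs G (im f) z).card := by
    intro i
    rw [card_filter, card_filter]
    push_cast
    rw [← sum_sub_distrib, mul_sum]
    refine sum_le_sum fun z hz => ?_
    by_cases hc : ∃ j k, j ≠ i ∧ k ≠ i ∧ j ≠ k ∧ ¬ G.Adj z (f j) ∧ ¬ G.Adj z (f k)
    · have hc' : ∃ j, j ≠ i ∧ ¬ G.Adj z (f j) := by
        obtain ⟨j, k, hji, -, -, hj, -⟩ := hc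
        exact ⟨j, hji, hj⟩
      rw [if_pos hc, if_pos hc', sub_self, mul_zero]
      exact PointT_kt hη fun e => (PointT_card_two h hf hz e).2 hc
    · by_cases hc' : ∃ j, j ≠ i ∧ ¬ G.Adj z (f j)
      · rw [if_neg hc, if_pos hc', hs_im_card_two h hf hz hc' hc]
        apply le_of_eq
        ring
      · rw [if_neg hc, if_neg hc', sub_self, mul_zero]
        exact PointT_kt hη fun e => hc' (PointT_card_two h hf hz e).1
  have h3 : kt R s η 2 * (ss G B f - s2 G B f) ≤ ∑ i, ∑ z ∈ B i, kt R s η (hs G (im f) z).card := by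
    unfold ss s2
    rw [← sum_sub_distrib, mul_sum]
    exact sum_le_sum fun i _ => h2 i
  linarith

/-! ### helper lemmas: elementary symmetric polynomials -/

private lemma PointT_choose (k n : ℕ) (hk : 1 ≤ k) :
    ((k - 1).choose (n + 1) : ℝ) + ((k - 1).choose n : ℝ) = (k.choose (n + 1) : ℝ) := by
  obtain ⟨j, rfl⟩ : ∃ j, k = j + 1 := ⟨k - 1, by omega⟩
  rw [Nat.add_sub_cancel, Nat.choose_succ_succ' j n]
  push_cast
  ring

private lemma PointT_empty {ι : Type*} (x : ι → ℝ) (n : ℕ) : eS (∅ : Finset ι) x (n + 1) = 0 := by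
  unfold eS
  rw [powersetCard_eq_empty.2 (by simp), sum_empty]

private lemma PointT_eS_ge_const {ι : Type*} {T : Finset ι} {k s : ℕ} (hT : T.card = k) {c : ℝ}
    (hc : 0 ≤ c) {x : ι → ℝ} (hx : ∀ t ∈ T, c ≤ x t) : (k.choose s : ℝ) * c ^ s ≤ eS T x s := by
  unfold eS
  have h1 : (k.choose s : ℝ) * c ^ s = ∑ _J ∈ powersetCard s T, c ^ s := by
    rw [sum_const, card_powersetCard, hT, nsmul_eq_mul]
  rw [h1]
  refine sum_le_sum fun J hJ => ?_
  have hJ' := mem_powersetCard.1 hJ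
  calc c ^ s = ∏ _t ∈ J, c := by rw [prod_const, hJ'.2]
    _ ≤ ∏ t ∈ J, x t := prod_le_prod (fun _ _ => hc) fun t ht => hx t (hJ'.1 ht)

private lemma PointT_eS_le_const {ι : Type*} {T : Finset ι} {k s : ℕ} (hT : T.card = k) {c : ℝ}
    {x : ι → ℝ} (hx0 : ∀ t ∈ T, 0 ≤ x t) (hx : ∀ t ∈ T, x t ≤ c) :
    eS T x s ≤ (k.choose s : ℝ) * c ^ s := by
  unfold eS
  have h1 : (k.choose s : ℝ) * c ^ s = ∑ _J ∈ powersetCard s T, c ^ s := by
    rw [sum_const, card_powersetCard, hT, nsmul_eq_mul]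
  rw [h1]
  refine sum_le_sum fun J hJ => ?_
  have hJ' := mem_powersetCard.1 hJ
  calc ∏ t ∈ J, x t ≤ ∏ _t ∈ J, c :=
        prod_le_prod (fun t ht => hx0 t (hJ'.1 ht)) fun t ht => hx t (hJ'.1 ht)
    _ = c ^ s := by rw [prod_const, hJ'.2]

/-- the change of `e_{n+1}` is at most `C(k-1,n) M^n` times the change of the sum -/
private lemma PointT_eS_le {ι : Type*} [DecidableEq ι] (K : Finset ι) {x y : ι → ℝ} {M : ℝ} :
    ∀ n : ℕ, (∀ i ∈ K, 0 ≤ y i) → (∀ i ∈ K, y i ≤ x i) → (∀ i ∈ K, x i ≤ M) →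
      eS K x (n + 1) - eS K y (n + 1) ≤
        ((K.card - 1).choose n : ℝ) * M ^ n * ∑ i ∈ K, (x i - y i) := by
  induction K using Finset.induction_on with
  | empty =>
    intro n _ _ _
    rw [PointT_empty, PointT_empty, sum_empty]
    simp
  | insert a K ha ih =>
    intro n hy hxy hM
    have hy' : ∀ i ∈ K, 0 ≤ y i := fun i hi => hy i (mem_insert_of_mem hi)
    have hxy' : ∀ i ∈ K, y i ≤ x i := fun i hi => hxy i (mem_insert_of_mem hi)
    have hM' : ∀ i ∈ K, x i ≤ M := fun i hi => hM i (mem_insert_of_mem hi)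
    have ya := hy a (mem_insert_self a K)
    have xa := hxy a (mem_insert_self a K)
    have ma := hM a (mem_insert_self a K)
    have hM0 : 0 ≤ M := ya.trans (xa.trans ma)
    rw [eS_insert ha, eS_insert ha, sum_insert ha, card_insert_of_notMem ha, Nat.add_sub_cancel]
    have hS0 : 0 ≤ ∑ i ∈ K, (x i - y i) := sum_nonneg fun i hi => sub_nonneg.2 (hxy' i hi)
    rcases n with _ | n
    · have h1 := ih 0 hy' hxy' hM'
      rw [eS_zero, eS_zero]
      simp only [Nat.choose_zero_right, Nat.cast_one, pow_zero, one_mul, mul_one] at h1 ⊢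
      linarith
    · rcases K.eq_empty_or_nonempty with hK | hK
      · subst hK
        rw [PointT_empty, PointT_empty, PointT_empty, PointT_empty, sum_empty]
        simp
      · have hk : 1 ≤ K.card := card_pos.2 hK
        have h1 := ih (n + 1) hy' hxy' hM'
        have h2 := ih n hy' hxy' hM'
        have h3 : eS K y (n + 1) ≤ (K.card.choose (n + 1) : ℝ) * M ^ (n + 1) :=
          PointT_eS_le_const rfl hy' fun i hi => (hxy' i hi).trans (hM' i hi)
        have h4 := PointT_choose K.card n hk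
        set c1 : ℝ := ((K.card - 1).choose (n + 1) : ℝ)
        set c2 : ℝ := ((K.card - 1).choose n : ℝ)
        have hc2 : 0 ≤ c2 := Nat.cast_nonneg _
        rw [← h4] at h3 ⊢
        set Sg := ∑ i ∈ K, (x i - y i)
        have h5 : x a * (eS K x (n + 1) - eS K y (n + 1)) ≤ M * (c2 * M ^ n * Sg) := by
          refine (mul_le_mul_of_nonneg_left h2 (ya.trans xa)).trans ?_
          exact mul_le_mul_of_nonneg_right ma (by positivity)
        have h6 : (x a - y a) * eS K y (n + 1) ≤ (x a - y a) * ((c1 + c2) * M ^ (n + 1)) :=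
          mul_le_mul_of_nonneg_left h3 (sub_nonneg.2 xa)
        have e1 : eS K x (n + 1 + 1) + x a * eS K x (n + 1) - (eS K y (n + 1 + 1) +
            y a * eS K y (n + 1)) = (eS K x (n + 1 + 1) - eS K y (n + 1 + 1)) +
            x a * (eS K x (n + 1) - eS K y (n + 1)) + (x a - y a) * eS K y (n + 1) := by ring
        have e2 : (c1 + c2) * M ^ (n + 1) * (x a - y a + Sg) = c1 * M ^ (n + 1) * Sg +
            M * (c2 * M ^ n * Sg) + (x a - y a) * ((c1 + c2) * M ^ (n + 1)) := by ring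
        rw [e1, e2]
        linarith

/-- the change of `e_{n+1}` is at least `C(k-1,n) L^n` times the change of the sum -/
private lemma PointT_eS_ge {ι : Type*} [DecidableEq ι] (K : Finset ι) {x y : ι → ℝ} {L : ℝ}
    (hL : 0 ≤ L) :
    ∀ n : ℕ, (∀ i ∈ K, L ≤ y i) → (∀ i ∈ K, y i ≤ x i) →
        ((K.card - 1).choose n : ℝ) * L ^ n * ∑ i ∈ K, (x i - y i) ≤
          eS K x (n + 1) - eS K y (n + 1) := by
  induction K using Finset.induction_on with
  | empty =>
    intro n _ _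
    rw [PointT_empty, PointT_empty, sum_empty]
    simp
  | insert a K ha ih =>
    intro n hy hxy
    have hy' : ∀ i ∈ K, L ≤ y i := fun i hi => hy i (mem_insert_of_mem hi)
    have hxy' : ∀ i ∈ K, y i ≤ x i := fun i hi => hxy i (mem_insert_of_mem hi)
    have ya := hy a (mem_insert_self a K)
    have xa := hxy a (mem_insert_self a K)
    rw [eS_insert ha, eS_insert ha, sum_insert ha, card_insert_of_notMem ha, Nat.add_sub_cancel]
    have hS0 : 0 ≤ ∑ i ∈ K, (x i - y i) := sum_nonneg fun i hi => sub_nonneg.2 (hxy' i hi)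
    rcases n with _ | n
    · have h1 := ih 0 hy' hxy'
      rw [eS_zero, eS_zero]
      simp only [Nat.choose_zero_right, Nat.cast_one, pow_zero, one_mul, mul_one] at h1 ⊢
      linarith
    · rcases K.eq_empty_or_nonempty with hK | hK
      · subst hK
        rw [PointT_empty, PointT_empty, PointT_empty, PointT_empty, sum_empty]
        simp
      · have hk : 1 ≤ K.card := card_pos.2 hK
        have h1 := ih (n + 1) hy' hxy'
        have h2 := ih n hy' hxy'
        have h3 : (K.card.choose (n + 1) : ℝ) * L ^ (n + 1) ≤ eS K y (n + 1) :=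
          PointT_eS_ge_const rfl hL hy'
        have h4 := PointT_choose K.card n hk
        set c1 : ℝ := ((K.card - 1).choose (n + 1) : ℝ)
        set c2 : ℝ := ((K.card - 1).choose n : ℝ)
        have hc2 : 0 ≤ c2 := Nat.cast_nonneg _
        rw [← h4] at h3 ⊢
        set Sg := ∑ i ∈ K, (x i - y i)
        have h5 : L * (c2 * L ^ n * Sg) ≤ x a * (eS K x (n + 1) - eS K y (n + 1)) := by
          refine le_trans ?_ (mul_le_mul_of_nonneg_left h2 (hL.trans (ya.trans xa)))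
          exact mul_le_mul_of_nonneg_right (ya.trans xa) (by positivity)
        have h6 : (x a - y a) * ((c1 + c2) * L ^ (n + 1)) ≤ (x a - y a) * eS K y (n + 1) :=
          mul_le_mul_of_nonneg_left h3 (sub_nonneg.2 xa)
        have e1 : eS K x (n + 1 + 1) + x a * eS K x (n + 1) - (eS K y (n + 1 + 1) +
            y a * eS K y (n + 1)) = (eS K x (n + 1 + 1) - eS K y (n + 1 + 1)) +
            x a * (eS K x (n + 1) - eS K y (n + 1)) + (x a - y a) * eS K y (n + 1) := by ring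
        have e2 : (c1 + c2) * L ^ (n + 1) * (x a - y a + Sg) = c1 * L ^ (n + 1) * Sg +
            L * (c2 * L ^ n * Sg) + (x a - y a) * ((c1 + c2) * L ^ (n + 1)) := by ring
        rw [e1, e2]
        linarith

private lemma PointT_pow (δ : ℝ) (hδ : 0 ≤ δ) (n : ℕ) (h : (n : ℝ) * δ ≤ 1 / 2) :
    (1 + δ) ^ n ≤ 1 + 2 * n * δ := by
  induction n with
  | zero => simp
  | succ n ih =>
    push_cast at h
    have h1 : (n : ℝ) * δ ≤ 1 / 2 := by linarith
    have h2 := ih h1
    have h3 : (1 + δ) ^ (n + 1) ≤ (1 + 2 * n * δ) * (1 + δ) := by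
      rw [pow_succ]
      exact mul_le_mul_of_nonneg_right h2 (by linarith)
    have h4 : (n : ℝ) * δ * δ ≤ 1 / 2 * δ := mul_le_mul_of_nonneg_right h1 hδ
    push_cast
    nlinarith

private lemma PointT_pow' {δ : ℝ} (hδ1 : δ ≤ 1) (n : ℕ) : 1 - n * δ ≤ (1 - δ) ^ n := by
  have h := one_add_mul_le_pow (a := -δ) (by linarith) n
  have e : 1 + (-δ) = 1 - δ := by ring
  rw [e] at h
  linarith

/-- `C(R-1,s-1) (θ m)^(s-1) = (s/R) (N/m) θ^(s-1)` -/
private lemma PointT_coef {R s : ℕ} (hs1 : 1 ≤ s) (hsR : s ≤ R) {m θ : ℝ} (hm : 0 < m) :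
    ((R - 1).choose (s - 1) : ℝ) * (θ * m) ^ (s - 1) =
      (s : ℝ) / R * ((R.choose s : ℝ) * m ^ s / m) * θ ^ (s - 1) := by
  have hR : (0 : ℝ) < R := by exact_mod_cast (hs1.trans hsR)
  obtain ⟨a, rfl⟩ : ∃ a, s = a + 1 := ⟨s - 1, by omega⟩
  obtain ⟨b, rfl⟩ : ∃ b, R = b + 1 := ⟨R - 1, by omega⟩
  have h := Nat.add_one_mul_choose_eq b a
  have h' : ((b : ℝ) + 1) * (b.choose a : ℝ) = ((b + 1).choose (a + 1) : ℝ) * (a + 1) := by
    exact_mod_cast h
  rw [Nat.add_sub_cancel, Nat.add_sub_cancel, mul_pow, pow_succ m a]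
  push_cast
  field_simp
  linear_combination θ ^ a * h'

/-- bounds for the quotient `∏ b / ∏ (b - d + x)` -/
private lemma PointT_quot {R : ℕ} {b d x : Fin R → ℝ} {m SS ξ : ℝ} (hm : 0 < m)
    (hd0 : ∀ i, 0 ≤ d i) (hx0 : ∀ i, 0 ≤ x i) (hd : ∑ i, d i = SS) (hx : ∑ i, x i = ξ)
    (ha : ∀ i, m / 2 ≤ b i - d i + x i) (hb : ∀ i, 0 < b i) (h1 : 2 * SS ≤ m) (h2 : 2 * ξ ≤ m) :
    |(∏ i, b i) * (∏ i, (b i - d i + x i)⁻¹) - 1| ≤ 4 * (SS / m + ξ / m) := by
  have hSS0 : 0 ≤ SS := by rw [← hd]; exact sum_nonneg fun i _ => hd0 i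
  have hξ0 : 0 ≤ ξ := by rw [← hx]; exact sum_nonneg fun i _ => hx0 i
  have ha0 : ∀ i, 0 < b i - d i + x i := fun i => lt_of_lt_of_le (by linarith) (ha i)
  have hsσ : 0 ≤ SS / m := by positivity
  have hsτ : 0 ≤ ξ / m := by positivity
  rw [← prod_mul_distrib]
  rw [abs_le]
  constructor
  · have h3 : 1 - ∑ i, 2 * x i / m ≤ ∏ i, (1 - 2 * x i / m) := by
      refine one_sub_sum_le_prod univ _ (fun i _ => ?_) fun i _ => ?_
      · have := hx0 i
        positivity
      · rw [div_le_one hm]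
        have : x i ≤ ξ := by
          rw [← hx]
          exact single_le_sum (fun j _ => hx0 j) (mem_univ i)
        linarith
    have h4 : ∏ i, (1 - 2 * x i / m) ≤ ∏ i, (b i * (b i - d i + x i)⁻¹) := by
      refine prod_le_prod (fun i _ => ?_) fun i _ => ?_
      · rw [sub_nonneg, div_le_one hm]
        have : x i ≤ ξ := by
          rw [← hx]
          exact single_le_sum (fun j _ => hx0 j) (mem_univ i)
        linarith
      · rw [← div_eq_mul_inv, le_div_iff₀ (ha0 i)]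
        have h5 : x i ≤ 2 * x i / m * (b i - d i + x i) := by
          rw [div_mul_eq_mul_div, le_div_iff₀ hm]
          have := mul_le_mul_of_nonneg_left (ha i) (hx0 i)
          linarith
        have := hd0 i
        linarith
    have h5 : ∑ i, 2 * x i / m = 2 * (ξ / m) := by
      rw [← hx, sum_div, mul_sum]
      refine sum_congr rfl fun i _ => by ring
    rw [h5] at h3
    linarith only [hsσ, hsτ, h3, h4]
  · have h3 : ∏ i, (b i * (b i - d i + x i)⁻¹) ≤ ∏ i, Real.exp (2 * d i / m) := by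
      refine prod_le_prod (fun i _ => ?_) fun i _ => ?_
      · exact mul_nonneg (hb i).le (inv_nonneg.2 (ha0 i).le)
      · refine le_trans ?_ (Real.add_one_le_exp _)
        rw [← div_eq_mul_inv, div_le_iff₀ (ha0 i)]
        have h5 : d i ≤ 2 * d i / m * (b i - d i + x i) := by
          rw [div_mul_eq_mul_div, le_div_iff₀ hm]
          have := mul_le_mul_of_nonneg_left (ha i) (hd0 i)
          linarith
        have := hx0 i
        linarith
    rw [← Real.exp_sum] at h3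
    have h5 : ∑ i, 2 * d i / m = 2 * (SS / m) := by
      rw [← hd, sum_div, mul_sum]
      refine sum_congr rfl fun i _ => by ring
    rw [h5] at h3
    have h6 : 2 * (SS / m) ≤ 1 := by
      rw [← mul_div_assoc, div_le_one hm]
      exact h1
    have h7 := Real.abs_exp_sub_one_le (x := 2 * (SS / m)) (by
      rw [abs_of_nonneg (by linarith)]
      exact h6)
    rw [abs_of_nonneg (a := 2 * (SS / m)) (by linarith)] at h7
    have h8 := (abs_le.1 h7).2
    linarith

/-- the real inequality behind `pointT` -/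
private lemma PointT_real {R s : ℕ} (hs2 : 2 ≤ s) (hsR : s ≤ R) {b d x : Fin R → ℝ}
    {m N δ ε η C A ρ SS ξ α : ℝ} (hm : 0 < m) (hN : N = (R.choose s : ℝ) * m ^ s)
    (hα : α = (s : ℝ) / R) (hδ : 0 < δ) (hδε : 64 * R * δ ≤ ε) (hεη : 16 * ε ≤ η) (hη1 : η ≤ 1)
    (hCδ : C / m ≤ δ) (hCη : 1024 * (C / m) ≤ η) (hCε : 32 * (C / m) ≤ α * ε) (h1m : 1 / m ≤ δ)
    (hA : 512 * A ≤ η) (hb1 : ∀ i, (1 - δ) * m ≤ b i) (hb2 : ∀ i, b i ≤ (1 + δ) * m)
    (hd0 : ∀ i, 0 ≤ d i) (hx0 : ∀ i, 0 ≤ x i) (hd : ∑ i, d i = SS) (hx : ∑ i, x i = ξ)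
    (hSS : SS ≤ A * m) (hξ : ξ ≤ C) (hρ1 : N ≤ ρ) (hρ2 : ρ ≤ N * (1 + 1 / m) ^ s) :
    (eS (univ : Finset (Fin R)) b s - ρ) - N / m * ((α + η / 8) * SS) +
        (1 - ε) * (N / m) * (α * ξ) ≤
      (eS (univ : Finset (Fin R)) (fun i => b i - d i + x i) s - ρ) *
        ((∏ i, b i) * (∏ i, (b i - d i + x i)⁻¹)) := by
  have hs1 : 1 ≤ s := by omega
  have hs0 : (2 : ℝ) ≤ s := by exact_mod_cast hs2
  have hsR' : (s : ℝ) ≤ R := by exact_mod_cast hsR
  have hR0 : (0 : ℝ) < R := by linarith only [hs0, hsR']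
  have hα0 : 0 < α := by rw [hα]; positivity
  have hα1 : α ≤ 1 := by rw [hα, div_le_one hR0]; exact hsR'
  have hN0 : 0 < N := by
    rw [hN]
    have : 0 < (R.choose s : ℝ) := by exact_mod_cast Nat.choose_pos hsR
    positivity
  have hRδ : R * δ ≤ ε / 64 := by linarith
  have hsδ : s * δ ≤ R * δ := mul_le_mul_of_nonneg_right hsR' hδ.le
  have hαR : α * R = s := by rw [hα]; field_simp
  have hsδα : s * δ ≤ α * (ε / 64) := by
    have : (s : ℝ) * δ = α * (R * δ) := by rw [← hαR]; ring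
    rw [this]
    exact mul_le_mul_of_nonneg_left hRδ hα0.le
  have hε0 : 0 < ε := by
    have : 0 < (R : ℝ) * δ := mul_pos hR0 hδ
    linarith only [hδε, this]
  have hε1 : ε ≤ 1 / 16 := by linarith
  have hδ1 : δ ≤ 1 / 1024 := by
    have : 1 * δ ≤ R * δ := mul_le_mul_of_nonneg_right (by linarith only [hs0, hsR']) hδ.le
    linarith only [hδε, hεη, hη1, this]
  have hSS0 : 0 ≤ SS := by rw [← hd]; exact sum_nonneg fun i _ => hd0 i
  have hξ0 : 0 ≤ ξ := by rw [← hx]; exact sum_nonneg fun i _ => hx0 i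
  have hdi : ∀ i, d i ≤ SS := fun i => by
    rw [← hd]
    exact single_le_sum (fun j _ => hd0 j) (mem_univ i)
  have hxi : ∀ i, x i ≤ ξ := fun i => by
    rw [← hx]
    exact single_le_sum (fun j _ => hx0 j) (mem_univ i)
  have hA1 : SS ≤ 1 / 512 * m := by
    have : A * m ≤ 1 / 512 * m := mul_le_mul_of_nonneg_right (by linarith) hm.le
    linarith only [hSS, this]
  have hC1 : C ≤ δ * m := by rwa [div_le_iff₀ hm] at hCδ
  have hδm : δ * m ≤ 1 / 1024 * m := mul_le_mul_of_nonneg_right hδ1 hm.le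
  have hblow : ∀ i, 1023 / 1024 * m ≤ b i := by
    intro i
    have h1 := hb1 i
    have h2 : (1 - δ) * m = m - δ * m := by ring
    linarith only [hδm, h1]
  have hb0 : ∀ i, 0 < b i := fun i => lt_of_lt_of_le (by positivity) (hblow i)
  have hbd0 : ∀ i, 0 ≤ b i - d i := fun i => by
    have := hblow i
    have := hdi i
    linarith
  have ha2 : ∀ i, m / 2 ≤ b i - d i + x i := fun i => by
    have := hblow i
    have := hdi i
    have := hx0 i
    linarith
  -- the quotient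
  have hq := PointT_quot hm hd0 hx0 hd hx ha2 hb0 (by linarith only [hm, hA1]) (by linarith only [hm, hξ, hC1, hδm])
  set q : ℝ := (∏ i, b i) * (∏ i, (b i - d i + x i)⁻¹) with hqdef
  set σ : ℝ := SS / m with hσ
  set τ : ℝ := ξ / m with hτ
  have hσ0 : 0 ≤ σ := by positivity
  have hτ0 : 0 ≤ τ := by positivity
  have hσA : σ ≤ A := by rw [hσ, div_le_iff₀ hm]; exact hSS
  have hτC : τ ≤ C / m := div_le_div_of_nonneg_right hξ hm.le
  -- the elementary symmetric polynomials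
  obtain ⟨n, hn⟩ : ∃ n, s = n + 1 := ⟨s - 1, by omega⟩
  have hcard : (univ : Finset (Fin R)).card = R := by rw [card_univ, Fintype.card_fin]
  set eb := eS (univ : Finset (Fin R)) b s with heb
  set ex := eS (univ : Finset (Fin R)) (fun i => b i + x i) s with hex
  set ea := eS (univ : Finset (Fin R)) (fun i => b i - d i + x i) s with hea
  have hM : ∀ i, b i + x i ≤ (1 + 2 * δ) * m := fun i => by
    have h1 := hb2 i
    have h2 := hxi i
    have h3 : (1 + 2 * δ) * m = (1 + δ) * m + δ * m := by ring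
    linarith
  have hp1 : (1 + 2 * δ) ^ (s - 1) ≤ 1 + 4 * (s * δ) := by
    have h1 : ((s - 1 : ℕ) : ℝ) ≤ s := by exact_mod_cast Nat.sub_le s 1
    have h2 : ((s - 1 : ℕ) : ℝ) * δ ≤ s * δ := mul_le_mul_of_nonneg_right h1 hδ.le
    have h4 : ((s - 1 : ℕ) : ℝ) * (2 * δ) = 2 * (((s - 1 : ℕ) : ℝ) * δ) := by ring
    have h3 := PointT_pow (2 * δ) (by linarith only [hδ]) (s - 1) (by linarith only [hδε, hεη, hη1, hsδ, h2])
    have h5 : 2 * ((s - 1 : ℕ) : ℝ) * (2 * δ) = 4 * (((s - 1 : ℕ) : ℝ) * δ) := by ring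
    linarith
  have hp2 : 1 - s * δ ≤ (1 - δ) ^ (s - 1) := by
    have h1 : ((s - 1 : ℕ) : ℝ) ≤ s := by exact_mod_cast Nat.sub_le s 1
    have h2 : ((s - 1 : ℕ) : ℝ) * δ ≤ s * δ := mul_le_mul_of_nonneg_right h1 hδ.le
    have h3 := PointT_pow' (δ := δ) (by linarith) (s - 1)
    linarith
  have E1 : ex - ea ≤ N * (α * (1 + 4 * (s * δ)) * σ) := by
    have h1 := PointT_eS_le (univ : Finset (Fin R)) (x := fun i => b i + x i)
      (y := fun i => b i - d i + x i) (M := (1 + 2 * δ) * m) n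
      (fun i _ => by have := hbd0 i; have := hx0 i; linarith)
      (fun i _ => by have := hd0 i; linarith) (fun i _ => hM i)
    rw [← hn, hcard] at h1
    have h2 : ∑ i, ((b i + x i) - (b i - d i + x i)) = SS := by
      rw [← hd]
      exact sum_congr rfl fun i _ => by ring
    have h3 : n = s - 1 := by omega
    rw [h2, h3, PointT_coef hs1 hsR hm, ← hN, ← hα] at h1
    refine h1.trans ?_
    have h4 : α * (N / m) * (1 + 2 * δ) ^ (s - 1) * SS = (α * N * σ) * (1 + 2 * δ) ^ (s - 1) := by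
      rw [hσ]
      field_simp
    rw [h4]
    refine (mul_le_mul_of_nonneg_left hp1 (by positivity)).trans (le_of_eq (by ring))
  have E2 : ex - eb ≤ N * (α * (1 + 4 * (s * δ)) * τ) := by
    have h1 := PointT_eS_le (univ : Finset (Fin R)) (x := fun i => b i + x i)
      (y := b) (M := (1 + 2 * δ) * m) n (fun i _ => (hb0 i).le)
      (fun i _ => by have := hx0 i; linarith only [this]) (fun i _ => hM i)
    rw [← hn, hcard] at h1
    have h2 : ∑ i, ((b i + x i) - b i) = ξ := by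
      rw [← hx]
      exact sum_congr rfl fun i _ => by ring
    have h3 : n = s - 1 := by omega
    rw [h2, h3, PointT_coef hs1 hsR hm, ← hN, ← hα] at h1
    refine h1.trans ?_
    have h4 : α * (N / m) * (1 + 2 * δ) ^ (s - 1) * ξ = (α * N * τ) * (1 + 2 * δ) ^ (s - 1) := by
      rw [hτ]
      field_simp
    rw [h4]
    refine (mul_le_mul_of_nonneg_left hp1 (by positivity)).trans (le_of_eq (by ring))
  have E3 : N * (α * (1 - s * δ) * τ) ≤ ex - eb := by
    have h1 := PointT_eS_ge (univ : Finset (Fin R)) (x := fun i => b i + x i)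
      (y := b) (L := (1 - δ) * m) (mul_nonneg (by linarith only [hδ1]) hm.le) n (fun i _ => hb1 i)
      (fun i _ => by have := hx0 i; linarith)
    rw [← hn, hcard] at h1
    have h2 : ∑ i, ((b i + x i) - b i) = ξ := by
      rw [← hx]
      exact sum_congr rfl fun i _ => by ring
    have h3 : n = s - 1 := by omega
    rw [h2, h3, PointT_coef hs1 hsR hm, ← hN, ← hα] at h1
    refine le_trans ?_ h1
    have h4 : α * (N / m) * (1 - δ) ^ (s - 1) * ξ = (α * N * τ) * (1 - δ) ^ (s - 1) := by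
      rw [hτ]
      field_simp
    rw [h4]
    refine le_trans (le_of_eq (by ring)) (mul_le_mul_of_nonneg_left hp2 (by positivity))
  have E4 : ea ≤ ex := by
    rw [hea, hex]
    unfold eS
    refine sum_le_sum fun J _ => prod_le_prod (fun i _ => ?_) fun i _ => ?_
    · have := hbd0 i
      have := hx0 i
      linarith
    · have := hd0 i
      linarith only [this]
  have E5 : eb ≤ N * (1 + 2 * (s * δ)) := by
    have h1 := PointT_eS_le_const (s := s) hcard (c := (1 + δ) * m) (x := b)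
      (fun i _ => (hb0 i).le) (fun i _ => hb2 i)
    have h2 := PointT_pow δ hδ.le s (by linarith only [hδε, hεη, hη1, hsδ])
    refine h1.trans ?_
    rw [mul_pow, hN]
    have h3 : 0 ≤ (R.choose s : ℝ) * m ^ s := by positivity
    calc (R.choose s : ℝ) * ((1 + δ) ^ s * m ^ s) = (R.choose s : ℝ) * m ^ s * (1 + δ) ^ s := by ring
      _ ≤ (R.choose s : ℝ) * m ^ s * (1 + 2 * s * δ) := mul_le_mul_of_nonneg_left h2 h3
      _ = _ := by ring
  have E6 : N * (1 - s * δ) ≤ eb := by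
    have h1 := PointT_eS_ge_const (s := s) hcard (c := (1 - δ) * m)
      (mul_nonneg (by linarith) hm.le) (x := b) (fun i _ => hb1 i)
    have h2 := PointT_pow' (δ := δ) (by linarith) s
    refine le_trans ?_ h1
    rw [mul_pow, hN]
    have h3 : 0 ≤ (R.choose s : ℝ) * m ^ s := by positivity
    calc (R.choose s : ℝ) * m ^ s * (1 - s * δ) ≤ (R.choose s : ℝ) * m ^ s * (1 - δ) ^ s :=
          mul_le_mul_of_nonneg_left h2 h3
      _ = _ := by ring
  have E7 : ρ ≤ N * (1 + 2 * (s * δ)) := by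
    have h1 : (1 + 1 / m) ^ s ≤ (1 + δ) ^ s := by
      refine pow_le_pow_left₀ (by positivity) ?_ s
      linarith
    have h2 := PointT_pow δ hδ.le s (by linarith)
    refine hρ2.trans (mul_le_mul_of_nonneg_left ?_ hN0.le)
    linarith
  -- the bound for `ea - ρ`
  have hsδ0 : 0 ≤ s * δ := by positivity
  have hsδ2 : s * δ ≤ 1 / 1024 := by linarith
  have hc1 : α * (1 + 4 * (s * δ)) ≤ 2 := by
    have : α * (1 + 4 * (s * δ)) ≤ 1 * (1 + 4 * (s * δ)) :=
      mul_le_mul_of_nonneg_right hα1 (by linarith)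
    linarith
  have F1 : |ea - ρ| ≤ N * (3 * (s * δ) + 2 * (σ + τ)) := by
    have g1 : N * (α * (1 + 4 * (s * δ)) * σ) ≤ N * (2 * σ) :=
      mul_le_mul_of_nonneg_left (mul_le_mul_of_nonneg_right hc1 hσ0) hN0.le
    have g2 : N * (α * (1 + 4 * (s * δ)) * τ) ≤ N * (2 * τ) :=
      mul_le_mul_of_nonneg_left (mul_le_mul_of_nonneg_right hc1 hτ0) hN0.le
    have g3 : 0 ≤ N * (α * (1 - s * δ) * τ) := by
      have : 0 ≤ 1 - s * δ := by linarith
      positivity
    have g4 : 0 ≤ N * σ := by positivity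
    have g5 : 0 ≤ N * τ := by positivity
    have g6 : 0 ≤ N * (s * δ) := by positivity
    have g7 : N * (3 * (s * δ) + 2 * (σ + τ)) = 3 * (N * (s * δ)) + 2 * (N * σ) + 2 * (N * τ) := by
      ring
    have g8 : N * (2 * σ) = 2 * (N * σ) := by ring
    have g9 : N * (2 * τ) = 2 * (N * τ) := by ring
    have g10 : N * (1 + 2 * (s * δ)) = N + 2 * (N * (s * δ)) := by ring
    have g11 : N * (1 - s * δ) = N - N * (s * δ) := by ring
    rw [g7, abs_le]
    rw [g8] at g1
    rw [g9] at g2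
    rw [g10] at E5 E7
    rw [g11] at E6
    constructor
    · linarith
    · linarith
  have F2 : -(N * ((3 * (s * δ) + 2 * (σ + τ)) * (4 * (σ + τ)))) ≤ (ea - ρ) * (q - 1) := by
    have h1 : |(ea - ρ) * (q - 1)| ≤ (N * (3 * (s * δ) + 2 * (σ + τ))) * (4 * (σ + τ)) := by
      rw [abs_mul]
      exact mul_le_mul F1 hq (abs_nonneg _) (by positivity)
    have h2 := (abs_le.1 h1).1
    linarith
  have F3 : (ea - ρ) * q = (ea - ρ) + (ea - ρ) * (q - 1) := by ring
  rw [F3]
  -- the final inequality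
  have G1 : N / m * ((α + η / 8) * SS) = N * ((α + η / 8) * σ) := by
    rw [hσ]
    field_simp
  have G2 : (1 - ε) * (N / m) * (α * ξ) = N * ((1 - ε) * (α * τ)) := by
    rw [hτ]
    field_simp
  rw [G1, G2]
  have key : 0 ≤ (α + η / 8) * σ - (1 - ε) * (α * τ) + α * (1 - s * δ) * τ -
      α * (1 + 4 * (s * δ)) * σ - (3 * (s * δ) + 2 * (σ + τ)) * (4 * (σ + τ)) := by
    have k1 : σ * σ ≤ A * σ := mul_le_mul_of_nonneg_right hσA hσ0
    have k2 : τ * τ ≤ C / m * τ := mul_le_mul_of_nonneg_right hτC hτ0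
    have k3 : τ * σ ≤ C / m * σ := mul_le_mul_of_nonneg_right hτC hσ0
    have k4 : 0 ≤ σ * (η / 8 - 4 * α * (s * δ) - 12 * (s * δ) - 8 * A - 16 * (C / m)) := by
      refine mul_nonneg hσ0 ?_
      have : α * (s * δ) ≤ 1 * (s * δ) := mul_le_mul_of_nonneg_right hα1 hsδ0
      linarith
    have k5 : 0 ≤ τ * (α * ε - α * (s * δ) - 12 * (s * δ) - 8 * (C / m)) := by
      refine mul_nonneg hτ0 ?_
      have h1 : α * (s * δ) ≤ α * (ε / 64) := mul_le_mul_of_nonneg_left (by linarith) hα0.le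
      have h2 : 0 < α * ε := by positivity
      linarith
    have e : (α + η / 8) * σ - (1 - ε) * (α * τ) + α * (1 - s * δ) * τ -
        α * (1 + 4 * (s * δ)) * σ - (3 * (s * δ) + 2 * (σ + τ)) * (4 * (σ + τ)) =
        σ * (η / 8 - 4 * α * (s * δ) - 12 * (s * δ) - 8 * A - 16 * (C / m)) +
        τ * (α * ε - α * (s * δ) - 12 * (s * δ) - 8 * (C / m)) + 8 * (A * σ - σ * σ) +
        8 * (C / m * τ - τ * τ) + 16 * (C / m * σ - τ * σ) := by ring
    rw [e]
    linarith only [k1, k2, k3, k4, k5]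
  have key' := mul_nonneg hN0.le key
  have e1 : N * ((α + η / 8) * σ - (1 - ε) * (α * τ) + α * (1 - s * δ) * τ -
      α * (1 + 4 * (s * δ)) * σ - (3 * (s * δ) + 2 * (σ + τ)) * (4 * (σ + τ))) =
      N * ((α + η / 8) * σ) - N * ((1 - ε) * (α * τ)) + N * (α * (1 - s * δ) * τ) -
      N * (α * (1 + 4 * (s * δ)) * σ) - N * ((3 * (s * δ) + 2 * (σ + τ)) * (4 * (σ + τ))) := by ring
  rw [e1] at key'
  linarith only [E1, E3, F2, key']


/-- the final assembly, real numbers -/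
private lemma PointT_fin {P mR m N SS S2 ξ Ks Z Kt α β η ε k2 E0 F0 : ℝ} (hm : 0 < m)
    (hmR : 0 < mR) (hN : 0 ≤ N) (hP : (1 - ε / 64) * mR ≤ P) (hε : 0 < ε) (hε1 : 16 * ε ≤ η)
    (hη : η ≤ 1) (hk : k2 = α - β / 2 + η) (hk0 : 0 ≤ k2) (hk2 : k2 ≤ 2) (hSS0 : 0 ≤ SS)
    (hS20 : 0 ≤ S2) (hS2 : S2 ≤ SS) (hKs : 0 ≤ Ks) (hZ : 0 ≤ Z)
    (hKt : k2 * (SS - S2) + Ks ≤ Kt)
    (h1 : E0 - N / m * ((α + η / 8) * SS) + (1 - ε) * (N / m) * (α * ξ) ≤ F0) :
    E0 - N / m * ((β / 2 - 3 * η / 4) * SS + 2 * S2) + (1 - ε) * (N / m) * (α * ξ + Ks + Z) ≤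
      F0 + P * (N / mR * (Kt + Z) / m) := by
  have hN' : 0 ≤ N / m := div_nonneg hN hm.le
  have hW0 : 0 ≤ k2 * (SS - S2) + Ks + Z := by
    have : 0 ≤ k2 * (SS - S2) := mul_nonneg hk0 (by linarith)
    linarith
  have hP2 : (1 - ε / 64) * (N / m * (k2 * (SS - S2) + Ks + Z)) ≤
      P * (N / mR * (Kt + Z) / m) := by
    have h1 : P * (N / mR * (Kt + Z) / m) = P / mR * (N / m * (Kt + Z)) := by
      field_simp
    rw [h1]
    have h2 : 1 - ε / 64 ≤ P / mR := by
      rw [le_div_iff₀ hmR]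
      exact hP
    have h3 : N / m * (k2 * (SS - S2) + Ks + Z) ≤ N / m * (Kt + Z) :=
      mul_le_mul_of_nonneg_left (by linarith) hN'
    exact mul_le_mul h2 h3 (mul_nonneg hN' hW0) (le_trans (by linarith only [hε1, hη]) h2)
  have hfin : N / m * (-((β / 2 - 3 * η / 4) * SS + 2 * S2) + (1 - ε) * (Ks + Z) +
      (α + η / 8) * SS) ≤ N / m * ((1 - ε / 64) * (k2 * (SS - S2) + Ks + Z)) := by
    refine mul_le_mul_of_nonneg_left ?_ hN'
    have k1 : ε / 64 * k2 ≤ ε / 64 * 2 := mul_le_mul_of_nonneg_left hk2 (by linarith)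
    have g1 : 0 ≤ SS * (η / 8 - ε / 64 * k2) := mul_nonneg hSS0 (by linarith only [hε, hε1, k1])
    have g2 : 0 ≤ ε / 64 * k2 := mul_nonneg (by linarith only [hε]) hk0
    have g4 : 0 ≤ S2 * (2 - (1 - ε / 64) * k2) := mul_nonneg hS20 (by linarith only [hk2, g2])
    have g5 : 0 ≤ (ε - ε / 64) * (Ks + Z) := mul_nonneg (by linarith) (by linarith only [hKs, hZ])
    have e : (1 - ε / 64) * (k2 * (SS - S2) + Ks + Z) - (-((β / 2 - 3 * η / 4) * SS + 2 * S2) +
        (1 - ε) * (Ks + Z) + (α + η / 8) * SS) = SS * (η / 8 - ε / 64 * k2) +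
        S2 * (2 - (1 - ε / 64) * k2) + (ε - ε / 64) * (Ks + Z) := by
      rw [hk]
      ring
    linarith only [g1, g4, g5, e]
  have e2 : (1 - ε) * (N / m) * (α * ξ + Ks + Z) =
      (1 - ε) * (N / m) * (α * ξ) + N / m * ((1 - ε) * (Ks + Z)) := by
    ring
  have e3 : N / m * (-((β / 2 - 3 * η / 4) * SS + 2 * S2) + (1 - ε) * (Ks + Z) +
      (α + η / 8) * SS) = -(N / m * ((β / 2 - 3 * η / 4) * SS + 2 * S2)) +
      N / m * ((1 - ε) * (Ks + Z)) + N / m * ((α + η / 8) * SS) := by ring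
  have e4 : (1 - ε / 64) * (N / m * (k2 * (SS - S2) + Ks + Z)) =
      N / m * ((1 - ε / 64) * (k2 * (SS - S2) + Ks + Z)) := by ring
  rw [e2]
  rw [e3] at hfin
  rw [e4] at hP2
  linarith

private lemma PointT_eS_im {V : Type*} [DecidableEq V] {G : SimpleGraph V} [DecidableRel G.Adj]
    {R : ℕ} {B : Fin R → Finset V} {f : Fin R → V} (hf : f ∈ tcl G B) (F : V → ℝ) (n : ℕ) :
    eS (im f) F n = eS (univ : Finset (Fin R)) (fun i => F (f i)) n := by
  rw [eS_esymm, eS_esymm]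
  congr 1
  unfold im
  rw [image_val_of_injOn ((tcl_injective hf).injOn), Multiset.map_map]
  rfl

theorem pointT (R s r : ℕ) (hs2 : 2 ≤ s) (hsR : s ≤ R) (C η ζ η₁ δ ε₇ : ℝ) (hC : 0 < C)
    (hη : 0 < η) (hηb : η ≤ be R s / 8) (hζ : 0 < ζ) (hζ1 : ζ ≤ (s : ℝ) / R / 4) (hη₁ : 0 < η₁)
    (hη₁R : 1024 * R ^ 2 * η₁ ≤ η) (hδ0 : 0 < δ) (hε : 0 < ε₇) (hε1 : 16 * ε₇ ≤ η)
    (hδε : 64 * R * δ ≤ ε₇) :
    ∃ m₀ : ℕ, ∀ m : ℕ, m₀ ≤ m →
      ∀ (V : Type) [DecidableEq V] (G : SimpleGraph V) [DecidableRel G.Adj] (S : Finset V)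
        (B : Fin R → Finset V) (ν : Finset V → ℝ) (ρ : ℝ), S.card ≤ R * m + r →
        LS G S R m C η₁ δ B → (∀ T, 0 ≤ ν T ∧ ν T ≤ 1) → N0 R s m ≤ ρ →
        ρ ≤ N0 R s m * (1 + 1 / (m : ℝ)) ^ s → ∀ f ∈ tcl G B,
        (eS (univ : Finset (Fin R)) (fun i => ((B i).card : ℝ)) s - ρ) -
            N0 R s m / m * ((be R s / 2 - 3 * η / 4) * ss G B f + 2 * s2 G B f) +
            (1 - ε₇) * (N0 R s m / m) * XT G S B s η ζ ν f ≤
          (∏ l, ((B l).card : ℝ)) * lz G S R s m η ζ ρ ν (im f) := by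
  have hs0 : (2 : ℝ) ≤ s := by exact_mod_cast hs2
  have hsR' : (s : ℝ) ≤ R := by exact_mod_cast hsR
  have hR0 : (0 : ℝ) < R := by linarith
  set α : ℝ := (s : ℝ) / R with hα
  have hα0 : 0 < α := by positivity
  have hα1 : α ≤ 1 := by rw [hα, div_le_one hR0]; exact hsR'
  have hbe0 : 0 ≤ be R s := by
    unfold be
    have h1 : (0 : ℝ) ≤ s - 1 := by linarith
    have h2 : (0 : ℝ) ≤ R - 1 := by linarith
    positivity
  have hbe1 : be R s ≤ α := by
    unfold be
    have h1 : (0 : ℝ) < R - 1 := by linarith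
    rw [hα, div_le_div_iff₀ (by positivity) hR0]
    have h2 : (s : ℝ) * (s - 1) * R = s * R * (s - 1) := by ring
    have h3 : (s : ℝ) * (R * (R - 1)) = s * R * (R - 1) := by ring
    rw [h2, h3]
    exact mul_le_mul_of_nonneg_left (by linarith) (by positivity)
  have hη1 : η ≤ 1 / 8 := by linarith only [hηb, hα1, hbe1]
  obtain ⟨m₁, hm₁⟩ := exists_nat_ge (C / δ + 1024 * C / η + 32 * C / (α * ε₇) + 1 / δ + 1)
  refine ⟨m₁, fun m hm V _ G _ S B ν ρ hS h hν hρ1 hρ2 f hf => ?_⟩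
  have hm1 : (m₁ : ℝ) ≤ m := by exact_mod_cast hm
  have q1 : 0 ≤ C / δ := by positivity
  have q2 : 0 ≤ 1024 * C / η := by positivity
  have q3 : 0 ≤ 32 * C / (α * ε₇) := by positivity
  have q4 : 0 ≤ 1 / δ := by positivity
  have hm0 : (0 : ℝ) < m := by linarith only [hε, hε1, hα1, hbe1, hm₁, hm1, q1, q2, q3, q4]
  have c1 : C / m ≤ δ := by
    have : C / δ ≤ m := by linarith only [hηb, hε, hα1, hbe1, hm₁, hm1, q2, q3, q4]
    rw [div_le_iff₀ hδ0] at this
    rw [div_le_iff₀ hm0]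
    linarith only [this]
  have c2 : 1024 * (C / m) ≤ η := by
    have : 1024 * C / η ≤ m := by linarith only [hηb, hε, hm₁, hm1, q1, q3, q4]
    rw [div_le_iff₀ hη] at this
    rw [← mul_div_assoc, div_le_iff₀ hm0]
    linarith
  have c3 : 32 * (C / m) ≤ α * ε₇ := by
    have : 32 * C / (α * ε₇) ≤ m := by linarith
    rw [div_le_iff₀ (by positivity)] at this
    rw [← mul_div_assoc, div_le_iff₀ hm0]
    linarith
  have c4 : 1 / (m : ℝ) ≤ δ := by
    have : 1 / δ ≤ m := by linarith only [hm₁, hm1, q1, q2, q3]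
    rw [div_le_iff₀ hδ0] at this
    rw [div_le_iff₀ hm0]
    linarith only [this]
  -- the data
  set b : Fin R → ℝ := fun i => ((B i).card : ℝ) with hb
  set d : Fin R → ℝ := fun i => (((B i).filter fun z => ∃ j, j ≠ i ∧ ¬ G.Adj z (f j)).card : ℝ)
    with hd
  set x : Fin R → ℝ := fun i => (((S \ un B).filter fun z => hs G (im f) z = {f i}).card : ℝ)
    with hx
  set ξ : ℝ := (((S \ un B).filter fun z => (hs G (im f) z).card = 1).card : ℝ) with hξd
  have hξ : ∑ l, x l = ξ := by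
    rw [hx, hξd, ← Nat.cast_sum, ← card_biUnion]
    · congr 2
      ext z
      simp only [mem_biUnion, mem_univ, true_and, mem_filter]
      constructor
      · rintro ⟨l, hz, hl⟩
        exact ⟨hz, by rw [hl, card_singleton]⟩
      · rintro ⟨hz, hc⟩
        obtain ⟨t, ht⟩ := card_eq_one.1 hc
        have : t ∈ hs G (im f) z := by rw [ht]; exact mem_singleton_self t
        obtain ⟨l, hl⟩ := mem_im.1 (mem_hs.1 this).1
        exact ⟨l, hz, by rw [ht, hl]⟩
    · intro a _ b _ hab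
      refine disjoint_left.2 fun z hz hz' => ?_
      rw [mem_filter] at hz hz'
      rw [hz.2] at hz'
      exact hab (tcl_injective hf (singleton_inj.1 hz'.2))
  have hξC : ξ ≤ C := by
    have h1 : ξ ≤ ((S \ un B).card : ℝ) := by
      rw [hξd]
      exact_mod_cast card_le_card (filter_subset _ _)
    exact h1.trans h.hX
  have hSS : ss G B f ≤ 2 * R ^ 2 * η₁ * m := by
    have h1 : ss G B f ≤ ∑ _i : Fin R, 2 * R * η₁ * m :=
      sum_le_sum fun i _ => delta_le h hη₁.le hf i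
    rw [sum_const, nsmul_eq_mul, card_univ, Fintype.card_fin] at h1
    refine h1.trans (le_of_eq (by ring))
  have hSS0 : 0 ≤ ss G B f := by
    unfold ss
    exact sum_nonneg fun i _ => Nat.cast_nonneg _
  have hS20 : 0 ≤ s2 G B f := by
    unfold s2
    exact sum_nonneg fun i _ => Nat.cast_nonneg _
  have hS2 : s2 G B f ≤ ss G B f := by
    unfold s2 ss
    refine sum_le_sum fun i _ => ?_
    have : ((B i).filter fun z => ∃ j k, j ≠ i ∧ k ≠ i ∧ j ≠ k ∧ ¬ G.Adj z (f j) ∧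
        ¬ G.Adj z (f k)) ⊆ ((B i).filter fun z => ∃ j, j ≠ i ∧ ¬ G.Adj z (f j)) := by
      intro z hz
      rw [mem_filter] at hz ⊢
      obtain ⟨hz, j, k, hji, -, -, hj, -⟩ := hz
      exact ⟨hz, j, hji, hj⟩
    exact_mod_cast card_le_card this
  have haa : ∀ i, (aa G S (im f) (f i) : ℝ) = b i - d i + x i := fun i => aa_eq h hf i
  -- first part
  have P1 := PointT_real hs2 hsR (b := b) (d := d) (x := x) (m := (m : ℝ)) (N := N0 R s m)
    (A := 2 * R ^ 2 * η₁) (SS := ss G B f) (ξ := ξ) (ρ := ρ) (α := α) (C := C) hm0 rfl hα hδ0 hδε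
    hε1 (by linarith) c1 c2 c3 c4 (by linarith) h.size_lo h.size_hi (fun i => Nat.cast_nonneg _)
    (fun i => Nat.cast_nonneg _) rfl hξ hSS hξC hρ1 hρ2
  -- the costs
  have hkt2 : kt R s η 2 = α - be R s / 2 + η := by
    unfold kt
    rw [if_neg (by norm_num), if_pos rfl]
  have hkt20 : 0 ≤ kt R s η 2 := by rw [hkt2]; linarith
  have hkt22 : kt R s η 2 ≤ 2 := by rw [hkt2]; linarith
  have hktn : ∀ j, 0 ≤ kt R s η j := by
    intro j
    by_cases hj : j = 2
    · rw [hj]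
      exact hkt20
    · exact PointT_kt hη.le hj
  have hsum := sum_kt_ge (s := s) h hf hη.le
  set Ks : ℝ := ∑ z ∈ S \ un B, kt R s η (hs G (im f) z).card with hKs
  have hKs0 : 0 ≤ Ks := sum_nonneg fun z _ => hktn _
  have hXT : XT G S B s η ζ ν f = α * ξ + Ks + ζ * ν (im f) := by
    unfold XT
    congr 1
    rw [hξd, card_filter]
    push_cast
    rw [hKs, mul_sum, ← sum_add_distrib]
    refine sum_congr rfl fun z _ => ?_
    by_cases h1 : (hs G (im f) z).card = 1
    · rw [if_pos h1, if_pos h1, h1, mul_one]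
      have : kt R s η 1 = 0 := by
        unfold kt
        rw [if_pos (by norm_num)]
      rw [this, add_zero]
    · rw [if_neg h1, if_neg h1, mul_zero, zero_add]
  have hζν : 0 ≤ ζ * ν (im f) := mul_nonneg hζ.le (hν _).1
  have hP : (1 - ε₇ / 64) * (m : ℝ) ^ R ≤ ∏ l, b l := by
    have hRδ : R * δ ≤ ε₇ / 64 := by linarith
    have h1R : (1 : ℝ) ≤ R := by linarith
    have hδ1 : δ ≤ 1 := by
      have : 1 * δ ≤ R * δ := mul_le_mul_of_nonneg_right h1R hδ0.le
      linarith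
    have h1 : ((1 - δ) * m) ^ R ≤ ∏ l, b l := by
      have : ((1 - δ) * (m : ℝ)) ^ R = ∏ _l : Fin R, (1 - δ) * (m : ℝ) := by
        rw [prod_const, card_univ, Fintype.card_fin]
      rw [this]
      exact prod_le_prod (fun i _ => mul_nonneg (by linarith) hm0.le) fun i _ => h.size_lo i
    refine le_trans ?_ h1
    rw [mul_pow]
    refine mul_le_mul_of_nonneg_right ?_ (by positivity)
    have := PointT_pow' hδ1 R
    linarith only [hδε, this]
  have hN0 : 0 ≤ N0 R s m := by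
    unfold N0
    positivity
  have hN' : 0 ≤ N0 R s m / m := by positivity
  -- assembly
  have hmR : (0 : ℝ) < (m : ℝ) ^ R := pow_pos hm0 R
  have Q1 := PointT_fin (P := ∏ l, b l) (mR := (m : ℝ) ^ R) (Z := ζ * ν (im f)) (β := be R s) hm0 hmR
    hN0 hP hε hε1 (by linarith only [hηb, hα1, hbe1]) hkt2 hkt20 hkt22 hSS0 hS20 hS2 hKs0 hζν hsum P1
  have e0 : lz G S R s m η ζ ρ ν (im f) =
      (eS (univ : Finset (Fin R)) (fun i => b i - d i + x i) s - ρ) *
        (∏ i, (b i - d i + x i)⁻¹) + N0 R s m / (m : ℝ) ^ R *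
          ((∑ z ∈ S, kt R s η (hs G (im f) z).card) + ζ * ν (im f)) / m := by
    unfold lz
    rw [PointT_eS_im hf, prod_im hf (fun t => ((aa G S (im f) t : ℝ))⁻¹)]
    simp only [haa]
  rw [e0, hXT]
  refine Q1.trans (le_of_eq ?_)
  have gen : ∀ A q1 q2 Y : ℝ, A * (q1 * q2) + q1 * Y = q1 * (A * q2 + Y) := by
    intro A q1 q2 Y
    ring
  exact gen _ _ _ _

end H57LT
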