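import Pool.Agent.H57.LT.Defs
import Pool.Agent.H57.LC.TSums

/-!
The number of `s`-cliques inside the light sets (note 3585, 4d).
-/

namespace H57LT

open Finset H57LC

set_option linter.unusedSectionVars false

variable {V : Type*} [DecidableEq V] {G : SimpleGraph V} [DecidableRel G.Adj]

/-- the index set of a set of vertices -/
private def ClT_idx {R : ℕ} (B : Fin R → Finset V) (T : Finset V) : Finset (Fin R) :=
  univ.filter fun i => (T ∩ B i).Nonempty

private lemma ClT_idx_card {R s : ℕ} {B : Fin R → Finset V}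
    (hdisj : ∀ i j, i ≠ j → Disjoint (B i) (B j))
    (hind : ∀ i, ∀ a ∈ B i, ∀ b ∈ B i, ¬ G.Adj a b) {T : Finset V} (hT : T ∈ clq G (un B) s) :
    (ClT_idx B T).card = s := by
  obtain ⟨⟨hTU, hTs⟩, hTcl⟩ := mem_clq.1 hT
  have hle : ∀ i, (T ∩ B i).card ≤ 1 := fun i => clique_inter_card hind hTcl i
  have hTeq : T = (univ : Finset (Fin R)).biUnion (fun i => T ∩ B i) := by
    ext a
    simp only [mem_biUnion, mem_univ, true_and, mem_inter]
    constructor
    · intro ha
      obtain ⟨i, hi⟩ := mem_un.1 (hTU ha)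
      exact ⟨i, ha, hi⟩
    · rintro ⟨i, ha, -⟩
      exact ha
  have hcard : T.card = ∑ i : Fin R, (T ∩ B i).card := by
    conv_lhs => rw [hTeq]
    rw [Finset.card_biUnion]
    intro i _ j _ hij
    exact (hdisj i j hij).mono inter_subset_right inter_subset_right
  have h1 : ∑ i : Fin R, (T ∩ B i).card = ∑ i : Fin R, if (T ∩ B i).Nonempty then 1 else 0 := by
    refine Finset.sum_congr rfl fun i _ => ?_
    split_ifs with h
    · exact le_antisymm (hle i) (Finset.card_pos.2 h)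
    · rw [not_nonempty_iff_eq_empty.1 h, card_empty]
  unfold ClT_idx
  rw [Finset.card_filter, ← h1, ← hcard, hTs]

/-- the tuples which are cliques on the index set `J` -/
private def ClT_F (G : SimpleGraph V) [DecidableRel G.Adj] {R : ℕ} (B : Fin R → Finset V)
    (J : Finset (Fin R)) : Finset (Fin R → V) :=
  (Fintype.piFinset B).filter fun f => ∀ i ∈ J, ∀ j ∈ J, i ≠ j → G.Adj (f i) (f j)

private lemma ClT_idx_image {R : ℕ} {B : Fin R → Finset V}
    (hdisj : ∀ i j, i ≠ j → Disjoint (B i) (B j)) {f : Fin R → V} (hf : ∀ i, f i ∈ B i)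
    (J : Finset (Fin R)) : ClT_idx B (J.image f) = J := by
  ext i
  unfold ClT_idx
  rw [mem_filter]
  constructor
  · rintro ⟨-, a, ha⟩
    rw [mem_inter, mem_image] at ha
    obtain ⟨⟨j, hj, rfl⟩, hb⟩ := ha
    by_cases hij : i = j
    · rw [hij]; exact hj
    · exact absurd (hf j) (Finset.disjoint_left.1 (hdisj i j hij) hb)
  · intro hi
    exact ⟨mem_univ _, f i, mem_inter.2 ⟨mem_image.2 ⟨i, hi, rfl⟩, hf i⟩⟩

private lemma ClT_image_mem {R s : ℕ} {B : Fin R → Finset V} {f : Fin R → V}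
    {J : Finset (Fin R)} (hJ : J.card = s) (hf : f ∈ ClT_F G B J) :
    J.image f ∈ clq G (un B) s := by
  obtain ⟨hfB, hfJ⟩ := mem_filter.1 hf
  rw [Fintype.mem_piFinset] at hfB
  rw [mem_clq]
  refine ⟨⟨?_, ?_⟩, ?_⟩
  · intro a ha
    obtain ⟨i, -, rfl⟩ := mem_image.1 ha
    exact mem_un.2 ⟨i, hfB i⟩
  · rw [Finset.card_image_of_injOn, hJ]
    intro i hi j hj hij
    by_contra hne
    have h1 := hfJ i hi j hj hne
    rw [show f i = f j from hij] at h1
    exact G.loopless.irrefl _ h1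
  · intro a ha b hb hab
    obtain ⟨i, hi, rfl⟩ := mem_image.1 ha
    obtain ⟨j, hj, rfl⟩ := mem_image.1 hb
    exact hfJ i hi j hj (fun h => hab (by rw [h]))

/-- the tuples over a given clique -/
private lemma ClT_fiber {R s : ℕ} {B : Fin R → Finset V}
    (hdisj : ∀ i j, i ≠ j → Disjoint (B i) (B j))
    (hind : ∀ i, ∀ a ∈ B i, ∀ b ∈ B i, ¬ G.Adj a b) {T : Finset V} (hT : T ∈ clq G (un B) s) :
    ((ClT_F G B (ClT_idx B T)).filter fun f => (ClT_idx B T).image f = T).card =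
      ∏ l ∈ (ClT_idx B T)ᶜ, (B l).card := by
  classical
  obtain ⟨⟨hTU, hTs⟩, hTcl⟩ := mem_clq.1 hT
  have hle : ∀ i, (T ∩ B i).card ≤ 1 := fun i => clique_inter_card hind hTcl i
  set J := ClT_idx B T with hJ
  have hmemJ : ∀ i, i ∈ J ↔ (T ∩ B i).Nonempty := by
    intro i
    rw [hJ]
    unfold ClT_idx
    rw [mem_filter]
    exact ⟨fun h => h.2, fun h => ⟨mem_univ _, h⟩⟩
  have heq : ((ClT_F G B J).filter fun f => J.image f = T) =
      Fintype.piFinset (fun i => if i ∈ J then T ∩ B i else B i) := by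
    ext f
    rw [mem_filter, ClT_F, mem_filter, Fintype.mem_piFinset, Fintype.mem_piFinset]
    constructor
    · rintro ⟨⟨h1, h2⟩, h3⟩ i
      split_ifs with hi
      · refine mem_inter.2 ⟨?_, h1 i⟩
        have : f i ∈ J.image f := mem_image.2 ⟨i, hi, rfl⟩
        rw [h3] at this
        exact this
      · exact h1 i
    · intro h
      have hB : ∀ i, f i ∈ B i := by
        intro i
        have h1 := h i
        split_ifs at h1 with hi
        · exact (mem_inter.1 h1).2
        · exact h1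
      have hTf : ∀ i ∈ J, f i ∈ T := by
        intro i hi
        have h1 := h i
        rw [if_pos hi] at h1
        exact (mem_inter.1 h1).1
      refine ⟨⟨hB, ?_⟩, ?_⟩
      · intro i hi j hj hij
        refine hTcl _ (hTf i hi) _ (hTf j hj) ?_
        intro he
        exact Finset.disjoint_left.1 (hdisj i j hij) (hB i) (he ▸ hB j)
      · ext a
        rw [mem_image]
        constructor
        · rintro ⟨i, hi, rfl⟩
          exact hTf i hi
        · intro ha
          obtain ⟨i, hi⟩ := mem_un.1 (hTU ha)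
          have hiJ : i ∈ J := (hmemJ i).2 ⟨a, mem_inter.2 ⟨ha, hi⟩⟩
          refine ⟨i, hiJ, ?_⟩
          exact Finset.card_le_one.1 (hle i) _ (mem_inter.2 ⟨hTf i hiJ, hB i⟩) _
            (mem_inter.2 ⟨ha, hi⟩)
  rw [heq, Fintype.card_piFinset, ← Finset.prod_compl_mul_prod J]
  have h1 : ∏ i ∈ J, (if i ∈ J then T ∩ B i else B i).card = 1 := by
    refine Finset.prod_eq_one fun i hi => ?_
    rw [if_pos hi]
    exact le_antisymm (hle i) (Finset.card_pos.2 ((hmemJ i).1 hi))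
  rw [h1, mul_one]
  refine Finset.prod_congr rfl fun i hi => ?_
  rw [if_neg (Finset.mem_compl.1 hi)]

/-- `s`-cliques inside `un B` and tuples which are cliques on the index set `J` -/
theorem clq_un_eq {R s : ℕ} {B : Fin R → Finset V} (hdisj : ∀ i j, i ≠ j → Disjoint (B i) (B j))
    (hind : ∀ i, ∀ a ∈ B i, ∀ b ∈ B i, ¬ G.Adj a b) :
    ((clq G (un B) s).card : ℝ) * ∏ l, ((B l).card : ℝ) =
      ∑ J ∈ powersetCard s (univ : Finset (Fin R)), (∏ j ∈ J, ((B j).card : ℝ)) *
        (((Fintype.piFinset B).filter fun f =>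
          ∀ i ∈ J, ∀ j ∈ J, i ≠ j → G.Adj (f i) (f j)).card : ℝ) := by
  classical
  have h1 : (clq G (un B) s).card =
      ∑ J ∈ powersetCard s (univ : Finset (Fin R)),
        ((clq G (un B) s).filter fun T => ClT_idx B T = J).card := by
    refine Finset.card_eq_sum_card_fiberwise ?_
    intro T hT
    rw [Finset.mem_coe] at hT ⊢
    exact mem_powersetCard.2 ⟨subset_univ _, ClT_idx_card hdisj hind hT⟩
  have h2 : ∀ J ∈ powersetCard s (univ : Finset (Fin R)), (ClT_F G B J).card =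
      ((clq G (un B) s).filter fun T => ClT_idx B T = J).card * ∏ l ∈ Jᶜ, (B l).card := by
    intro J hJ
    have hJc : J.card = s := (mem_powersetCard.1 hJ).2
    have h3 : (ClT_F G B J).card =
        ∑ T ∈ (clq G (un B) s).filter (fun T => ClT_idx B T = J),
          ((ClT_F G B J).filter fun f => J.image f = T).card := by
      refine Finset.card_eq_sum_card_fiberwise ?_
      intro f hf
      rw [Finset.mem_coe] at hf
      rw [Finset.mem_coe, mem_filter]
      refine ⟨ClT_image_mem hJc hf, ClT_idx_image hdisj ?_ J⟩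
      exact Fintype.mem_piFinset.1 (mem_filter.1 hf).1
    rw [h3, ← smul_eq_mul, ← Finset.sum_const]
    refine Finset.sum_congr rfl fun T hT => ?_
    obtain ⟨hT1, hT2⟩ := mem_filter.1 hT
    have h4 := ClT_fiber hdisj hind hT1
    rw [hT2] at h4
    exact h4
  rw [h1]
  push_cast
  rw [Finset.sum_mul]
  refine Finset.sum_congr rfl fun J hJ => ?_
  have h3 := h2 J hJ
  unfold ClT_F at h3
  rw [h3]
  push_cast
  rw [← Finset.prod_compl_mul_prod J]
  ring

/-! ### second Bonferroni inequality -/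

private lemma ClT_na_zero {x y : V} (h : G.Adj x y) : na G x y = 0 := by
  unfold na
  rw [if_pos h]

/-- resampling the coordinate `k` in a missing pair whose other vertex does not depend on it -/
private lemma ClT_key {R m : ℕ} {S : Finset V} {C η₁ δ : ℝ} {B : Fin R → Finset V}
    (h : LS G S R m C η₁ δ B) (hδ : δ ≤ 1 / 2) (hm : 0 < m) (k i : Fin R)
    (hik : i ≠ k) (g : (Fin R → V) → ℝ) (hg0 : ∀ f, 0 ≤ g f)
    (hg : ∀ f y, g (Function.update f k y) = g f) (zz : (Fin R → V) → V)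
    (hz : ∀ f ∈ Fintype.piFinset B, zz f ∈ B i)
    (hzz : ∀ f y, zz (Function.update f k y) = zz f) :
    ∑ f ∈ Fintype.piFinset B, g f * na G (zz f) (f k) ≤
      4 * η₁ * ∑ f ∈ Fintype.piFinset B, g f := by
  have hm0 : (0 : ℝ) < m := by exact_mod_cast hm
  have h1 : ((B k).card : ℝ) * ∑ f ∈ Fintype.piFinset B, g f * na G (zz f) (f k) ≤
      2 * η₁ * m * ∑ f ∈ Fintype.piFinset B, g f := by
    rw [resample B k (fun f => g f * na G (zz f) (f k)), Finset.mul_sum]
    refine Finset.sum_le_sum fun f hf => ?_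
    have h2 : ∑ y ∈ B k, g (Function.update f k y) *
        na G (zz (Function.update f k y)) ((Function.update f k y) k) =
        g f * ((hs G (B k) (zz f)).card : ℝ) := by
      rw [← sum_na, Finset.mul_sum]
      refine Finset.sum_congr rfl fun y _ => ?_
      rw [hg, hzz, Function.update_self]
    rw [h2, mul_comm]
    exact mul_le_mul_of_nonneg_right (h.row i k hik _ (hz f hf)) (hg0 f)
  have hnn : 0 ≤ ∑ f ∈ Fintype.piFinset B, g f * na G (zz f) (f k) :=
    Finset.sum_nonneg fun f _ => mul_nonneg (hg0 f) (na_nonneg _ _)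
  have hb : (m : ℝ) / 2 ≤ ((B k).card : ℝ) := by
    have h3 := h.size_lo k
    nlinarith
  have h4 := mul_le_mul_of_nonneg_right hb hnn
  have h5 : (m : ℝ) / 2 * ∑ f ∈ Fintype.piFinset B, g f * na G (zz f) (f k) ≤
      (m : ℝ) / 2 * (4 * η₁ * ∑ f ∈ Fintype.piFinset B, g f) := by
    calc _ ≤ _ := h4
      _ ≤ _ := h1
      _ = _ := by ring
  exact le_of_mul_le_mul_left h5 (by positivity)

/-- the number of ordered non-adjacent pairs of a tuple with indices in `J` -/
private def ClT_D (G : SimpleGraph V) [DecidableRel G.Adj] {R : ℕ} (J : Finset (Fin R))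
    (f : Fin R → V) : ℝ := ∑ i ∈ J, ∑ j ∈ J.erase i, na G (f i) (f j)

/-- the ordered pairs of different elements of `J` -/
private def ClT_P {R : ℕ} (J : Finset (Fin R)) : Finset (Fin R × Fin R) :=
  (J ×ˢ J).filter fun p => p.1 ≠ p.2

private lemma ClT_DP {R : ℕ} (J : Finset (Fin R)) (f : Fin R → V) :
    ClT_D G J f = ∑ p ∈ ClT_P J, na G (f p.1) (f p.2) := by
  unfold ClT_D ClT_P
  rw [Finset.sum_filter, Finset.sum_product]
  refine Finset.sum_congr rfl fun i _ => ?_
  rw [← Finset.sum_filter]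
  refine Finset.sum_congr ?_ fun _ _ => rfl
  ext j
  rw [Finset.mem_erase, Finset.mem_filter]
  exact ⟨fun h => ⟨h.2, h.1.symm⟩, fun h => ⟨h.2.symm, h.1⟩⟩

private lemma ClT_D_nonneg {R : ℕ} (J : Finset (Fin R)) (f : Fin R → V) : 0 ≤ ClT_D G J f :=
  sum_nonneg fun _ _ => sum_nonneg fun _ _ => na_nonneg _ _

/-- `ClT_D` is an even natural number -/
private lemma ClT_even {R : ℕ} (J : Finset (Fin R)) (f : Fin R → V) :
    ∃ Y : ℕ, ClT_D G J f = 2 * Y := by
  refine ⟨((J ×ˢ J).filter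
    fun p => p.1 < p.2 ∧ ¬ G.Adj (f p.1) (f p.2)).card, ?_⟩
  have h1 : (((J ×ˢ J).filter
      fun p => p.1 < p.2 ∧ ¬ G.Adj (f p.1) (f p.2)).card : ℝ) =
      ∑ p ∈ J ×ˢ J, (if p.1 < p.2 then na G (f p.1) (f p.2) else 0) := by
    rw [Finset.natCast_card_filter]
    refine Finset.sum_congr rfl fun p _ => ?_
    unfold na
    by_cases hp : p.1 < p.2 <;> by_cases ha : G.Adj (f p.1) (f p.2) <;> simp [hp, ha]
  have h2 : ∑ p ∈ J ×ˢ J, (if p.1 < p.2 then na G (f p.1) (f p.2) else 0) =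
      ∑ p ∈ J ×ˢ J, (if p.2 < p.1 then na G (f p.1) (f p.2) else 0) := by
    refine Finset.sum_bij (fun p _ => p.swap) ?_ ?_ ?_ ?_
    · intro p hp
      rw [Finset.mem_product] at hp ⊢
      exact ⟨hp.2, hp.1⟩
    · intro p _ q _ hpq
      exact Prod.swap_injective hpq
    · intro p hp
      rw [Finset.mem_product] at hp
      exact ⟨p.swap, Finset.mem_product.2 ⟨hp.2, hp.1⟩, Prod.swap_swap p⟩
    · intro p _
      rw [Prod.fst_swap, Prod.snd_swap, na_comm]
  have h3 : ClT_D G J f = ∑ p ∈ J ×ˢ J, (if p.1 < p.2 then na G (f p.1) (f p.2) else 0) +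
      ∑ p ∈ J ×ˢ J, (if p.2 < p.1 then na G (f p.1) (f p.2) else 0) := by
    rw [ClT_DP, ClT_P, Finset.sum_filter, ← Finset.sum_add_distrib]
    refine Finset.sum_congr rfl fun p _ => ?_
    rcases lt_trichotomy p.1 p.2 with hp | hp | hp
    · simp [hp, hp.ne, hp.not_gt]
    · simp [hp]
    · simp [hp, hp.ne', hp.not_gt]
  rw [h3, ← h2, h1]
  ring

/-- second Bonferroni inequality on the index set `J` -/
theorem card_J_le {R m : ℕ} {S : Finset V} {C η₁ δ : ℝ} {B : Fin R → Finset V}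
    (h : LS G S R m C η₁ δ B) (hη : 0 ≤ η₁) (hδ : δ ≤ 1 / 2) (hm : 0 < m) (J : Finset (Fin R)) :
    ((((Fintype.piFinset B).filter fun f =>
        ∀ i ∈ J, ∀ j ∈ J, i ≠ j → G.Adj (f i) (f j)).card : ℕ) : ℝ) ≤
      (∏ l, ((B l).card : ℝ)) - (1 / 2 - (R : ℝ) ^ 2 * η₁) *
        ∑ f ∈ Fintype.piFinset B, ∑ i ∈ J, ∑ j ∈ J.erase i, na G (f i) (f j) := by
  -- the indicator
  have hind : ∀ f : Fin R → V, (if (∀ i ∈ J, ∀ j ∈ J, i ≠ j → G.Adj (f i) (f j)) then (1 : ℝ)
      else 0) ≤ 1 - 1 / 2 * ClT_D G J f + 1 / 8 * (ClT_D G J f ^ 2 - 2 * ClT_D G J f) := by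
    intro f
    obtain ⟨Y, hY⟩ := ClT_even (G := G) J f
    rw [hY]
    split_ifs with hf
    · have h0 : ClT_D G J f = 0 := by
        unfold ClT_D
        refine Finset.sum_eq_zero fun i hi => Finset.sum_eq_zero fun j hj => ?_
        exact ClT_na_zero (hf i hi j (Finset.mem_erase.1 hj).2 (Finset.mem_erase.1 hj).1.symm)
      rw [hY] at h0
      rw [h0]
      norm_num
    · rcases Nat.lt_or_ge Y 2 with hY2 | hY2
      · interval_cases Y <;> norm_num
      · have h2 : (2 : ℝ) ≤ Y := by exact_mod_cast hY2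
        nlinarith
  -- the second moment
  have hsq : ∀ f : Fin R → V, ClT_D G J f ^ 2 - 2 * ClT_D G J f = ∑ p ∈ ClT_P J,
      ∑ q ∈ ((ClT_P J).erase p).erase p.swap,
        na G (f p.1) (f p.2) * na G (f q.1) (f q.2) := by
    intro f
    have h1 : ∀ p ∈ ClT_P J, ∑ q ∈ ((ClT_P J).erase p).erase p.swap,
        na G (f p.1) (f p.2) * na G (f q.1) (f q.2) =
        na G (f p.1) (f p.2) * ClT_D G J f - 2 * na G (f p.1) (f p.2) := by
      intro p hp
      have hp' : p.1 ≠ p.2 := (Finset.mem_filter.1 hp).2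
      have hpJ := Finset.mem_product.1 (Finset.mem_filter.1 hp).1
      have hsw : p.swap ∈ (ClT_P J).erase p := by
        refine Finset.mem_erase.2 ⟨fun he => hp' ?_,
          Finset.mem_filter.2 ⟨Finset.mem_product.2 ⟨hpJ.2, hpJ.1⟩, ?_⟩⟩
        · have := congrArg Prod.snd he
          simpa using this
        · simpa using hp'.symm
      have hid : na G (f p.1) (f p.2) * na G (f p.1) (f p.2) = na G (f p.1) (f p.2) := by
        unfold na
        split_ifs <;> norm_num
      have e1 := Finset.add_sum_erase ((ClT_P J).erase p)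
        (fun q => na G (f p.1) (f p.2) * na G (f q.1) (f q.2)) hsw
      have e2 := Finset.add_sum_erase (ClT_P J)
        (fun q => na G (f p.1) (f p.2) * na G (f q.1) (f q.2)) hp
      simp only [Prod.fst_swap, Prod.snd_swap] at e1 e2
      rw [na_comm (f p.2) (f p.1)] at e1
      rw [hid] at e1 e2
      rw [← Finset.mul_sum (s := ClT_P J), ← ClT_DP] at e2
      linarith
    rw [Finset.sum_congr rfl h1, Finset.sum_sub_distrib, ← Finset.sum_mul, ← Finset.mul_sum,
      ← ClT_DP]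
    ring
  -- resampling
  have hnaF : ∀ (p : Fin R × Fin R) (k : Fin R), k ≠ p.1 → k ≠ p.2 → ∀ (f : Fin R → V) (y : V),
      na G (Function.update f k y p.1) (Function.update f k y p.2) = na G (f p.1) (f p.2) := by
    intro p k h1 h2 f y
    rw [Function.update_of_ne h1.symm, Function.update_of_ne h2.symm]
  have hpair : ∀ p ∈ ClT_P J, ∀ q ∈ ((ClT_P J).erase p).erase p.swap,
      ∑ f ∈ Fintype.piFinset B, na G (f p.1) (f p.2) * na G (f q.1) (f q.2) ≤
      4 * η₁ * ∑ f ∈ Fintype.piFinset B, na G (f p.1) (f p.2) := by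
    intro p hp q hq
    obtain ⟨hq1, hq2⟩ := Finset.mem_erase.1 hq
    obtain ⟨hq3, hq4⟩ := Finset.mem_erase.1 hq2
    have hq' : q.1 ≠ q.2 := (Finset.mem_filter.1 hq4).2
    have hor : (q.1 ≠ p.1 ∧ q.1 ≠ p.2) ∨ (q.2 ≠ p.1 ∧ q.2 ≠ p.2) := by
      by_contra hcon
      rw [not_or, not_and_or, not_and_or, not_not, not_not, not_not, not_not] at hcon
      obtain ⟨h1 | h1, h2 | h2⟩ := hcon
      · exact hq' (h1.trans h2.symm)
      · exact hq3 (Prod.ext h1 h2)
      · exact hq1 (Prod.ext (by simpa using h1) (by simpa using h2))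
      · exact hq' (h1.trans h2.symm)
    rcases hor with ⟨h1, h2⟩ | ⟨h1, h2⟩
    · have h3 := ClT_key h hδ hm q.1 q.2 hq'.symm (fun f => na G (f p.1) (f p.2))
        (fun f => na_nonneg _ _) (hnaF p q.1 h1 h2) (fun f => f q.2)
        (fun f hf => Fintype.mem_piFinset.1 hf q.2)
        (fun f y => by simp only [Function.update_of_ne hq'.symm])
      refine le_trans (le_of_eq ?_) h3
      refine Finset.sum_congr rfl fun f _ => ?_
      rw [na_comm (f q.1) (f q.2)]
    · exact ClT_key h hδ hm q.2 q.1 hq' (fun f => na G (f p.1) (f p.2))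
        (fun f => na_nonneg _ _) (hnaF p q.2 h1 h2) (fun f => f q.1)
        (fun f hf => Fintype.mem_piFinset.1 hf q.1)
        (fun f y => by simp only [Function.update_of_ne hq'])
  have hcardP : ∀ p : Fin R × Fin R,
      ((((ClT_P J).erase p).erase p.swap).card : ℝ) ≤ (R : ℝ) ^ 2 := by
    intro p
    have h1 : (((ClT_P J).erase p).erase p.swap).card ≤
        (univ : Finset (Fin R × Fin R)).card := Finset.card_le_card (Finset.subset_univ _)
    rw [Finset.card_univ, Fintype.card_prod, Fintype.card_fin] at h1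
    have h2 : ((((ClT_P J).erase p).erase p.swap).card : ℝ) ≤ ((R * R : ℕ) : ℝ) := by
      exact_mod_cast h1
    rw [pow_two]
    push_cast at h2
    exact h2
  have hsum : ∑ f ∈ Fintype.piFinset B, (ClT_D G J f ^ 2 - 2 * ClT_D G J f) ≤
      4 * (R : ℝ) ^ 2 * η₁ * ∑ f ∈ Fintype.piFinset B, ClT_D G J f := by
    calc ∑ f ∈ Fintype.piFinset B, (ClT_D G J f ^ 2 - 2 * ClT_D G J f)
        = ∑ p ∈ ClT_P J, ∑ q ∈ ((ClT_P J).erase p).erase p.swap,
          ∑ f ∈ Fintype.piFinset B, na G (f p.1) (f p.2) * na G (f q.1) (f q.2) := by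
          rw [Finset.sum_congr rfl fun f _ => hsq f, Finset.sum_comm]
          refine Finset.sum_congr rfl fun p _ => ?_
          rw [Finset.sum_comm]
      _ ≤ ∑ p ∈ ClT_P J, ∑ _q ∈ ((ClT_P J).erase p).erase p.swap,
          4 * η₁ * ∑ f ∈ Fintype.piFinset B, na G (f p.1) (f p.2) :=
          Finset.sum_le_sum fun p hp => Finset.sum_le_sum fun q hq => hpair p hp q hq
      _ ≤ ∑ p ∈ ClT_P J, (R : ℝ) ^ 2 *
          (4 * η₁ * ∑ f ∈ Fintype.piFinset B, na G (f p.1) (f p.2)) := by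
          refine Finset.sum_le_sum fun p _ => ?_
          rw [Finset.sum_const, nsmul_eq_mul]
          exact mul_le_mul_of_nonneg_right (hcardP p)
            (mul_nonneg (by positivity) (Finset.sum_nonneg fun f _ => na_nonneg _ _))
      _ = 4 * (R : ℝ) ^ 2 * η₁ * ∑ f ∈ Fintype.piFinset B, ClT_D G J f := by
          rw [← Finset.mul_sum, ← Finset.mul_sum, Finset.sum_comm]
          rw [Finset.sum_congr rfl fun f _ => (ClT_DP (G := G) J f).symm]
          ring
  have hcard : (((Fintype.piFinset B).filter fun f =>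
        ∀ i ∈ J, ∀ j ∈ J, i ≠ j → G.Adj (f i) (f j)).card : ℝ) = ∑ f ∈ Fintype.piFinset B,
      (if (∀ i ∈ J, ∀ j ∈ J, i ≠ j → G.Adj (f i) (f j)) then (1 : ℝ) else 0) := by
    rw [Finset.card_filter]
    push_cast
    rfl
  have hprod : (∏ l, ((B l).card : ℝ)) = ∑ _f ∈ Fintype.piFinset B, (1 : ℝ) := by
    rw [Finset.sum_const, nsmul_eq_mul, Fintype.card_piFinset]
    push_cast
    ring
  have hS : 0 ≤ ∑ f ∈ Fintype.piFinset B, ClT_D G J f :=
    Finset.sum_nonneg fun f _ => ClT_D_nonneg J f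
  have hfin : (((Fintype.piFinset B).filter fun f =>
        ∀ i ∈ J, ∀ j ∈ J, i ≠ j → G.Adj (f i) (f j)).card : ℝ) ≤
      (∏ l, ((B l).card : ℝ)) - (1 / 2 - (R : ℝ) ^ 2 * η₁) *
        ∑ f ∈ Fintype.piFinset B, ClT_D G J f := by
    calc _ = _ := hcard
      _ ≤ ∑ f ∈ Fintype.piFinset B, (1 - 1 / 2 * ClT_D G J f +
            1 / 8 * (ClT_D G J f ^ 2 - 2 * ClT_D G J f)) :=
          Finset.sum_le_sum fun f _ => hind f
      _ = (∏ l, ((B l).card : ℝ)) - (1 / 2) * (∑ f ∈ Fintype.piFinset B, ClT_D G J f) +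
          1 / 8 * ∑ f ∈ Fintype.piFinset B, (ClT_D G J f ^ 2 - 2 * ClT_D G J f) := by
          rw [Finset.sum_add_distrib, Finset.sum_sub_distrib, ← hprod, ← Finset.mul_sum,
            ← Finset.mul_sum]
      _ ≤ _ := by
          have h9 : 0 ≤ (R : ℝ) ^ 2 * η₁ * ∑ f ∈ Fintype.piFinset B, ClT_D G J f := by positivity
          nlinarith
  exact hfin

/-- `∑_J D_J = C(R-2,s-2) D` -/
private lemma ClT_sum_J {R s : ℕ} (hs2 : 2 ≤ s) (f : Fin R → V) :
    ∑ J ∈ powersetCard s (univ : Finset (Fin R)), ClT_D G J f =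
      ((R - 2).choose (s - 2) : ℝ) * DD G f := by
  have h1 : ∀ J : Finset (Fin R), ClT_D G J f =
      ∑ i, ∑ j ∈ univ.erase i, if i ∈ J ∧ j ∈ J then na G (f i) (f j) else 0 := by
    intro J
    unfold ClT_D
    rw [← Finset.sum_subset (Finset.subset_univ J)]
    · refine Finset.sum_congr rfl fun i hi => ?_
      rw [← Finset.sum_subset (Finset.erase_subset_erase i (Finset.subset_univ J))]
      · refine Finset.sum_congr rfl fun j hj => ?_
        rw [if_pos ⟨hi, (Finset.mem_erase.1 hj).2⟩]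
      · intro j hj1 hj2
        rw [if_neg]
        rintro ⟨-, hj⟩
        exact hj2 (Finset.mem_erase.2 ⟨(Finset.mem_erase.1 hj1).1, hj⟩)
    · intro i _ hi
      refine Finset.sum_eq_zero fun j _ => ?_
      rw [if_neg]
      exact fun h => hi h.1
  have h2 : ∀ i j : Fin R, i ≠ j →
      ((powersetCard s (univ : Finset (Fin R))).filter fun J => i ∈ J ∧ j ∈ J).card =
        (R - 2).choose (s - 2) := by
    intro i j hij
    have h3 : ((powersetCard s (univ : Finset (Fin R))).filter fun J => i ∈ J ∧ j ∈ J) =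
        (powersetCard (s - 2) ((univ : Finset (Fin R)).erase i |>.erase j)).image
          (fun J => insert i (insert j J)) := by
      ext J
      rw [mem_filter, mem_powersetCard, mem_image]
      constructor
      · rintro ⟨⟨-, hc⟩, hi, hj⟩
        refine ⟨(J.erase i).erase j, ?_, ?_⟩
        · rw [mem_powersetCard]
          refine ⟨Finset.erase_subset_erase _ (Finset.erase_subset_erase _
            (Finset.subset_univ J)), ?_⟩
          rw [Finset.card_erase_of_mem (Finset.mem_erase.2 ⟨hij.symm, hj⟩),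
            Finset.card_erase_of_mem hi, hc]
          omega
        · rw [Finset.insert_erase (Finset.mem_erase.2 ⟨hij.symm, hj⟩), Finset.insert_erase hi]
      · rintro ⟨K, hK, rfl⟩
        rw [mem_powersetCard] at hK
        obtain ⟨hK1, hK2⟩ := hK
        have hjK : j ∉ K := fun hj => (Finset.mem_erase.1 (hK1 hj)).1 rfl
        have hiK : i ∉ insert j K := by
          rw [Finset.mem_insert, not_or]
          exact ⟨hij, fun hi =>
            (Finset.mem_erase.1 (Finset.mem_erase.1 (hK1 hi)).2).1 rfl⟩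
        refine ⟨⟨Finset.subset_univ _, ?_⟩, Finset.mem_insert_self _ _,
          Finset.mem_insert_of_mem (Finset.mem_insert_self _ _)⟩
        rw [Finset.card_insert_of_notMem hiK, Finset.card_insert_of_notMem hjK, hK2]
        omega
    rw [h3, Finset.card_image_of_injOn, Finset.card_powersetCard,
      Finset.card_erase_of_mem (Finset.mem_erase.2 ⟨hij.symm, mem_univ _⟩),
      Finset.card_erase_of_mem (mem_univ _), Finset.card_univ, Fintype.card_fin]
    · rfl
    · intro K hK L hL hKL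
      rw [Finset.mem_coe, mem_powersetCard] at hK hL
      have hn : ∀ M : Finset (Fin R), M ⊆ ((univ : Finset (Fin R)).erase i).erase j →
          ((insert i (insert j M)).erase i).erase j = M := by
        intro M hM
        have hjM : j ∉ M := fun hj => (Finset.mem_erase.1 (hM hj)).1 rfl
        have hiM : i ∉ insert j M := by
          rw [Finset.mem_insert, not_or]
          exact ⟨hij, fun hi =>
            (Finset.mem_erase.1 (Finset.mem_erase.1 (hM hi)).2).1 rfl⟩
        rw [Finset.erase_insert hiM, Finset.erase_insert hjM]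
      have h4 := congrArg (fun M : Finset (Fin R) => (M.erase i).erase j) hKL
      simp only at h4
      rw [hn K hK.1, hn L hL.1] at h4
      exact h4
  rw [Finset.sum_congr rfl fun J _ => h1 J, Finset.sum_comm]
  unfold DD
  rw [Finset.mul_sum]
  refine Finset.sum_congr rfl fun i _ => ?_
  rw [Finset.sum_comm, Finset.mul_sum]
  refine Finset.sum_congr rfl fun j hj => ?_
  rw [← Finset.sum_filter, Finset.sum_const, h2 i j (Finset.mem_erase.1 hj).1.symm, nsmul_eq_mul]

/-- `C(R-2,s-2) = C(R,s) s(s-1)/(R(R-1))` -/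
private lemma ClT_choose {R s : ℕ} (hs2 : 2 ≤ s) (hsR : s ≤ R) :
    ((R - 2).choose (s - 2) : ℝ) = (R.choose s : ℝ) * be R s := by
  obtain ⟨q, rfl⟩ : ∃ q, R = q + 2 := ⟨R - 2, by omega⟩
  obtain ⟨p, rfl⟩ : ∃ p, s = p + 2 := ⟨s - 2, by omega⟩
  have h1 := Nat.add_one_mul_choose_eq (q + 1) (p + 1)
  have h2 := Nat.add_one_mul_choose_eq q p
  have h1' : ((q : ℝ) + 1 + 1) * ((q + 1).choose (p + 1) : ℝ) =
      ((q + 1 + 1).choose (p + 1 + 1) : ℝ) * ((p : ℝ) + 1 + 1) := by exact_mod_cast h1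
  have h2' : ((q : ℝ) + 1) * (q.choose p : ℝ) =
      ((q + 1).choose (p + 1) : ℝ) * ((p : ℝ) + 1) := by exact_mod_cast h2
  unfold be
  have e1 : q + 2 - 2 = q := by omega
  have e2 : p + 2 - 2 = p := by omega
  rw [e1, e2]
  push_cast
  have hq1 : (0 : ℝ) < (q : ℝ) + 2 := by positivity
  have hq2 : (0 : ℝ) < (q : ℝ) + 2 - 1 := by linarith [Nat.cast_nonneg (α := ℝ) q]
  rw [mul_div_assoc', eq_div_iff (by positivity)]
  have e3 : ((q + 2).choose (p + 2) : ℝ) = ((q + 1 + 1).choose (p + 1 + 1) : ℝ) := rfl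
  rw [e3]
  have e4 : ((q + 1 + 1).choose (p + 1 + 1) : ℝ) * (((p : ℝ) + 2) * ((p : ℝ) + 2 - 1)) =
      ((q : ℝ) + 1 + 1) * (((q + 1).choose (p + 1) : ℝ) * ((p : ℝ) + 1)) := by
    linear_combination (-((p : ℝ) + 1)) * h1'
  rw [e4, ← h2']
  ring

private lemma ClT_be_le {R s : ℕ} (hs2 : 2 ≤ s) (hsR : s ≤ R) : be R s ≤ 1 := by
  unfold be
  have h1 : (2 : ℝ) ≤ s := by exact_mod_cast hs2
  have h2 : (s : ℝ) ≤ R := by exact_mod_cast hsR
  rw [div_le_one (by nlinarith)]
  nlinarith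

theorem card_clq_un_le {R s m : ℕ} {S : Finset V} {C η η₁ δ : ℝ} {B : Fin R → Finset V}
    (h : LS G S R m C η₁ δ B) (hs2 : 2 ≤ s) (hsR : s ≤ R) (hm : 0 < m) (hη : 0 < η)
    (hηb : η ≤ be R s / 8) (hη₁ : 0 ≤ η₁) (hη₁R : 1024 * R ^ 2 * η₁ ≤ η) (hδ0 : 0 ≤ δ)
    (hδ : 64 * R * δ ≤ η) :
    ((clq G (un B) s).card : ℝ) ≤ eS (univ : Finset (Fin R)) (fun i => ((B i).card : ℝ)) s -
      N0 R s m * (be R s / 2 - η / 8) * (∑ f ∈ Fintype.piFinset B, DD G f) /
        (∏ l, ((B l).card : ℝ)) := by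
  have hm0 : (0 : ℝ) < m := by exact_mod_cast hm
  have hbe := ClT_be_le hs2 hsR
  have hR2 : (2 : ℝ) ≤ R := by
    have : 2 ≤ R := le_trans hs2 hsR
    exact_mod_cast this
  have hsR' : (s : ℝ) ≤ R := by exact_mod_cast hsR
  have hδ1 : δ ≤ 1 / 2 := by nlinarith
  have hδ2 : 0 ≤ 1 - δ := by linarith
  have hpos : ∀ l, (0 : ℝ) < ((B l).card : ℝ) := fun l =>
    lt_of_lt_of_le (mul_pos (by linarith) hm0) (h.size_lo l)
  have hP : (0 : ℝ) < ∏ l, ((B l).card : ℝ) := Finset.prod_pos fun l _ => hpos l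
  have hD : 0 ≤ ∑ f ∈ Fintype.piFinset B, DD G f := Finset.sum_nonneg fun f _ => DD_nonneg f
  have hη₂ : (R : ℝ) ^ 2 * η₁ ≤ η / 1024 := by linarith
  have hc0 : 0 ≤ 1 / 2 - (R : ℝ) ^ 2 * η₁ := by linarith
  -- the sum over the index sets
  have h1 : ((clq G (un B) s).card : ℝ) * ∏ l, ((B l).card : ℝ) ≤
      ∑ J ∈ powersetCard s (univ : Finset (Fin R)), (∏ j ∈ J, ((B j).card : ℝ)) *
        ((∏ l, ((B l).card : ℝ)) - (1 / 2 - (R : ℝ) ^ 2 * η₁) *
        ∑ f ∈ Fintype.piFinset B, ClT_D G J f) := by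
    rw [clq_un_eq h.disj h.ind]
    refine Finset.sum_le_sum fun J _ => ?_
    refine mul_le_mul_of_nonneg_left ?_ (Finset.prod_nonneg fun j _ => (hpos j).le)
    exact card_J_le h hη₁ hδ1 hm J
  have h2 : ∑ J ∈ powersetCard s (univ : Finset (Fin R)), (∏ j ∈ J, ((B j).card : ℝ)) *
        ((∏ l, ((B l).card : ℝ)) - (1 / 2 - (R : ℝ) ^ 2 * η₁) *
        ∑ f ∈ Fintype.piFinset B, ClT_D G J f) =
      eS (univ : Finset (Fin R)) (fun i => ((B i).card : ℝ)) s * (∏ l, ((B l).card : ℝ)) -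
      (1 / 2 - (R : ℝ) ^ 2 * η₁) * ∑ J ∈ powersetCard s (univ : Finset (Fin R)),
        (∏ j ∈ J, ((B j).card : ℝ)) * ∑ f ∈ Fintype.piFinset B, ClT_D G J f := by
    unfold eS
    rw [Finset.sum_mul, Finset.mul_sum, ← Finset.sum_sub_distrib]
    refine Finset.sum_congr rfl fun J _ => ?_
    ring
  have h3 : ((1 - δ) * m) ^ s * (((R - 2).choose (s - 2) : ℝ) *
      ∑ f ∈ Fintype.piFinset B, DD G f) ≤
      ∑ J ∈ powersetCard s (univ : Finset (Fin R)),
        (∏ j ∈ J, ((B j).card : ℝ)) * ∑ f ∈ Fintype.piFinset B, ClT_D G J f := by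
    have h4 : ((R - 2).choose (s - 2) : ℝ) * ∑ f ∈ Fintype.piFinset B, DD G f =
        ∑ J ∈ powersetCard s (univ : Finset (Fin R)), ∑ f ∈ Fintype.piFinset B, ClT_D G J f := by
      rw [Finset.sum_comm, Finset.mul_sum]
      exact Finset.sum_congr rfl fun f _ => (ClT_sum_J hs2 f).symm
    rw [h4, Finset.mul_sum]
    refine Finset.sum_le_sum fun J hJ => ?_
    refine mul_le_mul_of_nonneg_right ?_ (Finset.sum_nonneg fun f _ => ClT_D_nonneg J f)
    have h5 : ((1 - δ) * m) ^ s = ∏ _j ∈ J, ((1 - δ) * (m : ℝ)) := by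
      rw [Finset.prod_const, (mem_powersetCard.1 hJ).2]
    rw [h5]
    exact Finset.prod_le_prod (fun j _ => mul_nonneg hδ2 hm0.le) fun j _ => h.size_lo j
  -- the constants
  have hpow : 1 - (s : ℝ) * δ ≤ (1 - δ) ^ s := by
    have := one_add_mul_le_pow (a := -δ) (by linarith) s
    calc 1 - (s : ℝ) * δ = 1 + (s : ℝ) * (-δ) := by ring
      _ ≤ (1 + -δ) ^ s := this
      _ = (1 - δ) ^ s := by ring
  have hbe0 : 0 ≤ be R s := by linarith
  have hN : 0 ≤ N0 R s m := by unfold N0; positivity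
  have hcst : N0 R s m * (be R s / 2 - η / 8) ≤
      (1 / 2 - (R : ℝ) ^ 2 * η₁) * (((1 - δ) * m) ^ s * ((R - 2).choose (s - 2) : ℝ)) := by
    rw [ClT_choose hs2 hsR, mul_pow]
    have e : (1 / 2 - (R : ℝ) ^ 2 * η₁) * ((1 - δ) ^ s * (m : ℝ) ^ s *
        ((R.choose s : ℝ) * be R s)) =
        N0 R s m * ((1 / 2 - (R : ℝ) ^ 2 * η₁) * (1 - δ) ^ s * be R s) := by
      unfold N0
      ring
    rw [e]
    refine mul_le_mul_of_nonneg_left ?_ hN
    have hsδ : (s : ℝ) * δ ≤ η / 64 := by nlinarith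
    have h5 : (1 / 2 - (R : ℝ) ^ 2 * η₁) * (1 - (s : ℝ) * δ) ≤
        (1 / 2 - (R : ℝ) ^ 2 * η₁) * (1 - δ) ^ s := mul_le_mul_of_nonneg_left hpow hc0
    have h6 : 1 / 2 - η / 16 ≤ (1 / 2 - (R : ℝ) ^ 2 * η₁) * (1 - (s : ℝ) * δ) := by
      have h7 : 0 ≤ (s : ℝ) * δ := by positivity
      have h8 : 0 ≤ (R : ℝ) ^ 2 * η₁ := by positivity
      nlinarith [mul_nonneg h7 h8]
    have h7 : (1 / 2 - η / 16) * be R s ≤
        (1 / 2 - (R : ℝ) ^ 2 * η₁) * (1 - δ) ^ s * be R s :=
      mul_le_mul_of_nonneg_right (h6.trans h5) hbe0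
    nlinarith
  have hc1 : 0 ≤ (1 / 2 - (R : ℝ) ^ 2 * η₁) := hc0
  have h6 := mul_le_mul_of_nonneg_left h3 hc1
  have h7 := mul_le_mul_of_nonneg_right hcst hD
  have h8 : ((clq G (un B) s).card : ℝ) * ∏ l, ((B l).card : ℝ) ≤
      eS (univ : Finset (Fin R)) (fun i => ((B i).card : ℝ)) s * (∏ l, ((B l).card : ℝ)) -
      N0 R s m * (be R s / 2 - η / 8) * ∑ f ∈ Fintype.piFinset B, DD G f := by
    rw [h2] at h1
    nlinarith
  have h9 : eS (univ : Finset (Fin R)) (fun i => ((B i).card : ℝ)) s -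
      N0 R s m * (be R s / 2 - η / 8) * (∑ f ∈ Fintype.piFinset B, DD G f) /
        (∏ l, ((B l).card : ℝ)) =
      (eS (univ : Finset (Fin R)) (fun i => ((B i).card : ℝ)) s * (∏ l, ((B l).card : ℝ)) -
      N0 R s m * (be R s / 2 - η / 8) * ∑ f ∈ Fintype.piFinset B, DD G f) /
        (∏ l, ((B l).card : ℝ)) := by
    rw [sub_div, mul_div_cancel_right₀ _ hP.ne']
  rw [h9, le_div_iff₀ hP]
  exact h8

end H57LT
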