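import Pool.Agent.H57.LT.Defs
import Pool.Agent.H57.LC.Heavy0

/-!
Extending light cliques to clique transversals (note 3585, 4e).
-/

namespace H57LT

open Finset H57LC

set_option linter.unusedSectionVars false

variable {V : Type*} [DecidableEq V] {G : SimpleGraph V} [DecidableRel G.Adj]

/-- a light clique has as many vertices as it hits parts -/
private lemma extHitCard {R : ℕ} {B : Fin R → Finset V}
    (hdisj : ∀ i j, i ≠ j → Disjoint (B i) (B j))
    (hind : ∀ i, ∀ a ∈ B i, ∀ b ∈ B i, ¬ G.Adj a b) {J : Finset V} (hJ : J ⊆ un B)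
    (hcl : IsCl G J) :
    (univ.filter fun i : Fin R => (J ∩ B i).Nonempty).card = J.card := by
  classical
  have hJeq : J = (univ : Finset (Fin R)).biUnion (fun i => J ∩ B i) := by
    ext a
    simp only [mem_biUnion, mem_univ, true_and, mem_inter]
    constructor
    · intro ha
      obtain ⟨i, hi⟩ := mem_un.1 (hJ ha)
      exact ⟨i, ha, hi⟩
    · rintro ⟨i, ha, -⟩
      exact ha
  have h1 : J.card = ∑ i : Fin R, (J ∩ B i).card := by
    conv_lhs => rw [hJeq]
    rw [card_biUnion]
    intro i _ j _ hij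
    exact (hdisj i j hij).mono inter_subset_right inter_subset_right
  rw [h1, card_filter]
  refine sum_congr rfl fun i _ => ?_
  have h2 := clique_inter_card hind hcl i
  split_ifs with h
  · have h3 := card_pos.2 h
    omega
  · rw [not_nonempty_iff_eq_empty] at h
    rw [h, card_empty]

/-- extension one part at a time -/
theorem ext_gen {R : ℕ} {B : Fin R → Finset V} (hdisj : ∀ i j, i ≠ j → Disjoint (B i) (B j))
    (hind : ∀ i, ∀ a ∈ B i, ∀ b ∈ B i, ¬ G.Adj a b) (D : Finset V) {L : ℝ} (hL : 0 ≤ L)
    (hext : ∀ J ⊆ un B \ D, IsCl G J → ∀ i, Disjoint J (B i) →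
      L ≤ (((B i \ D).filter fun y => ∀ x ∈ J, G.Adj x y).card : ℝ))
    {J' : Finset V} (hJ : J' ⊆ un B \ D) (hcl : IsCl G J') :
    L ^ (R - J'.card) ≤
      (((tcl G B).filter fun f => (∀ i, f i ∉ D) ∧ J' ⊆ im f).card : ℝ) := by
  classical
  have key : ∀ k : ℕ, ∀ J : Finset V, J ⊆ un B \ D → IsCl G J → R - J.card = k →
      L ^ k ≤ (((tcl G B).filter fun f => (∀ i, f i ∉ D) ∧ J ⊆ im f).card : ℝ) := by
    intro k
    induction k with
    | zero =>
      intro J hJ hcl hk
      have hJu : J ⊆ un B := hJ.trans sdiff_subset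
      have hcard := extHitCard hdisj hind hJu hcl
      have hle : (univ.filter fun i : Fin R => (J ∩ B i).Nonempty).card ≤ R := by
        have := card_le_card (filter_subset (fun i : Fin R => (J ∩ B i).Nonempty) univ)
        rwa [card_univ, Fintype.card_fin] at this
      have hR : (univ.filter fun i : Fin R => (J ∩ B i).Nonempty).card = R := by omega
      have hall : ∀ i : Fin R, (J ∩ B i).Nonempty := by
        have h1 : (univ.filter fun i : Fin R => (J ∩ B i).Nonempty) = univ := by
          refine eq_univ_of_card _ ?_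
          rw [hR, Fintype.card_fin]
        intro i
        have := mem_univ i
        rw [← h1, mem_filter] at this
        exact this.2
      choose f hf using hall
      have hfJ : ∀ i, f i ∈ J := fun i => (mem_inter.1 (hf i)).1
      have hfB : ∀ i, f i ∈ B i := fun i => (mem_inter.1 (hf i)).2
      rw [pow_zero]
      have hmem : f ∈ (tcl G B).filter fun f => (∀ i, f i ∉ D) ∧ J ⊆ im f := by
        rw [mem_filter, mem_tcl]
        refine ⟨⟨hfB, ?_⟩, ?_, ?_⟩
        · intro i j hij
          refine hcl _ (hfJ i) _ (hfJ j) ?_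
          intro heq
          exact (disjoint_left.1 (hdisj i j hij)) (hfB i) (heq ▸ hfB j)
        · intro i
          exact (mem_sdiff.1 (hJ (hfJ i))).2
        · intro t ht
          obtain ⟨i, hi⟩ := mem_un.1 (hJu ht)
          refine mem_im.2 ⟨i, ?_⟩
          have h1 := clique_inter_card hind hcl i
          exact card_le_one.1 h1 _ (hf i) _ (mem_inter.2 ⟨ht, hi⟩)
      have := card_pos.2 ⟨f, hmem⟩
      exact_mod_cast this
    | succ k ih =>
      intro J hJ hcl hk
      have hJu : J ⊆ un B := hJ.trans sdiff_subset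
      have hcard := extHitCard hdisj hind hJu hcl
      have hex : ∃ i : Fin R, ¬ (J ∩ B i).Nonempty := by
        by_contra hcon
        push Not at hcon
        have h1 : (univ.filter fun i : Fin R => (J ∩ B i).Nonempty) = univ := by
          refine filter_true_of_mem fun i _ => ?_
          exact hcon i
        rw [h1, card_univ, Fintype.card_fin] at hcard
        omega
      obtain ⟨i, hi⟩ := hex
      rw [not_nonempty_iff_eq_empty, ← disjoint_iff_inter_eq_empty] at hi
      set Y := (B i \ D).filter fun y => ∀ x ∈ J, G.Adj x y with hY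
      have hYc : L ≤ (Y.card : ℝ) := hext J hJ hcl i hi
      set F : V → Finset (Fin R → V) := fun y =>
        (tcl G B).filter fun f => (∀ i, f i ∉ D) ∧ insert y J ⊆ im f with hF
      have hFy : ∀ y ∈ Y, L ^ k ≤ ((F y).card : ℝ) := by
        intro y hy
        rw [hY, mem_filter, mem_sdiff] at hy
        obtain ⟨⟨hyB, hyD⟩, hyJ⟩ := hy
        have hynJ : y ∉ J := fun h => (disjoint_left.1 hi) h hyB
        refine ih (insert y J) ?_ ?_ ?_
        · rw [insert_subset_iff]
          exact ⟨mem_sdiff.2 ⟨mem_un.2 ⟨i, hyB⟩, hyD⟩, hJ⟩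
        · exact isCl_insert hcl fun t ht => (hyJ t ht).symm
        · rw [card_insert_of_notMem hynJ]
          omega
      have hdisjF : ∀ y ∈ Y, ∀ y' ∈ Y, y ≠ y' → Disjoint (F y) (F y') := by
        intro y hy y' hy' hne
        rw [disjoint_left]
        intro f hf hf'
        rw [hF, mem_filter] at hf hf'
        rw [hY, mem_filter, mem_sdiff] at hy hy'
        have hfi : ∀ y₀ ∈ B i, y₀ ∈ im f → f i = y₀ := by
          intro y₀ hy₀ hm
          obtain ⟨j, hj⟩ := mem_im.1 hm
          by_cases hji : j = i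
          · rw [← hji]; exact hj
          · exfalso
            have h1 := (mem_tcl.1 hf.1).1 j
            rw [hj] at h1
            exact (disjoint_left.1 (hdisj j i hji)) h1 hy₀
        have h1 := hfi y hy.1.1 (hf.2.2 (mem_insert_self _ _))
        have h2 := hfi y' hy'.1.1 (hf'.2.2 (mem_insert_self _ _))
        exact hne (h1.symm.trans h2)
      have hsub : Y.biUnion F ⊆ (tcl G B).filter fun f => (∀ i, f i ∉ D) ∧ J ⊆ im f := by
        intro f hf
        obtain ⟨y, _, hf⟩ := mem_biUnion.1 hf
        rw [hF, mem_filter] at hf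
        rw [mem_filter]
        exact ⟨hf.1, hf.2.1, (subset_insert _ _).trans hf.2.2⟩
      have h1 : (∑ y ∈ Y, ((F y).card : ℝ)) ≤
          (((tcl G B).filter fun f => (∀ i, f i ∉ D) ∧ J ⊆ im f).card : ℝ) := by
        have := card_le_card hsub
        rw [card_biUnion hdisjF] at this
        exact_mod_cast this
      have h2 : (Y.card : ℝ) * L ^ k ≤ ∑ y ∈ Y, ((F y).card : ℝ) := by
        rw [← nsmul_eq_mul]
        exact card_nsmul_le_sum _ _ _ hFy
      calc L ^ (k + 1) = L * L ^ k := by rw [pow_succ]; ring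
        _ ≤ (Y.card : ℝ) * L ^ k := mul_le_mul_of_nonneg_right hYc (pow_nonneg hL k)
        _ ≤ _ := h2.trans h1
  exact key _ J' hJ hcl rfl

/-- the number of `k`-cliques with a heavy vertex and a big light vertex -/
theorem card_HsBig {R k : ℕ} (hk : 2 ≤ k) (S : Finset V) (B : Fin R → Finset V)
    (hB : ∀ i, B i ⊆ S) (m : ℕ) (θ : ℝ) :
    ((clq G S k).filter (fun T => ¬ T ⊆ un B ∧ ¬ Disjoint T (big G B m θ))).card ≤
      (S \ un B).card * (big G B m θ).card * S.card ^ (k - 2) := by
  classical
  have hsub : (clq G S k).filter (fun T => ¬ T ⊆ un B ∧ ¬ Disjoint T (big G B m θ)) ⊆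
      (((S \ un B) ×ˢ (big G B m θ)) ×ˢ (powersetCard (k - 2) S)).image
        (fun q => insert q.1.1 (insert q.1.2 q.2)) := by
    intro T hT
    rw [mem_filter, mem_clq] at hT
    obtain ⟨⟨⟨hTS, hTc⟩, _⟩, hT1, hT2⟩ := hT
    obtain ⟨z, hzT, hzu⟩ := not_subset.1 hT1
    obtain ⟨t, htT, htb⟩ := not_disjoint_iff.1 hT2
    have htu : t ∈ un B := by
      obtain ⟨i, j, hi, _⟩ := mem_big.1 htb
      exact mem_un.2 ⟨i, hi⟩
    have hne : t ≠ z := fun h => hzu (h ▸ htu)
    rw [mem_image]
    refine ⟨((z, t), (T.erase z).erase t), ?_, ?_⟩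
    · rw [mem_product, mem_product, mem_powersetCard]
      refine ⟨⟨mem_sdiff.2 ⟨hTS hzT, hzu⟩, htb⟩, ?_, ?_⟩
      · exact (erase_subset _ _).trans ((erase_subset _ _).trans hTS)
      · rw [card_erase_of_mem (mem_erase.2 ⟨hne, htT⟩), card_erase_of_mem hzT, hTc]
        omega
    · simp only
      rw [insert_erase (mem_erase.2 ⟨hne, htT⟩), insert_erase hzT]
  refine le_trans (card_le_card hsub) (le_trans card_image_le ?_)
  rw [card_product, card_product, card_powersetCard]
  exact Nat.mul_le_mul_left _ (Nat.choose_le_pow _ _)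

/-- light `(s-1)`-cliques without big vertices in the neighbourhood of `z` -/
noncomputable def tS (G : SimpleGraph V) [DecidableRel G.Adj] {R : ℕ} (B : Fin R → Finset V)
    (m : ℕ) (θ : ℝ) (s : ℕ) (z : V) : ℕ :=
  ((clq G (un B \ big G B m θ) (s - 1)).filter fun J => ∀ y ∈ J, G.Adj z y).card

end H57LT
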