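import Pool.Agent.H57.LT.Ext
import Pool.Agent.H57.LC.Heavy2

/-!
Cliques with at least two heavy vertices (note 3585, 4e).
-/

namespace H57LT

open Finset H57LC

set_option linter.unusedSectionVars false

variable {V : Type*} [DecidableEq V] {G : SimpleGraph V} [DecidableRel G.Adj]

theorem kt_nonneg {R s : ℕ} {η : ℝ} (hη : 0 ≤ η) (hs1 : 1 ≤ s) (hsR : s ≤ R) (hR : 2 ≤ R) (j : ℕ) :
    0 ≤ kt R s η j := by
  have hs1' : (1 : ℝ) ≤ s := by exact_mod_cast hs1
  have hsR' : (s : ℝ) ≤ R := by exact_mod_cast hsR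
  have hR' : (2 : ℝ) ≤ R := by exact_mod_cast hR
  unfold kt
  split_ifs with h1 h2
  · exact le_refl _
  · have h3 : be R s ≤ (s : ℝ) / R := by
      unfold be
      rw [div_le_div_iff₀ (by nlinarith) (by linarith)]
      have : (s : ℝ) * (s - 1) * R = s * R * (s - 1) := by ring
      have h4 : (s : ℝ) * (R * (R - 1)) = s * R * (R - 1) := by ring
      rw [this, h4]
      exact mul_le_mul_of_nonneg_left (by linarith) (by positivity)
    have h5 : 0 ≤ (s : ℝ) / R := by positivity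
    linarith
  · have h3 : 0 ≤ kap R s j := by
      unfold kap
      positivity
    have : 0 ≤ 1 + η := by linarith
    positivity

theorem XT_nonneg {R s : ℕ} {S : Finset V} {B : Fin R → Finset V} {η ζ : ℝ} {ν : Finset V → ℝ}
    (hη : 0 ≤ η) (hs1 : 1 ≤ s) (hsR : s ≤ R) (hR : 2 ≤ R) (hζ : 0 ≤ ζ) (hν : ∀ T, 0 ≤ ν T)
    (f : Fin R → V) : 0 ≤ XT G S B s η ζ ν f := by
  unfold XT
  refine add_nonneg (sum_nonneg fun z _ => ?_) (mul_nonneg hζ (hν _))
  split_ifs
  · positivity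
  · exact kt_nonneg hη hs1 hsR hR _

/-- the cost is at least `ζ` at every clique transversal containing the light part of a clique
with at least two heavy vertices -/
theorem XT_ge {R s r k : ℕ} {S : Finset V} {B : Fin R → Finset V} (hB : ∀ i, B i ⊆ S)
    (hfree : clq G S (R + 1) = ∅) (hs2 : 2 ≤ s) (hsR : s ≤ R) (hrs : r + 1 ≤ s) {η ζ : ℝ}
    (hη : 0 ≤ η) (hζ : 0 < ζ) (hζ1 : ζ ≤ (s : ℝ) / R / 4) {ν : Finset V → ℝ}
    (hν : RuleA G S R (R - 1 - r) ν) (hsk : s ≤ k) (hkR : k ≤ R) {T : Finset V}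
    (hT : T ∈ clq G S k) (h2 : 2 ≤ (T \ un B).card) {f : Fin R → V} (hf : f ∈ tcl G B)
    (hTf : T ∩ un B ⊆ im f) : ζ ≤ XT G S B s η ζ ν f := by
  classical
  have himc : im f ∈ clq G S R := im_mem_clq hB hf
  obtain ⟨⟨hTS, hTc⟩, hTcl⟩ := mem_clq.1 hT
  have hsub : ∀ z ∈ T \ un B, hs G (im f) z ⊆ im f \ (T ∩ un B) := by
    intro z hz t ht
    rw [mem_hs] at ht
    rw [mem_sdiff]
    refine ⟨ht.1, fun htT => ?_⟩
    rw [mem_sdiff] at hz
    rw [mem_inter] at htT
    refine ht.2 (hTcl z hz.1 t htT.1 ?_)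
    rintro rfl
    exact hz.2 htT.2
  have hne : ∀ z ∈ T \ un B, (hs G (im f) z).Nonempty := fun z hz =>
    hs_nonempty hfree himc (hTS (mem_sdiff.1 hz).1)
  have hcost : ∀ z ∈ S \ un B, 0 ≤ (if (hs G (im f) z).card = 1 then (s : ℝ) / R else
      kt R s η (hs G (im f) z).card) := by
    intro z _
    split_ifs
    · positivity
    · exact kt_nonneg hη (by omega) hsR (by omega) _
  have hsum := sum_nonneg hcost
  have hν0 : 0 ≤ ζ * ν (im f) := mul_nonneg hζ.le (hν.1 _).1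
  by_cases hone : ∃ z ∈ T \ un B, (hs G (im f) z).card = 1
  · obtain ⟨z, hz, hz1⟩ := hone
    have hzS : z ∈ S \ un B := by
      rw [mem_sdiff] at hz ⊢
      exact ⟨hTS hz.1, hz.2⟩
    have h1 : (s : ℝ) / R ≤ ∑ z ∈ S \ un B, (if (hs G (im f) z).card = 1 then (s : ℝ) / R else
        kt R s η (hs G (im f) z).card) := by
      have := single_le_sum (f := fun z => (if (hs G (im f) z).card = 1 then (s : ℝ) / R else
        kt R s η (hs G (im f) z).card)) hcost hzS
      simpa [hz1] using this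
    unfold XT
    linarith
  · push Not at hone
    have hcardS' : (im f \ (T ∩ un B)).card = R - (T ∩ un B).card := by
      rw [card_sdiff_of_subset hTf, im_card hf]
    have hsplit := card_inter_add_card_sdiff T (un B)
    have hcount : (T \ un B).card ≤
        (S.filter fun z => 2 ≤ (hs G (im f) z).card ∧
          hs G (im f) z ⊆ im f \ (T ∩ un B)).card := by
      refine card_le_card ?_
      intro z hz
      rw [mem_filter]
      refine ⟨hTS (mem_sdiff.1 hz).1, ?_, hsub z hz⟩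
      have h1 := card_pos.2 (hne z hz)
      have h3 := hone z hz
      omega
    have hν1 : ν (im f) = 1 := by
      refine hν.2 (im f) himc (im f \ (T ∩ un B)) sdiff_subset ?_ ?_
      · omega
      · rw [hcardS']
        omega
    unfold XT
    rw [hν1]
    linarith

/-- a clique in `R` independent sets has at most `R` vertices -/
lemma card_le_of_un {R : ℕ} {B : Fin R → Finset V} (hind : ∀ i, ∀ a ∈ B i, ∀ b ∈ B i, ¬ G.Adj a b)
    {J : Finset V} (hJ : J ⊆ un B) (hcl : IsCl G J) : J.card ≤ R := by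
  have h1 : J ⊆ univ.biUnion fun i => J ∩ B i := by
    intro x hx
    obtain ⟨i, hi⟩ := mem_un.1 (hJ hx)
    exact mem_biUnion.2 ⟨i, mem_univ _, mem_inter.2 ⟨hx, hi⟩⟩
  calc J.card ≤ ∑ i, (J ∩ B i).card := (card_le_card h1).trans card_biUnion_le
    _ ≤ ∑ _i : Fin R, 1 := sum_le_sum fun i _ => clique_inter_card hind hcl i
    _ = R := by simp

theorem card_Hk {R s r k m : ℕ} {S : Finset V} {C η₁ δ : ℝ} {B : Fin R → Finset V}
    (h : LS G S R m C η₁ δ B) (hfree : clq G S (R + 1) = ∅) (hm : 2 ≤ m) (hη₁ : 0 ≤ η₁)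
    (hη₁R : 128 * R ^ 2 * η₁ ≤ 1) (hδ : δ ≤ 1 / 16) (hs2 : 2 ≤ s) (hsR : s ≤ R) (hrs : r + 1 ≤ s)
    {η ζ : ℝ} (hη : 0 ≤ η) (hζ : 0 < ζ) (hζ1 : ζ ≤ (s : ℝ) / R / 4) {ν : Finset V → ℝ}
    (hν : RuleA G S R (R - 1 - r) ν) (hsk : s ≤ k) (hkR : k ≤ R) :
    (((clq G S k).filter fun T => 2 ≤ (T \ un B).card).card : ℝ) *
        ((m : ℝ) / 2) ^ (R - k + 2) * ζ ≤
      2 ^ ((S \ un B).card + R) * ∑ f ∈ tcl G B, XT G S B s η ζ ν f := by
  classical
  have hmR : (2 : ℝ) ≤ m := by exact_mod_cast hm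
  have hR2 : (2 : ℝ) ≤ R := by
    have : 2 ≤ R := by omega
    exact_mod_cast this
  have hext : ∀ T' ⊆ un B, IsCl G T' →
      ((m : ℝ) / 2) ^ (R - T'.card) ≤ (((tcl G B).filter fun f => T' ⊆ im f).card : ℝ) := by
    intro T' hT' hcl
    have h1 := ext_gen (G := G) (B := B) h.disj h.ind (∅ : Finset V) (L := (m : ℝ) / 2)
      (by positivity) (fun J hJ hJcl i hi => ?_) (J' := T') (by rwa [sdiff_empty]) hcl
    · refine h1.trans ?_
      have h2 : (tcl G B).filter (fun f => (∀ i, f i ∉ (∅ : Finset V)) ∧ T' ⊆ im f)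
          = (tcl G B).filter fun f => T' ⊆ im f := by
        refine filter_congr fun f _ => ?_
        simp
      rw [h2]
    · rw [sdiff_empty] at hJ
      have hi' : ¬ (J ∩ B i).Nonempty := by
        rw [not_nonempty_iff_eq_empty]
        exact disjoint_iff_inter_eq_empty.1 hi
      have h3 := rB_card_unhit h hR2 hη₁ hη₁R hδ hJ (card_le_of_un h.ind hJ hJcl) hi'
      rw [rB_unhit hi'] at h3
      rw [sdiff_empty]
      linarith
  set H := (clq G S k).filter fun T => 2 ≤ (T \ un B).card with hH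
  have hlow : (H.card : ℝ) * ((m : ℝ) / 2) ^ (R - k + 2) * ζ ≤
      ∑ T ∈ H, ∑ f ∈ (tcl G B).filter (fun f => T ∩ un B ⊆ im f), XT G S B s η ζ ν f := by
    have h0 : (H.card : ℝ) * ((m : ℝ) / 2) ^ (R - k + 2) * ζ
        = H.card • (((m : ℝ) / 2) ^ (R - k + 2) * ζ) := by
      rw [nsmul_eq_mul]; ring
    rw [h0]
    refine card_nsmul_le_sum _ _ _ fun T hT => ?_
    rw [hH, mem_filter] at hT
    obtain ⟨hTc, hT2⟩ := hT
    obtain ⟨⟨hTS, hTcard⟩, hTcl⟩ := mem_clq.1 hTc
    have hcardT : (T ∩ un B).card + 2 ≤ k := by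
      have := card_inter_add_card_sdiff T (un B)
      omega
    have hpow : ((m : ℝ) / 2) ^ (R - k + 2) ≤ ((m : ℝ) / 2) ^ (R - (T ∩ un B).card) :=
      pow_le_pow_right₀ (by linarith) (by omega)
    have hext' := hpow.trans (hext (T ∩ un B) inter_subset_right (hTcl.subset inter_subset_left))
    calc ((m : ℝ) / 2) ^ (R - k + 2) * ζ
        ≤ (((tcl G B).filter fun f => T ∩ un B ⊆ im f).card : ℝ) * ζ :=
          mul_le_mul_of_nonneg_right hext' hζ.le
      _ ≤ ∑ f ∈ (tcl G B).filter (fun f => T ∩ un B ⊆ im f), XT G S B s η ζ ν f := by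
          rw [← nsmul_eq_mul]
          refine card_nsmul_le_sum _ _ _ fun f hf => ?_
          rw [mem_filter] at hf
          exact XT_ge h.sub hfree hs2 hsR hrs hη hζ hζ1 hν hsk hkR hTc hT2 hf.1 hf.2
  refine hlow.trans ?_
  have hswap : ∑ T ∈ H, ∑ f ∈ (tcl G B).filter (fun f => T ∩ un B ⊆ im f), XT G S B s η ζ ν f =
      ∑ f ∈ tcl G B, ∑ T ∈ H.filter (fun T => T ∩ un B ⊆ im f), XT G S B s η ζ ν f := by
    simp_rw [sum_filter]
    rw [sum_comm]
  rw [hswap, mul_sum]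
  refine sum_le_sum fun f hf => ?_
  rw [sum_const, nsmul_eq_mul]
  refine mul_le_mul_of_nonneg_right ?_
    (XT_nonneg hη (by omega) hsR (by omega) hζ.le (fun T => (hν.1 T).1) f)
  have hcount : (H.filter fun T => T ∩ un B ⊆ im f).card ≤
      ((S \ un B).powerset ×ˢ (im f).powerset).card := by
    refine card_le_card_of_injOn (fun T => (T \ un B, T ∩ un B)) ?_ ?_
    · intro T hT
      rw [mem_coe, mem_filter, hH, mem_filter] at hT
      obtain ⟨⟨hTc, _⟩, hTf⟩ := hT
      rw [mem_coe, mem_product, mem_powerset, mem_powerset]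
      exact ⟨sdiff_subset_sdiff (mem_clq.1 hTc).1.1 (subset_refl _), hTf⟩
    · intro T _ T' _ heq
      simp only [Prod.mk.injEq] at heq
      rw [← sdiff_union_inter T (un B), ← sdiff_union_inter T' (un B), heq.1, heq.2]
  rw [card_product, card_powerset, card_powerset, im_card hf, ← pow_add] at hcount
  exact_mod_cast hcount

end H57LT
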