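import Pool.Agent.H57.LT.Hs1
import Pool.Agent.H57.LT.Hs2
import Pool.Agent.H57.LC.Heavy1

/-!
Heavy cliques (note 3585, 4e), assembly.
-/

namespace H57LT

open Finset H57LC

set_option linter.unusedSectionVars false

/-- `(1 + d)^R ≤ 1 + 2 R d` for small `R d` -/
private lemma hvPow (R : ℕ) {d : ℝ} (hd : 0 ≤ d) (hRd : (R : ℝ) * d ≤ 1 / 2) (hd1 : d ≤ 1) :
    (1 + d) ^ R ≤ 1 + 2 * (R * d) := by
  have h1 : 1 - (R : ℝ) * d ≤ (1 - d) ^ R := by
    have := one_add_mul_le_pow (a := -d) (by linarith) R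
    have h2 : 1 + (R : ℝ) * -d = 1 - R * d := by ring
    rw [h2] at this
    have h3 : (1 + -d) = 1 - d := by ring
    rwa [h3] at this
  have h2 : (1 + d) ^ R * (1 - d) ^ R ≤ 1 := by
    rw [← mul_pow]
    refine pow_le_one₀ ?_ ?_
    · nlinarith
    · nlinarith
  have h3 : (1 + d) ^ R * (1 - R * d) ≤ 1 := by
    refine le_trans (mul_le_mul_of_nonneg_left h1 (by positivity)) h2
  set x := (R : ℝ) * d with hx
  have hx0 : 0 ≤ x := by positivity
  have h4 : 1 ≤ (1 + 2 * x) * (1 - x) := by nlinarith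
  have h5 : 0 < 1 - x := by linarith
  exact le_of_mul_le_mul_right (le_trans h3 h4) h5

/-- `C(R,s) kap(j) = C(R-j,s-1)` -/
private lemma hvKap (R s j : ℕ) (hs1 : 1 ≤ s) (hsR : s ≤ R) :
    (R.choose s : ℝ) * kap R s j = ((R - j).choose (s - 1) : ℝ) := by
  obtain ⟨R', rfl⟩ : ∃ R', R = R' + 1 := ⟨R - 1, by omega⟩
  obtain ⟨s', rfl⟩ : ∃ s', s = s' + 1 := ⟨s - 1, by omega⟩
  have h1 : ((R' : ℝ) + 1) * (R'.choose s' : ℝ) = ((R' + 1).choose (s' + 1) : ℝ) * (s' + 1) := by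
    exact_mod_cast Nat.add_one_mul_choose_eq R' s'
  have h2 : (0 : ℝ) < (R'.choose s' : ℝ) := by
    exact_mod_cast Nat.choose_pos (by omega : s' ≤ R')
  have h3 : (0 : ℝ) < (R' : ℝ) + 1 := by positivity
  unfold kap
  simp only [Nat.add_sub_cancel]
  push_cast
  have h4 : ((R' + 1).choose (s' + 1) : ℝ) * (((s' : ℝ) + 1) / ((R' : ℝ) + 1)) =
      (R'.choose s' : ℝ) := by
    rw [mul_div_assoc', div_eq_iff h3.ne']
    linarith
  rw [mul_div_assoc', div_eq_iff h2.ne', ← mul_assoc, h4]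
  ring

/-- `kap 1 = s / R` -/
private lemma hvKap1 (R s : ℕ) (hs1 : 1 ≤ s) (hsR : s ≤ R) : kap R s 1 = (s : ℝ) / R := by
  have h2 : (0 : ℝ) < ((R - 1).choose (s - 1) : ℝ) := by
    exact_mod_cast Nat.choose_pos (by omega : s - 1 ≤ R - 1)
  unfold kap
  rw [mul_div_assoc, div_self h2.ne', mul_one]

/-- `kap 2 = s / R - be` -/
private lemma hvKap2 (R s : ℕ) (hs2 : 2 ≤ s) (hsR : s ≤ R) :
    kap R s 2 = (s : ℝ) / R - be R s := by
  obtain ⟨R', rfl⟩ : ∃ R', R = R' + 2 := ⟨R - 2, by omega⟩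
  obtain ⟨s', rfl⟩ : ∃ s', s = s' + 2 := ⟨s - 2, by omega⟩
  have h0 : (R' + 1).choose (s' + 1) * (R' + 1 - (s' + 1)) = (R' + 1) * R'.choose (s' + 1) := by
    have h1 := Nat.choose_succ_right_eq (R' + 1) (s' + 1)
    have h2 := Nat.add_one_mul_choose_eq R' (s' + 1)
    rw [← h1, ← h2]
  have h1 : ((R' + 1).choose (s' + 1) : ℝ) * ((R' : ℝ) - s') =
      ((R' : ℝ) + 1) * (R'.choose (s' + 1) : ℝ) := by
    have h3 : ((R' + 1 - (s' + 1) : ℕ) : ℝ) = (R' : ℝ) - s' := by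
      rw [Nat.cast_sub (by omega)]
      push_cast
      ring
    rw [← h3]
    exact_mod_cast h0
  have h2 : (0 : ℝ) < ((R' + 1).choose (s' + 1) : ℝ) := by
    exact_mod_cast Nat.choose_pos (by omega : s' + 1 ≤ R' + 1)
  have h3 : (0 : ℝ) < (R' : ℝ) + 1 := by positivity
  have h4 : (0 : ℝ) < (R' : ℝ) + 2 := by positivity
  have h5 : (R'.choose (s' + 1) : ℝ) / ((R' + 1).choose (s' + 1) : ℝ) =
      ((R' : ℝ) - s') / (R' + 1) := by
    rw [div_eq_div_iff h2.ne' h3.ne']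
    linarith
  unfold kap be
  have e1 : R' + 2 - 2 = R' := by omega
  have e2 : s' + 2 - 1 = s' + 1 := by omega
  have e3 : R' + 2 - 1 = R' + 1 := by omega
  rw [e1, e2, e3, mul_div_assoc, h5]
  push_cast
  have e4 : (R' : ℝ) + 2 - 1 = R' + 1 := by ring
  rw [e4]
  field_simp
  ring

private lemma hvKap0 (R s j : ℕ) : 0 ≤ kap R s j := by
  unfold kap
  positivity

/-- the cliques with a heavy vertex -/
private lemma hvCover {V : Type*} [DecidableEq V] {G : SimpleGraph V} [DecidableRel G.Adj]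
    {R : ℕ} (k : ℕ) (S : Finset V) (B : Fin R → Finset V) (m : ℕ) (θ : ℝ) :
    (((clq G S k).filter fun T => ¬ T ⊆ un B).card : ℝ) ≤
      (((clq G S k).filter (fun T => ¬ T ⊆ un B ∧ ¬ Disjoint T (big G B m θ))).card : ℝ) +
      ((∑ z ∈ S \ un B, (((clq G S k).filter
        fun T => z ∈ T ∧ T.erase z ⊆ un B \ big G B m θ).card : ℝ)) +
      (((clq G S k).filter (fun T => 2 ≤ (T \ un B).card)).card : ℝ)) := by
  classical
  set F0 := (clq G S k).filter (fun T => ¬ T ⊆ un B ∧ ¬ Disjoint T (big G B m θ)) with hF0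
  set F2 := (clq G S k).filter (fun T => 2 ≤ (T \ un B).card) with hF2
  set F1 := (S \ un B).biUnion (fun z => (clq G S k).filter
    fun T => z ∈ T ∧ T.erase z ⊆ un B \ big G B m θ) with hF1
  have hcov : (clq G S k).filter (fun T => ¬ T ⊆ un B) ⊆ F0 ∪ (F1 ∪ F2) := by
    intro T hT
    rw [mem_filter] at hT
    obtain ⟨hTc, hTu⟩ := hT
    by_cases hd : Disjoint T (big G B m θ)
    · by_cases h3 : 2 ≤ (T \ un B).card
      · exact mem_union_right _ (mem_union_right _ (mem_filter.2 ⟨hTc, h3⟩))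
      · obtain ⟨z, hzT, hzu⟩ := not_subset.1 hTu
        have hz1 : z ∈ T \ un B := mem_sdiff.2 ⟨hzT, hzu⟩
        have h4 : (T \ un B).card = 1 := by
          have := card_pos.2 ⟨z, hz1⟩
          omega
        obtain ⟨y, hy⟩ := card_eq_one.1 h4
        have hyz : y = z := by
          rw [hy, mem_singleton] at hz1
          exact hz1.symm
        subst hyz
        refine mem_union_right _ (mem_union_left _ (mem_biUnion.2 ⟨y, ?_, ?_⟩))
        · exact mem_sdiff.2 ⟨(mem_clq.1 hTc).1.1 hzT, hzu⟩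
        · refine mem_filter.2 ⟨hTc, hzT, ?_⟩
          intro x hx
          rw [mem_erase] at hx
          rw [mem_sdiff]
          constructor
          · by_contra hxu
            have : x ∈ T \ un B := mem_sdiff.2 ⟨hx.2, hxu⟩
            rw [hy, mem_singleton] at this
            exact hx.1 this
          · intro hxb
            exact (disjoint_left.1 hd) hx.2 hxb
    · exact mem_union_left _ (mem_filter.2 ⟨hTc, hTu, hd⟩)
  have h3 := card_le_card hcov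
  have h4 := card_union_le F0 (F1 ∪ F2)
  have h5 := card_union_le F1 F2
  have h6 : F1.card ≤ ∑ z ∈ S \ un B, ((clq G S k).filter
        fun T => z ∈ T ∧ T.erase z ⊆ un B \ big G B m θ).card := card_biUnion_le
  exact_mod_cast le_trans h3 (le_trans h4 (Nat.add_le_add_left
    (le_trans h5 (Nat.add_le_add_right h6 _)) _))

/-- the cliques with exactly one heavy vertex `z` -/
private lemma hvOne {V : Type*} [DecidableEq V] {G : SimpleGraph V} [DecidableRel G.Adj]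
    {R : ℕ} (s : ℕ) (S : Finset V) (B : Fin R → Finset V) (m : ℕ) (θ : ℝ) (z : V) :
    ((clq G S s).filter fun T => z ∈ T ∧ T.erase z ⊆ un B \ big G B m θ).card ≤
      tS G B m θ s z := by
  classical
  unfold tS
  refine card_le_card_of_injOn (fun T => T.erase z) ?_ ?_
  · intro T hT
    rw [mem_coe, mem_filter, mem_clq] at hT
    obtain ⟨⟨⟨_, hT2⟩, hT3⟩, hz, hT4⟩ := hT
    rw [mem_coe, mem_filter, mem_clq]
    refine ⟨⟨⟨hT4, ?_⟩, hT3.subset (erase_subset _ _)⟩, ?_⟩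
    · rw [card_erase_of_mem hz, hT2]
    · intro y hy
      rw [mem_erase] at hy
      exact hT3 z hz y hy.2 hy.1.symm
  · intro T hT T' hT' heq
    rw [mem_coe, mem_filter] at hT hT'
    simp only at heq
    rw [← insert_erase hT.2.1, ← insert_erase hT'.2.1, heq]

/-- the part with at least three non-neighbours -/
private noncomputable def hvS3 {V : Type*} [DecidableEq V] (G : SimpleGraph V)
    [DecidableRel G.Adj] {R : ℕ} (B : Fin R → Finset V) (s : ℕ) (z : V) : ℝ :=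
  ∑ f ∈ tcl G B, (if 3 ≤ (hs G (im f) z).card then kap R s (hs G (im f) z).card else 0)

private lemma hvS3_nonneg {V : Type*} [DecidableEq V] (G : SimpleGraph V)
    [DecidableRel G.Adj] {R : ℕ} (B : Fin R → Finset V) (s : ℕ) (z : V) : 0 ≤ hvS3 G B s z := by
  unfold hvS3
  refine sum_nonneg fun f _ => ?_
  split_ifs
  · exact hvKap0 _ _ _
  · exact le_refl _

/-- the sum of the binomial coefficients -/
private lemma hvSumChoose {V : Type*} [DecidableEq V] {G : SimpleGraph V} [DecidableRel G.Adj]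
    {R s m : ℕ} (hs2 : 2 ≤ s) (hsR : s ≤ R) {S : Finset V} {B : Fin R → Finset V}
    (hB : ∀ i, B i ⊆ S) (hfree : clq G S (R + 1) = ∅) {θ : ℝ} {z : V} (hz : z ∈ S) :
    (∑ f ∈ (tcl G B).filter (fun f => ∀ i, f i ∉ big G B m θ),
      ((R - (hs G (im f) z).card).choose (s - 1) : ℝ)) ≤
      (R.choose s : ℝ) * ((s : ℝ) / R * (n1 G B m θ z : ℝ) + ((s : ℝ) / R - be R s) * (n2 G B z : ℝ)
        + hvS3 G B s z) := by
  classical
  have h1 : ∀ f ∈ tcl G B, (if ∀ i, f i ∉ big G B m θ then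
      ((R - (hs G (im f) z).card).choose (s - 1) : ℝ) else 0) ≤
      (R.choose s : ℝ) * ((s : ℝ) / R * (if (∀ i, f i ∉ big G B m θ) ∧ (hs G (im f) z).card = 1
        then (1 : ℝ) else 0) + ((s : ℝ) / R - be R s) * (if (hs G (im f) z).card = 2
        then (1 : ℝ) else 0) + (if 3 ≤ (hs G (im f) z).card then kap R s (hs G (im f) z).card
        else 0)) := by
    intro f hf
    have hne := card_pos.2 (hs_nonempty hfree (im_mem_clq hB hf) hz)
    rw [← hvKap2 R s hs2 hsR, ← hvKap1 R s (by omega) hsR]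
    have hc0 : (0 : ℝ) ≤ (R.choose s : ℝ) := Nat.cast_nonneg _
    have hk1 := hvKap0 R s 1
    have hk2 := hvKap0 R s 2
    have hk3 := hvKap0 R s (hs G (im f) z).card
    by_cases hnb : ∀ i, f i ∉ big G B m θ
    · rw [if_pos hnb, ← hvKap R s _ (by omega) hsR]
      refine mul_le_mul_of_nonneg_left ?_ hc0
      by_cases ha : (hs G (im f) z).card = 1
      · rw [if_pos ⟨hnb, ha⟩, if_neg (by omega), if_neg (by omega), ha]
        linarith
      · by_cases hb : (hs G (im f) z).card = 2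
        · rw [if_neg (fun h => ha h.2), if_pos hb, if_neg (by omega), hb]
          linarith
        · rw [if_neg (fun h => ha h.2), if_neg hb, if_pos (by omega)]
          linarith
    · rw [if_neg hnb]
      refine mul_nonneg hc0 (add_nonneg (add_nonneg (mul_nonneg hk1 ?_) (mul_nonneg hk2 ?_)) ?_)
      · split_ifs <;> norm_num
      · split_ifs <;> norm_num
      · split_ifs
        · exact hk3
        · exact le_refl _
  rw [sum_filter]
  refine le_trans (sum_le_sum h1) (le_of_eq ?_)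
  rw [← mul_sum, sum_add_distrib, sum_add_distrib, ← mul_sum, ← mul_sum]
  unfold n1 n2 hvS3
  rw [card_filter, card_filter]
  push_cast
  rfl

/-- the sum of the costs -/
private lemma hvSumXT {V : Type*} [DecidableEq V] {G : SimpleGraph V} [DecidableRel G.Adj]
    {R s m : ℕ} (hs2 : 2 ≤ s) (hsR : s ≤ R) {S : Finset V} {B : Fin R → Finset V}
    {η θ ζ : ℝ} (hη : 0 ≤ η) (hζ : 0 ≤ ζ) {ν : Finset V → ℝ} (hν : ∀ T, 0 ≤ ν T) :
    ∑ z ∈ S \ un B, ((s : ℝ) / R * (n1 G B m θ z : ℝ) +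
        ((s : ℝ) / R - be R s / 2) * (n2 G B z : ℝ) + (1 + η) * hvS3 G B s z) ≤
      ∑ f ∈ tcl G B, XT G S B s η ζ ν f := by
  classical
  have h1 : ∑ f ∈ tcl G B, ∑ z ∈ S \ un B, (if (hs G (im f) z).card = 1 then (s : ℝ) / R else
      kt R s η (hs G (im f) z).card) ≤ ∑ f ∈ tcl G B, XT G S B s η ζ ν f := by
    refine sum_le_sum fun f _ => ?_
    unfold XT
    have h2 : 0 ≤ ζ * ν (im f) := mul_nonneg hζ (hν _)
    linarith
  refine le_trans ?_ h1
  rw [sum_comm]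
  refine sum_le_sum fun z _ => ?_
  have h2 : ∀ f ∈ tcl G B, (s : ℝ) / R * (if (∀ i, f i ∉ big G B m θ) ∧ (hs G (im f) z).card = 1
        then (1 : ℝ) else 0) + ((s : ℝ) / R - be R s / 2) * (if (hs G (im f) z).card = 2
        then (1 : ℝ) else 0) + (1 + η) * (if 3 ≤ (hs G (im f) z).card
        then kap R s (hs G (im f) z).card else 0) ≤
      (if (hs G (im f) z).card = 1 then (s : ℝ) / R else kt R s η (hs G (im f) z).card) := by
    intro f _
    have hα : 0 ≤ (s : ℝ) / R := by positivity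
    have hk := kt_nonneg hη (by omega : 1 ≤ s) hsR (by omega : 2 ≤ R) (hs G (im f) z).card
    by_cases ha : (hs G (im f) z).card = 1
    · have hb : ¬ (hs G (im f) z).card = 2 := by omega
      have hc : ¬ 3 ≤ (hs G (im f) z).card := by omega
      rw [if_pos ha, if_neg hb, if_neg hc]
      split_ifs <;> linarith
    · rw [if_neg ha, if_neg (fun h => ha h.2)]
      by_cases hb : (hs G (im f) z).card = 2
      · rw [if_pos hb, if_neg (by omega)]
        have : kt R s η (hs G (im f) z).card = (s : ℝ) / R - be R s / 2 + η := by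
          unfold kt
          rw [if_neg (by omega), if_pos hb]
        rw [this]
        linarith
      · rw [if_neg hb]
        by_cases hc : 3 ≤ (hs G (im f) z).card
        · rw [if_pos hc]
          have : kt R s η (hs G (im f) z).card = (1 + η) * kap R s (hs G (im f) z).card := by
            unfold kt
            rw [if_neg (by omega), if_neg hb]
          rw [this]
          linarith
        · rw [if_neg hc]
          linarith
  refine le_trans (le_of_eq ?_) (sum_le_sum h2)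
  rw [sum_add_distrib, sum_add_distrib, ← mul_sum, ← mul_sum, ← mul_sum]
  unfold n1 n2 hvS3
  rw [card_filter, card_filter]
  push_cast
  rfl

/-- the numerical comparison at one heavy vertex -/
private lemma hvNum {α β η η₁ N1 N2 S3 κ q : ℝ} (hα0 : 0 ≤ α) (hα1 : α ≤ 1) (hβ0 : 0 < β)
    (hβ1 : β ≤ α) (hη₁ : 0 < η₁) (hη₁s : η₁ ≤ 1 / 4096) (hη : 4096 * η₁ ≤ η) (hη1 : η ≤ 1)
    (hN1 : 0 ≤ N1) (hN : η₁ / 9 * N1 ≤ N2) (hS3 : 0 ≤ S3)
    (hκ : κ ≤ 1 + β * η₁ / 64000) (hq : 1 - β * η₁ / 4000 ≤ q) :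
    κ * ((α * N1 + (α - β) * N2 + S3) + β * η₁ / 400 * N1) ≤
      q * ((1 - β * η₁ / 200) * (α * N1 + (α - β / 2) * N2 + (1 + η) * S3)) := by
  set x : ℝ := β * η₁ with hx
  have hβ1' : β ≤ 1 := hβ1.trans hα1
  have hx0 : 0 < x := mul_pos hβ0 hη₁
  have hxη : x ≤ η₁ := by rw [hx]; nlinarith
  have hN20 : 0 ≤ N2 := le_trans (by positivity) hN
  have hA : 0 ≤ α * N1 + (α - β) * N2 + S3 + x / 400 * N1 := by
    have h1 : 0 ≤ (α - β) * N2 := mul_nonneg (by linarith) hN20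
    positivity
  have hB : 0 ≤ α * N1 + (α - β / 2) * N2 + (1 + η) * S3 := by
    have h1 : 0 ≤ (α - β / 2) * N2 := mul_nonneg (by linarith) hN20
    have h2 : 0 ≤ (1 + η) * S3 := mul_nonneg (by linarith) hS3
    positivity
  have h1 : κ * ((α * N1 + (α - β) * N2 + S3) + x / 400 * N1) ≤
      (1 + x / 64000) * ((α * N1 + (α - β) * N2 + S3) + x / 400 * N1) :=
    mul_le_mul_of_nonneg_right hκ hA
  have hq' : (1 - x / 190) ≤ q * (1 - x / 200) := by
    have h2 : (1 - x / 4000) * (1 - x / 200) ≤ q * (1 - x / 200) :=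
      mul_le_mul_of_nonneg_right hq (by linarith)
    nlinarith
  have h2 : (1 - x / 190) * (α * N1 + (α - β / 2) * N2 + (1 + η) * S3) ≤
      q * ((1 - x / 200) * (α * N1 + (α - β / 2) * N2 + (1 + η) * S3)) := by
    rw [← mul_assoc]
    exact mul_le_mul_of_nonneg_right hq' hB
  refine h1.trans (le_trans ?_ h2)
  -- coefficient of S3
  have hc3 : (1 + x / 64000) * S3 ≤ (1 - x / 190) * ((1 + η) * S3) := by
    rw [← mul_assoc]
    refine mul_le_mul_of_nonneg_right ?_ hS3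
    have hxx : x / 190 * η ≤ η / 2 := by nlinarith
    nlinarith
  -- coefficient of N1
  have hc1 : (1 + x / 64000) * (α * N1 + x / 400 * N1) ≤ (1 - x / 190) * (α * N1) + x / 120 * N1 := by
    have h3 : (1 + x / 64000) * (α + x / 400) ≤ (1 - x / 190) * α + x / 120 := by
      have h4 : x * α ≤ x := by nlinarith
      have h5 : x * x ≤ x := by nlinarith
      nlinarith
    calc (1 + x / 64000) * (α * N1 + x / 400 * N1) = (1 + x / 64000) * (α + x / 400) * N1 := by ring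
      _ ≤ ((1 - x / 190) * α + x / 120) * N1 := mul_le_mul_of_nonneg_right h3 hN1
      _ = (1 - x / 190) * (α * N1) + x / 120 * N1 := by ring
  -- coefficient of N2
  have hc2 : (1 + x / 64000) * ((α - β) * N2) + β / 3 * N2 ≤ (1 - x / 190) * ((α - β / 2) * N2) := by
    have h3 : (1 + x / 64000) * (α - β) + β / 3 ≤ (1 - x / 190) * (α - β / 2) := by
      have h4 : x * α ≤ x := by nlinarith
      have h5 : x ≤ β / 4096 := by rw [hx]; nlinarith
      have h6 : 0 ≤ x * β := by positivity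
      have h7 : 0 ≤ x * (α - β) := mul_nonneg hx0.le (by linarith)
      nlinarith
    calc (1 + x / 64000) * ((α - β) * N2) + β / 3 * N2
        = ((1 + x / 64000) * (α - β) + β / 3) * N2 := by ring
      _ ≤ ((1 - x / 190) * (α - β / 2)) * N2 := mul_le_mul_of_nonneg_right h3 hN20
      _ = _ := by ring
  have hc4 : x / 120 * N1 ≤ β / 3 * N2 := by
    have h3 : β / 3 * (η₁ / 9 * N1) ≤ β / 3 * N2 := mul_le_mul_of_nonneg_left hN (by positivity)
    have h4 : β / 3 * (η₁ / 9 * N1) = x / 27 * N1 := by rw [hx]; ring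
    have h5 : 0 ≤ x * N1 := by positivity
    linarith
  calc (1 + x / 64000) * ((α * N1 + (α - β) * N2 + S3) + x / 400 * N1)
      = (1 + x / 64000) * (α * N1 + x / 400 * N1) + (1 + x / 64000) * ((α - β) * N2)
        + (1 + x / 64000) * S3 := by ring
    _ ≤ (1 - x / 190) * (α * N1) + (1 - x / 190) * ((α - β / 2) * N2)
        + (1 - x / 190) * ((1 + η) * S3) := by linarith
    _ = _ := by ring

/-- the cliques with a big vertex -/
private lemma hvBigL {V : Type*} [DecidableEq V] {G : SimpleGraph V} [DecidableRel G.Adj]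
    {R r m : ℕ} {S : Finset V} {C η₁ δ η θ κ : ℝ} {B : Fin R → Finset V}
    (hLS : LS G S R m C η₁ δ B) (hR : 2 ≤ R) (hC : 0 < C) (hη : 0 < η) (hδ2 : δ ≤ 1 / 2)
    (hθ : 0 < θ) (hmR : (2 : ℝ) ≤ m) (hS : S.card ≤ R * m + r) (hκ2 : κ ≤ 2)
    (k : ℕ) (hk : 2 ≤ k)
    (hmk : 16 * C * ((R : ℝ) + r) ^ (k - 2) * 2 ^ (R - 2) / (η * θ) ≤ m) :
    κ * ((m : ℝ) ^ R * (((clq G S k).filter
      (fun T => ¬ T ⊆ un B ∧ ¬ Disjoint T (big G B m θ))).card : ℝ)) ≤
      (η / 8) * ((m : ℝ) ^ k * ∑ f ∈ Fintype.piFinset B, DD G f) := by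
  classical
  have hm0 : (0 : ℝ) < m := by linarith
  have hX := hLS.hX
  have hSm : (S.card : ℝ) ≤ ((R : ℝ) + r) * m := by
    have h6 : (S.card : ℝ) ≤ R * m + r := by exact_mod_cast hS
    have h7 : (r : ℝ) ≤ r * m := by
      have : (0 : ℝ) ≤ r := Nat.cast_nonneg _
      nlinarith
    linarith
  have h4 := sum_DD_ge hLS hR hδ2 hθ
  set DS : ℝ := ∑ f ∈ Fintype.piFinset B, DD G f with hDS
  set b : ℝ := ((big G B m θ).card : ℝ) with hb
  have hb0 : 0 ≤ b := Nat.cast_nonneg _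
  set F0 := (clq G S k).filter (fun T => ¬ T ⊆ un B ∧ ¬ Disjoint T (big G B m θ)) with hF0
  have h5 : (F0.card : ℝ) ≤ ((S \ un B).card : ℝ) * b * (S.card : ℝ) ^ (k - 2) := by
    have := card_HsBig (G := G) hk S B hLS.sub m θ
    rw [hF0, hb]
    exact_mod_cast this
  have h6 : (S.card : ℝ) ^ (k - 2) ≤ ((R : ℝ) + r) ^ (k - 2) * (m : ℝ) ^ (k - 2) := by
    rw [← mul_pow]
    exact pow_le_pow_left₀ (Nat.cast_nonneg _) hSm _
  have h7 : (F0.card : ℝ) ≤ C * b * (((R : ℝ) + r) ^ (k - 2) * (m : ℝ) ^ (k - 2)) := by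
    refine le_trans h5 ?_
    refine mul_le_mul (mul_le_mul_of_nonneg_right hX hb0) h6 (by positivity) (by positivity)
  have h8 : 16 * C * ((R : ℝ) + r) ^ (k - 2) * 2 ^ (R - 2) ≤ m * (η * θ) :=
    (div_le_iff₀ (by positivity : (0 : ℝ) < η * θ)).1 hmk
  have h9 : ((m : ℝ) / 2) ^ (R - 2) * 2 ^ (R - 2) = (m : ℝ) ^ (R - 2) := by
    rw [← mul_pow]
    congr 1
    ring
  have h10 : (0 : ℝ) < 2 ^ (R - 2) := by positivity
  have e1 : (m : ℝ) ^ R = (m : ℝ) ^ (R - 2) * (m : ℝ) ^ 2 := by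
    rw [← pow_add]
    congr 1
    omega
  have e2 : (m : ℝ) ^ k = (m : ℝ) ^ (k - 2) * (m : ℝ) ^ 2 := by
    rw [← pow_add]
    congr 1
    omega
  have h11 : κ * ((m : ℝ) ^ R * (F0.card : ℝ)) * 2 ^ (R - 2) ≤
      (η / 8) * ((m : ℝ) ^ k * DS) * 2 ^ (R - 2) := by
    calc κ * ((m : ℝ) ^ R * (F0.card : ℝ)) * 2 ^ (R - 2)
        ≤ 2 * ((m : ℝ) ^ R *
            (C * b * (((R : ℝ) + r) ^ (k - 2) * (m : ℝ) ^ (k - 2)))) * 2 ^ (R - 2) := by
          refine mul_le_mul_of_nonneg_right ?_ h10.le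
          exact mul_le_mul hκ2 (mul_le_mul_of_nonneg_left h7 (by positivity)) (by positivity)
            (by norm_num)
      _ = (b * (m : ℝ) ^ R * (m : ℝ) ^ (k - 2) / 8) *
            (16 * C * ((R : ℝ) + r) ^ (k - 2) * 2 ^ (R - 2)) := by ring
      _ ≤ (b * (m : ℝ) ^ R * (m : ℝ) ^ (k - 2) / 8) * (m * (η * θ)) :=
          mul_le_mul_of_nonneg_left h8 (by positivity)
      _ = (η / 8) * ((m : ℝ) ^ k * (b * (θ * m) * (((m : ℝ) / 2) ^ (R - 2) * 2 ^ (R - 2)))) := by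
          rw [h9, e1, e2]; ring
      _ = (η / 8) * ((m : ℝ) ^ k * (b * (θ * m) * ((m : ℝ) / 2) ^ (R - 2))) * 2 ^ (R - 2) := by
          ring
      _ ≤ (η / 8) * ((m : ℝ) ^ k * DS) * 2 ^ (R - 2) := by
          refine mul_le_mul_of_nonneg_right ?_ h10.le
          refine mul_le_mul_of_nonneg_left ?_ (by positivity)
          exact mul_le_mul_of_nonneg_left h4 (by positivity)
  exact le_of_mul_le_mul_right h11 h10

/-- the cliques with at least two heavy vertices -/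
private lemma hvTwoL {V : Type*} [DecidableEq V] {G : SimpleGraph V} [DecidableRel G.Adj]
    {R s r m : ℕ} {S : Finset V} {C η₁ δ η ζ κ x K : ℝ} {B : Fin R → Finset V}
    {ν : Finset V → ℝ} (hLS : LS G S R m C η₁ δ B) (hs2 : 2 ≤ s) (hsR : s ≤ R)
    (hrs : r + 1 ≤ s) (hη : 0 < η) (hζ : 0 < ζ) (hζ1 : ζ ≤ (s : ℝ) / R / 4) (hη₁ : 0 < η₁)
    (hη₁128 : 128 * (R : ℝ) ^ 2 * η₁ ≤ 1) (hδ1 : δ ≤ 1 / 16) (hx0 : 0 < x) (hm4 : 2 ≤ m)
    (hfree : clq G S (R + 1) = ∅) (hν : RuleA G S R (R - 1 - r) ν)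
    (hK : K = 2 ^ (⌊C⌋₊ + R)) (hκ2 : κ ≤ 2)
    (k : ℕ) (hk : s ≤ k) (hkR : k ≤ R)
    (hmk : 1600 * K * 2 ^ (R - k + 2) / (ζ * x) ≤ m) :
    κ * ((m : ℝ) ^ R * (((clq G S k).filter (fun T => 2 ≤ (T \ un B).card)).card : ℝ)) ≤
      x / 800 * ((m : ℝ) ^ (k - 1) * ∑ f ∈ tcl G B, XT G S B s η ζ ν f) := by
  classical
  have hR : 2 ≤ R := hs2.trans hsR
  have hX := hLS.hX
  have hK0 : 0 < K := by rw [hK]; positivity
  have h4 := card_Hk hLS hfree hm4 hη₁.le hη₁128 hδ1 hs2 hsR hrs hη.le hζ hζ1 hν hk hkR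
  set XS : ℝ := ∑ f ∈ tcl G B, XT G S B s η ζ ν f with hXS
  have hXS0 : 0 ≤ XS := sum_nonneg fun f _ =>
    XT_nonneg hη.le (by omega) hsR hR hζ.le (fun T => (hν.1 T).1) f
  set F2 := (clq G S k).filter (fun T => 2 ≤ (T \ un B).card) with hF2
  have h5 : (2 : ℝ) ^ ((S \ un B).card + R) ≤ K := by
    rw [hK]
    refine pow_le_pow_right₀ (by norm_num) ?_
    have : (S \ un B).card ≤ ⌊C⌋₊ := Nat.le_floor hX
    omega
  have h6 : (F2.card : ℝ) * ((m : ℝ) / 2) ^ (R - k + 2) * ζ ≤ K * XS :=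
    le_trans h4 (mul_le_mul_of_nonneg_right h5 hXS0)
  have h7 : 1600 * K * 2 ^ (R - k + 2) ≤ m * (ζ * x) := (div_le_iff₀ (by positivity)).1 hmk
  have h8 : ((m : ℝ) / 2) ^ (R - k + 2) * 2 ^ (R - k + 2) = (m : ℝ) ^ (R - k + 2) := by
    rw [← mul_pow]
    congr 1
    ring
  have e1 : (m : ℝ) ^ (R - k + 2) * (m : ℝ) ^ (k - 2) = (m : ℝ) ^ R := by
    rw [← pow_add]
    congr 1
    omega
  have e2 : (m : ℝ) ^ (k - 1) = (m : ℝ) ^ (k - 2) * m := by
    rw [← pow_succ]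
    congr 1
    omega
  have h9 : κ * ((m : ℝ) ^ R * (F2.card : ℝ)) * ζ ≤ x / 800 * ((m : ℝ) ^ (k - 1) * XS) * ζ := by
    calc κ * ((m : ℝ) ^ R * (F2.card : ℝ)) * ζ
        = κ * ((F2.card : ℝ) * ((m : ℝ) / 2) ^ (R - k + 2) * ζ) *
            (2 ^ (R - k + 2) * (m : ℝ) ^ (k - 2)) := by rw [← e1, ← h8]; ring
      _ ≤ 2 * (K * XS) * (2 ^ (R - k + 2) * (m : ℝ) ^ (k - 2)) := by
          refine mul_le_mul_of_nonneg_right ?_ (by positivity)
          exact mul_le_mul hκ2 h6 (by positivity) (by norm_num)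
      _ = XS / 800 * (m : ℝ) ^ (k - 2) * (1600 * K * 2 ^ (R - k + 2)) := by ring
      _ ≤ XS / 800 * (m : ℝ) ^ (k - 2) * (m * (ζ * x)) :=
          mul_le_mul_of_nonneg_left h7 (by positivity)
      _ = x / 800 * ((m : ℝ) ^ (k - 1) * XS) * ζ := by rw [e2]; ring
  exact le_of_mul_le_mul_right h9 hζ

/-- the cliques with exactly one heavy vertex, in terms of the counts -/
private lemma hvOneL {V : Type*} [DecidableEq V] {G : SimpleGraph V} [DecidableRel G.Adj]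
    {R s r m : ℕ} {S : Finset V} {η₁ η ζ θ κ α β x q : ℝ} {B : Fin R → Finset V}
    {ν : Finset V → ℝ} (hB : ∀ i, B i ⊆ S) (hfree : clq G S (R + 1) = ∅)
    (hs2 : 2 ≤ s) (hsR : s ≤ R) (hα : α = (s : ℝ) / R) (hβ : β = be R s) (hx : x = β * η₁)
    (hα0 : 0 ≤ α) (hα1 : α ≤ 1) (hβ0 : 0 < β) (hβα : β ≤ α)
    (hη₁ : 0 < η₁) (hη₁s : η₁ ≤ 1 / 4096) (hη₁a : 4096 * η₁ ≤ η) (hη1 : η ≤ 1) (hζ : 0 < ζ)
    (hν : RuleA G S R (R - 1 - r) ν) (hm0 : (0 : ℝ) < m) (hκ0 : 0 < κ)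
    (hκ1 : κ ≤ 1 + x / 64000) (hq0 : 0 < q) (hq1 : q ≤ 1) (hqR : 1 - x / 4000 ≤ q ^ R)
    (h1 : ∀ z ∈ S \ un B, q * m * (t1 G S B m θ z : ℝ) ≤ (n1 G B m θ z : ℝ))
    (h2 : ∀ z ∈ S \ un B, η₁ / 9 * (n1 G B m θ z : ℝ) ≤ (n2 G B z : ℝ))
    (h3 : ∀ z ∈ S \ un B, (q * m) ^ (R - s + 1) * (tS G B m θ s z : ℝ) ≤
          ∑ f ∈ (tcl G B).filter (fun f => ∀ i, f i ∉ big G B m θ),
            ((R - (hs G (im f) z).card).choose (s - 1) : ℝ)) :
    κ * ((m : ℝ) ^ R * (∑ z ∈ S \ un B, (((clq G S s).filter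
        fun T => z ∈ T ∧ T.erase z ⊆ un B \ big G B m θ).card : ℝ)) +
        x / 400 * N0 R s m * (∑ z ∈ S \ un B, (((clq G S R).filter
        fun T => z ∈ T ∧ T.erase z ⊆ un B \ big G B m θ).card : ℝ))) ≤
      (1 - x / 200) * (N0 R s m / m * ∑ f ∈ tcl G B, XT G S B s η ζ ν f) := by
  classical
  have hη0 : 0 ≤ η := by linarith
  have hXX := hvSumXT (G := G) (m := m) (S := S) (B := B) (θ := θ) hs2 hsR hη0 hζ.le
    (fun T => (hν.1 T).1) (ν := ν)
  rw [← hα, ← hβ] at hXX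
  have hx0 : 0 < x := by rw [hx]; exact mul_pos hβ0 hη₁
  have hxη : x ≤ η₁ := by rw [hx]; nlinarith
  have hx1 : x ≤ 1 / 4096 := hxη.trans hη₁s
  set c : ℝ := (R.choose s : ℝ) with hc
  have hc0 : 0 < c := by
    rw [hc]
    exact_mod_cast Nat.choose_pos hsR
  have hN0 : N0 R s m = c * (m : ℝ) ^ s := rfl
  have hN0p : 0 < N0 R s m := by rw [hN0]; positivity
  have hN0m : N0 R s m / m = c * (m : ℝ) ^ (s - 1) := by
    rw [hN0, div_eq_iff hm0.ne', mul_assoc, ← pow_succ]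
    congr 2
    omega
  set T1 : ℝ := ∑ z ∈ S \ un B, (((clq G S s).filter
        fun T => z ∈ T ∧ T.erase z ⊆ un B \ big G B m θ).card : ℝ) with hT1
  set T2 : ℝ := ∑ z ∈ S \ un B, (((clq G S R).filter
        fun T => z ∈ T ∧ T.erase z ⊆ un B \ big G B m θ).card : ℝ) with hT2
  have hT10 : 0 ≤ T1 := sum_nonneg fun _ _ => Nat.cast_nonneg _
  have hT20 : 0 ≤ T2 := sum_nonneg fun _ _ => Nat.cast_nonneg _
  set W : ℝ := ∑ z ∈ S \ un B, (α * (n1 G B m θ z : ℝ) + (α - β) * (n2 G B z : ℝ) +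
      hvS3 G B s z) with hW
  set M1 : ℝ := ∑ z ∈ S \ un B, (n1 G B m θ z : ℝ) with hM1
  set XS : ℝ := ∑ f ∈ tcl G B, XT G S B s η ζ ν f with hXS
  clear_value c T1 T2 W M1 XS
  have hOne1 : q ^ R * ((m : ℝ) ^ R * T1) ≤ N0 R s m / m * W := by
    have h4 : ∀ z ∈ S \ un B, (q * m) ^ (R - s + 1) * (((clq G S s).filter
        fun T => z ∈ T ∧ T.erase z ⊆ un B \ big G B m θ).card : ℝ) ≤
        c * (α * (n1 G B m θ z : ℝ) + (α - β) * (n2 G B z : ℝ) + hvS3 G B s z) := by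
      intro z hz
      have h5 := h3 z hz
      have h6 : (((clq G S s).filter
        fun T => z ∈ T ∧ T.erase z ⊆ un B \ big G B m θ).card : ℝ) ≤ (tS G B m θ s z : ℝ) := by
        exact_mod_cast hvOne s S B m θ z
      have h7 := hvSumChoose (G := G) (m := m) (θ := θ) hs2 hsR hB hfree
        (mem_sdiff.1 hz).1
      rw [← hα, ← hβ, ← hc] at h7
      have hqm : 0 ≤ (q * m) ^ (R - s + 1) := pow_nonneg (mul_nonneg hq0.le hm0.le) _
      exact le_trans (mul_le_mul_of_nonneg_left h6 hqm) (le_trans h5 h7)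
    have h5 : (q * m) ^ (R - s + 1) * T1 ≤ c * W := by
      rw [hT1, hW, mul_sum, mul_sum]
      exact sum_le_sum h4
    have h6 : q ^ R ≤ q ^ (R - s + 1) := pow_le_pow_of_le_one hq0.le hq1 (by omega)
    have e1 : (m : ℝ) ^ R = (m : ℝ) ^ (s - 1) * (m : ℝ) ^ (R - s + 1) := by
      rw [← pow_add]
      congr 1
      omega
    calc q ^ R * ((m : ℝ) ^ R * T1) ≤ q ^ (R - s + 1) * ((m : ℝ) ^ R * T1) :=
          mul_le_mul_of_nonneg_right h6 (mul_nonneg (pow_nonneg hm0.le _) hT10)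
      _ = (m : ℝ) ^ (s - 1) * ((q * m) ^ (R - s + 1) * T1) := by rw [e1, mul_pow]; ring
      _ ≤ (m : ℝ) ^ (s - 1) * (c * W) :=
          mul_le_mul_of_nonneg_left h5 (by positivity)
      _ = _ := by rw [hN0m]; ring
  have hOne2 : q ^ R * T2 ≤ M1 / m := by
    rw [le_div_iff₀ hm0]
    have h5 : q * m * T2 ≤ M1 := by
      rw [hT2, hM1, mul_sum]
      exact sum_le_sum h1
    have h6 : q ^ R ≤ q := by
      calc q ^ R ≤ q ^ 1 := pow_le_pow_of_le_one hq0.le hq1 (by omega)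
        _ = q := pow_one q
    calc q ^ R * T2 * m ≤ q * T2 * m :=
          mul_le_mul_of_nonneg_right (mul_le_mul_of_nonneg_right h6 hT20) hm0.le
      _ = q * m * T2 := by ring
      _ ≤ _ := h5
  have hqRp : 0 < q ^ R := by positivity
  have h8 : κ * (W + x / 400 * M1) ≤ q ^ R * ((1 - x / 200) * XS) := by
    have h5 : ∀ z ∈ S \ un B, κ * ((α * (n1 G B m θ z : ℝ) + (α - β) * (n2 G B z : ℝ) +
        hvS3 G B s z) + x / 400 * (n1 G B m θ z : ℝ)) ≤
        q ^ R * ((1 - x / 200) * (α * (n1 G B m θ z : ℝ) + (α - β / 2) * (n2 G B z : ℝ) +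
          (1 + η) * hvS3 G B s z)) := by
      intro z hz
      rw [hx] at hκ1 hqR ⊢
      exact hvNum hα0 hα1 hβ0 hβα hη₁ hη₁s hη₁a hη1 (Nat.cast_nonneg _)
        (h2 z hz) (hvS3_nonneg G B s z) hκ1 hqR
    have h6 := sum_le_sum h5
    rw [← mul_sum, ← mul_sum, ← mul_sum, sum_add_distrib, ← mul_sum, ← hW, ← hM1] at h6
    refine h6.trans ?_
    refine mul_le_mul_of_nonneg_left ?_ hqRp.le
    exact mul_le_mul_of_nonneg_left hXX (by linarith)
  have hNm : 0 < N0 R s m / m := by positivity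
  have h4 : q ^ R * (κ * ((m : ℝ) ^ R * T1 + x / 400 * N0 R s m * T2)) ≤
      q ^ R * ((1 - x / 200) * (N0 R s m / m * XS)) := by
    calc q ^ R * (κ * ((m : ℝ) ^ R * T1 + x / 400 * N0 R s m * T2))
        = κ * (q ^ R * ((m : ℝ) ^ R * T1) + x / 400 * N0 R s m * (q ^ R * T2)) := by ring
      _ ≤ κ * (N0 R s m / m * W + x / 400 * N0 R s m * (M1 / m)) := by
          refine mul_le_mul_of_nonneg_left (add_le_add hOne1 ?_) hκ0.le
          exact mul_le_mul_of_nonneg_left hOne2 (by positivity)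
      _ = N0 R s m / m * (κ * (W + x / 400 * M1)) := by ring
      _ ≤ N0 R s m / m * (q ^ R * ((1 - x / 200) * XS)) :=
          mul_le_mul_of_nonneg_left h8 hNm.le
      _ = _ := by ring
  exact le_of_mul_le_mul_left h4 hqRp

/-- the final computation -/
private lemma hvFin {R s : ℕ} {m κ η x c N DS XS P Ns NR Fs0 FR0 Fs2 FR2 T1 T2 : ℝ}
    (hs1 : 1 ≤ s) (hsR : s ≤ R) (hm0 : 0 < m) (hκ0 : 0 < κ) (hη : 0 < η) (hx0 : 0 < x)
    (hx1 : x ≤ 1) (hc1 : 1 ≤ c) (hN : N = c * m ^ s) (hDS0 : 0 ≤ DS) (hXS0 : 0 ≤ XS)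
    (hP0 : 0 < P) (hP1 : P ≤ κ * m ^ R) (hNs0 : 0 ≤ Ns) (hNR0 : 0 ≤ NR)
    (hFR00 : 0 ≤ FR0) (hFR20 : 0 ≤ FR2)
    (hcs : Ns ≤ Fs0 + (T1 + Fs2)) (hcR : NR ≤ FR0 + (T2 + FR2))
    (hb1 : κ * (m ^ R * Fs0) ≤ η / 8 * (m ^ s * DS))
    (hb2 : κ * (m ^ R * FR0) ≤ η / 8 * (m ^ R * DS))
    (ht1 : κ * (m ^ R * Fs2) ≤ x / 800 * (m ^ (s - 1) * XS))
    (ht2 : κ * (m ^ R * FR2) ≤ x / 800 * (m ^ (R - 1) * XS))
    (hOne : κ * (m ^ R * T1 + x / 400 * N * T2) ≤ (1 - x / 200) * (N / m * XS)) :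
    Ns + x / 400 * (N / m ^ R) * NR ≤
      (η / 4) * N * DS / P + (1 - x / 400) * N * XS / (m * P) := by
  have hNp : 0 < N := by rw [hN]; positivity
  have hNm : N / m = c * m ^ (s - 1) := by
    rw [hN, div_eq_iff hm0.ne', mul_assoc, ← pow_succ]
    congr 2
    omega
  have hmRp : 0 < m ^ R := by positivity
  have hb2' : κ * FR0 ≤ (η / 8) * DS := by
    have h4 : κ * FR0 * m ^ R ≤ (η / 8) * DS * m ^ R := by
      calc κ * FR0 * m ^ R = κ * (m ^ R * FR0) := by ring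
        _ ≤ _ := hb2
        _ = _ := by ring
    exact le_of_mul_le_mul_right h4 hmRp
  have ht2' : κ * FR2 ≤ x / 800 * (XS / m) := by
    have e1 : m ^ R = m ^ (R - 1) * m := by
      rw [← pow_succ]
      congr 1
      omega
    have e2 : m ^ (R - 1) * m * (XS / m) = m ^ (R - 1) * XS := by
      field_simp
    have h4 : κ * FR2 * m ^ R ≤ x / 800 * (XS / m) * m ^ R := by
      calc κ * FR2 * m ^ R = κ * (m ^ R * FR2) := by ring
        _ ≤ _ := ht2
        _ = x / 800 * (m ^ (R - 1) * m * (XS / m)) := by rw [e2]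
        _ = _ := by rw [e1]; ring
    exact le_of_mul_le_mul_right h4 hmRp
  have hb1' : κ * (m ^ R * Fs0) ≤ (η / 8) * (N * DS) := by
    refine hb1.trans ?_
    rw [hN]
    have h4 : m ^ s * DS ≤ c * (m ^ s * DS) := le_mul_of_one_le_left (by positivity) hc1
    calc (η / 8) * (m ^ s * DS) ≤ (η / 8) * (c * (m ^ s * DS)) :=
          mul_le_mul_of_nonneg_left h4 (by positivity)
      _ = _ := by ring
  have ht1' : κ * (m ^ R * Fs2) ≤ x / 800 * (N / m * XS) := by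
    refine ht1.trans ?_
    rw [hNm]
    have h4 : m ^ (s - 1) * XS ≤ c * (m ^ (s - 1) * XS) :=
      le_mul_of_one_le_left (by positivity) hc1
    calc x / 800 * (m ^ (s - 1) * XS) ≤ x / 800 * (c * (m ^ (s - 1) * XS)) :=
          mul_le_mul_of_nonneg_left h4 (by positivity)
      _ = _ := by ring
  have key : κ * (m ^ R * Ns + x / 400 * N * NR) ≤
      (η / 4) * (N * DS) + (1 - x / 400) * (N / m * XS) := by
    have h4 : m ^ R * Ns + x / 400 * N * NR ≤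
        m ^ R * (Fs0 + (T1 + Fs2)) + x / 400 * N * (FR0 + (T2 + FR2)) := by
      refine add_le_add (mul_le_mul_of_nonneg_left hcs hmRp.le) ?_
      exact mul_le_mul_of_nonneg_left hcR (by positivity)
    have h5 := mul_le_mul_of_nonneg_left h4 hκ0.le
    have h6 : κ * (m ^ R * (Fs0 + (T1 + Fs2)) + x / 400 * N * (FR0 + (T2 + FR2))) =
        κ * (m ^ R * Fs0) + κ * (m ^ R * T1 + x / 400 * N * T2) +
        κ * (m ^ R * Fs2) + x / 400 * (N * (κ * FR0)) + x / 400 * (N * (κ * FR2)) := by ring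
    have h7 : x / 400 * (N * (κ * FR0)) ≤ (η / 8) * (N * DS) := by
      have h8 : N * (κ * FR0) ≤ N * ((η / 8) * DS) := mul_le_mul_of_nonneg_left hb2' hNp.le
      have h9 : 0 ≤ N * (κ * FR0) := by positivity
      have h10 : x / 400 * (N * (κ * FR0)) ≤ 1 * (N * (κ * FR0)) :=
        mul_le_mul_of_nonneg_right (by linarith) h9
      calc x / 400 * (N * (κ * FR0)) ≤ 1 * (N * (κ * FR0)) := h10
        _ = N * (κ * FR0) := one_mul _
        _ ≤ N * ((η / 8) * DS) := h8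
        _ = _ := by ring
    have h8 : x / 400 * (N * (κ * FR2)) ≤ x / 800 * (N / m * XS) := by
      have h8 : N * (κ * FR2) ≤ N * (x / 800 * (XS / m)) :=
        mul_le_mul_of_nonneg_left ht2' hNp.le
      have h9 : 0 ≤ N * (κ * FR2) := by positivity
      have h10 : x / 400 * (N * (κ * FR2)) ≤ 1 * (N * (κ * FR2)) :=
        mul_le_mul_of_nonneg_right (by linarith) h9
      calc x / 400 * (N * (κ * FR2)) ≤ 1 * (N * (κ * FR2)) := h10
        _ = N * (κ * FR2) := one_mul _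
        _ ≤ N * (x / 800 * (XS / m)) := h8
        _ = _ := by ring
    have h9 : (η / 8) * (N * DS) + (η / 8) * (N * DS) = (η / 4) * (N * DS) := by ring
    have h10 : (1 - x / 200) * (N / m * XS) + x / 800 * (N / m * XS) +
        x / 800 * (N / m * XS) = (1 - x / 400) * (N / m * XS) := by ring
    linarith
  have h4 : (η / 4) * N * DS / P + (1 - x / 400) * N * XS / (m * P) =
      ((η / 4) * (N * DS) + (1 - x / 400) * (N / m * XS)) / P := by
    field_simp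
  rw [h4, le_div_iff₀ hP0]
  refine le_trans ?_ key
  have h5 : (Ns + x / 400 * (N / m ^ R) * NR) * P ≤
      (Ns + x / 400 * (N / m ^ R) * NR) * (κ * m ^ R) := by
    refine mul_le_mul_of_nonneg_left hP1 ?_
    positivity
  refine h5.trans (le_of_eq ?_)
  field_simp

theorem heavy_sumT (R s r : ℕ) (hs2 : 2 ≤ s) (hsR : s ≤ R) (hrs : r + 1 ≤ s) (C η ζ η₁ δ : ℝ)
    (hC : 0 < C) (hη : 0 < η) (hηb : η ≤ be R s / 8) (hζ : 0 < ζ) (hζ1 : ζ ≤ (s : ℝ) / R / 4)
    (hη₁ : 0 < η₁) (hη₁R : 1024 * R ^ 2 * η₁ ≤ η) (hδ0 : 0 < δ)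
    (hδ : 64000 * R ^ 2 * δ ≤ be R s * η₁) :
    ∃ m₀ : ℕ, ∀ m : ℕ, m₀ ≤ m →
      ∀ (V : Type) [DecidableEq V] (G : SimpleGraph V) [DecidableRel G.Adj] (S : Finset V)
        (B : Fin R → Finset V) (ν : Finset V → ℝ), S.card ≤ R * m + r →
        clq G S (R + 1) = ∅ → LS G S R m C η₁ δ B → RuleA G S R (R - 1 - r) ν →
        (((clq G S s).filter fun T => ¬ T ⊆ un B).card : ℝ) +
            be R s * η₁ / 400 * (N0 R s m / (m : ℝ) ^ R) *
              (((clq G S R).filter fun T => ¬ T ⊆ un B).card : ℝ) ≤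
          (η / 4) * N0 R s m * (∑ f ∈ Fintype.piFinset B, DD G f) / (∏ l, ((B l).card : ℝ)) +
            (1 - be R s * η₁ / 400) * N0 R s m * (∑ f ∈ tcl G B, XT G S B s η ζ ν f) /
              (m * ∏ l, ((B l).card : ℝ)) := by
  have hR : 2 ≤ R := hs2.trans hsR
  have hRr : (2 : ℝ) ≤ R := by exact_mod_cast hR
  have hR0 : (0 : ℝ) < R := by linarith
  have hsr : (2 : ℝ) ≤ s := by exact_mod_cast hs2
  have hsRr : (s : ℝ) ≤ R := by exact_mod_cast hsR
  have hrs' : (s : ℝ) / R ≤ 1 := by rw [div_le_one hR0]; exact hsRr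
  set α : ℝ := (s : ℝ) / R with hα
  have hα0 : 0 ≤ α := by positivity
  set β : ℝ := be R s with hβ
  have hβ0 : 0 < β := by
    rw [hβ]
    unfold be
    have h1 : (0 : ℝ) < (s : ℝ) - 1 := by linarith
    have h2 : (0 : ℝ) < (R : ℝ) - 1 := by linarith
    have h3 : (0 : ℝ) < s := by linarith
    positivity
  have hβα : β ≤ α := by
    have h1 := hvKap0 R s 2
    rw [hvKap2 R s hs2 hsR] at h1
    linarith
  have hβ1 : β ≤ 1 := hβα.trans hrs'
  have hη1 : η ≤ 1 / 8 := by linarith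
  have hRsq : (4 : ℝ) ≤ (R : ℝ) ^ 2 := by nlinarith
  have hη₁a : 4096 * η₁ ≤ η := by
    have : 4 * η₁ ≤ (R : ℝ) ^ 2 * η₁ := mul_le_mul_of_nonneg_right hRsq hη₁.le
    nlinarith
  have hη₁s : η₁ ≤ 1 / 4096 := by linarith
  set x : ℝ := β * η₁ with hx
  have hx0 : 0 < x := mul_pos hβ0 hη₁
  have hxη : x ≤ η₁ := by rw [hx]; nlinarith
  have hx1 : x ≤ 1 / 4096 := hxη.trans hη₁s
  have hRRδ : (R : ℝ) * ((R : ℝ) * δ) ≤ x / 64000 := by
    have : 64000 * (R : ℝ) ^ 2 * δ = 64000 * ((R : ℝ) * ((R : ℝ) * δ)) := by ring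
    rw [this] at hδ
    linarith
  have hRδ0 : 0 < (R : ℝ) * δ := by positivity
  have hRδ : (R : ℝ) * δ ≤ x / 128000 := by
    have : 2 * ((R : ℝ) * δ) ≤ (R : ℝ) * ((R : ℝ) * δ) := mul_le_mul_of_nonneg_right hRr hRδ0.le
    linarith
  have hδs : δ ≤ x / 256000 := by
    have : 2 * δ ≤ (R : ℝ) * δ := mul_le_mul_of_nonneg_right hRr hδ0.le
    linarith
  have hδ1 : δ ≤ 1 / 16 := by linarith
  have hδ2 : δ ≤ 1 / 2 := by linarith
  set θ : ℝ := x / (8000 * (R : ℝ) ^ 2) with hθdef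
  have hθ : 0 < θ := by positivity
  have hRRθ : (R : ℝ) * ((R : ℝ) * θ) = x / 8000 := by rw [hθdef]; field_simp
  have hRθ0 : 0 < (R : ℝ) * θ := by positivity
  have hRθ : (R : ℝ) * θ ≤ x / 16000 := by
    have : 2 * ((R : ℝ) * θ) ≤ (R : ℝ) * ((R : ℝ) * θ) := mul_le_mul_of_nonneg_right hRr hRθ0.le
    linarith
  have hδθ : 2 * δ ≤ R * θ := by
    have h1 : (R : ℝ) * (2 * δ) ≤ R * (R * θ) := by
      rw [hRRθ]
      have : (R : ℝ) * (2 * δ) = 2 * (R * δ) := by ring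
      rw [this]
      linarith
    exact le_of_mul_le_mul_left h1 hR0
  have hθ1 : 8 * (R : ℝ) * θ ≤ η₁ := by
    have : 8 * (R : ℝ) * θ = 8 * (R * θ) := by ring
    rw [this]
    linarith
  have hθ2 : 2 * (R : ℝ) * θ ≤ 1 := by
    have : 2 * (R : ℝ) * θ = 2 * (R * θ) := by ring
    rw [this]
    linarith
  have hη₁128 : 128 * (R : ℝ) ^ 2 * η₁ ≤ 1 := by
    have : 0 ≤ (R : ℝ) ^ 2 * η₁ := by positivity
    nlinarith
  obtain ⟨m1, h1⟩ := t1_le R hR C η₁ δ θ hC hη₁ hθ hδθ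
  obtain ⟨m2, h2⟩ := n1_le R hR C η₁ δ θ hC hη₁ hθ hδ0.le hδ1 hθ1
  obtain ⟨m3, h3⟩ := tS_le R s hs2 hsR C η₁ δ θ hC hη₁ hθ hδθ hθ2
  set K : ℝ := 2 ^ (⌊C⌋₊ + R) with hK
  have hK0 : 0 < K := by positivity
  set q0 : ℝ := 16 * C * ((R : ℝ) + r) ^ (s - 2) * 2 ^ (R - 2) / (η * θ) with hq0
  set q1 : ℝ := 16 * C * ((R : ℝ) + r) ^ (R - 2) * 2 ^ (R - 2) / (η * θ) with hq1
  set q2 : ℝ := 1600 * K * 2 ^ (R - s + 2) / (ζ * x) with hq2
  set q3 : ℝ := 1600 * K * 4 / (ζ * x) with hq3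
  refine ⟨max (max m1 (max m2 m3)) (max 2 (max (max ⌈q0⌉₊ ⌈q1⌉₊) (max ⌈q2⌉₊ ⌈q3⌉₊))), ?_⟩
  intro m hm V _ G _ S B ν hS hfree hLS hν
  classical
  simp only [max_le_iff] at hm
  obtain ⟨⟨hm1, hm2, hm3⟩, hm4, ⟨hm5, hm6⟩, hm7, hm8⟩ := hm
  have hq0m : q0 ≤ m := (Nat.le_ceil _).trans (by exact_mod_cast hm5)
  have hq1m : q1 ≤ m := (Nat.le_ceil _).trans (by exact_mod_cast hm6)
  have hq2m : q2 ≤ m := (Nat.le_ceil _).trans (by exact_mod_cast hm7)
  have hq3m : q3 ≤ m := (Nat.le_ceil _).trans (by exact_mod_cast hm8)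
  have hmR : (2 : ℝ) ≤ m := by exact_mod_cast hm4
  have hm0 : (0 : ℝ) < m := by linarith
  have hP0 : 0 < ∏ l, ((B l).card : ℝ) := by
    refine prod_pos fun l _ => ?_
    have := hLS.size_lo l
    have h3 : 0 < (1 - δ) * m := by
      have : 0 < 1 - δ := by linarith
      positivity
    linarith
  obtain ⟨κ, hκ⟩ : ∃ κ : ℝ, κ = 1 + 2 * (R * δ) := ⟨_, rfl⟩
  have hκ0 : 0 < κ := by rw [hκ]; positivity
  have hκ1 : κ ≤ 1 + x / 64000 := by rw [hκ]; linarith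
  have hκ2 : κ ≤ 2 := by linarith
  have hP1 : ∏ l, ((B l).card : ℝ) ≤ κ * (m : ℝ) ^ R := by
    have h3 : ∏ l, ((B l).card : ℝ) ≤ ∏ _l : Fin R, ((1 + δ) * m) :=
      prod_le_prod (fun l _ => Nat.cast_nonneg _) fun l _ => hLS.size_hi l
    rw [prod_const, card_univ, Fintype.card_fin, mul_pow] at h3
    refine le_trans h3 (mul_le_mul_of_nonneg_right ?_ (by positivity))
    rw [hκ]
    exact hvPow R hδ0.le (by linarith) (by linarith)
  have hDS0 : 0 ≤ ∑ f ∈ Fintype.piFinset B, DD G f := sum_nonneg fun f _ => DD_nonneg f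
  have hXS0 : 0 ≤ ∑ f ∈ tcl G B, XT G S B s η ζ ν f := sum_nonneg fun f _ =>
    XT_nonneg hη.le (by omega) hsR hR hζ.le (fun T => (hν.1 T).1) f
  have hc1 : (1 : ℝ) ≤ (R.choose s : ℝ) := by
    have h4 : 1 ≤ R.choose s := Nat.choose_pos hsR
    exact_mod_cast h4
  obtain ⟨q, hq⟩ : ∃ q : ℝ, q = 1 - 2 * (R : ℝ) * θ := ⟨_, rfl⟩
  have hq0' : 0 < q := by
    have : 2 * (R : ℝ) * θ = 2 * (R * θ) := by ring
    rw [hq, this]; linarith
  have hq1' : q ≤ 1 := by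
    have : 2 * (R : ℝ) * θ = 2 * (R * θ) := by ring
    rw [hq, this]; linarith
  have hqR : 1 - x / 4000 ≤ q ^ R := by
    have h4 := one_add_mul_le_pow (a := -(2 * (R : ℝ) * θ)) (by linarith) R
    have h5 : (1 : ℝ) + -(2 * (R : ℝ) * θ) = q := by rw [hq]; ring
    have h6 : 1 + (R : ℝ) * -(2 * (R : ℝ) * θ) = 1 - 2 * (R * (R * θ)) := by ring
    rw [h5, h6, hRRθ] at h4
    linarith
  have hOne := hvOneL (G := G) (ν := ν) hLS.sub hfree hs2 hsR hα hβ hx hα0 hrs' hβ0 hβα hη₁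
    hη₁s hη₁a (by linarith) hζ hν hm0 hκ0 hκ1 hq0' hq1' hqR
    (fun z hz => by
      have := h1 m hm1 V G S B hfree hLS z hz
      rwa [← hq] at this)
    (fun z hz => h2 m hm2 V G S B hfree hLS z hz)
    (fun z hz => by
      have := h3 m hm3 V G S B hLS z hz
      rwa [← hq] at this)
  have hb1 := hvBigL hLS hR hC hη hδ2 hθ hmR hS hκ2 s hs2 hq0m
  have hb2 := hvBigL hLS hR hC hη hδ2 hθ hmR hS hκ2 R hR hq1m
  have ht1 := hvTwoL hLS hs2 hsR hrs hη hζ hζ1 hη₁ hη₁128 hδ1 hx0 hm4 hfree hν hK hκ2 s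
    le_rfl hsR hq2m
  have ht2 := hvTwoL hLS hs2 hsR hrs hη hζ hζ1 hη₁ hη₁128 hδ1 hx0 hm4 hfree hν hK hκ2 R
    hsR le_rfl (by
      have : R - R + 2 = 2 := by omega
      rw [this]
      refine le_trans (le_of_eq ?_) hq3m
      rw [hq3]
      norm_num)
  exact hvFin (by omega) hsR hm0 hκ0 hη hx0 (by linarith) hc1 rfl hDS0 hXS0 hP0 hP1
    (Nat.cast_nonneg _) (Nat.cast_nonneg _) (Nat.cast_nonneg _) (Nat.cast_nonneg _)
    (hvCover (G := G) s S B m θ) (hvCover (G := G) R S B m θ) hb1 hb2 ht1 ht2 hOne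

end H57LT
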