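import Pool.Agent.H57.LT.Ext

/-!
`s`-cliques with exactly one heavy vertex (note 3585, 4e).
-/

namespace H57LT

open Finset H57LC

set_option linter.unusedSectionVars false

/-- few vertices of a part are non-adjacent to a vertex of a small light clique -/
private theorem hs1Ext {R m : ℕ} {V : Type} [DecidableEq V] {G : SimpleGraph V}
    [DecidableRel G.Adj] {S : Finset V} {B : Fin R → Finset V} {C η₁ δ θ : ℝ}
    (h : LS G S R m C η₁ δ B) (hθ : 0 < θ) (hδ : 2 * δ ≤ R * θ) (hm : 0 < m)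
    (hmb : 2 * R * C / θ ^ 2 ≤ m) (J : Finset V) (hJ : J ⊆ un B \ big G B m θ)
    (hcl : IsCl G J) (i : Fin R) (hi : Disjoint J (B i)) :
    (1 - 2 * R * θ) * m ≤
      (((B i \ big G B m θ).filter fun y => ∀ x ∈ J, G.Adj x y).card : ℝ) := by
  classical
  have hmR : (0 : ℝ) < m := by exact_mod_cast hm
  have hR0 : (0 : ℝ) ≤ R := Nat.cast_nonneg _
  have hJu : J ⊆ un B := hJ.trans sdiff_subset
  have hJR : J.card ≤ R := by
    have hsub : J ⊆ (univ : Finset (Fin R)).biUnion (fun i => J ∩ B i) := by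
      intro a ha
      obtain ⟨i, hi⟩ := mem_un.1 (hJu ha)
      exact mem_biUnion.2 ⟨i, mem_univ _, mem_inter.2 ⟨ha, hi⟩⟩
    refine (card_le_card hsub).trans (card_biUnion_le.trans ?_)
    refine (sum_le_sum fun i _ => clique_inter_card h.ind hcl i).trans ?_
    simp
  have hx : ∀ x ∈ J, ((hs G (B i) x).card : ℝ) ≤ θ * m := by
    intro x hx
    by_contra hcon
    push Not at hcon
    have h1 := mem_sdiff.1 (hJ hx)
    obtain ⟨k, hk⟩ := mem_un.1 h1.1
    refine h1.2 (mem_big.2 ⟨k, i, hk, ?_, hcon.le⟩)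
    rintro rfl
    exact (disjoint_left.1 hi) hx hk
  have hbu : ((J.biUnion fun x => hs G (B i) x).card : ℝ) ≤ R * (θ * m) := by
    have h1 : ((J.biUnion fun x => hs G (B i) x).card : ℝ) ≤
        ∑ x ∈ J, ((hs G (B i) x).card : ℝ) := by
      exact_mod_cast card_biUnion_le
    refine h1.trans ((sum_le_sum hx).trans ?_)
    rw [sum_const, nsmul_eq_mul]
    refine mul_le_mul_of_nonneg_right ?_ (by positivity)
    exact_mod_cast hJR
  have hsub : B i ⊆ ((B i \ big G B m θ).filter fun y => ∀ x ∈ J, G.Adj x y) ∪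
      (big G B m θ ∪ J.biUnion fun x => hs G (B i) x) := by
    intro y hy
    rw [mem_union, mem_union]
    by_cases h1 : y ∈ big G B m θ
    · exact Or.inr (Or.inl h1)
    · by_cases h2 : ∀ x ∈ J, G.Adj x y
      · exact Or.inl (mem_filter.2 ⟨mem_sdiff.2 ⟨hy, h1⟩, h2⟩)
      · push Not at h2
        obtain ⟨x, hx, hxy⟩ := h2
        exact Or.inr (Or.inr (mem_biUnion.2 ⟨x, hx, mem_hs.2 ⟨hy, hxy⟩⟩))
  have hcard : ((B i).card : ℝ) ≤
      (((B i \ big G B m θ).filter fun y => ∀ x ∈ J, G.Adj x y).card : ℝ) +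
        (((big G B m θ).card : ℝ) + ((J.biUnion fun x => hs G (B i) x).card : ℝ)) := by
    have h1 := (card_le_card hsub).trans (card_union_le _ _)
    have h2 := card_union_le (big G B m θ) (J.biUnion fun x => hs G (B i) x)
    exact_mod_cast h1.trans (Nat.add_le_add_left h2 _)
  have hbig := card_big_le h hm hθ
  have hlo := h.size_lo i
  have h3 : (R : ℝ) ^ 2 * C / θ ≤ R * θ / 2 * m := by
    have h4 : 2 * R * C / θ ^ 2 * (R * θ / 2) ≤ m * (R * θ / 2) :=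
      mul_le_mul_of_nonneg_right hmb (by positivity)
    have h5 : 2 * R * C / θ ^ 2 * (R * θ / 2) = (R : ℝ) ^ 2 * C / θ := by
      field_simp
    linarith
  have h6 : 2 * δ * m ≤ R * θ * m := mul_le_mul_of_nonneg_right hδ hmR.le
  nlinarith

theorem tS_le (R s : ℕ) (hs2 : 2 ≤ s) (hsR : s ≤ R) (C η₁ δ θ : ℝ) (hC : 0 < C) (hη₁ : 0 < η₁)
    (hθ : 0 < θ) (hδ : 2 * δ ≤ R * θ) (hθ1 : 2 * R * θ ≤ 1) :
    ∃ m₀ : ℕ, ∀ m : ℕ, m₀ ≤ m →
      ∀ (V : Type) [DecidableEq V] (G : SimpleGraph V) [DecidableRel G.Adj] (S : Finset V)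
        (B : Fin R → Finset V), LS G S R m C η₁ δ B → ∀ z ∈ S \ un B,
        ((1 - 2 * R * θ) * m) ^ (R - s + 1) * (tS G B m θ s z : ℝ) ≤
          ∑ f ∈ (tcl G B).filter (fun f => ∀ i, f i ∉ big G B m θ),
            ((R - (hs G (im f) z).card).choose (s - 1) : ℝ) := by
  classical
  refine ⟨⌈2 * R * C / θ ^ 2⌉₊ + 1, fun m hm V _ G _ S B h z hz => ?_⟩
  have hm0 : 0 < m := by omega
  have hmR : (0 : ℝ) < m := by exact_mod_cast hm0
  have hmb : 2 * R * C / θ ^ 2 ≤ m :=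
    (Nat.le_ceil _).trans (by exact_mod_cast (by omega : ⌈2 * R * C / θ ^ 2⌉₊ ≤ m))
  set L : ℝ := (1 - 2 * R * θ) * m with hLdef
  have hL : 0 ≤ L := mul_nonneg (by linarith) hmR.le
  set T₀ := (clq G (un B \ big G B m θ) (s - 1)).filter fun J => ∀ y ∈ J, G.Adj z y with hT₀
  set F₀ := (tcl G B).filter fun f => ∀ i, f i ∉ big G B m θ with hF₀
  have hone : ∀ J ∈ T₀, L ^ (R - s + 1) ≤ ((F₀.filter fun f => J ⊆ im f).card : ℝ) := by
    intro J hJ
    rw [hT₀, mem_filter, mem_clq] at hJ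
    obtain ⟨⟨⟨hJ1, hJ2⟩, hJ3⟩, _⟩ := hJ
    have h1 := ext_gen h.disj h.ind (big G B m θ) hL
      (fun J hJ hcl i hi => hs1Ext h hθ hδ hm0 hmb J hJ hcl i hi) hJ1 hJ3
    have h2 : R - J.card = R - s + 1 := by omega
    rw [h2] at h1
    rw [hF₀, filter_filter]
    exact h1
  have hsum : L ^ (R - s + 1) * (T₀.card : ℝ) ≤
      ∑ J ∈ T₀, ((F₀.filter fun f => J ⊆ im f).card : ℝ) := by
    have h1 := card_nsmul_le_sum T₀ _ _ hone
    rw [nsmul_eq_mul, mul_comm] at h1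
    exact h1
  have hswap : ∑ J ∈ T₀, ((F₀.filter fun f => J ⊆ im f).card : ℝ) =
      ∑ f ∈ F₀, ((T₀.filter fun J => J ⊆ im f).card : ℝ) := by
    have h1 : ∑ J ∈ T₀, (F₀.filter fun f => J ⊆ im f).card =
        ∑ f ∈ F₀, (T₀.filter fun J => J ⊆ im f).card := by
      simp only [card_filter]
      exact sum_comm
    exact_mod_cast h1
  refine hsum.trans (hswap.le.trans (sum_le_sum fun f hf => ?_))
  rw [hF₀, mem_filter] at hf
  have hsub : (T₀.filter fun J => J ⊆ im f) ⊆ powersetCard (s - 1) (im f \ hs G (im f) z) := by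
    intro J hJ
    rw [mem_filter, hT₀, mem_filter, mem_clq] at hJ
    obtain ⟨⟨⟨⟨_, hJ2⟩, _⟩, hJ4⟩, hJ5⟩ := hJ
    refine mem_powersetCard.2 ⟨fun y hy => mem_sdiff.2 ⟨hJ5 hy, fun hc => ?_⟩, hJ2⟩
    exact (mem_hs.1 hc).2 (hJ4 y hy)
  have hc := card_le_card hsub
  rw [card_powersetCard, card_sdiff_of_subset (hs_subset _ _), im_card hf.1] at hc
  exact_mod_cast hc

end H57LT
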