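import Pool.Agent.H57.LT.Rho
import Pool.Agent.H57.LT.ThmPH
import Pool.Agent.H57.LC.Tight
import Pool.Agent.H57.LC.KIneq

/-!
The inequality (K) for `K_t` (note 3585, 3): real numbers and integers only.
-/

namespace H57LT

open Finset H57LC

lemma choose_swap (n a b : ℕ) :
    n.choose a * (n - a).choose b = n.choose b * (n - b).choose a := by
  have h1 := Nat.choose_mul (n := n) (k := a + b) (s := a) (Nat.le_add_right a b)
  have h2 := Nat.choose_mul (n := n) (k := a + b) (s := b) (Nat.le_add_left b a)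
  rw [Nat.add_sub_cancel_left] at h1
  rw [Nat.add_sub_cancel] at h2
  rw [← h1, ← h2, Nat.choose_symm_add]

/-- the exact coefficient as a multinomial coefficient -/
lemma kap_nat {u R s j : ℕ} (hs1 : 1 ≤ s) (hj1 : 1 ≤ j) (hjR : j ≤ R) :
    (R - j).choose (s - 1) * (R + u - j).choose (R - j) * (R + u - 1).choose (j - 1) =
      (R - 1).choose (s - 1) * (R + u - 1).choose (R - 1) * (R - s).choose (j - 1) := by
  have h1 := Nat.choose_mul (n := R + u - 1) (k := R - 1) (s := j - 1) (by omega)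
  have e1 : R + u - 1 - (j - 1) = R + u - j := by omega
  have e2 : R - 1 - (j - 1) = R - j := by omega
  rw [e1, e2] at h1
  have h2 := choose_swap (R - 1) (s - 1) (j - 1)
  have e3 : R - 1 - (s - 1) = R - s := by omega
  rw [e3, e2] at h2
  calc _ = (R - j).choose (s - 1) * ((R + u - 1).choose (j - 1) * (R + u - j).choose (R - j)) := by ring
    _ = (R - j).choose (s - 1) * ((R + u - 1).choose (R - 1) * (R - 1).choose (j - 1)) := by rw [h1]
    _ = (R + u - 1).choose (R - 1) * ((R - 1).choose (j - 1) * (R - j).choose (s - 1)) := by ring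
    _ = (R + u - 1).choose (R - 1) * ((R - 1).choose (s - 1) * (R - s).choose (j - 1)) := by rw [h2]
    _ = _ := by ring

lemma kap_mul {u R s j : ℕ} (hs1 : 1 ≤ s) (hsR : s ≤ R) (hj1 : 1 ≤ j) (hjR : j ≤ R) :
    kap R s j * ((R + u - j).choose (R - j) : ℝ) =
      (s : ℝ) / R * ((R + u - 1).choose (R - 1) : ℝ) *
        (((R - s).choose (j - 1) : ℝ) / ((R + u - 1).choose (j - 1) : ℝ)) := by
  have h := kap_nat (u := u) hs1 hj1 hjR
  have h' : ((R - j).choose (s - 1) : ℝ) * ((R + u - j).choose (R - j) : ℝ) *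
      ((R + u - 1).choose (j - 1) : ℝ) = ((R - 1).choose (s - 1) : ℝ) *
        ((R + u - 1).choose (R - 1) : ℝ) * ((R - s).choose (j - 1) : ℝ) := by exact_mod_cast h
  have h1 : (0 : ℝ) < ((R - 1).choose (s - 1) : ℝ) := by exact_mod_cast Nat.choose_pos (by omega)
  have h2 : (0 : ℝ) < ((R + u - 1).choose (j - 1) : ℝ) := by exact_mod_cast Nat.choose_pos (by omega)
  unfold kap
  rw [div_mul_eq_mul_div, mul_div_assoc', div_eq_div_iff h1.ne' h2.ne']
  linear_combination ((s : ℝ) / R) * h'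

/-- the step of the quotients of binomial coefficients -/
lemma quot_step {n n' k : ℕ} (hk : k < n) (hn : n ≤ n') :
    ((n.choose (k + 1) : ℝ) / (n'.choose (k + 1) : ℝ)) =
      ((n.choose k : ℝ) / (n'.choose k : ℝ)) * (((n : ℝ) - k) / ((n' : ℝ) - k)) := by
  have h1 : ((n.choose (k + 1) : ℝ)) * ((k : ℝ) + 1) = (n.choose k : ℝ) * ((n : ℝ) - k) := by
    have := Nat.choose_succ_right_eq n k
    have h : ((n.choose (k + 1) * (k + 1) : ℕ) : ℝ) = ((n.choose k * (n - k) : ℕ) : ℝ) := by rw [this]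
    rw [Nat.cast_mul, Nat.cast_mul, Nat.cast_sub hk.le] at h
    push_cast at h
    exact h
  have h2 : ((n'.choose (k + 1) : ℝ)) * ((k : ℝ) + 1) = (n'.choose k : ℝ) * ((n' : ℝ) - k) := by
    have := Nat.choose_succ_right_eq n' k
    have h : ((n'.choose (k + 1) * (k + 1) : ℕ) : ℝ) = ((n'.choose k * (n' - k) : ℕ) : ℝ) := by rw [this]
    rw [Nat.cast_mul, Nat.cast_mul, Nat.cast_sub (hk.le.trans hn)] at h
    push_cast at h
    exact h
  have hk1 : (0 : ℝ) < (k : ℝ) + 1 := by positivity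
  have h3 : (0 : ℝ) < (n'.choose (k + 1) : ℝ) := by exact_mod_cast Nat.choose_pos (by omega)
  have h4 : (0 : ℝ) < (n'.choose k : ℝ) := by exact_mod_cast Nat.choose_pos (by omega)
  have h5 : (0 : ℝ) < (n' : ℝ) - k := by
    have : (k : ℝ) < n' := by exact_mod_cast lt_of_lt_of_le hk hn
    linarith
  rw [div_mul_div_comm, div_eq_div_iff h3.ne' (by positivity)]
  have e : (n.choose (k + 1) : ℝ) * ((n'.choose k : ℝ) * ((n' : ℝ) - k)) * ((k : ℝ) + 1) =
      (n.choose k : ℝ) * ((n : ℝ) - k) * (n'.choose (k + 1) : ℝ) * ((k : ℝ) + 1) := by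
    linear_combination ((n'.choose k : ℝ) * ((n' : ℝ) - k)) * h1 -
      ((n.choose k : ℝ) * ((n : ℝ) - k)) * h2
  exact mul_right_cancel₀ hk1.ne' e

/-- the quotients for `j ≥ 3` -/
lemma quot_lt {u R s r : ℕ} (hu : 1 ≤ u) (hs2 : 2 ≤ s) (hsR : s ≤ R) (hr : 1 ≤ r)
    (hrs : r + 1 ≤ s) (k : ℕ) (hk : k + 1 ≤ R - s) :
    (((R - s).choose (k + 1) : ℝ) / ((R + u - 1).choose (k + 1) : ℝ)) <
      (((R - 1 - r).choose (k + 1) : ℝ) / ((R - 1 - r + u).choose (k + 1) : ℝ)) := by
  have hfac : ∀ i, i + 1 ≤ R - s → (((R - s : ℕ) : ℝ) - i) / (((R + u - 1 : ℕ) : ℝ) - i) <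
      (((R - 1 - r : ℕ) : ℝ) - i) / (((R - 1 - r + u : ℕ) : ℝ) - i) := by
    intro i hi
    obtain ⟨d, hd⟩ : ∃ d, R = s + i + 1 + d := ⟨R - s - i - 1, by omega⟩
    obtain ⟨q, hq⟩ : ∃ q, s = r + 1 + q := ⟨s - r - 1, by omega⟩
    have e1 : ((R - s : ℕ) : ℝ) = i + 1 + d := by
      have : R - s = i + 1 + d := by omega
      rw [this]; push_cast; ring
    have e2 : ((R + u - 1 : ℕ) : ℝ) = r + 1 + q + i + d + u := by
      have : R + u - 1 = r + 1 + q + i + d + u := by omega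
      rw [this]; push_cast; ring
    have e3 : ((R - 1 - r : ℕ) : ℝ) = 1 + q + i + d := by
      have : R - 1 - r = 1 + q + i + d := by omega
      rw [this]; push_cast; ring
    have e4 : ((R - 1 - r + u : ℕ) : ℝ) = 1 + q + i + d + u := by
      have : R - 1 - r + u = 1 + q + i + d + u := by omega
      rw [this]; push_cast; ring
    rw [e1, e2, e3, e4]
    have hr1 : (1 : ℝ) ≤ r := by exact_mod_cast hr
    have hu1 : (1 : ℝ) ≤ u := by exact_mod_cast hu
    have hq0 : (0 : ℝ) ≤ q := Nat.cast_nonneg q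
    have hd0 : (0 : ℝ) ≤ d := Nat.cast_nonneg d
    rw [div_lt_div_iff₀ (by linarith) (by linarith)]
    nlinarith [mul_nonneg hq0 hd0, mul_nonneg hq0 hq0, mul_nonneg hd0 hd0,
      mul_nonneg hq0 (by linarith : (0 : ℝ) ≤ u), mul_nonneg hd0 (by linarith : (0 : ℝ) ≤ r),
      mul_nonneg hq0 (by linarith : (0 : ℝ) ≤ r), mul_nonneg hd0 (by linarith : (0 : ℝ) ≤ u),
      mul_nonneg (by linarith : (0 : ℝ) ≤ r) (by linarith : (0 : ℝ) ≤ u)]
  have hA : k + 1 ≤ R - 1 - r := by omega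
  induction k with
  | zero =>
    rw [quot_step (by omega) (by omega), quot_step (by omega) (by omega)]
    simp only [Nat.choose_zero_right, Nat.cast_one, div_one, one_mul, Nat.cast_zero]
    have := hfac 0 (by omega)
    simpa using this
  | succ k ih =>
    rw [quot_step (k := k + 1) (by omega) (by omega), quot_step (k := k + 1) (n := R - 1 - r) (by omega) (by omega)]
    have h1 := ih (by omega) (by omega)
    have h2 := hfac (k + 1) (by omega)
    have h3 : (0 : ℝ) ≤ ((R - s : ℕ) : ℝ) - ((k + 1 : ℕ) : ℝ) := by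
      have : ((k + 1 : ℕ) : ℝ) ≤ ((R - s : ℕ) : ℝ) := by exact_mod_cast (by omega : k + 1 ≤ R - s)
      linarith
    have h4 : (0 : ℝ) < ((R + u - 1 : ℕ) : ℝ) - ((k + 1 : ℕ) : ℝ) := by
      have : ((k + 1 : ℕ) : ℝ) < ((R + u - 1 : ℕ) : ℝ) := by
        exact_mod_cast (by omega : k + 1 < R + u - 1)
      linarith
    have h5 : (0 : ℝ) < ((R - 1 - r).choose (k + 1) : ℝ) / ((R - 1 - r + u).choose (k + 1) : ℝ) := by
      have h6 : (0 : ℝ) < ((R - 1 - r).choose (k + 1) : ℝ) := by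
        exact_mod_cast Nat.choose_pos (by omega)
      have h7 : (0 : ℝ) < ((R - 1 - r + u).choose (k + 1) : ℝ) := by
        exact_mod_cast Nat.choose_pos (by omega)
      positivity
    exact mul_lt_mul'' h1 h2 (by positivity) (div_nonneg h3 h4.le)

lemma be_pos {R s : ℕ} (hs2 : 2 ≤ s) (hsR : s ≤ R) : 0 < be R s := by
  have h1 : (2 : ℝ) ≤ s := by exact_mod_cast hs2
  have h2 : (s : ℝ) ≤ R := by exact_mod_cast hsR
  unfold be
  exact div_pos (mul_pos (by linarith) (by linarith)) (mul_pos (by linarith) (by linarith))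

lemma be_le {R s : ℕ} (hs2 : 2 ≤ s) (hsR : s ≤ R) : be R s ≤ (s : ℝ) / R := by
  have h1 : (2 : ℝ) ≤ s := by exact_mod_cast hs2
  have h2 : (s : ℝ) ≤ R := by exact_mod_cast hsR
  unfold be
  have h4 : (0 : ℝ) < (R : ℝ) - 1 := by linarith
  have h5 : (0 : ℝ) < (R : ℝ) := by linarith
  rw [div_le_div_iff₀ (by positivity) h5]
  have : (s : ℝ) * R * (s - 1) ≤ (s : ℝ) * R * (R - 1) :=
    mul_le_mul_of_nonneg_left (by linarith) (by positivity)
  linarith

lemma kap_nonneg (R s j : ℕ) : 0 ≤ kap R s j := by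
  unfold kap
  positivity

/-- `κ_2 = α - β` -/
lemma kap_two {R s : ℕ} (hs2 : 2 ≤ s) (hsR : s ≤ R) : kap R s 2 = (s : ℝ) / R - be R s := by
  have h1 : (2 : ℝ) ≤ s := by exact_mod_cast hs2
  have h2 : (s : ℝ) ≤ R := by exact_mod_cast hsR
  have hC : (0 : ℝ) < ((R - 1).choose (s - 1) : ℝ) := by exact_mod_cast Nat.choose_pos (by omega)
  obtain ⟨a, rfl⟩ : ∃ a, s = a + 2 := ⟨s - 2, by omega⟩
  obtain ⟨b, rfl⟩ : ∃ b, R = b + 2 := ⟨R - 2, by omega⟩
  have e1 : b + 2 - 1 = b + 1 := by omega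
  have e2 : a + 2 - 1 = a + 1 := by omega
  have e3 : b + 2 - 2 = b := by omega
  rw [e1, e2] at hC
  unfold kap be
  rw [e1, e2, e3]
  have h := Nat.choose_mul_succ_eq b (a + 1)
  have h' : (b.choose (a + 1) : ℝ) * ((b : ℝ) + 1) = ((b + 1).choose (a + 1) : ℝ) * ((b : ℝ) - a) := by
    have h3 : ((b.choose (a + 1) * (b + 1) : ℕ) : ℝ) =
        (((b + 1).choose (a + 1) * (b + 1 - (a + 1)) : ℕ) : ℝ) := by rw [h]
    rw [Nat.cast_mul, Nat.cast_mul, Nat.cast_sub (by omega)] at h3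
    push_cast at h3
    linarith
  push_cast at *
  have hb : (0 : ℝ) < (b : ℝ) + 2 := by positivity
  have hb1 : (b : ℝ) + 2 - 1 ≠ 0 := by
    have : (0 : ℝ) < (b : ℝ) + 2 - 1 := by
      have : (0 : ℝ) ≤ b := Nat.cast_nonneg b
      linarith
    exact this.ne'
  rw [div_eq_iff hC.ne']
  field_simp
  linear_combination h'

lemma kap_succ_le {R s j : ℕ} (hj : 2 ≤ j) : kap R s j ≤ kap R s 2 := by
  unfold kap
  have h1 : ((R - j).choose (s - 1) : ℝ) ≤ ((R - 2).choose (s - 1) : ℝ) := by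
    exact_mod_cast Nat.choose_le_choose (s - 1) (by omega)
  gcongr

lemma kap_zero {R s j : ℕ} (hs2 : 2 ≤ s) (hj : R + 1 < j + s) : kap R s j = 0 := by
  unfold kap
  rw [Nat.choose_eq_zero_of_lt (by omega : R - j < s - 1)]
  simp

lemma kt_nonnegK {R s : ℕ} (hs2 : 2 ≤ s) (hsR : s ≤ R) {η : ℝ} (hη : 0 ≤ η) (j : ℕ) :
    0 ≤ kt R s η j := by
  have h1 := be_pos hs2 hsR
  have h2 := be_le hs2 hsR
  have h3 := kap_nonneg R s j
  unfold kt
  split_ifs
  · exact le_rfl
  · linarith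
  · positivity

/-- the coefficient is largest for `j = 2` -/
lemma kt_le {R s : ℕ} (hs2 : 2 ≤ s) (hsR : s ≤ R) {η : ℝ} (hη : 0 ≤ η) (j : ℕ) :
    kt R s η j ≤ (s : ℝ) / R - be R s / 2 + η := by
  have h1 := be_pos hs2 hsR
  have h2 := be_le hs2 hsR
  have hα : (s : ℝ) / R ≤ 1 := by
    rw [div_le_one (by exact_mod_cast (by omega : 0 < R))]
    exact_mod_cast hsR
  unfold kt
  split_ifs with h3 h4
  · linarith
  · exact le_rfl
  · have h5 := kap_succ_le (R := R) (s := s) (j := j) (by omega)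
    rw [kap_two hs2 hsR] at h5
    have h6 := kap_nonneg R s j
    nlinarith

lemma kt_zero {R s j : ℕ} (hs2 : 2 ≤ s) (hj : R + 1 < j + s) (h2 : 2 < j) (η : ℝ) :
    kt R s η j = 0 := by
  unfold kt
  rw [if_neg (by omega), if_neg (by omega), kap_zero hs2 hj, mul_zero]

lemma strict_aux {L M B : ℝ} (hM : 0 ≤ M) (hL0 : 0 ≤ L) (hL : L < B) :
    ∃ ε : ℝ, 0 < ε ∧ ε ≤ 1 ∧ ∀ η : ℝ, 0 ≤ η → η ≤ ε → L + η * M ≤ (1 - ε) * B := by
  have hB : 0 < B := lt_of_le_of_lt hL0 hL
  have hMB : 0 < M + B := by linarith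
  refine ⟨(B - L) / (M + B), div_pos (by linarith) hMB, ?_, ?_⟩
  · rw [div_le_one hMB]
    linarith
  · intro η _ hη
    have h1 : η * M ≤ (B - L) / (M + B) * M := mul_le_mul_of_nonneg_right hη hM
    have h2 : (B - L) / (M + B) * (M + B) = B - L := div_mul_cancel₀ _ hMB.ne'
    rw [mul_add] at h2
    linarith

lemma A_pos {u R s r : ℕ} (hs2 : 2 ≤ s) (hsR : s ≤ R) (hr : 1 ≤ r)
    (hrs : r + 1 ≤ s) (hcond : (s + 2 * u - 1) * r < (s - 1) * (R + u - 1)) :
    r + 2 ≤ R := by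
  by_contra hcon
  have h1 : R = r + 1 := by omega
  have h2 : s = r + 1 := by omega
  rw [h1, h2] at hcond
  have e1 : r + 1 + 2 * u - 1 = r + 2 * u := by omega
  have e2 : r + 1 + u - 1 = r + u := by omega
  rw [e1, e2, Nat.add_sub_cancel] at hcond
  nlinarith [Nat.zero_le u, Nat.zero_le (u * r)]

/-- a single `j` -/
lemma kt_bet_j (u R s r : ℕ) (hu : 1 ≤ u) (hs2 : 2 ≤ s) (hsR : s ≤ R) (hr : 1 ≤ r)
    (hrs : r + 1 ≤ s) (hcond : (s + 2 * u - 1) * r < (s - 1) * (R + u - 1)) (j : ℕ) (hj : 2 ≤ j)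
    (hjR : j ≤ R) :
    ∃ ε : ℝ, 0 < ε ∧ ε ≤ 1 ∧ ∀ η : ℝ, 0 ≤ η → η ≤ ε →
      kt R s η j * ((R + u - j).choose (R - j) : ℝ) ≤
        (1 - ε) * (((s : ℝ) / R) * ((R + u - 1).choose (R - 1) : ℝ) * bet (R - 1 - r) u j) := by
  have hbe := be_pos hs2 hsR
  have hbe2 := be_le hs2 hsR
  have hr2 := A_pos (u := u) hs2 hsR hr hrs hcond
  have hR0 : (0 : ℝ) < R := by exact_mod_cast (by omega : 0 < R)
  have hs0 : (0 : ℝ) < s := by exact_mod_cast (by omega : 0 < s)
  have hC1 : (0 : ℝ) < ((R + u - 1).choose (R - 1) : ℝ) := by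
    exact_mod_cast Nat.choose_pos (by omega)
  have hα : (0 : ℝ) < (s : ℝ) / R := by positivity
  rcases Nat.eq_or_lt_of_le hj with h2 | h2
  · subst h2
    have hkt : ∀ η : ℝ, kt R s η 2 * ((R + u - 2).choose (R - 2) : ℝ) =
        ((s : ℝ) / R - be R s / 2) * ((R + u - 2).choose (R - 2) : ℝ) +
          η * ((R + u - 2).choose (R - 2) : ℝ) := by
      intro η
      unfold kt
      rw [if_neg (by omega), if_pos rfl]
      ring
    simp only [hkt]
    refine strict_aux (Nat.cast_nonneg _) (mul_nonneg (by linarith) (Nat.cast_nonneg _)) ?_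
    -- the strict inequality
    have hrel : ((R + u - 2).choose (R - 2) : ℝ) * ((R : ℝ) + u - 1) =
        ((R + u - 1).choose (R - 1) : ℝ) * ((R : ℝ) - 1) := by
      have h1 := Nat.add_one_mul_choose_eq (R + u - 2) (R - 2)
      have e1 : R + u - 2 + 1 = R + u - 1 := by omega
      have e2 : R - 2 + 1 = R - 1 := by omega
      rw [e1, e2] at h1
      have h3 : (((R + u - 1) * (R + u - 2).choose (R - 2) : ℕ) : ℝ) =
        (((R + u - 1).choose (R - 1) * (R - 1) : ℕ) : ℝ) := by rw [h1]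
      rw [Nat.cast_mul, Nat.cast_mul, Nat.cast_sub (by omega), Nat.cast_sub (by omega)] at h3
      push_cast at h3
      linarith
    have hbet : bet (R - 1 - r) u 2 = ((R : ℝ) - 1 - r) / ((R : ℝ) - 1 - r + u) := by
      unfold bet
      have e1 : (2 : ℕ) - 1 = 1 := rfl
      rw [e1, Nat.choose_one_right, Nat.choose_one_right, Nat.cast_add, Nat.cast_sub (by omega),
        Nat.cast_sub (by omega)]
      push_cast
      ring
    have hcr : ((s : ℝ) + 2 * u - 1) * r < ((s : ℝ) - 1) * ((R : ℝ) + u - 1) := by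
      have h3 : (((s + 2 * u - 1) * r : ℕ) : ℝ) < (((s - 1) * (R + u - 1) : ℕ) : ℝ) := by
        exact_mod_cast hcond
      rw [Nat.cast_mul, Nat.cast_mul, Nat.cast_sub (by omega), Nat.cast_sub (by omega),
        Nat.cast_sub (by omega)] at h3
      push_cast at h3
      exact h3
    have hu1 : (1 : ℝ) ≤ u := by exact_mod_cast hu
    have hrR : (r : ℝ) + 2 ≤ R := by exact_mod_cast hr2
    have hA : (0 : ℝ) < (R : ℝ) - 1 - r + u := by linarith
    have hw : (0 : ℝ) < (R : ℝ) + u - 1 := by linarith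
    have hQ : (0 : ℝ) < (R : ℝ) - 1 := by
      have : (0 : ℝ) ≤ r := Nat.cast_nonneg r
      linarith
    have e1 : ((R + u - 2).choose (R - 2) : ℝ) =
        ((R + u - 1).choose (R - 1) : ℝ) * ((R : ℝ) - 1) / ((R : ℝ) + u - 1) := by
      rw [eq_div_iff hw.ne']
      exact hrel
    have e2 : (s : ℝ) / R - be R s / 2 =
        (s : ℝ) / R * (1 - ((s : ℝ) - 1) / (2 * ((R : ℝ) - 1))) := by
      unfold be
      have := hQ.ne'
      field_simp
    rw [hbet, e1, e2]
    have e3 : (s : ℝ) / R * (1 - ((s : ℝ) - 1) / (2 * ((R : ℝ) - 1))) *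
        (((R + u - 1).choose (R - 1) : ℝ) * ((R : ℝ) - 1) / ((R : ℝ) + u - 1)) =
        (s : ℝ) / R * ((R + u - 1).choose (R - 1) : ℝ) *
          ((2 * ((R : ℝ) - 1) - ((s : ℝ) - 1)) / (2 * ((R : ℝ) + u - 1))) := by
      have := hQ.ne'
      have := hw.ne'
      field_simp
    rw [e3]
    refine mul_lt_mul_of_pos_left ?_ (by positivity)
    rw [div_lt_div_iff₀ (by positivity) hA]
    nlinarith
  · have hkt : ∀ η : ℝ, kt R s η j * ((R + u - j).choose (R - j) : ℝ) =
        kap R s j * ((R + u - j).choose (R - j) : ℝ) +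
          η * (kap R s j * ((R + u - j).choose (R - j) : ℝ)) := by
      intro η
      unfold kt
      rw [if_neg (by omega), if_neg (by omega)]
      ring
    simp only [hkt]
    have hk0 : 0 ≤ kap R s j * ((R + u - j).choose (R - j) : ℝ) :=
      mul_nonneg (kap_nonneg _ _ _) (Nat.cast_nonneg _)
    rcases Nat.lt_or_ge (R + 1) (j + s) with h3 | h3
    · refine ⟨1, one_pos, le_rfl, fun η _ _ => ?_⟩
      rw [kap_zero hs2 h3]
      simp
    · refine strict_aux hk0 hk0 ?_
      rw [kap_mul (by omega) hsR (by omega) hjR]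
      refine mul_lt_mul_of_pos_left ?_ (by positivity)
      unfold bet
      obtain ⟨k, rfl⟩ : ∃ k, j = k + 2 := ⟨j - 2, by omega⟩
      have e1 : k + 2 - 1 = k + 1 := by omega
      rw [e1]
      exact quot_lt hu hs2 hsR hr hrs k (by omega)

/-- comparison of the cost coefficients with the coefficients of Theorem P -/
theorem kt_bet (u R s r : ℕ) (hu : 1 ≤ u) (hs2 : 2 ≤ s) (hsR : s ≤ R) (hr : 1 ≤ r)
    (hrs : r + 1 ≤ s) (hcond : (s + 2 * u - 1) * r < (s - 1) * (R + u - 1)) :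
    ∃ c η₀ : ℝ, 0 < c ∧ 0 < η₀ ∧ ∀ η : ℝ, 0 ≤ η → η ≤ η₀ → ∀ j : ℕ, 2 ≤ j → j ≤ R →
      kt R s η j * ((R + u - j).choose (R - j) : ℝ) ≤
        (1 - c) * ((s : ℝ) / R) * ((R + u - 1).choose (R - 1) : ℝ) * bet (R - 1 - r) u j := by
  have key : ∀ n : ℕ, ∃ ε : ℝ, 0 < ε ∧ ∀ η : ℝ, 0 ≤ η → η ≤ ε → ∀ j : ℕ, 2 ≤ j → j ≤ R → j ≤ n →
      kt R s η j * ((R + u - j).choose (R - j) : ℝ) ≤
        (1 - ε) * (((s : ℝ) / R) * ((R + u - 1).choose (R - 1) : ℝ) * bet (R - 1 - r) u j) := by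
    intro n
    induction n with
    | zero => exact ⟨1, one_pos, fun η _ _ j h1 _ h3 => absurd h1 (by omega)⟩
    | succ n ih =>
      obtain ⟨ε, hε, h⟩ := ih
      by_cases hn : 2 ≤ n + 1 ∧ n + 1 ≤ R
      · obtain ⟨ε', hε', -, h'⟩ := kt_bet_j u R s r hu hs2 hsR hr hrs hcond (n + 1) hn.1 hn.2
        refine ⟨min ε ε', lt_min hε hε', fun η hη0 hη j h1 h2 h3 => ?_⟩
        have hB : 0 ≤ ((s : ℝ) / R) * ((R + u - 1).choose (R - 1) : ℝ) * bet (R - 1 - r) u j :=
          mul_nonneg (by positivity) (bet_nonneg _ _ _)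
        rcases Nat.eq_or_lt_of_le h3 with h4 | h4
        · subst h4
          refine (h' η hη0 (hη.trans (min_le_right _ _))).trans ?_
          exact mul_le_mul_of_nonneg_right (by linarith [min_le_right ε ε']) hB
        · refine (h η hη0 (hη.trans (min_le_left _ _)) j h1 h2 (by omega)).trans ?_
          exact mul_le_mul_of_nonneg_right (by linarith [min_le_left ε ε']) hB
      · exact ⟨ε, hε, fun η hη0 hη j h1 h2 h3 => h η hη0 hη j h1 h2 (by omega)⟩
  obtain ⟨ε, hε, h⟩ := key R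
  refine ⟨ε, ε, hε, hε, fun η hη0 hη j h1 h2 => (h η hη0 hη j h1 h2 h2).trans (le_of_eq ?_)⟩
  ring

lemma pow_le_quad {z : ℝ} (h1 : -1 ≤ z) (h2 : z ≤ 1) (s : ℕ) :
    (1 + z) ^ s ≤ 1 + s * z + (4 : ℝ) ^ s * z ^ 2 := by
  induction s with
  | zero => simp; positivity
  | succ n ih =>
    have h3 : 0 ≤ 1 + z := by linarith
    have h4 := mul_le_mul_of_nonneg_right ih h3
    rw [pow_succ]
    refine h4.trans ?_
    have h5 : (n : ℝ) ≤ (4 : ℝ) ^ n := by
      have : n ≤ 4 ^ n := (Nat.lt_pow_self (by norm_num)).le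
      exact_mod_cast this
    have h6 : 0 ≤ (1 - z) * z ^ 2 := mul_nonneg (by linarith) (sq_nonneg z)
    have h7 : (0 : ℝ) ≤ (4 : ℝ) ^ n := by positivity
    have h8 := mul_nonneg h7 h6
    have h9 : (n : ℝ) * z ^ 2 ≤ (4 : ℝ) ^ n * z ^ 2 := mul_le_mul_of_nonneg_right h5 (sq_nonneg z)
    have h10 := mul_nonneg h7 (sq_nonneg z)
    rw [pow_succ (4 : ℝ)]
    push_cast
    nlinarith

/-- real arithmetic of `phi_le` -/
lemma phi_aux {s C κ R r y z E ε v p : ℝ} (hs : 0 ≤ s) (hC : 0 ≤ C) (hκ : 0 ≤ κ) (hR : 1 ≤ R)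
    (hr : 0 ≤ r) (hE : 0 ≤ E) (hy : R * y = r - E) (hz : |z| ≤ ε) (hv0 : 0 ≤ v) (hv : v ≤ ε)
    (hε0 : 0 < ε) (hε1 : ε ≤ 1) (hp : |p - 1| ≤ 2 * R * ε) :
    (s * y + C * z * y - κ + κ * R * v) * p ≤
      s * y - κ + ε * (((C + 2 * R * (s + C)) + (κ * R + 2 * R * (κ * (1 + R)))) * (r + 1)) * (E + 1) := by
  have hyabs : |y| ≤ r + E := by
    have h1 : R * |y| = |r - E| := by
      rw [← hy, abs_mul, abs_of_nonneg (by linarith : 0 ≤ R)]
    have h2 : |r - E| ≤ r + E := by
      rw [abs_le]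
      constructor <;> linarith
    have h3 : 0 ≤ |y| := abs_nonneg y
    linarith only [h1, h2, mul_le_mul_of_nonneg_right hR h3]
  have hy0 : 0 ≤ |y| := abs_nonneg y
  have hδ : |C * z * y + κ * R * v| ≤ ε * (C * |y| + κ * R) := by
    have h1 : |C * z * y| ≤ C * ε * |y| := by
      rw [abs_mul, abs_mul, abs_of_nonneg hC]
      exact mul_le_mul_of_nonneg_right (mul_le_mul_of_nonneg_left hz hC) hy0
    have h2 : |κ * R * v| ≤ κ * R * ε := by
      rw [abs_of_nonneg (by positivity)]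
      exact mul_le_mul_of_nonneg_left hv (by positivity)
    calc |C * z * y + κ * R * v| ≤ |C * z * y| + |κ * R * v| := abs_add_le _ _
      _ ≤ C * ε * |y| + κ * R * ε := add_le_add h1 h2
      _ = _ := by ring
  have hδ1 : ε * (C * |y| + κ * R) ≤ C * |y| + κ * R := by
    have : 0 ≤ C * |y| + κ * R := by positivity
    linarith only [mul_le_mul_of_nonneg_right hε1 this]
  set W : ℝ := s * y + C * z * y - κ + κ * R * v with hW
  have hWle : W ≤ s * y - κ + ε * (C * |y| + κ * R) := by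
    have := le_abs_self (C * z * y + κ * R * v)
    rw [hW]
    linarith
  have hWabs : |W| ≤ (s + C) * |y| + κ * (1 + R) := by
    have e : W = s * y + (-κ) + (C * z * y + κ * R * v) := by rw [hW]; ring
    rw [e]
    have h1 := abs_add_le (s * y + (-κ)) (C * z * y + κ * R * v)
    have h2 := abs_add_le (s * y) (-κ)
    rw [abs_mul, abs_of_nonneg hs, abs_neg, abs_of_nonneg hκ] at h2
    linarith only [h1, h2, hδ, hδ1]
  have hWp : W * (p - 1) ≤ ((s + C) * |y| + κ * (1 + R)) * (2 * R * ε) := by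
    have h1 := le_abs_self (W * (p - 1))
    rw [abs_mul] at h1
    refine h1.trans ?_
    exact mul_le_mul hWabs hp (abs_nonneg _) (by positivity)
  have h1 : W * p ≤ s * y - κ + ε * (((C + 2 * R * (s + C)) * |y| + (κ * R + 2 * R * (κ * (1 + R))))) := by
    have e : W * p = W + W * (p - 1) := by ring
    rw [e]
    linarith only [hWle, hWp]
  refine h1.trans ?_
  have hA : 0 ≤ C + 2 * R * (s + C) := by positivity
  have hB : 0 ≤ κ * R + 2 * R * (κ * (1 + R)) := by positivity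
  have h2 : (C + 2 * R * (s + C)) * |y| + (κ * R + 2 * R * (κ * (1 + R))) ≤
      (((C + 2 * R * (s + C)) + (κ * R + 2 * R * (κ * (1 + R)))) * (r + 1)) * (E + 1) := by
    have h3 : |y| ≤ (r + 1) * (E + 1) := by linarith only [hyabs, mul_nonneg hr hE]
    have h4 : 1 ≤ (r + 1) * (E + 1) := by linarith only [mul_nonneg hr hE, hr, hE]
    have h5 := mul_le_mul_of_nonneg_left h3 hA
    have h6 := mul_le_mul_of_nonneg_left h4 hB
    linarith only [h5, h6]
  have h3 := mul_le_mul_of_nonneg_left h2 hε0.le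
  linarith only [h3]

/-- upper bound for `(e_s(a) - ρ')/∏ a`; `E_T = R m + r - Σ a ≥ 0` -/
theorem phi_le (u R s r : ℕ) (hs2 : 2 ≤ s) (hsR : s ≤ R) (hrs : r + 1 ≤ s) (ε' : ℝ)
    (hε' : 0 < ε') :
    ∃ ε : ℝ, 0 < ε ∧ ε < 1 ∧ ∃ m₀ : ℕ, ∀ m : ℕ, m₀ ≤ m → ∀ (ι : Type) [DecidableEq ι]
      (T : Finset ι) (a : ι → ℕ), T.card = R → (∀ t ∈ T, (1 - ε) * m ≤ (a t : ℝ)) →
      ∑ t ∈ T, a t ≤ R * m + r →
      (eS T (fun t => (a t : ℝ)) s - rhoN u R s r m) * ∏ t ∈ T, ((a t : ℝ))⁻¹ ≤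
        N0 R s m / (m : ℝ) ^ R / m *
          (-((s : ℝ) / R) * ((R : ℝ) * m - ∑ t ∈ T, (a t : ℝ)) - (s : ℝ) * r / (R + u) +
            ε' * (((R : ℝ) * m + r - ∑ t ∈ T, (a t : ℝ)) + 1)) := by
  have hR1 : (1 : ℝ) ≤ R := by exact_mod_cast (by omega : 1 ≤ R)
  have hR0 : (0 : ℝ) < R := by linarith
  have hrR : (r : ℝ) ≤ R := by exact_mod_cast (by omega : r ≤ R)
  set C : ℝ := (4 : ℝ) ^ s with hC
  set κ : ℝ := (s : ℝ) * r / (R + u) with hκ
  have hC0 : 0 < C := by rw [hC]; positivity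
  have hκ0 : 0 ≤ κ := by rw [hκ]; positivity
  set D : ℝ := ((C + 2 * R * (s + C)) + (κ * R + 2 * R * (κ * (1 + R)))) * (r + 1) with hD
  have hD0 : 0 < D := by rw [hD]; positivity
  set ε : ℝ := min (1 / (2 * R)) (min (1 / 2) (ε' / D)) with hε
  have hε0 : 0 < ε := by
    rw [hε]
    exact lt_min (by positivity) (lt_min (by norm_num) (by positivity))
  have hε1 : ε ≤ 1 / (2 * R) := min_le_left _ _
  have hε2 : ε ≤ 1 / 2 := (min_le_right _ _).trans (min_le_left _ _)
  have hε3 : ε ≤ ε' / D := (min_le_right _ _).trans (min_le_right _ _)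
  have hRε : (R : ℝ) * ε ≤ 1 / 2 := by
    have := mul_le_mul_of_nonneg_left hε1 hR0.le
    have e : (R : ℝ) * (1 / (2 * R)) = 1 / 2 := by field_simp
    linarith
  refine ⟨ε, hε0, by linarith, ⌈1 / ε⌉₊, ?_⟩
  intro m hm ι _ T a hT ha hsum
  have hmε : 1 / ε ≤ m := (Nat.le_ceil _).trans (by exact_mod_cast hm)
  have hp : (0 : ℝ) < m := lt_of_lt_of_le (by positivity) hmε
  have hm1 : 1 ≤ m := by
    have : 0 < m := by exact_mod_cast hp
    omega
  have hv : 1 / (m : ℝ) ≤ ε := by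
    rw [div_le_iff₀ hp]
    rw [div_le_iff₀ hε0] at hmε
    linarith
  have hv0 : 0 < 1 / (m : ℝ) := by positivity
  have hapos : ∀ t ∈ T, (0 : ℝ) < a t := fun t ht => by
    have h1 := ha t ht
    have h2 : 0 < (1 - ε) * (m : ℝ) := mul_pos (by linarith) hp
    linarith
  have ha1 : ∀ t ∈ T, 1 ≤ a t := fun t ht => by
    have h1 := hapos t ht
    have h2 : 0 < a t := by exact_mod_cast h1
    omega
  set S : ℝ := ∑ t ∈ T, (a t : ℝ) with hS
  have hSle : S ≤ R * m + r := by
    rw [hS]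
    exact_mod_cast hsum
  have hSge : R * ((1 - ε) * m) ≤ S := by
    have h1 : ∑ _t ∈ T, (1 - ε) * (m : ℝ) ≤ ∑ t ∈ T, (a t : ℝ) := sum_le_sum ha
    rw [sum_const, hT, nsmul_eq_mul] at h1
    exact h1
  set P : ℝ := ∏ t ∈ T, ((a t : ℝ))⁻¹ with hP
  have hP0 : 0 ≤ P := prod_nonneg fun t _ => by positivity
  have hPge := prod_inv_ge T a ha1 hm1
  have hPle := prod_inv_le T a hm1 hε0 (by rw [hT]; exact hRε) (by linarith) ha
  rw [hT, ← hP, ← hS] at hPge
  rw [hT, ← hP] at hPle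
  have hmR : (0 : ℝ) < (m : ℝ) ^ R := by positivity
  set p : ℝ := P * (m : ℝ) ^ R with hpd
  have hPp : P = p / (m : ℝ) ^ R := by
    rw [hpd]
    field_simp
  have hp1 : 1 + ((R : ℝ) * m - S) / m ≤ p := by
    rw [div_le_iff₀ hmR] at hPge
    exact hPge
  have hp2 : p ≤ 1 + 2 * R * ε := by
    rw [le_div_iff₀ hmR] at hPle
    exact hPle
  have hpabs : |p - 1| ≤ 2 * R * ε := by
    rw [abs_le]
    refine ⟨?_, by linarith⟩
    have h1 : -(r : ℝ) * (1 / m) ≤ ((R : ℝ) * m - S) / m := by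
      rw [mul_one_div]
      exact div_le_div_of_nonneg_right (by linarith) hp.le
    have h2 : (r : ℝ) * (1 / m) ≤ R * ε := mul_le_mul hrR hv hv0.le hR0.le
    have h3 : 0 ≤ (R : ℝ) * ε := by positivity
    linarith
  set z : ℝ := S / R / m - 1 with hz
  have hz1 : S / R = m * (1 + z) := by
    rw [hz]
    field_simp
    ring
  have hzε : |z| ≤ ε := by
    rw [abs_le]
    constructor
    · have : 1 - ε ≤ S / R / m := by
        rw [le_div_iff₀ hp, le_div_iff₀ hR0]
        linarith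
      rw [hz]
      linarith
    · have : S / R / m ≤ 1 + ε := by
        rw [div_le_iff₀ hp, div_le_iff₀ hR0]
        have h1 : 1 ≤ ε * m := by
          rw [div_le_iff₀ hp] at hv
          exact hv
        have h2 : (R : ℝ) * 1 ≤ R * (ε * m) := mul_le_mul_of_nonneg_left h1 hR0.le
        linarith
      rw [hz]
      linarith
  have hN0 : 0 < N0 R s m := by
    unfold N0
    have : (0 : ℝ) < (R.choose s : ℝ) := by exact_mod_cast Nat.choose_pos hsR
    positivity
  have hmac := maclaurin (s := s) hT (by omega) hsR (a := fun t => (a t : ℝ))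
    (fun k hk => (hapos k hk).le)
  have hmac' : eS T (fun t => (a t : ℝ)) s ≤ N0 R s m * (1 + z) ^ s := by
    refine hmac.trans (le_of_eq ?_)
    have e : (∑ k ∈ T, (a k : ℝ)) / (R : ℝ) = m * (1 + z) := by rw [← hS]; exact hz1
    rw [e, mul_pow]
    unfold N0
    ring
  have hrho := rhoN_ge (u := u) (R := R) (s := s) (r := r) hm1 (by omega) hsR (by omega)
  rw [← hκ] at hrho
  have hz' := abs_le.1 hzε
  have hq := pow_le_quad (z := z) (by linarith) (by linarith) s
  rw [← hC] at hq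
  set v : ℝ := 1 / (m : ℝ) with hvd
  have hX : eS T (fun t => (a t : ℝ)) s - rhoN u R s r m ≤
      N0 R s m * (s * z + C * z ^ 2 - κ * v + κ * R * v ^ 2) := by
    have h1 := mul_le_mul_of_nonneg_left hq hN0.le
    have e : κ * (1 - (R : ℝ) / m) / m = κ * v - κ * R * v ^ 2 := by
      rw [hvd]
      field_simp
    rw [e] at hrho
    linarith
  have hXP := mul_le_mul_of_nonneg_right hX hP0
  refine hXP.trans ?_
  rw [hPp]
  set y : ℝ := m * z with hy
  have hRy : R * y = r - (R * m + r - S) := by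
    have h1 : S = R * (m * (1 + z)) := by
      rw [← hz1]
      field_simp
    rw [hy, h1]
    ring
  have haux := phi_aux (s := s) (C := C) (κ := κ) (R := R) (r := r) (y := y) (z := z)
    (E := R * m + r - S) (ε := ε) (v := v) (p := p) (Nat.cast_nonneg s) hC0.le hκ0 hR1
    (Nat.cast_nonneg r) (by linarith) hRy hzε hv0.le hv hε0 (by linarith) hpabs
  rw [← hD] at haux
  have hεD : ε * D ≤ ε' := by
    rw [le_div_iff₀ hD0] at hε3
    exact hε3
  have hE0 : 0 ≤ R * m + r - S + 1 := by linarith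
  have hfin : (s * y + C * z * y - κ + κ * R * v) * p ≤ s * y - κ + ε' * (R * m + r - S + 1) := by
    refine haux.trans ?_
    have := mul_le_mul_of_nonneg_right hεD hE0
    linarith
  have e1 : N0 R s m * (s * z + C * z ^ 2 - κ * v + κ * R * v ^ 2) * (p / (m : ℝ) ^ R) =
      N0 R s m / (m : ℝ) ^ R / m * ((s * y + C * z * y - κ + κ * R * v) * p) := by
    rw [hy, hvd]
    field_simp
  rw [e1]
  refine mul_le_mul_of_nonneg_left ?_ (by positivity)
  refine hfin.trans (le_of_eq ?_)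
  have e2 : (s : ℝ) * y = -((s : ℝ) / R) * ((R : ℝ) * m - S) := by
    have h1 : y = (r - (R * m + r - S)) / R := by
      rw [← hRy]
      field_simp
    rw [h1]
    ring
  rw [e2]

/-- the costs at `T` are at most the largest coefficient times the number of sets -/
lemma cost_le {ι κ : Type*} [DecidableEq ι] {R s : ℕ} (hs2 : 2 ≤ s) (hsR : s ≤ R) {η : ℝ}
    (hη : 0 ≤ η) (Z : Finset κ) (h : κ → Finset ι) (T : Finset ι) :
    ∑ y ∈ Z.filter (fun y => h y ⊆ T), kt R s η (h y).card ≤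
      ((s : ℝ) / R - be R s / 2 + η) * ((Z.filter fun y => 2 ≤ (h y).card ∧ h y ⊆ T).card : ℝ) := by
  have h1 : ∀ y ∈ Z.filter (fun y => h y ⊆ T), kt R s η (h y).card ≤
      if 2 ≤ (h y).card then ((s : ℝ) / R - be R s / 2 + η) else 0 := by
    intro y _
    split_ifs with h2
    · exact kt_le hs2 hsR hη _
    · unfold kt
      rw [if_pos (by omega)]
  refine (sum_le_sum h1).trans (le_of_eq ?_)
  rw [← sum_filter, sum_const, nsmul_eq_mul, filter_filter, mul_comm]
  congr 3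
  ext y
  simp only [mem_filter]
  tauto

/-- double counting of the costs -/
lemma cost_sum {ι κ : Type*} [DecidableEq ι] {R w s : ℕ} {η : ℝ} (Z : Finset κ)
    (h : κ → Finset ι) (K : Finset ι) (hK : K.card = w) :
    ∑ T ∈ powersetCard R K, ∑ y ∈ Z.filter (fun y => h y ⊆ T), kt R s η (h y).card =
      ∑ y ∈ Z.filter (fun y => 2 ≤ (h y).card ∧ h y ⊆ K),
        if (h y).card ≤ R then kt R s η (h y).card * ((w - (h y).card).choose (R - (h y).card) : ℝ)
        else 0 := by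
  have h1 : ∀ T ∈ powersetCard R K, ∑ y ∈ Z.filter (fun y => h y ⊆ T), kt R s η (h y).card =
      ∑ y ∈ Z.filter (fun y => 2 ≤ (h y).card ∧ h y ⊆ K),
        if h y ⊆ T then kt R s η (h y).card else 0 := by
    intro T hT
    have hTK := (mem_powersetCard.1 hT).1
    rw [← sum_filter, filter_filter]
    symm
    apply sum_subset
    · intro y hy
      simp only [mem_filter] at hy ⊢
      exact ⟨hy.1, hy.2.2⟩
    · intro y hy hy2
      simp only [mem_filter] at hy hy2
      have h3 : ¬ 2 ≤ (h y).card := fun h4 => hy2 ⟨hy.1, ⟨h4, hy.2.trans hTK⟩, hy.2⟩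
      unfold kt
      rw [if_pos (by omega)]
  rw [sum_congr rfl h1, sum_comm]
  refine sum_congr rfl fun y hy => ?_
  have hyK := (mem_filter.1 hy).2.2
  rw [← sum_filter, sum_const, nsmul_eq_mul]
  split_ifs with h2
  · rw [card_super hyK h2, hK, mul_comm]
  · have h3 : (powersetCard R K).filter (fun T => h y ⊆ T) = ∅ := by
      rw [filter_eq_empty_iff]
      intro T hT hyT
      have h4 := card_le_card hyT
      rw [(mem_powersetCard.1 hT).2] at h4
      exact h2 h4
    rw [h3]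
    simp

/-- the inequality (K) -/
theorem K_ineqT (u R s r : ℕ) (hu : 1 ≤ u) (hs2 : 2 ≤ s) (hsR : s ≤ R) (hr : 1 ≤ r)
    (hrs : r + 1 ≤ s) (hcond : (s + 2 * u - 1) * r < (s - 1) * (R + u - 1)) :
    ∃ C₁ η ζ ε : ℝ, 0 < C₁ ∧ 0 < η ∧ η ≤ be R s / 8 ∧ 0 < ζ ∧ ζ ≤ (s : ℝ) / R / 4 ∧ 0 < ε ∧
      ε < 1 ∧ ∃ m₀ : ℕ, ∀ m : ℕ, m₀ ≤ m → ∀ (ι : Type) [DecidableEq ι] (κ : Type)
        (K : Finset ι) (a : ι → ℕ) (Z : Finset κ) (h : κ → Finset ι) (z : Finset ι → ℝ) (nu : ℝ),
        K.card = R + u → (∀ t ∈ K, 1 ≤ a t) →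
        (∀ T ⊆ K, T.card = R →
          ∑ i ∈ T, a i + (Z.filter fun y => 2 ≤ (h y).card ∧ h y ⊆ T).card ≤ R * m + r) →
        (nu = if ∑ i ∈ K, a i = (R + u) * m + r then 0 else 1) →
        (∀ T ⊆ K, T.card = R → z T ≤ -(C₁ / m) * (N0 R s m / (m : ℝ) ^ R) ∨
          ((∀ t ∈ T, (1 - ε) * m ≤ (a t : ℝ)) ∧
            z T ≤ (eS T (fun t => (a t : ℝ)) s - rhoN u R s r m) * (∏ t ∈ T, ((a t : ℝ))⁻¹) +
              N0 R s m / (m : ℝ) ^ R *
                ((∑ y ∈ Z.filter (fun y => h y ⊆ T), kt R s η (h y).card) + ζ * nu) / m)) →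
        ∑ T ∈ powersetCard R K, z T ≤ 0 := by
  have hr2 := A_pos (u := u) hs2 hsR hr hrs hcond
  have hbe := be_pos hs2 hsR
  have hbe2 := be_le hs2 hsR
  have hR1 : (1 : ℝ) ≤ R := by exact_mod_cast (by omega : 1 ≤ R)
  have hR0 : (0 : ℝ) < R := by linarith
  have hs0 : (0 : ℝ) < s := by exact_mod_cast (by omega : 0 < s)
  obtain ⟨c', η₀, hc', hη₀, hkt'⟩ := kt_bet u R s r hu hs2 hsR hr hrs hcond
  set α : ℝ := (s : ℝ) / R with hα
  have hα0 : 0 < α := by rw [hα]; positivity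
  have hα1 : α ≤ 1 := by
    rw [hα, div_le_one hR0]
    exact_mod_cast hsR
  set β : ℝ := be R s with hβ
  set C1 : ℝ := ((R + u - 1).choose (R - 1) : ℝ) with hC1
  set C0 : ℝ := ((R + u).choose R : ℝ) with hC0
  have hC11 : 1 ≤ C1 := by
    rw [hC1]
    exact_mod_cast Nat.choose_pos (by omega)
  have hC01 : 1 ≤ C0 := by
    rw [hC0]
    exact_mod_cast Nat.choose_pos (Nat.le_add_right R u)
  have hC0R : C0 * R = C1 * (R + u) := by
    have h1 := Nat.add_one_mul_choose_eq (R + u - 1) (R - 1)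
    have e1 : R + u - 1 + 1 = R + u := by omega
    have e2 : R - 1 + 1 = R := by omega
    rw [e1, e2] at h1
    have h2 : ((R + u : ℕ) : ℝ) * C1 = C0 * (R : ℝ) := by
      rw [hC1, hC0]
      exact_mod_cast h1
    push_cast at h2
    linarith
  have hC10 : C1 ≤ C0 := by
    have h1 : (0 : ℝ) ≤ u := Nat.cast_nonneg u
    have h2 : 0 ≤ C1 * u := by positivity
    have h3 : C1 * R ≤ C0 * R := by linarith
    exact le_of_mul_le_mul_right h3 hR0
  set c : ℝ := min c' 1 with hcd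
  have hc0 : 0 < c := lt_min hc' one_pos
  have hc1 : c ≤ 1 := min_le_right _ _
  have hkt : ∀ η : ℝ, 0 ≤ η → η ≤ η₀ → ∀ j : ℕ, 2 ≤ j → j ≤ R →
      kt R s η j * ((R + u - j).choose (R - j) : ℝ) ≤ (1 - c) * α * C1 * bet (R - 1 - r) u j := by
    intro η h1 h2 j h3 h4
    refine (hkt' η h1 h2 j h3 h4).trans ?_
    have h5 : 1 - c' ≤ 1 - c := by linarith [min_le_left c' 1]
    have h6 := bet_nonneg (R - 1 - r) u j
    gcongr
  set ε' : ℝ := min (c * α * C1 / (2 * C0 * (r + 2))) (3 * β / 8) with hε'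
  have hε'0 : 0 < ε' := lt_min (by positivity) (by positivity)
  have hε'1 : ε' ≤ 3 * β / 8 := min_le_right _ _
  have hε'2 : ε' * (C0 * (r + 2)) ≤ c * α * C1 / 2 := by
    have h1 : ε' ≤ c * α * C1 / (2 * C0 * (r + 2)) := min_le_left _ _
    have h2 := mul_le_mul_of_nonneg_right h1 (by positivity : 0 ≤ C0 * ((r : ℝ) + 2))
    refine h2.trans (le_of_eq ?_)
    field_simp
  obtain ⟨ε, hε0, hε1, m₀, hphi⟩ := phi_le u R s r hs2 hsR hrs ε' hε'0
  set η : ℝ := min η₀ (β / 8) with hη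
  have hη0 : 0 < η := lt_min hη₀ (by positivity)
  have hη1 : η ≤ η₀ := min_le_left _ _
  have hη2 : η ≤ β / 8 := min_le_right _ _
  set ζ : ℝ := min (c * α * C1 / (2 * C0)) (α / 4) with hζ
  have hζ0 : 0 < ζ := lt_min (by positivity) (by positivity)
  have hζ1 : ζ ≤ α / 4 := min_le_right _ _
  have hζ2 : C0 * ζ ≤ c * α * C1 / 2 := by
    have h1 : ζ ≤ c * α * C1 / (2 * C0) := min_le_left _ _
    have h2 := mul_le_mul_of_nonneg_left h1 (by linarith : 0 ≤ C0)
    refine h2.trans (le_of_eq ?_)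
    field_simp
  clear_value α β C1 C0 c ε' η ζ
  refine ⟨C0 * (r + 1), η, ζ, ε, by positivity, hη0, hη2, hζ0, hζ1, hε0, hε1, m₀ + 1, ?_⟩
  intro m hm ι _ κ K a Z h z nu hK ha hT hnu hz
  have hm1 : 1 ≤ m := by omega
  have hp : (0 : ℝ) < m := by exact_mod_cast hm1
  have hN0 : 0 < N0 R s m := by
    unfold N0
    have : (0 : ℝ) < (R.choose s : ℝ) := by exact_mod_cast Nat.choose_pos hsR
    positivity
  set M : ℝ := N0 R s m / (m : ℝ) ^ R with hM
  have hM0 : 0 < M := by rw [hM]; positivity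
  clear_value M
  have hnu01 : 0 ≤ nu ∧ nu ≤ 1 := by
    rw [hnu]
    split_ifs <;> norm_num
  -- the estimate of a light clique
  have hlight : ∀ T ⊆ K, T.card = R → (∀ t ∈ T, (1 - ε) * m ≤ (a t : ℝ)) →
      z T ≤ (eS T (fun t => (a t : ℝ)) s - rhoN u R s r m) * (∏ t ∈ T, ((a t : ℝ))⁻¹) +
        M * ((∑ y ∈ Z.filter (fun y => h y ⊆ T), kt R s η (h y).card) + ζ * nu) / m →
      z T ≤ M / m * (-α * ((R : ℝ) * m - ∑ t ∈ T, (a t : ℝ)) - (s : ℝ) * r / (R + u) +
        ε' * (((R : ℝ) * m + r - ∑ t ∈ T, (a t : ℝ)) + 1) +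
          (∑ y ∈ Z.filter (fun y => h y ⊆ T), kt R s η (h y).card) + ζ) := by
    intro T hTK hTc h1 h2
    have h3 := hphi m (by omega) ι T a hTc h1 (by
      have := hT T hTK hTc
      omega)
    rw [← hM, ← hα] at h3
    have h4 : ζ * nu ≤ ζ := by
      have := mul_le_mul_of_nonneg_left hnu01.2 hζ0.le
      linarith
    have h5 : M * ((∑ y ∈ Z.filter (fun y => h y ⊆ T), kt R s η (h y).card) + ζ * nu) / m ≤
        M / m * ((∑ y ∈ Z.filter (fun y => h y ⊆ T), kt R s η (h y).card) + ζ) := by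
      rw [mul_div_right_comm]
      exact mul_le_mul_of_nonneg_left (by linarith) (by positivity)
    calc z T ≤ _ := h2
      _ ≤ _ := add_le_add h3 h5
      _ = _ := by ring
  by_cases hrich : ∃ T ⊆ K, T.card = R ∧ z T ≤ -(C0 * (r + 1) / m) * M
  · -- some clique is rich
    obtain ⟨T₀, hT₀K, hT₀c, hT₀⟩ := hrich
    have hT₀m : T₀ ∈ powersetCard R K := mem_powersetCard.2 ⟨hT₀K, hT₀c⟩
    have hbound : ∀ T ∈ powersetCard R K, z T ≤ M / m * (r + 1) := by
      intro T hTm
      obtain ⟨hTK, hTc⟩ := mem_powersetCard.1 hTm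
      rcases hz T hTK hTc with h1 | ⟨h1, h2⟩
      · refine h1.trans ?_
        have h3 : 0 ≤ C0 * (r + 1) / m * M := by positivity
        have h4 : 0 ≤ M / m * ((r : ℝ) + 1) := by positivity
        linarith
      · refine (hlight T hTK hTc h1 h2).trans ?_
        refine mul_le_mul_of_nonneg_left ?_ (by positivity)
        have h3 := cost_le hs2 hsR hη0.le Z h T
        rw [← hα, ← hβ] at h3
        have h4 : ((∑ i ∈ T, a i + (Z.filter fun y => 2 ≤ (h y).card ∧ h y ⊆ T).card : ℕ) : ℝ) ≤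
            ((R * m + r : ℕ) : ℝ) := by exact_mod_cast hT T hTK hTc
        push_cast at h4
        set S : ℝ := ∑ t ∈ T, (a t : ℝ) with hS
        set n : ℝ := ((Z.filter fun y => 2 ≤ (h y).card ∧ h y ⊆ T).card : ℝ) with hn
        set X : ℝ := ∑ y ∈ Z.filter (fun y => h y ⊆ T), kt R s η (h y).card with hX
        have hn0 : 0 ≤ n := Nat.cast_nonneg _
        have h5 : 0 ≤ α - β / 2 + η := by linarith
        have h6 : X ≤ (α - β / 2 + η) * (R * m + r - S) :=
          h3.trans (mul_le_mul_of_nonneg_left (by linarith) h5)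
        have hE : 0 ≤ R * m + r - S := by linarith
        have h7 : 0 ≤ (s : ℝ) * r / (R + u) := by positivity
        have h8 : (ε' + η - β / 2) * (R * m + r - S) ≤ 0 :=
          mul_nonpos_of_nonpos_of_nonneg (by linarith) hE
        have h9 : α * r ≤ r := by
          have := mul_le_mul_of_nonneg_right hα1 (Nat.cast_nonneg (α := ℝ) r)
          linarith
        have h10 : ε' + ζ ≤ 1 := by linarith
        clear_value S n X
        linarith only [h6, h7, h8, h9, h10]
    rw [← add_sum_erase _ _ hT₀m]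
    have h1 : ∑ T ∈ (powersetCard R K).erase T₀, z T ≤
        ∑ _T ∈ (powersetCard R K).erase T₀, M / m * ((r : ℝ) + 1) :=
      sum_le_sum fun T hT' => hbound T (mem_of_mem_erase hT')
    rw [sum_const, card_erase_of_mem hT₀m, card_powersetCard, hK, nsmul_eq_mul,
      Nat.cast_sub (Nat.choose_pos (Nat.le_add_right R u)), Nat.cast_one, ← hC0] at h1
    have h2 : -(C0 * (r + 1) / m) * M + (C0 - 1) * (M / m * ((r : ℝ) + 1)) =
        -(M / m * ((r : ℝ) + 1)) := by ring
    have h3 : 0 ≤ M / m * ((r : ℝ) + 1) := by positivity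
    linarith
  · push Not at hrich
    have hall : ∀ T ⊆ K, T.card = R → (∀ t ∈ T, (1 - ε) * m ≤ (a t : ℝ)) ∧
        z T ≤ (eS T (fun t => (a t : ℝ)) s - rhoN u R s r m) * (∏ t ∈ T, ((a t : ℝ))⁻¹) +
        M * ((∑ y ∈ Z.filter (fun y => h y ⊆ T), kt R s η (h y).card) + ζ * nu) / m := by
      intro T hTK hTc
      rcases hz T hTK hTc with h1 | h1
      · exact absurd h1 (not_le.2 (hrich T hTK hTc))
      · exact h1
    -- integers
    set e : ι → ℤ := fun i => (m : ℤ) - a i with he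
    have hsumE : ∀ T : Finset ι, ∑ i ∈ T, e i = (T.card : ℤ) * m - ∑ i ∈ T, (a i : ℤ) := by
      intro T
      simp only [he]
      rw [sum_sub_distrib, sum_const, nsmul_eq_mul]
    have hTZ : ∀ T ⊆ K, T.card = R →
        (((Z.filter fun z => 2 ≤ (h z).card ∧ h z ⊆ T).card : ℕ) : ℤ) ≤ ∑ i ∈ T, e i + r := by
      intro T hTK hTc
      have h1 := hT T hTK hTc
      have h2 : (∑ i ∈ T, (a i : ℤ)) +
          (((Z.filter fun z => 2 ≤ (h z).card ∧ h z ⊆ T).card : ℕ) : ℤ) ≤ R * m + r := by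
        exact_mod_cast h1
      rw [hsumE, hTc]
      linarith
    have hP := thmPH (R + u) K R u r e Z h hK rfl (by omega) (by omega) hTZ
    have hA : ((R : ℤ) - 1 - max (r : ℤ) 0).toNat = R - 1 - r := by
      rw [max_eq_left (by omega : (0 : ℤ) ≤ r)]
      omega
    rw [hA] at hP
    set E : ℤ := ∑ i ∈ K, e i + r with hE
    set F : Finset κ := Z.filter (fun y => 2 ≤ (h y).card ∧ h y ⊆ K) with hF
    have hbet0 : 0 ≤ ∑ y ∈ F, bet (R - 1 - r) u (h y).card :=
      sum_nonneg fun y _ => bet_nonneg _ _ _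
    have hE0 : 0 ≤ E := by
      have : (0 : ℝ) ≤ (E : ℝ) := hbet0.trans hP
      exact_mod_cast this
    have hEsum : E = (R + u : ℤ) * m - ∑ i ∈ K, (a i : ℤ) + r := by
      rw [hE, hsumE, hK]
      push_cast
      ring
    rcases eq_or_lt_of_le hE0 with hEz | hEp
    · -- tight
      have hEz' : ∑ i ∈ K, e i + r = 0 := by rw [← hE, ← hEz]
      have hnu0 : nu = 0 := by
        rw [hnu, if_pos]
        have : (∑ i ∈ K, (a i : ℤ)) = (R + u) * m + r := by linarith
        exact_mod_cast this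
      have hbz : ∀ y ∈ F, bet (R - 1 - r) u (h y).card = 0 := by
        rw [← hEz] at hP
        have h1 : ∑ y ∈ F, bet (R - 1 - r) u (h y).card = 0 := le_antisymm (by simpa using hP) hbet0
        exact (sum_eq_zero_iff_of_nonneg fun y _ => bet_nonneg _ _ _).1 h1
      have hkz : ∀ T ⊆ K, ∑ y ∈ Z.filter (fun y => h y ⊆ T), kt R s η (h y).card = 0 := by
        intro T hTK
        refine sum_eq_zero fun y hy => ?_
        obtain ⟨hyZ, hyT⟩ := mem_filter.1 hy
        rcases Nat.lt_or_ge (h y).card 2 with h1 | h1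
        · unfold kt
          rw [if_pos (by omega)]
        · have h2 := hbz y (mem_filter.2 ⟨hyZ, h1, hyT.trans hTK⟩)
          unfold bet at h2
          have h3 : R - 1 - r < (h y).card - 1 := by
            by_contra hcon
            push Not at hcon
            have h4 : (0 : ℝ) < ((R - 1 - r).choose ((h y).card - 1) : ℝ) := by
              exact_mod_cast Nat.choose_pos hcon
            have h5 : (0 : ℝ) < ((R - 1 - r + u).choose ((h y).card - 1) : ℝ) := by
              exact_mod_cast Nat.choose_pos (by omega)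
            have : 0 < ((R - 1 - r).choose ((h y).card - 1) : ℝ) /
              ((R - 1 - r + u).choose ((h y).card - 1) : ℝ) := by positivity
            linarith
          exact kt_zero hs2 (by omega) (by omega) η
      have hneg := tight_nonpos hK hu (by omega : (r : ℤ) ≤ (R : ℤ) - 1)
        (fun T hTK hTc => le_trans (Int.natCast_nonneg _) (hTZ T hTK hTc)) hEz'
      set g : ι → ℕ := fun i => a i - m with hg
      have hag : ∀ i ∈ K, a i = m + g i := by
        intro i hi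
        have h1 : (m : ℤ) - a i ≤ 0 := hneg i hi
        have h2 : m ≤ a i := by
          have : (m : ℤ) ≤ a i := by linarith
          exact_mod_cast this
        exact (Nat.add_sub_cancel' h2).symm
      have hgs : ∑ k ∈ K, g k = r := by
        have h1 : ∑ i ∈ K, a i = ∑ i ∈ K, (m + g i) := sum_congr rfl hag
        rw [sum_add_distrib, sum_const, hK, smul_eq_mul] at h1
        have h2 : (∑ i ∈ K, (a i : ℤ)) = (R + u) * m + r := by linarith
        have h3 : ∑ i ∈ K, a i = (R + u) * m + r := by exact_mod_cast h2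
        omega
      refine le_trans (sum_le_sum fun T hTm => ?_)
        (rho_tight (s := s) (r := r) hK hm1 hsR (by omega) hgs)
      obtain ⟨hTK, hTc⟩ := mem_powersetCard.1 hTm
      refine (hall T hTK hTc).2.trans (le_of_eq ?_)
      rw [hkz T hTK, hnu0]
      have e1 : ∀ t ∈ T, ((a t : ℝ)) = (m : ℝ) + g t := by
        intro t ht
        rw [hag t (hTK ht)]
        push_cast
        rfl
      have e2 : eS T (fun t => (a t : ℝ)) s = eS T (fun t => (m : ℝ) + g t) s := eS_congr e1 s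
      have e3 : ∏ t ∈ T, ((a t : ℝ))⁻¹ = ∏ t ∈ T, ((m : ℝ) + g t)⁻¹ :=
        prod_congr rfl fun t ht => by rw [e1 t ht]
      rw [e2, e3]
      ring
    · -- not tight
      have hE1 : (1 : ℝ) ≤ E := by exact_mod_cast hEp
      have hEreal : (E : ℝ) = ((R : ℝ) + u) * m - ∑ i ∈ K, (a i : ℝ) + r := by
        rw [hEsum]
        push_cast
        ring
      have hterm : ∀ T ∈ powersetCard R K, z T ≤
          M / m * (-α * ((R : ℝ) * m - ∑ t ∈ T, (a t : ℝ)) - (s : ℝ) * r / (R + u) +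
            ε' * (((R : ℝ) * m + r - ∑ t ∈ T, (a t : ℝ)) + 1) +
              (∑ y ∈ Z.filter (fun y => h y ⊆ T), kt R s η (h y).card) + ζ) := by
        intro T hTm
        obtain ⟨hTK, hTc⟩ := mem_powersetCard.1 hTm
        obtain ⟨h1, h2⟩ := hall T hTK hTc
        exact hlight T hTK hTc h1 h2
      refine (sum_le_sum hterm).trans ?_
      rw [← mul_sum]
      refine mul_nonpos_of_nonneg_of_nonpos (by positivity) ?_
      have s1 := sum_one (K := K) (by omega : 1 ≤ R) fun t => (a t : ℝ)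
      rw [hK, ← hC1] at s1
      have s2 := cost_sum (R := R) (s := s) (η := η) Z h K hK
      rw [← hF] at s2
      have hcard : ((powersetCard R K).card : ℝ) = C0 := by
        rw [card_powersetCard, hK, hC0]
      have hsum : ∑ T ∈ powersetCard R K, (-α * ((R : ℝ) * m - ∑ t ∈ T, (a t : ℝ)) -
          (s : ℝ) * r / (R + u) + ε' * (((R : ℝ) * m + r - ∑ t ∈ T, (a t : ℝ)) + 1) +
              (∑ y ∈ Z.filter (fun y => h y ⊆ T), kt R s η (h y).card) + ζ) =
          C0 * (-α * R * m - (s : ℝ) * r / (R + u) + ε' * (R * m + r + 1) + ζ) +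
            (α - ε') * (C1 * ∑ i ∈ K, (a i : ℝ)) +
            ∑ T ∈ powersetCard R K, ∑ y ∈ Z.filter (fun y => h y ⊆ T), kt R s η (h y).card := by
        have hcst : ∀ X : ℝ, C0 * X = ∑ _T ∈ powersetCard R K, X := by
          intro X
          rw [sum_const, nsmul_eq_mul, hcard]
        rw [hcst, ← s1, mul_sum, ← sum_add_distrib, ← sum_add_distrib]
        refine sum_congr rfl fun T _ => ?_
        ring
      rw [hsum, s2]
      have hcost : ∑ y ∈ F, (if (h y).card ≤ R then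
          kt R s η (h y).card * ((R + u - (h y).card).choose (R - (h y).card) : ℝ) else 0) ≤
          (1 - c) * α * C1 * E := by
        have h0 : 0 ≤ (1 - c) * α * C1 := by
          have : 0 ≤ 1 - c := by linarith
          positivity
        have h1 : ∀ y ∈ F, (if (h y).card ≤ R then
            kt R s η (h y).card * ((R + u - (h y).card).choose (R - (h y).card) : ℝ) else 0) ≤
            (1 - c) * α * C1 * bet (R - 1 - r) u (h y).card := by
          intro y hy
          split_ifs with h2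
          · exact hkt η hη0.le hη1 _ (mem_filter.1 hy).2.1 h2
          · exact mul_nonneg h0 (bet_nonneg _ _ _)
        refine (sum_le_sum h1).trans ?_
        rw [← mul_sum]
        exact mul_le_mul_of_nonneg_left hP h0
      have e1 : C0 * ((s : ℝ) * r / (R + u)) = α * r * C1 := by
        have h1 : C0 = C1 * (R + u) / R := by
          rw [eq_div_iff hR0.ne']
          exact hC0R
        have hRu : (R : ℝ) + u ≠ 0 := by positivity
        rw [h1, hα]
        field_simp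
      have e2 : ∑ i ∈ K, (a i : ℝ) = ((R : ℝ) + u) * m + r - E := by rw [hEreal]; ring
      rw [e2]
      have e3 : C0 * (-α * R * m - (s : ℝ) * r / (R + u) + ε' * (R * m + r + 1) + ζ) +
          (α - ε') * (C1 * (((R : ℝ) + u) * m + r - E)) =
          -α * C1 * E + ε' * (C1 * E + (C0 - C1) * r + C0) + C0 * ζ := by
        linear_combination (-1 : ℝ) * e1 + (-α * m + ε' * m) * hC0R
      rw [e3]
      have h1 : C1 * E + (C0 - C1) * r + C0 ≤ C0 * (r + 2) * E := by
        have h2 : C1 * (E : ℝ) ≤ C0 * E := mul_le_mul_of_nonneg_right hC10 (by linarith)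
        have h3 : (C0 - C1) * r ≤ C0 * r * E := by
          have h4 : (C0 - C1) * r ≤ C0 * r := mul_le_mul_of_nonneg_right (by linarith) (Nat.cast_nonneg r)
          have h5 : C0 * r * 1 ≤ C0 * r * E := mul_le_mul_of_nonneg_left hE1 (by positivity)
          linarith
        have h4 : C0 * 1 ≤ C0 * E := mul_le_mul_of_nonneg_left hE1 (by linarith)
        linarith
      have h2 : ε' * (C1 * E + (C0 - C1) * r + C0) ≤ c * α * C1 / 2 * E := by
        have h3 := mul_le_mul_of_nonneg_left h1 hε'0.le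
        have h4 := mul_le_mul_of_nonneg_right hε'2 (by linarith : (0 : ℝ) ≤ E)
        refine h3.trans (le_trans (le_of_eq ?_) h4)
        ring
      have h3 : C0 * ζ ≤ c * α * C1 / 2 * E := by
        have h4 : 0 ≤ c * α * C1 / 2 := by positivity
        have h5 := mul_le_mul_of_nonneg_left hE1 h4
        linarith
      linarith

end H57LT
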