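import Pool.Agent.H57.LT.PointT
import Pool.Agent.H57.LT.ClT

/-!
The sum of the values of the light cliques (note 3585, 4d).
-/

namespace H57LT

open Finset H57LC

set_option linter.unusedSectionVars false

private lemma LSumT_ss_nonneg {V : Type*} [DecidableEq V] {G : SimpleGraph V} [DecidableRel G.Adj]
    {R : ℕ} (B : Fin R → Finset V) (f : Fin R → V) : 0 ≤ ss G B f := by
  unfold ss
  exact Finset.sum_nonneg fun i _ => Nat.cast_nonneg _

private lemma LSumT_s2_nonneg {V : Type*} [DecidableEq V] {G : SimpleGraph V} [DecidableRel G.Adj]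
    {R : ℕ} (B : Fin R → Finset V) (f : Fin R → V) : 0 ≤ s2 G B f := by
  unfold s2
  exact Finset.sum_nonneg fun i _ => Nat.cast_nonneg _

private lemma LSumT_pow (δ : ℝ) (hδ : 0 ≤ δ) (n : ℕ) (h : (n : ℝ) * δ ≤ 1 / 2) :
    (1 + δ) ^ n ≤ 1 + 2 * n * δ := by
  induction n with
  | zero => simp
  | succ n ih =>
    push_cast at h
    have h1 : (n : ℝ) * δ ≤ 1 / 2 := by linarith
    have h2 := ih h1
    have h3 : (1 + δ) ^ (n + 1) ≤ (1 + 2 * n * δ) * (1 + δ) := by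
      rw [pow_succ]
      exact mul_le_mul_of_nonneg_right h2 (by linarith)
    have h4 : (n : ℝ) * δ * δ ≤ 1 / 2 * δ := mul_le_mul_of_nonneg_right h1 hδ
    push_cast
    nlinarith

private lemma LSumT_be (R s : ℕ) (hs2 : 2 ≤ s) (hsR : s ≤ R) : be R s ≤ 1 := by
  have h1 : (2 : ℝ) ≤ s := by exact_mod_cast hs2
  have h2 : (s : ℝ) ≤ R := by exact_mod_cast hsR
  unfold be
  rw [div_le_one (mul_pos (by linarith) (by linarith))]
  exact mul_le_mul h2 (by linarith) (by linarith) (by linarith)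

private lemma LSumT_eS {V : Type*} [DecidableEq V] {G : SimpleGraph V} [DecidableRel G.Adj]
    {R s m : ℕ} {S : Finset V} {C η₁ δ : ℝ} {B : Fin R → Finset V} (h : LS G S R m C η₁ δ B)
    (hδ : 0 ≤ δ) :
    eS (univ : Finset (Fin R)) (fun i => ((B i).card : ℝ)) s ≤ N0 R s m * (1 + δ) ^ s := by
  have h1 : ∀ T ∈ powersetCard s (univ : Finset (Fin R)), ∏ t ∈ T, ((B t).card : ℝ) ≤
      ((1 + δ) * m) ^ s := by
    intro T hT
    rw [← (mem_powersetCard.1 hT).2, ← Finset.prod_const]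
    exact Finset.prod_le_prod (fun i _ => Nat.cast_nonneg _) fun i _ => h.size_hi i
  unfold eS
  refine (Finset.sum_le_sum h1).trans (le_of_eq ?_)
  rw [Finset.sum_const, card_powersetCard, card_univ, Fintype.card_fin, nsmul_eq_mul, N0, mul_pow]
  ring

private lemma LSumT_coef (R s : ℕ) (hs2 : 2 ≤ s) (hsR : s ≤ R) (η η₁ δ ε₇ : ℝ)
    (hη : 0 < η) (hηb : η ≤ be R s / 8) (hη₁ : 0 < η₁)
    (hη₁R : 1024 * R ^ 2 * η₁ ≤ η) (hδ0 : 0 < δ) (hε1 : 16 * ε₇ ≤ η)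
    (hδε : 64 * R * δ ≤ ε₇) :
    η / 4 + η / 1024 + (be R s / 2 - 3 * η / 4) * (1 + δ) + 8 * η₁ * R ≤ be R s / 2 - η / 8 := by
  have hb := LSumT_be R s hs2 hsR
  have hR2 : (2 : ℝ) ≤ R := by exact_mod_cast (hs2.trans hsR)
  have h1 : (R : ℝ) * η₁ ≤ R ^ 2 * η₁ := by
    have : (R : ℝ) * η₁ * 1 ≤ (R : ℝ) * η₁ * R :=
      mul_le_mul_of_nonneg_left (by linarith) (by positivity)
    nlinarith
  have h2 : 2 * δ ≤ (R : ℝ) * δ := mul_le_mul_of_nonneg_right hR2 hδ0.le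
  have h3 : 0 < η * δ := mul_pos hη hδ0
  have h4 : be R s * δ ≤ 1 * δ := mul_le_mul_of_nonneg_right hb hδ0.le
  nlinarith

theorem light_sumT (R s r : ℕ) (hs2 : 2 ≤ s) (hsR : s ≤ R) (C η ζ η₁ δ ε₇ : ℝ) (hC : 0 < C)
    (hη : 0 < η) (hηb : η ≤ be R s / 8) (hζ : 0 < ζ) (hζ1 : ζ ≤ (s : ℝ) / R / 4) (hη₁ : 0 < η₁)
    (hη₁R : 1024 * R ^ 2 * η₁ ≤ η) (hδ0 : 0 < δ) (hε : 0 < ε₇) (hε1 : 16 * ε₇ ≤ η)
    (hδε : 64 * R * δ ≤ ε₇) :
    ∃ m₀ : ℕ, ∀ m : ℕ, m₀ ≤ m →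
      ∀ (V : Type) [DecidableEq V] (G : SimpleGraph V) [DecidableRel G.Adj] (S : Finset V)
        (B : Fin R → Finset V) (ν : Finset V → ℝ) (ρ : ℝ), S.card ≤ R * m + r →
        LS G S R m C η₁ δ B → (∀ T, 0 ≤ ν T ∧ ν T ≤ 1) → N0 R s m ≤ ρ →
        ρ ≤ N0 R s m * (1 + 1 / (m : ℝ)) ^ s →
        ((clq G (un B) s).card : ℝ) - ρ ≤ ∑ f ∈ tcl G B, lz G S R s m η ζ ρ ν (im f) -
          (η / 4) * N0 R s m * (∑ f ∈ Fintype.piFinset B, DD G f) / (∏ l, ((B l).card : ℝ)) -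
          (1 - ε₇) * N0 R s m * (∑ f ∈ tcl G B, XT G S B s η ζ ν f) /
            (m * ∏ l, ((B l).card : ℝ)) := by
  obtain ⟨m₁, hm₁⟩ := pointT R s r hs2 hsR C η ζ η₁ δ ε₇ hC hη hηb hζ hζ1 hη₁ hη₁R hδ0 hε hε1 hδε
  refine ⟨max m₁ 1, ?_⟩
  intro m hm V _ G _ S B ν ρ hS h hν hρ1 hρ2
  have hpt := hm₁ m ((le_max_left _ _).trans hm) V G S B ν ρ hS h hν hρ1 hρ2
  have hm1 : 0 < m := lt_of_lt_of_le Nat.one_pos ((le_max_right _ _).trans hm)
  have hm0 : (0 : ℝ) < m := by exact_mod_cast hm1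
  have hR2 : (2 : ℝ) ≤ R := by exact_mod_cast (hs2.trans hsR)
  have hbe1 := LSumT_be R s hs2 hsR
  have hη1 : η ≤ 1 / 8 := by linarith
  have h2δ : 2 * δ ≤ (R : ℝ) * δ := mul_le_mul_of_nonneg_right hR2 hδ0.le
  have hδ2 : δ ≤ 1 / 2 := by linarith
  set P : ℝ := ∏ l, ((B l).card : ℝ) with hP
  have hPpos : 0 < P := by
    rw [hP]
    refine Finset.prod_pos fun l _ => ?_
    have h3 := h.size_lo l
    have h4 : (1 / 2 : ℝ) * m ≤ (1 - δ) * m := mul_le_mul_of_nonneg_right (by linarith) hm0.le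
    linarith
  set N : ℝ := N0 R s m with hN
  have hN0 : 0 ≤ N := by
    rw [hN, N0]
    positivity
  set D : ℝ := ∑ f ∈ Fintype.piFinset B, DD G f with hD
  have hD0 : 0 ≤ D := Finset.sum_nonneg fun f _ => DD_nonneg f
  set X : ℝ := ∑ f ∈ tcl G B, XT G S B s η ζ ν f with hX
  set E : ℝ := eS (univ : Finset (Fin R)) (fun i => ((B i).card : ℝ)) s with hE
  have hsub : tcl G B ⊆ Fintype.piFinset B := by
    unfold tcl
    exact filter_subset _ _
  have hss : ∑ f ∈ tcl G B, ss G B f ≤ (1 + δ) * m * D :=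
    (Finset.sum_le_sum_of_subset_of_nonneg hsub fun f _ _ => LSumT_ss_nonneg B f).trans
      (sum_ss_le h)
  have hs2' : ∑ f ∈ tcl G B, s2 G B f ≤ 4 * η₁ * R * m * D :=
    (Finset.sum_le_sum_of_subset_of_nonneg hsub fun f _ _ => LSumT_s2_nonneg B f).trans
      (sum_s2_le h hη₁.le hδ2 hδ0.le hm1)
  have hcardlo : P - (1 / 2) * D ≤ ((tcl G B).card : ℝ) := card_tcl_ge B
  have hcardhi : ((tcl G B).card : ℝ) ≤ P := by
    have h1 : (tcl G B).card ≤ (Fintype.piFinset B).card := Finset.card_le_card hsub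
    rw [Fintype.card_piFinset] at h1
    rw [hP]
    exact_mod_cast h1
  have hclq : ((clq G (un B) s).card : ℝ) ≤ E - N * (be R s / 2 - η / 8) * D / P :=
    card_clq_un_le h hs2 hsR hm1 hη hηb hη₁.le hη₁R hδ0.le (by linarith)
  -- `E - ρ` is small
  have hEρ : E - ρ ≤ N * (η / 512) := by
    have h1 : E ≤ N * (1 + δ) ^ s := LSumT_eS h hδ0.le
    have hsR' : (s : ℝ) * δ ≤ R * δ := mul_le_mul_of_nonneg_right (by exact_mod_cast hsR) hδ0.le
    have h2 : (1 + δ) ^ s ≤ 1 + η / 512 := by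
      refine (LSumT_pow δ hδ0.le s (by linarith)).trans ?_
      nlinarith
    have h3 := mul_le_mul_of_nonneg_left h2 hN0
    linarith
  have hdiff : (P - ((tcl G B).card : ℝ)) * (E - ρ) ≤ (1 / 2 * D) * (N * (η / 512)) := by
    have h1 : 0 ≤ P - ((tcl G B).card : ℝ) := by linarith
    have h2 : P - ((tcl G B).card : ℝ) ≤ 1 / 2 * D := by linarith
    have h3 : 0 ≤ N * (η / 512) := by positivity
    exact (mul_le_mul_of_nonneg_left hEρ h1).trans (mul_le_mul_of_nonneg_right h2 h3)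
  -- the sum of the pointwise bounds
  have hsum : ((tcl G B).card : ℝ) * (E - ρ) -
      N / m * ((be R s / 2 - 3 * η / 4) * (∑ f ∈ tcl G B, ss G B f) +
        2 * ∑ f ∈ tcl G B, s2 G B f) + (1 - ε₇) * (N / m) * X ≤
      P * ∑ f ∈ tcl G B, lz G S R s m η ζ ρ ν (im f) := by
    have h1 := Finset.sum_le_sum fun f hf => hpt f hf
    rw [← Finset.mul_sum] at h1
    refine (le_of_eq ?_).trans h1
    rw [Finset.sum_add_distrib, Finset.sum_sub_distrib, Finset.sum_const, nsmul_eq_mul,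
      ← Finset.mul_sum, ← Finset.mul_sum, Finset.sum_add_distrib, ← Finset.mul_sum,
      ← Finset.mul_sum]
  have hb0 : 0 ≤ be R s / 2 - 3 * η / 4 := by linarith
  have hcost : N / m * ((be R s / 2 - 3 * η / 4) * (∑ f ∈ tcl G B, ss G B f) +
        2 * ∑ f ∈ tcl G B, s2 G B f) ≤
      N * D * ((be R s / 2 - 3 * η / 4) * (1 + δ) + 8 * η₁ * R) := by
    have h1 := mul_le_mul_of_nonneg_left hss hb0
    have h2 : (be R s / 2 - 3 * η / 4) * (∑ f ∈ tcl G B, ss G B f) +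
        2 * ∑ f ∈ tcl G B, s2 G B f ≤
        m * (D * ((be R s / 2 - 3 * η / 4) * (1 + δ) + 8 * η₁ * R)) := by
      calc _ ≤ (be R s / 2 - 3 * η / 4) * ((1 + δ) * m * D) + 2 * (4 * η₁ * R * m * D) := by
            linarith
        _ = _ := by ring
    have h3 : 0 ≤ N / m := by positivity
    refine (mul_le_mul_of_nonneg_left h2 h3).trans (le_of_eq ?_)
    field_simp
  have hcoef := mul_le_mul_of_nonneg_left
    (LSumT_coef R s hs2 hsR η η₁ δ ε₇ hη hηb hη₁ hη₁R hδ0 hε1 hδε) (mul_nonneg hN0 hD0)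
  have htot : P * (((clq G (un B) s).card : ℝ) - ρ) ≤
      P * (∑ f ∈ tcl G B, lz G S R s m η ζ ρ ν (im f)) - (η / 4) * N * D -
        (1 - ε₇) * (N / m) * X := by
    have h1 : P * (((clq G (un B) s).card : ℝ) - ρ) ≤ P * (E - ρ) - N * (be R s / 2 - η / 8) * D := by
      have h2 := mul_le_mul_of_nonneg_left hclq hPpos.le
      have h3 : P * (E - N * (be R s / 2 - η / 8) * D / P) =
          P * E - N * (be R s / 2 - η / 8) * D := by
        field_simp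
      rw [h3] at h2
      linarith
    have h4 : N * D * (η / 4 + η / 1024 + (be R s / 2 - 3 * η / 4) * (1 + δ) + 8 * η₁ * R) =
        (η / 4) * N * D + (1 / 2 * D) * (N * (η / 512)) +
          N * D * ((be R s / 2 - 3 * η / 4) * (1 + δ) + 8 * η₁ * R) := by ring
    rw [h4] at hcoef
    have h5 : N * D * (be R s / 2 - η / 8) = N * (be R s / 2 - η / 8) * D := by ring
    rw [h5] at hcoef
    have h6 : (P - ((tcl G B).card : ℝ)) * (E - ρ) =
        P * (E - ρ) - ((tcl G B).card : ℝ) * (E - ρ) := by ring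
    rw [h6] at hdiff
    linarith
  have hfin : ∑ f ∈ tcl G B, lz G S R s m η ζ ρ ν (im f) - (η / 4) * N * D / P -
      (1 - ε₇) * N * X / (m * P) =
      (P * (∑ f ∈ tcl G B, lz G S R s m η ζ ρ ν (im f)) - (η / 4) * N * D -
        (1 - ε₇) * (N / m) * X) / P := by
    field_simp
  rw [hfin, le_div_iff₀ hPpos]
  calc _ = P * (((clq G (un B) s).card : ℝ) - ρ) := by ring
    _ ≤ _ := htot

end H57LT
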