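import Pool.Agent.H57.LC.AStr
import Pool.Agent.H57.LC.LStr
import Pool.Agent.H57.LT.MM
import Pool.Agent.H57.LT.LSumT
import Pool.Agent.H57.LT.HeavyT

/-!
The local theorem for `K_s` (note 3585, 4), assembly.
-/

namespace H57LT

open Finset H57LC

set_option linter.unusedSectionVars false

/-- every `R`-clique inside `un B` is the image of a clique transversal -/
private theorem localT_exists_tuple {V : Type*} [DecidableEq V] {G : SimpleGraph V}
    [DecidableRel G.Adj] {R : ℕ} {S : Finset V} {B : Fin R → Finset V} (hsub : ∀ i, B i ⊆ S)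
    (hdisj : ∀ i j, i ≠ j → Disjoint (B i) (B j))
    (hind : ∀ i, ∀ a ∈ B i, ∀ b ∈ B i, ¬ G.Adj a b) {T : Finset V} (hT : T ∈ clq G S R)
    (hTB : T ⊆ un B) : ∃ f ∈ tcl G B, im f = T := by
  by_contra hcon
  push Not at hcon
  have h1 := sum_light (G := G) (S := S) hsub hdisj hind (fun T' => if T' = T then (1 : ℝ) else 0)
  have h2 : ∑ f ∈ tcl G B, (if im f = T then (1 : ℝ) else 0) = 0 :=
    sum_eq_zero fun f hf => if_neg (hcon f hf)
  rw [h2, sum_ite_eq' _ T (fun _ => (1 : ℝ)), if_pos (mem_filter.2 ⟨hT, hTB⟩)] at h1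
  exact one_ne_zero h1

/-- `R`-cliques: at most `2 m^R` -/
private theorem localT_card {V : Type*} [DecidableEq V] {G : SimpleGraph V} [DecidableRel G.Adj]
    {R m r : ℕ} (hR : 2 ≤ R) (hm : 2 * r ≤ m) (hm0 : 0 < m) {S : Finset V}
    (hS : S.card ≤ R * m + r) (hfree : clq G S (R + 1) = ∅) :
    ((clq G S R).card : ℝ) ≤ 2 * (m : ℝ) ^ R := by
  have hR0 : (0 : ℝ) < R := by
    have : 0 < R := by omega
    exact_mod_cast this
  have hmR : (0 : ℝ) < m := by exact_mod_cast hm0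
  have h1 := (star_zyk (G := G) R (by omega)).1 S hfree
  have h2 : (S.card : ℝ) ≤ R * m + r := by exact_mod_cast hS
  have h3 : (S.card : ℝ) ^ R ≤ (R * m + r : ℝ) ^ R := pow_le_pow_left₀ (Nat.cast_nonneg _) h2 R
  have h4 : (R * m + r : ℝ) = R * m * (1 + r / (R * m)) := by field_simp
  have h5 : (1 + (r : ℝ) / (R * m)) ^ R ≤ 2 := by
    have h6 : 1 + (r : ℝ) / (R * m) ≤ Real.exp ((r : ℝ) / (R * m)) := by
      have := Real.add_one_le_exp ((r : ℝ) / (R * m))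
      linarith
    have h7 : (1 + (r : ℝ) / (R * m)) ^ R ≤ Real.exp ((r : ℝ) / (R * m)) ^ R :=
      pow_le_pow_left₀ (by positivity) h6 R
    rw [← Real.exp_nat_mul] at h7
    have h8 : (R : ℝ) * ((r : ℝ) / (R * m)) ≤ 1 / 2 := by
      have h9 : (R : ℝ) * ((r : ℝ) / (R * m)) = r / m := by field_simp
      rw [h9, div_le_div_iff₀ hmR (by norm_num)]
      have : (2 : ℝ) * r ≤ m := by exact_mod_cast hm
      linarith
    have h10 : Real.exp (1 / 2 : ℝ) ≤ 2 := by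
      have h11 : Real.exp (1 / 2 : ℝ) ^ 2 = Real.exp 1 := by
        rw [← Real.exp_nat_mul]; norm_num
      have h12 := Real.exp_one_lt_d9
      by_contra hcon
      push Not at hcon
      nlinarith [Real.exp_pos (1 / 2 : ℝ)]
    exact h7.trans ((Real.exp_le_exp.2 h8).trans h10)
  rw [h4, mul_pow, mul_pow] at h3
  have hRR : 0 < (R : ℝ) ^ R := by positivity
  have hmm : 0 < (m : ℝ) ^ R := by positivity
  have h13 : (R : ℝ) ^ R * ((clq G S R).card : ℝ) ≤ (R : ℝ) ^ R * (2 * (m : ℝ) ^ R) := by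
    calc (R : ℝ) ^ R * ((clq G S R).card : ℝ) ≤ (S.card : ℝ) ^ R := h1
      _ ≤ (R : ℝ) ^ R * (m : ℝ) ^ R * (1 + r / (R * m)) ^ R := h3
      _ ≤ (R : ℝ) ^ R * (m : ℝ) ^ R * 2 := mul_le_mul_of_nonneg_left h5 (by positivity)
      _ = (R : ℝ) ^ R * (2 * (m : ℝ) ^ R) := by ring
  exact le_of_mul_le_mul_left h13 hRR

theorem local_thmT (R s r : ℕ) (hs2 : 2 ≤ s) (hsR : s ≤ R) (hrs : r + 1 ≤ s) (C₁ η ζ ε : ℝ)
    (hC₁ : 0 < C₁) (hη : 0 < η) (hηb : η ≤ be R s / 8) (hζ : 0 < ζ) (hζ1 : ζ ≤ (s : ℝ) / R / 4)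
    (hε : 0 < ε) (hε1 : ε < 1) :
    ∃ m₀ : ℕ, ∀ m : ℕ, m₀ ≤ m →
      ∀ (V : Type) [DecidableEq V] (G : SimpleGraph V) [DecidableRel G.Adj] (S : Finset V)
        (ν : Finset V → ℝ) (ρ : ℝ), S.card ≤ R * m + r → clq G S (R + 1) = ∅ →
        RuleA G S R (R - 1 - r) ν → N0 R s m ≤ ρ → ρ ≤ N0 R s m * (1 + 1 / (m : ℝ)) ^ s →
        ∃ z : Finset V → ℝ, ((clq G S s).card : ℝ) - ρ ≤ ∑ T ∈ clq G S R, z T ∧
          ∀ T ∈ clq G S R, z T ≤ -(C₁ / m) * (N0 R s m / (m : ℝ) ^ R) ∨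
            ((∀ t ∈ T, (1 - ε) * m ≤ (aa G S T t : ℝ)) ∧ z T ≤ lz G S R s m η ζ ρ ν T) := by
  have hR : 2 ≤ R := hs2.trans hsR
  have hRr : (2 : ℝ) ≤ (R : ℝ) := by exact_mod_cast hR
  have hsr : (2 : ℝ) ≤ (s : ℝ) := by exact_mod_cast hs2
  have hsRr : (s : ℝ) ≤ (R : ℝ) := by exact_mod_cast hsR
  have hR0 : (0 : ℝ) < (R : ℝ) := by linarith
  have hR2 : (4 : ℝ) ≤ (R : ℝ) ^ 2 := by nlinarith
  have hbe0 : 0 < be R s := by
    unfold be
    have h1 : (0 : ℝ) < (s : ℝ) - 1 := by linarith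
    have h2 : (0 : ℝ) < (R : ℝ) - 1 := by linarith
    positivity
  have hbe1 : be R s ≤ 1 := by
    unfold be
    have h2 : (0 : ℝ) < (R : ℝ) - 1 := by linarith
    rw [div_le_one (by positivity)]
    nlinarith
  have hη1 : η ≤ 1 / 8 := by linarith
  -- the parameters
  obtain ⟨η₁, hη₁, ha, hb⟩ : ∃ η₁ : ℝ, 0 < η₁ ∧ 1024 * (R : ℝ) ^ 2 * η₁ ≤ η ∧
      8 * (R : ℝ) * η₁ ≤ ε := by
    refine ⟨min (η / (1024 * (R : ℝ) ^ 2)) (ε / (8 * R)), lt_min (by positivity) (by positivity),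
      ?_, ?_⟩
    · have h1 := min_le_left (η / (1024 * (R : ℝ) ^ 2)) (ε / (8 * R))
      calc 1024 * (R : ℝ) ^ 2 * min (η / (1024 * (R : ℝ) ^ 2)) (ε / (8 * R))
          ≤ 1024 * (R : ℝ) ^ 2 * (η / (1024 * (R : ℝ) ^ 2)) :=
            mul_le_mul_of_nonneg_left h1 (by positivity)
        _ = η := by field_simp
    · have h1 := min_le_right (η / (1024 * (R : ℝ) ^ 2)) (ε / (8 * R))
      calc 8 * (R : ℝ) * min (η / (1024 * (R : ℝ) ^ 2)) (ε / (8 * R))
          ≤ 8 * (R : ℝ) * (ε / (8 * R)) := mul_le_mul_of_nonneg_left h1 (by positivity)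
        _ = ε := by field_simp
  have hη16 : η₁ ≤ 1 / 16 := by nlinarith
  have hηη : η₁ ≤ η := by nlinarith
  obtain ⟨ε₇, hε₇e⟩ : ∃ ε₇ : ℝ, ε₇ = be R s * η₁ / 400 := ⟨_, rfl⟩
  have hε₇ : 0 < ε₇ := by rw [hε₇e]; positivity
  have hbη : be R s * η₁ ≤ η₁ := by nlinarith
  have hε₇η : 16 * ε₇ ≤ η := by rw [hε₇e]; linarith
  obtain ⟨δ, hδ0, hδe⟩ : ∃ δ : ℝ, 0 < δ ∧ 64000 * (R : ℝ) ^ 2 * δ = be R s * η₁ := by
    refine ⟨be R s * η₁ / (64000 * R ^ 2), by positivity, ?_⟩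
    field_simp
  have hδR : 64 * (R : ℝ) * δ ≤ ε₇ := by
    rw [hε₇e]
    have h1 : 64 * (R : ℝ) * δ * (1000 * R) = be R s * η₁ := by rw [← hδe]; ring
    have h2 : 64 * (R : ℝ) * δ * 400 ≤ 64 * (R : ℝ) * δ * (1000 * R) :=
      mul_le_mul_of_nonneg_left (by linarith) (by positivity)
    linarith
  have hδη : δ ≤ η₁ := by nlinarith
  have hδε2 : 1 - ε ≤ 1 - δ - 2 * R * η₁ := by nlinarith
  -- the structure theorems
  have hC₁2 : 0 < 2 * C₁ := by linarith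
  obtain ⟨C'', hC'', mS, hmS⟩ := clq_stab R s r hs2 hsR (2 * C₁) hC₁2
  obtain ⟨C, hC, hAS⟩ := exists_AS R r hR C'' hC''
  obtain ⟨C', hC', hLS⟩ := exists_LS_of_AS R hR C η₁ hC hη₁ hη16
  obtain ⟨δ', hδ', mL, hmL⟩ := hLS δ hδ0
  obtain ⟨mA, hmA⟩ := hAS δ' hδ'
  obtain ⟨m1, hm1⟩ := light_sumT R s r hs2 hsR C' η ζ η₁ δ ε₇ hC' hη hηb hζ hζ1 hη₁ ha hδ0 hε₇
    hε₇η hδR
  obtain ⟨m2, hm2⟩ := heavy_sumT R s r hs2 hsR hrs C' η ζ η₁ δ hC' hη hηb hζ hζ1 hη₁ ha hδ0 hδe.le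
  obtain ⟨m4, hm4⟩ := exists_nat_ge (C₁ / ε₇)
  refine ⟨max mS (max mA (max mL (max m1 (max m2 (max m4 (max (2 * r) 1)))))),
    fun m hm V _ G _ S ν ρ hS hfree hν hρ1 hρ2 => ?_⟩
  simp only [max_le_iff] at hm
  obtain ⟨hmS', hmA', hmL', hm1', hm2', hm4', hmr, hm5⟩ := hm
  have hm0 : (0 : ℝ) < (m : ℝ) := by
    have : 0 < m := hm5
    exact_mod_cast this
  have hmR : 0 < (m : ℝ) ^ R := by positivity
  have hN0 : 0 ≤ N0 R s m := by unfold N0; positivity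
  rcases le_or_gt ((clq G S s).card : ℝ) (N0 R s m * (1 - 2 * C₁ / m)) with hk | hk
  · -- few cliques
    have hkR := localT_card (G := G) hR hmr hm5 hS hfree
    refine ⟨fun _ => -(2 * C₁ / m) * N0 R s m / ((clq G S R).card : ℝ), ?_, fun T hT => ?_⟩
    · rw [sum_const, nsmul_eq_mul]
      have h1 : ((clq G S s).card : ℝ) - ρ ≤ -(2 * C₁ / m) * N0 R s m := by
        calc ((clq G S s).card : ℝ) - ρ ≤ N0 R s m * (1 - 2 * C₁ / m) - N0 R s m := by linarith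
          _ = -(2 * C₁ / m) * N0 R s m := by ring
      have h0 : 0 ≤ (2 * C₁ / m) * N0 R s m := by positivity
      rcases Nat.eq_zero_or_pos (clq G S R).card with h2 | h2
      · rw [h2]
        simp only [Nat.cast_zero, zero_mul]
        linarith
      · have h3 : ((clq G S R).card : ℝ) ≠ 0 := by
          have : (0 : ℝ) < ((clq G S R).card : ℝ) := by exact_mod_cast h2
          exact this.ne'
        rw [mul_div_cancel₀ _ h3]
        exact h1
    · left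
      have hpos : (0 : ℝ) < ((clq G S R).card : ℝ) := by
        have : 0 < (clq G S R).card := card_pos.2 ⟨T, hT⟩
        exact_mod_cast this
      have h1 : C₁ / m * (N0 R s m / (m : ℝ) ^ R) ≤
          2 * C₁ / m * N0 R s m / ((clq G S R).card : ℝ) := by
        rw [le_div_iff₀ hpos]
        have h2 : C₁ / m * (N0 R s m / (m : ℝ) ^ R) * ((clq G S R).card : ℝ) ≤
            C₁ / m * (N0 R s m / (m : ℝ) ^ R) * (2 * (m : ℝ) ^ R) :=
          mul_le_mul_of_nonneg_left hkR (by positivity)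
        have h3 : C₁ / m * (N0 R s m / (m : ℝ) ^ R) * (2 * (m : ℝ) ^ R)
            = 2 * C₁ / m * N0 R s m := by
          field_simp
        linarith
      have h4 : -(2 * C₁ / m) * N0 R s m / ((clq G S R).card : ℝ)
          = -(2 * C₁ / m * N0 R s m / ((clq G S R).card : ℝ)) := by ring
      have h5 : -(C₁ / m) * (N0 R s m / (m : ℝ) ^ R)
          = -(C₁ / m * (N0 R s m / (m : ℝ) ^ R)) := by ring
      rw [h4, h5]
      linarith
  -- many cliques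
  have hkR := hmS m hmS' V G S hS hfree hk
  obtain ⟨A, hA⟩ := hmA m hmA' V G S hS hfree hkR
  obtain ⟨B, hB⟩ := hmL m hmL' V G S A hfree hA
  refine ⟨fun T => if T ∈ clq G S R ∧ T ⊆ un B then lz G S R s m η ζ ρ ν T else
    -(ε₇ * (N0 R s m / (m : ℝ) ^ R)), ?_, fun T hT => ?_⟩
  · rw [← sum_filter_add_sum_filter_not (clq G S R) (fun T => T ⊆ un B)]
    have e1 : ∑ T ∈ (clq G S R).filter (fun T => T ⊆ un B),
        (if T ∈ clq G S R ∧ T ⊆ un B then lz G S R s m η ζ ρ ν T else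
          -(ε₇ * (N0 R s m / (m : ℝ) ^ R))) = ∑ f ∈ tcl G B, lz G S R s m η ζ ρ ν (im f) := by
      rw [← sum_light (G := G) (S := S) hB.sub hB.disj hB.ind
        (fun T => lz G S R s m η ζ ρ ν T)]
      refine sum_congr rfl fun T hT => ?_
      rw [if_pos (mem_filter.1 hT)]
    have e2 : ∑ T ∈ (clq G S R).filter (fun T => ¬ T ⊆ un B),
        (if T ∈ clq G S R ∧ T ⊆ un B then lz G S R s m η ζ ρ ν T else
          -(ε₇ * (N0 R s m / (m : ℝ) ^ R))) = -(ε₇ * (N0 R s m / (m : ℝ) ^ R) *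
            (((clq G S R).filter fun T => ¬ T ⊆ un B).card : ℝ)) := by
      rw [sum_congr rfl (g := fun _ => -(ε₇ * (N0 R s m / (m : ℝ) ^ R))), sum_const,
        nsmul_eq_mul]
      · ring
      intro T hT
      rw [if_neg fun h => (mem_filter.1 hT).2 h.2]
    have e3 := hm1 m hm1' V G S B ν ρ hS hB hν.1 hρ1 hρ2
    have e4 := hm2 m hm2' V G S B ν hS hfree hB hν
    rw [← hε₇e] at e4
    have e5 : ((clq G S s).card : ℝ) = ((clq G (un B) s).card : ℝ) +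
        (((clq G S s).filter fun T => ¬ T ⊆ un B).card : ℝ) := by
      have hunS : un B ⊆ S := fun z hz => by
        obtain ⟨i, hi⟩ := mem_un.1 hz
        exact hB.sub i hi
      have h1 : clq G (un B) s = (clq G S s).filter fun T => T ⊆ un B := by
        ext T
        rw [mem_filter, mem_clq, mem_clq]
        constructor
        · rintro ⟨⟨h2, h3⟩, h4⟩
          exact ⟨⟨⟨h2.trans hunS, h3⟩, h4⟩, h2⟩
        · rintro ⟨⟨⟨_, h3⟩, h4⟩, h2⟩
          exact ⟨⟨h2, h3⟩, h4⟩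
      have h2 := card_filter_add_card_filter_not (s := clq G S s) (fun T => T ⊆ un B)
      rw [h1]
      exact_mod_cast h2.symm
    rw [e1, e2, e5]
    linarith
  · dsimp only
    by_cases h : T ⊆ un B
    · right
      obtain ⟨f, hf, rfl⟩ := localT_exists_tuple hB.sub hB.disj hB.ind hT h
      rw [if_pos ⟨hT, h⟩]
      refine ⟨fun t ht => ?_, le_refl _⟩
      refine le_trans ?_ (aa_lower hB hη₁.le hf ht)
      exact mul_le_mul_of_nonneg_right hδε2 hm0.le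
    · left
      rw [if_neg fun h' => h h'.2]
      have h4 : C₁ / ε₇ ≤ (m : ℝ) := hm4.trans (by exact_mod_cast hm4')
      rw [div_le_iff₀ hε₇] at h4
      have h5 : C₁ / (m : ℝ) ≤ ε₇ := by
        rw [div_le_iff₀ hm0]
        linarith
      have h6 : C₁ / m * (N0 R s m / (m : ℝ) ^ R) ≤ ε₇ * (N0 R s m / (m : ℝ) ^ R) :=
        mul_le_mul_of_nonneg_right h5 (by positivity)
      linarith

end H57LT
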