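import Pool.Agent.H57.LT.LocalT
import Pool.Agent.H57.LT.KIneqT
import Pool.Agent.H57.LT.KGraphT
import Pool.Agent.H57.LC.Count

/-!
The upper bound for `K_t`, `t = s + u` (note 3585, 0), assembly.
-/

namespace H57LT

open Finset H57LC

set_option linter.unusedSectionVars false

/-- the complement of an `R`-subset in a clique with `R + u` elements is a `u`-clique -/
private theorem upperT_sdiff {V : Type*} [Fintype V] [DecidableEq V] {G : SimpleGraph V}
    [DecidableRel G.Adj] {R u : ℕ} {K T : Finset V} (hK : K ∈ clq G univ (R + u)) (hT : T ⊆ K)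
    (hc : T.card = R) : K \ T ∈ clq G univ u := by
  have hK' := mem_clq.1 hK
  rw [mem_clq]
  refine ⟨⟨subset_univ _, ?_⟩, hK'.2.subset sdiff_subset⟩
  have := card_sdiff_add_card_eq_card hT
  have h2 := hK'.1.2
  omega

/-- an `R`-subset of a clique is a clique in the common neighbourhood of the rest -/
private theorem upperT_mem {V : Type*} [Fintype V] [DecidableEq V] {G : SimpleGraph V}
    [DecidableRel G.Adj] {R u : ℕ} {K T : Finset V} (hK : K ∈ clq G univ (R + u)) (hT : T ⊆ K)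
    (hc : T.card = R) : T ∈ clq G (cn G (K \ T)) R := by
  have hK' := mem_clq.1 hK
  rw [mem_clq]
  refine ⟨⟨fun t ht => ?_, hc⟩, hK'.2.subset hT⟩
  rw [mem_cn]
  intro a ha
  have ha' := mem_sdiff.1 ha
  exact hK'.2 a ha'.1 t (hT ht) (fun e => ha'.2 (e ▸ ht))

/-- the number of `s`-cliques in the common neighbourhoods of the `u`-cliques -/
private theorem upperT_count {V : Type*} [Fintype V] [DecidableEq V] {G : SimpleGraph V}
    [DecidableRel G.Adj] (u s : ℕ) :
    ∑ U ∈ clq G univ u, ((clq G (cn G U) s).card : ℝ) =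
      ((s + u).choose u : ℝ) * ((clq G univ (s + u)).card : ℝ) := by
  have h := double_count (G := G) u s (fun _ _ => (1 : ℝ))
  have h1 : ∀ U ∈ clq G univ u, ((clq G (cn G U) s).card : ℝ) =
      ∑ T ∈ clq G (cn G U) s, (1 : ℝ) := fun U _ => by
    rw [sum_const, nsmul_eq_mul, mul_one]
  rw [sum_congr rfl h1, h]
  have h2 : ∀ K ∈ clq G univ (s + u), ∑ T ∈ powersetCard s K, (1 : ℝ) =
      ((s + u).choose u : ℝ) := fun K hK => by
    rw [sum_const, nsmul_eq_mul, mul_one, card_powersetCard, (mem_clq.1 hK).1.2,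
      Nat.choose_symm_add]
  rw [sum_congr rfl h2, sum_const, nsmul_eq_mul, mul_comm]

theorem upperT (u R s r : ℕ) (hu : 1 ≤ u) (hs2 : 2 ≤ s) (hsR : s ≤ R) (hr : 1 ≤ r)
    (hrs : r + 1 ≤ s) (hcond : (s + 2 * u - 1) * r < (s - 1) * (R + u - 1)) :
    ∃ m₀ : ℕ, ∀ m : ℕ, m₀ ≤ m →
      ∀ (V : Type) [Fintype V] [DecidableEq V] (G : SimpleGraph V) [DecidableRel G.Adj],
        (∀ U ∈ clq G univ u, (cn G U).card ≤ R * m + r) → clq G univ (R + u + 1) = ∅ →
        ((s + u).choose u : ℝ) * ((clq G univ (s + u)).card : ℝ) ≤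
          rhoN u R s r m * ((clq G univ u).card : ℝ) := by
  obtain ⟨C₁, η, ζ, ε, hC₁, hη, hηb, hζ, hζ1, hε, hε1, m₁, hK⟩ :=
    K_ineqT u R s r hu hs2 hsR hr hrs hcond
  obtain ⟨m₂, hL⟩ := local_thmT R s r hs2 hsR hrs C₁ η ζ ε hC₁ hη hηb hζ hζ1 hε hε1
  refine ⟨max 1 (max m₁ m₂), fun m hm V _ _ G _ hdeg hfree => ?_⟩
  have hm0 : 1 ≤ m := (le_max_left _ _).trans hm
  have hm1 : m₁ ≤ m := ((le_max_left _ _).trans (le_max_right _ _)).trans hm
  have hm2 : m₂ ≤ m := ((le_max_right _ _).trans (le_max_right _ _)).trans hm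
  have key : ∀ U ∈ clq G univ u, ∃ z : Finset V → ℝ,
      ((clq G (cn G U) s).card : ℝ) - rhoN u R s r m ≤ ∑ T ∈ clq G (cn G U) R, z T ∧
      ∀ T ∈ clq G (cn G U) R, z T ≤ -(C₁ / m) * (N0 R s m / (m : ℝ) ^ R) ∨
        ((∀ t ∈ T, (1 - ε) * m ≤ (aa G (cn G U) T t : ℝ)) ∧
          z T ≤ lz G (cn G U) R s m η ζ (rhoN u R s r m)
            (fun T => nuK G (R + u) m r (U ∪ T)) T) := fun U hU =>
    hL m hm2 V G (cn G U) (fun T => nuK G (R + u) m r (U ∪ T)) (rhoN u R s r m) (hdeg U hU)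
      (cn_free hfree hU) (ruleA_nuK hu (by omega) hdeg hU)
      (N0_le_rhoN hm0 hsR (by omega)) (rhoN_le hm0 hsR (by omega))
  choose! z hz1 hz2 using key
  have hneg : ∑ K ∈ clq G univ (R + u), ∑ T ∈ powersetCard R K, z (K \ T) T ≤ 0 := by
    refine sum_nonpos fun K hKm => ?_
    have hK' := mem_clq.1 hKm
    refine hK m hm1 V V K (aK G K) univ (fun y => hs G K y) (fun T => z (K \ T) T)
      (nuK G (R + u) m r K) hK'.1.2 (fun t ht => one_le_aK hK'.2 ht) ?_ rfl ?_
    · intro T hT hc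
      exact (sum_aK_hge hT).trans (hdeg (K \ T) (upperT_sdiff hKm hT hc))
    · intro T hT hc
      rcases hz2 (K \ T) (upperT_sdiff hKm hT hc) T (upperT_mem hKm hT hc) with h | ⟨h1, h3⟩
      · exact Or.inl h
      · right
        refine ⟨fun t ht => ?_, h3.trans (le_of_eq ?_)⟩
        · have := h1 t ht
          rwa [aa_cn hT ht] at this
        · unfold lz
          have e1 : K \ T ∪ T = K := sdiff_union_of_subset hT
          have e2 : ∏ t ∈ T, ((aa G (cn G (K \ T)) T t : ℝ))⁻¹ =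
              ∏ t ∈ T, ((aK G K t : ℝ))⁻¹ :=
            prod_congr rfl fun t ht => by rw [aa_cn hT ht]
          have e3 : eS T (fun t => (aa G (cn G (K \ T)) T t : ℝ)) s =
              eS T (fun t => (aK G K t : ℝ)) s :=
            eS_congr (fun t ht => by rw [aa_cn hT ht]) s
          have e4 := sum_cn_hs (G := G) hT (kt R s η)
          beta_reduce
          rw [e1, e2, e3, e4]
  have hsum : ∑ U ∈ clq G univ u, (((clq G (cn G U) s).card : ℝ) - rhoN u R s r m) ≤ 0 :=
    calc ∑ U ∈ clq G univ u, (((clq G (cn G U) s).card : ℝ) - rhoN u R s r m)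
        ≤ ∑ U ∈ clq G univ u, ∑ T ∈ clq G (cn G U) R, z U T := sum_le_sum hz1
      _ = ∑ K ∈ clq G univ (R + u), ∑ T ∈ powersetCard R K, z (K \ T) T := double_count u R z
      _ ≤ 0 := hneg
  rw [sum_sub_distrib, upperT_count, sum_const, nsmul_eq_mul] at hsum
  linarith

end H57LT
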